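import Pool.Agent.N752.HY.Stm
import Pool.Agent.TH905.VF.Core

set_option autoImplicit false

/-!
HY/EXT (helper327): the truncated counting functions relative to hypersurfaces over `K` and over an
extension `L` of `K`.
-/

namespace Pool.Agent.N752.HY.Ext

open NumberField IsDedekindDomain MvPolynomial Module Height
open Pool.Agent.H691R3 (fv fv_na fv_support_finite log_fv Nv log_Nv_pos)
open Pool.Agent.TH905.VF (fv_lt_ext fv_lt_iff rel product_formula exists_supp)
open scoped Classical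

section one

variable {L : Type} [Field L] [NumberField L]

lemma fv_sum_le {ι : Type*} (w : HeightOneSpectrum (𝓞 L)) (s : Finset ι) (f : ι → L) (B : ℝ)
    (hB : 0 ≤ B) (h : ∀ i ∈ s, fv w (f i) ≤ B) : fv w (∑ i ∈ s, f i) ≤ B := by
  induction s using Finset.induction_on with
  | empty => simpa using hB
  | insert a s ha ih =>
    rw [Finset.sum_insert ha]
    exact (fv_na w _ _).trans (max_le (h a (Finset.mem_insert_self _ _))
      (ih fun i hi => h i (Finset.mem_insert_of_mem hi)))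

lemma fv_int_le (w : HeightOneSpectrum (𝓞 L)) (c : 𝓞 L) : fv w (c : L) ≤ 1 := by
  by_contra h
  push Not at h
  rw [← map_one (fv w), fv_lt_iff, map_one] at h
  exact absurd (w.valuation_le_one c) (not_le.2 h)

lemma sup_finite {ι : Type*} [Finite ι] {z : ι → L} (hz : z ≠ 0) :
    {v : HeightOneSpectrum (𝓞 L) | (⨆ j, fv v (z j)) ≠ 1}.Finite := by
  obtain ⟨j0, hj0⟩ := Function.ne_iff.1 hz
  have hne : Nonempty ι := ⟨j0⟩
  have h1 : (⋃ j ∈ {j : ι | z j ≠ 0}, {v : HeightOneSpectrum (𝓞 L) | fv v (z j) ≠ 1}).Finite :=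
    Set.Finite.biUnion (Set.toFinite _) fun j hj => fv_support_finite hj
  refine h1.subset ?_
  intro v hv
  by_contra hc
  apply hv
  simp only [Set.mem_iUnion, Set.mem_ofPred_eq, not_exists, not_not] at hc
  obtain ⟨j, hj⟩ := exists_eq_ciSup_of_finite (f := fun j => fv v (z j))
  have hpos : 0 < fv v (z j0) := (fv v).pos hj0
  have hle : fv v (z j0) ≤ ⨆ j, fv v (z j) :=
    le_ciSup (f := fun j => fv v (z j)) (Set.finite_range _).bddAbove j0
  rw [← hj] at hle ⊢
  refine hc j ?_
  intro h0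
  rw [h0, map_zero] at hle
  linarith

lemma sup_pos' {ι : Type*} [Finite ι] (f : AbsoluteValue L ℝ) {z : ι → L} (hz : z ≠ 0) :
    0 < ⨆ j, f (z j) := by
  obtain ⟨j0, hj0⟩ := Function.ne_iff.1 hz
  exact (f.pos hj0).trans_le (le_ciSup (f := fun j => f (z j)) (Set.finite_range _).bddAbove j0)

/-- the height in terms of a finite set of primes -/
lemma logHeight_sum {ι : Type*} [Finite ι] (y : ι → L) (hy : y ≠ 0)
    (T : Finset (HeightOneSpectrum (𝓞 L))) (hT : ∀ v, v ∉ T → (⨆ j, fv v (y j)) = 1) :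
    logHeight y = ∑ w : InfinitePlace L, (w.mult : ℝ) * Real.log (⨆ j, w.1 (y j)) +
      ∑ v ∈ T, Real.log (⨆ j, fv v (y j)) := by
  have h := NumberField.mulHeight_eq (K := L) hy
  have h1 : ∏ᶠ w : FinitePlace L, ⨆ i, w (y i) =
      ∏ᶠ v : HeightOneSpectrum (𝓞 L), ⨆ i, fv v (y i) := by
    rw [← finprod_comp_equiv (FinitePlace.equivHeightOneSpectrum (K := L)).symm]
    rfl
  have h2 : ∏ᶠ v : HeightOneSpectrum (𝓞 L), ⨆ i, fv v (y i) = ∏ v ∈ T, ⨆ i, fv v (y i) := by
    refine finprod_eq_prod_of_mulSupport_subset _ ?_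
    intro v hv
    by_contra hc
    rw [Finset.mem_coe] at hc
    exact hv (hT v hc)
  rw [h1, h2] at h
  rw [logHeight_eq_log_mulHeight, h, Real.log_mul, Real.log_prod, Real.log_prod]
  · congr 1
    refine Finset.sum_congr rfl fun w _ => ?_
    rw [Real.log_pow]
    rfl
  · intro v _
    exact (sup_pos' (fv v) hy).ne'
  · intro w _
    exact (pow_pos (sup_pos' w.1 hy) _).ne'
  · exact (Finset.prod_pos fun w _ => pow_pos (sup_pos' w.1 hy) _).ne'
  · exact (Finset.prod_pos fun v _ => sup_pos' (fv v) hy).ne'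

lemma nat_mem_finite (M : ℕ) (hM : M ≠ 0) :
    {v : HeightOneSpectrum (𝓞 L) | (M : 𝓞 L) ∈ v.asIdeal}.Finite := by
  have h0 : ((M : ℕ) : L) ≠ 0 := by exact_mod_cast hM
  refine (fv_support_finite h0).subset ?_
  intro v hv
  have h3 : v.valuation L (((M : ℕ) : 𝓞 L) : L) < 1 := (v.valuation_lt_one_iff_mem _).mpr hv
  have h4 : (((M : ℕ) : 𝓞 L) : L) = ((M : ℕ) : L) := by simp
  rw [h4, ← map_one (v.valuation L), ← fv_lt_iff, map_one] at h3
  exact h3.ne

lemma above_finite (S : Finset ℕ) (hS : ∀ p ∈ S, p.Prime) :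
    {v : HeightOneSpectrum (𝓞 L) | ¬ Outside S v}.Finite := by
  have h : {v : HeightOneSpectrum (𝓞 L) | ¬ Outside S v} =
      ⋃ p ∈ S, {v : HeightOneSpectrum (𝓞 L) | (p : 𝓞 L) ∈ v.asIdeal} := by
    ext w
    simp [Outside]
  rw [h]
  exact Set.Finite.biUnion S.finite_toSet fun p hp => nat_mem_finite p (hS p hp).ne_zero

lemma sum_above (S : Finset ℕ) (hS : ∀ p ∈ S, p.Prime)
    (T : Finset (HeightOneSpectrum (𝓞 L))) (hT : ∀ v ∈ T, ¬ Outside S v) :
    ∑ v ∈ T, Real.log (Ideal.absNorm v.asIdeal) ≤ Module.finrank ℚ L * ∑ p ∈ S, Real.log p := by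
  set N : ℕ := ∏ p ∈ S, p with hN
  have hN0 : N ≠ 0 := Finset.prod_ne_zero_iff.2 fun p hp => (hS p hp).ne_zero
  have hNK : (N : L) ≠ 0 := by exact_mod_cast hN0
  obtain ⟨T', hT'⟩ := exists_supp (L := L) (fun _ : Fin 1 => (N : L)) fun _ => hNK
  have h1 := product_formula hNK (T' ∪ T) fun v hv => hT' v
    (fun h => hv (Finset.mem_union_left _ h)) 0
  have h2 : ∑ w : InfinitePlace L, (w.mult : ℝ) * Real.log (w.1 (N : L)) =
      Module.finrank ℚ L * ∑ p ∈ S, Real.log p := by
    have h3 : ∀ w : InfinitePlace L, w.1 (N : L) = N := by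
      intro w
      have : w (N : L) = N := by
        rw [← InfinitePlace.norm_embedding_eq w, map_natCast, Complex.norm_natCast]
      exact this
    have h4 : Real.log (N : ℝ) = ∑ p ∈ S, Real.log p := by
      rw [hN, Nat.cast_prod]
      exact Real.log_prod fun p hp => by exact_mod_cast (hS p hp).ne_zero
    simp only [h3]
    rw [← Finset.sum_mul, h4]
    congr 1
    exact_mod_cast InfinitePlace.sum_mult_eq (K := L)
  have h3 : ∀ v : HeightOneSpectrum (𝓞 L), Real.log (fv v (N : L)) ≤ 0 := by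
    intro v
    refine Real.log_nonpos ((fv v).nonneg _) ?_
    have : fv v (((N : ℕ) : 𝓞 L) : L) ≤ 1 := fv_int_le v _
    simpa using this
  have h4 : ∑ v ∈ T' ∪ T, Real.log (fv v (N : L)) ≤
      ∑ v ∈ T, -Real.log (Ideal.absNorm v.asIdeal) := by
    refine le_trans (b := ∑ v ∈ T, Real.log (fv v (N : L))) ?_ ?_
    · rw [← Finset.sum_sdiff (Finset.subset_union_right (s₁ := T') (s₂ := T))]
      have : ∑ v ∈ (T' ∪ T) \ T, Real.log (fv v (N : L)) ≤ 0 :=
        Finset.sum_nonpos fun v _ => h3 v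
      linarith
    · refine Finset.sum_le_sum fun v hv => ?_
      have hv' := hT v hv
      unfold Outside at hv'
      push Not at hv'
      obtain ⟨p, hp, hpv⟩ := hv'
      have h5 : ((N : ℕ) : 𝓞 L) ∈ v.asIdeal := by
        obtain ⟨c, hc⟩ := Finset.dvd_prod_of_mem (fun p => p) hp
        rw [hN, hc]
        push_cast
        exact Ideal.mul_mem_right _ _ hpv
      have h6 : v.valuation L (((N : ℕ) : 𝓞 L) : L) < 1 := (v.valuation_lt_one_iff_mem _).mpr h5
      have h7 : (((N : ℕ) : 𝓞 L) : L) = ((N : ℕ) : L) := by simp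
      rw [h7, ← map_one (v.valuation L), ← fv_lt_iff, map_one] at h6
      obtain ⟨a, ha⟩ := log_fv v hNK
      have h8 := Real.log_lt_log ((fv v).pos hNK) h6
      rw [Real.log_one, ha] at h8
      rw [ha]
      have hNv := log_Nv_pos v
      have h9 : a < 0 := by
        by_contra hc
        push Not at hc
        have : (0 : ℝ) ≤ a := by exact_mod_cast hc
        nlinarith
      have h10 : (a : ℝ) ≤ -1 := by
        have : a ≤ -1 := by omega
        exact_mod_cast this
      have h11 : Real.log (Ideal.absNorm v.asIdeal) = Real.log (Nv v) := rfl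
      rw [h11]
      nlinarith
  rw [Finset.sum_neg_distrib] at h4
  linarith

end one

section two

variable {K L : Type} [Field K] [NumberField K] [Field L] [NumberField L] [Algebra K L]

/-- the logarithmic discriminant of `L` over `K` -/
noncomputable def ld (K L : Type) [Field K] [NumberField K] [Field L] [NumberField L]
    [Algebra K L] : ℝ :=
  Real.log |(discr L : ℝ)| / Module.finrank K L - Real.log |(discr K : ℝ)|

lemma finrank_pos' : (0 : ℝ) < Module.finrank K L := by exact_mod_cast Module.finrank_pos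

/-- the key inequality in abstract form -/
theorem keyW (R : Finset (HeightOneSpectrum (𝓞 K))) (U : Finset (HeightOneSpectrum (𝓞 L)))
    (g : HeightOneSpectrum (𝓞 L) → ℝ) (X : ℝ)
    (h : ∀ w : HeightOneSpectrum (𝓞 L), (∃ v ∈ R, w.asIdeal.LiesOver v.asIdeal) →
      0 ≤ g w ∧ (w ∈ U ∨ Real.log (Ideal.absNorm w.asIdeal) ≤ g w))
    (hX : ∀ W : Finset (HeightOneSpectrum (𝓞 L)),
      (∀ w ∈ W, ∃ v ∈ R, w.asIdeal.LiesOver v.asIdeal) → ∑ w ∈ W, g w ≤ X) :
    ∑ v ∈ R, Real.log (Ideal.absNorm v.asIdeal) ≤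
      ld K L + ((∑ w ∈ U, Real.log (Ideal.absNorm w.asIdeal)) + X) / Module.finrank K L := by
  have hL := finrank_pos' (K := K) (L := L)
  obtain ⟨W, hW1, hW2⟩ := rel (k := K) (L := L) R
  have h0 : ∀ w : HeightOneSpectrum (𝓞 L), 0 ≤ Real.log (Ideal.absNorm w.asIdeal : ℝ) :=
    fun w => Real.log_natCast_nonneg _
  have h1 : ∑ w ∈ W, Real.log (Ideal.absNorm w.asIdeal) ≤
      ∑ w ∈ U, Real.log (Ideal.absNorm w.asIdeal) + X := by
    have e1 := Finset.sum_filter_add_sum_filter_not W (fun w => w ∈ U)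
      (fun w => Real.log (Ideal.absNorm w.asIdeal : ℝ))
    have e2 : ∑ w ∈ W with w ∈ U, Real.log (Ideal.absNorm w.asIdeal : ℝ) ≤
        ∑ w ∈ U, Real.log (Ideal.absNorm w.asIdeal) :=
      Finset.sum_le_sum_of_subset_of_nonneg (fun w hw => (Finset.mem_filter.1 hw).2)
        fun w _ _ => h0 w
    have e3 : ∑ w ∈ W with w ∉ U, Real.log (Ideal.absNorm w.asIdeal : ℝ) ≤
        ∑ w ∈ W with w ∉ U, g w := by
      refine Finset.sum_le_sum fun w hw => ?_
      obtain ⟨hw1, hw2⟩ := Finset.mem_filter.1 hw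
      rcases (h w (hW1 w hw1)).2 with h3 | h3
      · exact absurd h3 hw2
      · exact h3
    have e4 := hX (W.filter fun w => w ∉ U) fun w hw => hW1 w (Finset.mem_filter.1 hw).1
    linarith
  unfold ld
  rw [show Real.log |(discr L : ℝ)| / Module.finrank K L - Real.log |(discr K : ℝ)| +
      ((∑ w ∈ U, Real.log (Ideal.absNorm w.asIdeal)) + X) / Module.finrank K L =
      (Real.log |(discr L : ℝ)| + ((∑ w ∈ U, Real.log (Ideal.absNorm w.asIdeal)) + X)) /
        Module.finrank K L - Real.log |(discr K : ℝ)| by ring]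
  rw [le_sub_iff_add_le, le_div_iff₀ hL]
  linarith

lemma map_ne {m : ℕ} {x : Fin (m + 1) → K} (hx : x ≠ 0) :
    (fun j => algebraMap K L (x j)) ≠ 0 := by
  intro h
  apply hx
  funext j
  have := congrFun h j
  exact (map_eq_zero _).1 this

variable {m : ℕ} {F : MvPolynomial (Fin (m + 1)) (𝓞 K)} {κ : ℕ} {x : Fin (m + 1) → K}

lemma lam_def (w : HeightOneSpectrum (𝓞 L)) : lam L F κ x w =
    Real.log ((⨆ j, fv w (algebraMap K L (x j))) ^ κ / fv w (algebraMap K L (aeval x F))) := rfl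

lemma aeval_le (hF : F.IsHomogeneous κ) (w : HeightOneSpectrum (𝓞 L)) :
    fv w (algebraMap K L (aeval x F)) ≤ (⨆ j, fv w (algebraMap K L (x j))) ^ κ := by
  have hs : ∀ j, fv w (algebraMap K L (x j)) ≤ ⨆ j, fv w (algebraMap K L (x j)) := fun j =>
    le_ciSup (f := fun j => fv w (algebraMap K L (x j))) (Set.finite_range _).bddAbove j
  have hs0 : 0 ≤ ⨆ j, fv w (algebraMap K L (x j)) := ((fv w).nonneg _).trans (hs 0)
  rw [aeval_def, eval₂_eq, map_sum]
  refine fv_sum_le w _ _ _ (pow_nonneg hs0 _) fun d hd => ?_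
  rw [map_mul, map_mul, map_prod, map_prod]
  have hc : fv w (algebraMap K L (algebraMap (𝓞 K) K (coeff d F))) ≤ 1 := by
    have e : algebraMap K L (algebraMap (𝓞 K) K (coeff d F)) =
        ((algebraMap (𝓞 K) (𝓞 L) (coeff d F) : 𝓞 L) : L) := by
      rw [← IsScalarTower.algebraMap_apply (𝓞 K) K L]
      exact IsScalarTower.algebraMap_apply (𝓞 K) (𝓞 L) L _
    rw [e]
    exact fv_int_le w _
  have hdeg : ∑ i ∈ d.support, d i = κ := by
    by_contra hne
    have h1 := hF.coeff_eq_zero (d := d) (by rw [Finsupp.degree_apply]; exact hne)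
    exact (mem_support_iff.1 hd) h1
  have hp : ∏ i ∈ d.support, fv w (algebraMap K L (x i ^ d i)) ≤
      (⨆ j, fv w (algebraMap K L (x j))) ^ κ := by
    rw [← hdeg, ← Finset.prod_pow_eq_pow_sum]
    refine Finset.prod_le_prod (fun i _ => (fv w).nonneg _) fun i _ => ?_
    rw [map_pow, map_pow]
    exact pow_le_pow_left₀ ((fv w).nonneg _) (hs i) _
  calc fv w (algebraMap K L (algebraMap (𝓞 K) K (coeff d F))) *
        ∏ i ∈ d.support, fv w (algebraMap K L (x i ^ d i))
      ≤ 1 * (⨆ j, fv w (algebraMap K L (x j))) ^ κ :=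
        mul_le_mul hc hp (Finset.prod_nonneg fun i _ => (fv w).nonneg _) zero_le_one
    _ = _ := one_mul _

lemma lam_nonneg (hF : F.IsHomogeneous κ) (hl : aeval x F ≠ 0) (w : HeightOneSpectrum (𝓞 L)) :
    0 ≤ lam L F κ x w := by
  rw [lam_def]
  refine Real.log_nonneg ?_
  rw [one_le_div ((fv w).pos ((map_ne_zero _).2 hl))]
  exact aeval_le hF w

lemma lam_sub (hx : x ≠ 0) (hl : aeval x F ≠ 0) (w : HeightOneSpectrum (𝓞 L)) :
    lam L F κ x w = κ * Real.log (⨆ j, fv w (algebraMap K L (x j))) -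
      Real.log (fv w (algebraMap K L (aeval x F))) := by
  rw [lam_def, Real.log_div (pow_pos (sup_pos' (fv w) (map_ne (L := L) hx)) _).ne'
    ((fv w).pos ((map_ne_zero _).2 hl)).ne', Real.log_pow]

lemma lamInf_sub (hx : x ≠ 0) (hl : aeval x F ≠ 0) (w : InfinitePlace L) :
    lamInf L F κ x w = κ * Real.log (⨆ j, w.1 (algebraMap K L (x j))) -
      Real.log (w.1 (algebraMap K L (aeval x F))) := by
  have e : lamInf L F κ x w = Real.log ((⨆ j, w.1 (algebraMap K L (x j))) ^ κ /
    w.1 (algebraMap K L (aeval x F))) := rfl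
  rw [e, Real.log_div (pow_pos (sup_pos' w.1 (map_ne (L := L) hx)) _).ne'
    (w.1.pos ((map_ne_zero _).2 hl)).ne', Real.log_pow]

lemma lam_support (hx : x ≠ 0) (hl : aeval x F ≠ 0) :
    {w : HeightOneSpectrum (𝓞 L) | lam L F κ x w ≠ 0}.Finite := by
  refine ((sup_finite (map_ne (L := L) hx)).union
    (fv_support_finite ((map_ne_zero (algebraMap K L)).2 hl))).subset ?_
  intro w hw
  by_contra hc
  apply hw
  simp only [Set.mem_union, Set.mem_ofPred_eq, not_or, not_not] at hc
  rw [lam_sub hx hl, hc.1, hc.2, Real.log_one]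
  ring

/-- the sum of the local heights at infinity and at the primes in a finite set -/
lemma sum_lam_le (hF : F.IsHomogeneous κ) (hx : x ≠ 0) (hl : aeval x F ≠ 0)
    (U : Finset (HeightOneSpectrum (𝓞 L))) :
    ∑ w : InfinitePlace L, (w.mult : ℝ) * lamInf L F κ x w + ∑ v ∈ U, lam L F κ x v ≤
      κ * (Module.finrank K L * logHeight x) := by
  have hX := map_ne (L := L) hx
  have hA : algebraMap K L (aeval x F) ≠ 0 := (map_ne_zero _).2 hl
  set T : Finset (HeightOneSpectrum (𝓞 L)) := U ∪ ((sup_finite hX).toFinset ∪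
    (fv_support_finite hA).toFinset) with hT
  have hTx : ∀ v, v ∉ T → (⨆ j, fv v (algebraMap K L (x j))) = 1 := by
    intro v hv
    by_contra hc
    apply hv
    rw [hT]
    simp only [Finset.mem_union, Set.Finite.mem_toFinset]
    exact Or.inr (Or.inl hc)
  have hTl : ∀ v, v ∉ T → fv v (algebraMap K L (aeval x F)) = 1 := by
    intro v hv
    by_contra hc
    apply hv
    rw [hT]
    simp only [Finset.mem_union, Set.Finite.mem_toFinset]
    exact Or.inr (Or.inr hc)
  have h2 := logHeight_sum _ hX T hTx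
  have h3 := product_formula hA T hTl
  rw [← Pool.Agent.Helper259.HtExt.logHeight_ext (L := L) x, h2]
  have h4 : ∑ v ∈ U, lam L F κ x v ≤ ∑ v ∈ T, lam L F κ x v :=
    Finset.sum_le_sum_of_subset_of_nonneg Finset.subset_union_left
      fun v _ _ => lam_nonneg hF hl v
  have h5 : ∑ w : InfinitePlace L, (w.mult : ℝ) * lamInf L F κ x w =
      κ * ∑ w : InfinitePlace L, (w.mult : ℝ) * Real.log (⨆ j, w.1 (algebraMap K L (x j))) -
      ∑ w : InfinitePlace L, (w.mult : ℝ) * Real.log (w.1 (algebraMap K L (aeval x F))) := by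
    rw [Finset.mul_sum, ← Finset.sum_sub_distrib]
    refine Finset.sum_congr rfl fun w _ => ?_
    rw [lamInf_sub hx hl]
    ring
  have h6 : ∑ v ∈ T, lam L F κ x v =
      κ * ∑ v ∈ T, Real.log (⨆ j, fv v (algebraMap K L (x j))) -
      ∑ v ∈ T, Real.log (fv v (algebraMap K L (aeval x F))) := by
    rw [Finset.mul_sum, ← Finset.sum_sub_distrib]
    exact Finset.sum_congr rfl fun v _ => lam_sub hx hl v
  rw [mul_add]
  linarith

/-- positive local heights stay positive -/
lemma lam_pos (hl : aeval x F ≠ 0) (v : HeightOneSpectrum (𝓞 K))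
    (w : HeightOneSpectrum (𝓞 L)) (hvw : w.asIdeal.LiesOver v.asIdeal)
    (h : 0 < lam K F κ x v) : 0 < lam L F κ x w := by
  have hid : ∀ z : K, algebraMap K K z = z := fun z => rfl
  rw [lam_def] at h
  simp only [hid] at h
  obtain ⟨j, hj⟩ := exists_eq_ciSup_of_finite (f := fun j => fv v (x j))
  have h0 := (fv v).pos hl
  have h1 : fv v (aeval x F) < fv v (x j ^ κ) := by
    by_contra hc
    push Not at hc
    rw [map_pow] at hc
    have hj' : fv v (x j) = ⨆ j, fv v (x j) := hj
    rw [hj'] at hc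
    have h2 : (⨆ j, fv v (x j)) ^ κ / fv v (aeval x F) ≤ 1 := (div_le_one h0).2 hc
    have h3 : 0 ≤ (⨆ j, fv v (x j)) ^ κ / fv v (aeval x F) := by
      rw [← hj']
      exact div_nonneg (pow_nonneg ((fv v).nonneg _) _) h0.le
    exact absurd (Real.log_nonpos h3 h2) (not_le.2 h)
  have h2 := (fv_lt_ext (L := L) v w hvw _ _).2 h1
  rw [lam_def]
  refine Real.log_pos ?_
  rw [one_lt_div ((fv w).pos ((map_ne_zero _).2 hl))]
  refine h2.trans_le ?_
  rw [map_pow, map_pow]
  exact pow_le_pow_left₀ ((fv w).nonneg _)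
    (le_ciSup (f := fun j => fv w (algebraMap K L (x j))) (Set.finite_range _).bddAbove j) _

omit [NumberField K] in
/-- a prime above a prime which is not above `S` is not above `S` -/
lemma outside_ext (S : Finset ℕ) (v : HeightOneSpectrum (𝓞 K)) (w : HeightOneSpectrum (𝓞 L))
    (hvw : w.asIdeal.LiesOver v.asIdeal) (h : ∀ p ∈ S, (p : 𝓞 K) ∉ v.asIdeal) :
    Outside S w := by
  intro p hp hpw
  apply h p hp
  rw [hvw.over, Ideal.mem_under]
  simpa using hpw

lemma prox_sum (hF : F.IsHomogeneous κ) (hx : x ≠ 0) (hl : aeval x F ≠ 0)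
    (S : Finset ℕ) (hS : ∀ p ∈ S, p.Prime) (W : Finset (HeightOneSpectrum (𝓞 L)))
    (hW : ∀ w ∈ W, Outside S w) :
    ∑ w ∈ W, lam L F κ x w ≤
      Module.finrank K L * (κ * logHeight x - finrank ℚ K * prox L S F κ x) := by
  have hd : (0 : ℝ) < finrank ℚ K := by exact_mod_cast finrank_pos
  have hLp := finrank_pos' (K := K) (L := L)
  have htow : (finrank ℚ L : ℝ) = finrank ℚ K * finrank K L := by
    exact_mod_cast (finrank_mul_finrank ℚ K L).symm
  set V := (above_finite (L := L) S hS).toFinset with hV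
  have hdisj : Disjoint V W := by
    rw [Finset.disjoint_left]
    intro w hw hw'
    rw [hV, Set.Finite.mem_toFinset] at hw
    exact hw (hW w hw')
  have h1 := sum_lam_le (L := L) hF hx hl (V ∪ W)
  rw [Finset.sum_union hdisj] at h1
  have h2 : (finrank K L : ℝ) * (finrank ℚ K * prox L S F κ x) =
      ∑ w : InfinitePlace L, (w.mult : ℝ) * lamInf L F κ x w + ∑ w ∈ V, lam L F κ x w := by
    unfold prox
    rw [htow, finsum_mem_eq_finite_toFinset_sum _ (above_finite (L := L) S hS)]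
    field_simp
    rfl
  rw [mul_sub, h2]
  linarith

end two

theorem t_EXT : S_EXT := by
  intro K _ _ L _ _ _ m q F κ x S e J hF hx hl hS he hint
  have hd : (0 : ℝ) < finrank ℚ K := by exact_mod_cast finrank_pos
  have hLp := finrank_pos' (K := K) (L := L)
  have htow : (finrank ℚ L : ℝ) = finrank ℚ K * finrank K L := by
    exact_mod_cast (finrank_mul_finrank ℚ K L).symm
  have he0 : ∀ i, (0 : ℝ) < e i := fun i => by exact_mod_cast he i
  have hnn : ∀ i (w : HeightOneSpectrum (𝓞 L)), 0 ≤ lam L (F i) (κ i) x w := fun i w =>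
    lam_nonneg (hF i) (hl i) w
  -- the primes of `K`
  have hfinK : {v : HeightOneSpectrum (𝓞 K) | ∃ i, 0 < lam K (F i) (κ i) x v}.Finite := by
    refine (Set.finite_iUnion fun i => lam_support (L := K) (κ := κ i) hx (hl i)).subset ?_
    rintro v ⟨i, hi⟩
    exact Set.mem_iUnion.2 ⟨i, hi.ne'⟩
  have h1 : cnt K ∅ F κ Finset.univ x =
      (∑ v ∈ hfinK.toFinset, Real.log (Ideal.absNorm v.asIdeal)) / finrank ℚ K := by
    unfold cnt
    rw [finsum_eq_sum_of_support_subset (s := hfinK.toFinset)]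
    · congr 1
      refine Finset.sum_congr rfl fun v hv => ?_
      obtain ⟨i, hi⟩ := (Set.Finite.mem_toFinset _).1 hv
      exact if_pos ⟨fun p hp => absurd hp (Finset.notMem_empty p), i, Finset.mem_univ i, hi⟩
    · intro v hv
      rw [Finset.mem_coe, Set.Finite.mem_toFinset]
      by_contra hc
      refine hv (if_neg ?_)
      rintro ⟨-, i, -, hi⟩
      exact hc ⟨i, hi⟩
  set R := hfinK.toFinset.filter (fun v => Outside S v) with hR
  set Rb := hfinK.toFinset.filter (fun v => ¬ Outside S v) with hRb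
  have h2 : ∑ v ∈ hfinK.toFinset, Real.log (Ideal.absNorm v.asIdeal) =
      ∑ v ∈ R, Real.log (Ideal.absNorm v.asIdeal) +
        ∑ v ∈ Rb, Real.log (Ideal.absNorm v.asIdeal) :=
    (Finset.sum_filter_add_sum_filter_not _ _ _).symm
  have h3 := sum_above (L := K) S hS Rb fun v hv => (Finset.mem_filter.1 hv).2
  have hRp : ∀ v ∈ R, Outside S v ∧ ∃ i, 0 < lam K (F i) (κ i) x v := by
    intro v hv
    obtain ⟨h4, h5⟩ := Finset.mem_filter.1 hv
    have h6 := (Set.Finite.mem_toFinset hfinK).1 h4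
    exact ⟨h5, h6⟩
  -- the primes of `L`
  have hfinJ : {w : HeightOneSpectrum (𝓞 L) | Outside S w ∧
      ∃ i ∈ J, 0 < lam L (F i) (κ i) x w}.Finite := by
    refine (Set.finite_iUnion fun i => lam_support (L := L) (κ := κ i) hx (hl i)).subset ?_
    rintro w ⟨-, i, -, hi⟩
    exact Set.mem_iUnion.2 ⟨i, hi.ne'⟩
  have hnJ : cnt L S F κ J x =
      (∑ w ∈ hfinJ.toFinset, Real.log (Ideal.absNorm w.asIdeal)) / finrank ℚ L := by
    unfold cnt
    rw [finsum_eq_sum_of_support_subset (s := hfinJ.toFinset)]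
    · congr 1
      refine Finset.sum_congr rfl fun w hw => ?_
      exact if_pos ((Set.Finite.mem_toFinset _).1 hw)
    · intro w hw
      rw [Finset.mem_coe, Set.Finite.mem_toFinset]
      by_contra hc
      exact hw (if_neg hc)
  have key := keyW (K := K) (L := L) R hfinJ.toFinset
    (fun w => ∑ i ∈ Jᶜ, 1 / (e i : ℝ) * lam L (F i) (κ i) x w)
    (∑ i ∈ Jᶜ, 1 / (e i : ℝ) * (finrank K L *
      (κ i * logHeight x - finrank ℚ K * prox L S (F i) (κ i) x))) ?_ ?_
  · have h7 : (∑ i ∈ Jᶜ, 1 / (e i : ℝ) * (finrank K L *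
        (κ i * logHeight x - finrank ℚ K * prox L S (F i) (κ i) x))) / finrank K L =
        (∑ i ∈ Jᶜ, (κ i : ℝ) / e i) * logHeight x -
          finrank ℚ K * ∑ i ∈ Jᶜ, 1 / (e i : ℝ) * prox L S (F i) (κ i) x := by
      rw [Finset.sum_div, Finset.sum_mul, Finset.mul_sum, ← Finset.sum_sub_distrib]
      refine Finset.sum_congr rfl fun i _ => ?_
      have := (he0 i).ne'
      field_simp
    have h8 : ld K L = finrank ℚ K * (ldisc L - ldisc K) := by
      unfold ld ldisc
      rw [htow]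
      field_simp
    have h9 : (∑ w ∈ hfinJ.toFinset, Real.log (Ideal.absNorm w.asIdeal : ℝ)) / finrank K L =
        finrank ℚ K * cnt L S F κ J x := by
      rw [hnJ, htow]
      field_simp
    have h10 : logHeight x = finrank ℚ K * hgt x := by
      unfold hgt
      field_simp
    rw [add_div, h7, h8, h9, h10] at key
    rw [h1]
    refine le_of_mul_le_mul_left ?_ hd
    have e1 : (finrank ℚ K : ℝ) * ((∑ v ∈ hfinK.toFinset, Real.log (Ideal.absNorm v.asIdeal)) /
        finrank ℚ K + ∑ i ∈ Jᶜ, 1 / (e i : ℝ) * prox L S (F i) (κ i) x) =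
        ∑ v ∈ hfinK.toFinset, Real.log (Ideal.absNorm v.asIdeal) +
        finrank ℚ K * ∑ i ∈ Jᶜ, 1 / (e i : ℝ) * prox L S (F i) (κ i) x := by
      field_simp
    have e2 : (finrank ℚ K : ℝ) * (cnt L S F κ J x + (ldisc L - ldisc K) +
        ∑ p ∈ S, Real.log (p : ℝ) + (∑ i ∈ Jᶜ, (κ i : ℝ) / e i) * hgt x) =
        finrank ℚ K * (ldisc L - ldisc K) + finrank ℚ K * cnt L S F κ J x +
        (∑ i ∈ Jᶜ, (κ i : ℝ) / e i) * (finrank ℚ K * hgt x) +
        finrank ℚ K * ∑ p ∈ S, Real.log (p : ℝ) := by ring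
    rw [e1, e2, h2]
    linarith
  · rintro w ⟨v, hvR, hvw⟩
    have hterm : ∀ i, 0 ≤ 1 / (e i : ℝ) * lam L (F i) (κ i) x w := fun i =>
      mul_nonneg (by positivity) (hnn i w)
    refine ⟨Finset.sum_nonneg fun i _ => hterm i, ?_⟩
    obtain ⟨hvS, i, hi⟩ := hRp v hvR
    have hwS : Outside S w := outside_ext S v w hvw hvS
    have hpos : 0 < lam L (F i) (κ i) x w := lam_pos (hl i) v w hvw hi
    by_cases hiJ : i ∈ J
    · left
      rw [Set.Finite.mem_toFinset]
      exact ⟨hwS, i, hiJ, hpos⟩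
    · right
      obtain ⟨t, ht⟩ := hint w hwS i
      have ht1 : 1 ≤ t := by
        by_contra hc
        have : t = 0 := by omega
        rw [ht, this, Nat.cast_zero, zero_mul, zero_mul] at hpos
        exact lt_irrefl _ hpos
      have h5 : Real.log (Ideal.absNorm w.asIdeal) ≤ 1 / (e i : ℝ) * lam L (F i) (κ i) x w := by
        rw [ht]
        have h0 : 0 ≤ Real.log (Ideal.absNorm w.asIdeal : ℝ) := Real.log_natCast_nonneg _
        have ht1' : (1 : ℝ) ≤ t := by exact_mod_cast ht1
        have he' := (he0 i).ne'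
        have : 1 / (e i : ℝ) * (t * e i * Real.log (Ideal.absNorm w.asIdeal)) =
            t * Real.log (Ideal.absNorm w.asIdeal) := by
          field_simp
        rw [this]
        nlinarith
      refine h5.trans ?_
      exact Finset.single_le_sum (f := fun i => 1 / (e i : ℝ) * lam L (F i) (κ i) x w)
        (fun i _ => hterm i) (Finset.mem_compl.2 hiJ)
  · intro W hW
    rw [Finset.sum_comm]
    refine Finset.sum_le_sum fun i _ => ?_
    rw [← Finset.mul_sum]
    refine mul_le_mul_of_nonneg_left (prox_sum (hF i) hx (hl i) S hS W ?_) (by positivity)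
    intro w hw
    obtain ⟨v, hv, hvw⟩ := hW w hw
    exact outside_ext S v w hvw (hRp v hv).1

end Pool.Agent.N752.HY.Ext
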