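import Pool.Agent.N752.HY.Stm4
import Pool.Agent.N752.HY.Ext

set_option autoImplicit false

/-!
HZ/OVL: common primes of two forms and the height relative to an ideal
-/

namespace Pool.Agent.N752.HY.Ovl

open NumberField IsDedekindDomain MvPolynomial Module Height
open Pool.Agent.H691R3 (fv fv_na fv_support_finite log_fv Nv log_Nv_pos)
open Pool.Agent.N752.HY.Ext (lam_def aeval_le lam_nonneg lam_sub lam_support sup_pos')
open Pool.Agent.R366.NF (idealHeight idealLoc)

variable {K : Type} [Field K] [NumberField K] {m : ℕ}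
  {F G : MvPolynomial (Fin (m + 1)) (𝓞 K)} {κ ε : ℕ} {x : Fin (m + 1) → K}

/-- bound for the value of a form at an infinite place -/
lemma inf_bound (hF : F.IsHomogeneous κ) (w : InfinitePlace K) :
    ∃ C : ℝ, 1 ≤ C ∧ ∀ x : Fin (m + 1) → K, w (aeval x F) ≤ C * (⨆ j, w (x j)) ^ κ := by
  refine ⟨1 + ∑ d ∈ F.support, w (algebraMap (𝓞 K) K (coeff d F)), ?_, ?_⟩
  · have : 0 ≤ ∑ d ∈ F.support, w (algebraMap (𝓞 K) K (coeff d F)) :=
      Finset.sum_nonneg fun d _ => apply_nonneg _ _
    linarith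
  · intro x
    have hs : ∀ j, w (x j) ≤ ⨆ j, w (x j) := fun j =>
      le_ciSup (f := fun j => w (x j)) (Set.finite_range _).bddAbove j
    have hs0 : 0 ≤ ⨆ j, w (x j) := (apply_nonneg w _).trans (hs 0)
    rw [aeval_def, eval₂_eq, add_mul, Finset.sum_mul]
    have h1 : w (∑ d ∈ F.support, algebraMap (𝓞 K) K (coeff d F) * ∏ i ∈ d.support, x i ^ d i) ≤
        ∑ d ∈ F.support, w (algebraMap (𝓞 K) K (coeff d F) * ∏ i ∈ d.support, x i ^ d i) :=
      w.1.sum_le _ _
    refine h1.trans ?_
    have h2 : ∑ d ∈ F.support, w (algebraMap (𝓞 K) K (coeff d F) * ∏ i ∈ d.support, x i ^ d i) ≤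
        ∑ d ∈ F.support, w (algebraMap (𝓞 K) K (coeff d F)) * (⨆ j, w (x j)) ^ κ := by
      refine Finset.sum_le_sum fun d hd => ?_
      rw [map_mul, map_prod]
      have hdeg : ∑ i ∈ d.support, d i = κ := by
        by_contra hne
        have h1 := hF.coeff_eq_zero (d := d) (by rw [Finsupp.degree_apply]; exact hne)
        exact (mem_support_iff.1 hd) h1
      refine mul_le_mul_of_nonneg_left ?_ (apply_nonneg _ _)
      rw [← hdeg, ← Finset.prod_pow_eq_pow_sum]
      refine Finset.prod_le_prod (fun i _ => apply_nonneg _ _) fun i _ => ?_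
      rw [map_pow]
      exact pow_le_pow_left₀ (apply_nonneg _ _) (hs i) _
    have h3 : 0 ≤ 1 * (⨆ j, w (x j)) ^ κ := by positivity
    linarith

/-- at a finite place the local height relative to the ideal is the minimum of the two heights -/
lemma loc_eq (hF0 : aeval x F ≠ 0) (hG0 : aeval x G ≠ 0) (hx : x ≠ 0)
    (v : HeightOneSpectrum (𝓞 K)) :
    idealLoc F G κ ε x (FinitePlace.mk v) = min (lam K F κ x v) (lam K G ε x v) := by
  have hid : ∀ z : K, algebraMap K K z = z := fun z => rfl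
  have e : idealLoc F G κ ε x (FinitePlace.mk v) =
    -Real.log (max (fv v (aeval x F) / (⨆ i, fv v (x i)) ^ κ)
      (fv v (aeval x G) / (⨆ i, fv v (x i)) ^ ε)) := rfl
  have hs : 0 < ⨆ i, fv v (x i) := sup_pos' (fv v) hx
  have hFp : 0 < fv v (aeval x F) := (fv v).pos hF0
  have hGp : 0 < fv v (aeval x G) := (fv v).pos hG0
  have eF : lam K F κ x v = -Real.log (fv v (aeval x F) / (⨆ i, fv v (x i)) ^ κ) := by
    rw [lam_def]
    simp only [hid]
    rw [← Real.log_inv, inv_div]
  have eG : lam K G ε x v = -Real.log (fv v (aeval x G) / (⨆ i, fv v (x i)) ^ ε) := by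
    rw [lam_def]
    simp only [hid]
    rw [← Real.log_inv, inv_div]
  have p1 : 0 < fv v (aeval x F) / (⨆ i, fv v (x i)) ^ κ := by positivity
  have p2 : 0 < fv v (aeval x G) / (⨆ i, fv v (x i)) ^ ε := by positivity
  rw [e, eF, eG]
  rcases le_total (fv v (aeval x F) / (⨆ i, fv v (x i)) ^ κ)
    (fv v (aeval x G) / (⨆ i, fv v (x i)) ^ ε) with h | h
  · have h1 := Real.log_le_log p1 h
    rw [max_eq_right h, min_eq_right (by linarith)]
  · have h1 := Real.log_le_log p2 h
    rw [max_eq_left h, min_eq_left (by linarith)]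

/-- positive local heights are at least `log N(v)` -/
lemma lam_ge (hx : x ≠ 0) (hF0 : aeval x F ≠ 0) (v : HeightOneSpectrum (𝓞 K))
    (h : 0 < lam K F κ x v) : Real.log (Ideal.absNorm v.asIdeal : ℝ) ≤ lam K F κ x v := by
  have h1 := lam_sub (L := K) (κ := κ) hx hF0 v
  have hid : ∀ z : K, algebraMap K K z = z := fun z => rfl
  simp only [hid] at h1
  obtain ⟨j, hj⟩ := exists_eq_ciSup_of_finite (f := fun j => fv v (x j))
  have hs : 0 < ⨆ i, fv v (x i) := sup_pos' (fv v) hx
  have hxj : x j ≠ 0 := by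
    intro h0
    have hj' : fv v (x j) = ⨆ j, fv v (x j) := hj
    rw [h0, map_zero] at hj'
    rw [← hj'] at hs
    exact lt_irrefl _ hs
  obtain ⟨a, ha⟩ := log_fv v hxj
  obtain ⟨b, hb⟩ := log_fv v hF0
  have hj' : fv v (x j) = ⨆ j, fv v (x j) := hj
  rw [← hj', ha, hb] at h1
  have hN := log_Nv_pos v
  have h2 : lam K F κ x v = ((κ * a - b : ℤ) : ℝ) * Real.log (Nv v) := by
    rw [h1]
    push_cast
    ring
  rw [h2] at h ⊢
  have h3 : (0 : ℝ) < ((κ * a - b : ℤ) : ℝ) := by
    by_contra hc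
    push Not at hc
    nlinarith
  have h4 : (0 : ℤ) < κ * a - b := by exact_mod_cast h3
  have h5 : (1 : ℝ) ≤ ((κ * a - b : ℤ) : ℝ) := by
    have : (1 : ℤ) ≤ κ * a - b := by omega
    exact_mod_cast this
  have h6 : Real.log (Ideal.absNorm v.asIdeal : ℝ) = Real.log (Nv v) := rfl
  rw [h6]
  nlinarith

theorem t_OVL : S_OVL := by
  intro K _ _ m F G κ ε hF hG
  classical
  choose CF hCF1 hCF using fun w : InfinitePlace K => inf_bound hF w
  choose CG hCG1 hCG using fun w : InfinitePlace K => inf_bound hG w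
  refine ⟨∑ w : InfinitePlace K, (w.mult : ℝ) * Real.log (max (CF w) (CG w)), ?_⟩
  intro x hx hF0 hG0
  -- the finite part
  set g : HeightOneSpectrum (𝓞 K) → ℝ := fun v => min (lam K F κ x v) (lam K G ε x v) with hg
  have hg0 : ∀ v, 0 ≤ g v := fun v => le_min (lam_nonneg hF hF0 v) (lam_nonneg hG hG0 v)
  have hfin : (Function.support g).Finite := by
    refine (lam_support (L := K) (κ := κ) hx hF0).subset ?_
    intro v hv
    by_contra hc
    apply hv
    simp only [Set.mem_ofPred_eq, not_not] at hc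
    have h1 := lam_nonneg (L := K) hG hG0 v
    rw [hg]
    simp only
    rw [hc, min_eq_left h1]
  have hfp : ∑ᶠ v : FinitePlace K, idealLoc F G κ ε x v = ∑ᶠ v, g v := by
    rw [← finsum_comp_equiv (FinitePlace.equivHeightOneSpectrum (K := K)).symm]
    refine finsum_congr fun v => ?_
    exact loc_eq hF0 hG0 hx v
  -- the infinite part
  have hinf : -(∑ w : InfinitePlace K, (w.mult : ℝ) * Real.log (max (CF w) (CG w))) ≤
      ∑ w : InfinitePlace K, w.mult * idealLoc F G κ ε x w := by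
    rw [← Finset.sum_neg_distrib]
    refine Finset.sum_le_sum fun w _ => ?_
    rw [← mul_neg]
    refine mul_le_mul_of_nonneg_left ?_ (Nat.cast_nonneg _)
    unfold idealLoc
    rw [neg_le_neg_iff]
    have hs : 0 < ⨆ i, w (x i) := sup_pos' w.1 hx
    have hFp : 0 < w (aeval x F) := InfinitePlace.pos_iff.2 hF0
    refine Real.log_le_log ?_ ?_
    · exact lt_max_of_lt_left (by positivity)
    · refine max_le_max ?_ ?_
      · rw [div_le_iff₀ (by positivity)]
        exact hCF w x
      · rw [div_le_iff₀ (by positivity)]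
        exact hCG w x
  have hmain : ∑ᶠ v, g v ≤ idealHeight F G κ ε x +
      ∑ w : InfinitePlace K, (w.mult : ℝ) * Real.log (max (CF w) (CG w)) := by
    unfold idealHeight
    rw [hfp]
    linarith
  refine ⟨(finsum_nonneg hg0).trans hmain, le_trans ?_ hmain⟩
  have hA : {v : HeightOneSpectrum (𝓞 K) | 0 < lam K F κ x v ∧ 0 < lam K G ε x v} ⊆
      (hfin.toFinset : Set (HeightOneSpectrum (𝓞 K))) := by
    rintro v ⟨h1, h2⟩
    rw [Set.Finite.coe_toFinset, Function.mem_support]
    exact (lt_min h1 h2).ne'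
  have hAfin : {v : HeightOneSpectrum (𝓞 K) | 0 < lam K F κ x v ∧ 0 < lam K G ε x v}.Finite :=
    hfin.toFinset.finite_toSet.subset hA
  rw [finsum_mem_eq_finite_toFinset_sum _ hAfin,
    finsum_eq_sum_of_support_subset (s := hfin.toFinset) _ (by rw [Set.Finite.coe_toFinset])]
  refine le_trans (b := ∑ v ∈ hAfin.toFinset, g v) ?_ ?_
  · refine Finset.sum_le_sum fun v hv => ?_
    obtain ⟨h1, h2⟩ := (Set.Finite.mem_toFinset hAfin).1 hv
    exact le_min (lam_ge hx hF0 v h1) (lam_ge hx hG0 v h2)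
  · refine Finset.sum_le_sum_of_subset_of_nonneg ?_ fun v _ _ => hg0 v
    intro v hv
    exact hA ((Set.Finite.mem_toFinset hAfin).1 hv)

end Pool.Agent.N752.HY.Ovl
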