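import Pool.Agent.N752.HY.Stm3
import Pool.Agent.N752.HY.Ext

set_option autoImplicit false

/-!
HZ/UPC (helper697): upper bound for the truncated counting function.
-/

namespace Pool.Agent.N752.HY.Upc

open NumberField IsDedekindDomain MvPolynomial Module Height
open Pool.Agent.H691R3 (fv fv_na fv_support_finite log_fv Nv log_Nv_pos)
open Pool.Agent.N752.HY.Ext
open scoped Classical

variable {K : Type} [Field K] [NumberField K] {m : ℕ} {F : MvPolynomial (Fin (m + 1)) (𝓞 K)}
  {κ : ℕ} {x : Fin (m + 1) → K}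

/-- positive local heights are at least `log N(v)` -/
lemma logN_le (hx : x ≠ 0) (hl : aeval x F ≠ 0) (v : HeightOneSpectrum (𝓞 K))
    (h : 0 < lam K F κ x v) : Real.log (Ideal.absNorm v.asIdeal) ≤ lam K F κ x v := by
  have h1 := lam_sub (L := K) (κ := κ) hx hl v
  have hpos := sup_pos' (fv v) (map_ne (L := K) hx)
  obtain ⟨j, hj⟩ := exists_eq_ciSup_of_finite (f := fun j => fv v (algebraMap K K (x j)))
  have hxj : algebraMap K K (x j) ≠ 0 := by
    intro h0
    rw [← hj] at hpos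
    simp only [h0, map_zero] at hpos
    exact lt_irrefl _ hpos
  obtain ⟨a, ha⟩ := log_fv v hxj
  obtain ⟨b, hb⟩ := log_fv v ((map_ne_zero (algebraMap K K)).2 hl)
  have hj' : fv v (algebraMap K K (x j)) = ⨆ j, fv v (algebraMap K K (x j)) := hj
  rw [← hj', ha, hb] at h1
  have hN := log_Nv_pos v
  have e1 : lam K F κ x v = ((κ * a - b : ℤ) : ℝ) * Real.log (Nv v) := by
    rw [h1]
    push_cast
    ring
  rw [e1] at h
  have h2 : 1 ≤ (κ * a - b : ℤ) := by
    by_contra hc
    push Not at hc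
    have h3 : ((κ * a - b : ℤ) : ℝ) ≤ 0 := by
      exact_mod_cast (by omega : (κ * a - b : ℤ) ≤ 0)
    exact absurd (mul_nonpos_of_nonpos_of_nonneg h3 hN.le) (not_le.2 h)
  have h3 : (1 : ℝ) ≤ ((κ * a - b : ℤ) : ℝ) := by exact_mod_cast h2
  have e2 : Real.log (Ideal.absNorm v.asIdeal) = Real.log (Nv v) := rfl
  rw [e1, e2]
  nlinarith

/-- the bound at infinity -/
noncomputable def CI (F : MvPolynomial (Fin (m + 1)) (𝓞 K)) (w : InfinitePlace K) : ℝ :=
  1 + ∑ d ∈ F.support, w.1 (algebraMap (𝓞 K) K (coeff d F))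

lemma lamInf_ge (hF : F.IsHomogeneous κ) (hx : x ≠ 0) (hl : aeval x F ≠ 0)
    (w : InfinitePlace K) : -Real.log (CI F w) ≤ lamInf K F κ x w := by
  have hs : ∀ j, w.1 (x j) ≤ ⨆ j, w.1 (x j) := fun j =>
    le_ciSup (f := fun j => w.1 (x j)) (Set.finite_range _).bddAbove j
  have hs0 : 0 < ⨆ j, w.1 (x j) := sup_pos' w.1 hx
  have hC : 0 < CI F w := by
    have : 0 ≤ ∑ d ∈ F.support, w.1 (algebraMap (𝓞 K) K (coeff d F)) :=
      Finset.sum_nonneg fun d _ => w.1.nonneg _
    unfold CI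
    linarith
  have h1 : w.1 (aeval x F) ≤ CI F w * (⨆ j, w.1 (x j)) ^ κ := by
    rw [aeval_def, eval₂_eq]
    refine (AbsoluteValue.sum_le w.1 _ _).trans ?_
    have h2 : ∀ d ∈ F.support, w.1 (algebraMap (𝓞 K) K (coeff d F) * ∏ i ∈ d.support, x i ^ d i) ≤
        w.1 (algebraMap (𝓞 K) K (coeff d F)) * (⨆ j, w.1 (x j)) ^ κ := by
      intro d hd
      rw [map_mul, map_prod]
      refine mul_le_mul_of_nonneg_left ?_ (w.1.nonneg _)
      have hdeg : ∑ i ∈ d.support, d i = κ := by
        by_contra hne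
        have h1 := hF.coeff_eq_zero (d := d) (by rw [Finsupp.degree_apply]; exact hne)
        exact (mem_support_iff.1 hd) h1
      rw [← hdeg, ← Finset.prod_pow_eq_pow_sum]
      refine Finset.prod_le_prod (fun i _ => w.1.nonneg _) fun i _ => ?_
      rw [map_pow]
      exact pow_le_pow_left₀ (w.1.nonneg _) (hs i) _
    refine (Finset.sum_le_sum h2).trans ?_
    rw [← Finset.sum_mul]
    refine mul_le_mul_of_nonneg_right ?_ (pow_nonneg hs0.le _)
    unfold CI
    linarith
  have e1 := lamInf_sub (L := K) (κ := κ) hx hl w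
  have hid : ∀ z : K, algebraMap K K z = z := fun z => rfl
  simp only [hid] at e1
  rw [e1]
  have h3 := Real.log_le_log (w.1.pos hl) h1
  rw [Real.log_mul hC.ne' (pow_pos hs0 _).ne', Real.log_pow] at h3
  linarith

theorem t_UPC : S_UPC := by
  intro K _ _ m F κ hF
  refine ⟨(∑ w : InfinitePlace K, (w.mult : ℝ) * Real.log (CI F w)) / finrank ℚ K,
    fun x hx hl => ?_⟩
  have hd : (0 : ℝ) < finrank ℚ K := by exact_mod_cast finrank_pos
  have hfin : {v : HeightOneSpectrum (𝓞 K) | 0 < lam K F κ x v}.Finite :=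
    (lam_support (L := K) (κ := κ) hx hl).subset fun v hv => (ne_of_gt hv)
  have h1 : cnt K ∅ (fun _ : Fin 1 => F) (fun _ => κ) Finset.univ x =
      (∑ v ∈ hfin.toFinset, Real.log (Ideal.absNorm v.asIdeal)) / finrank ℚ K := by
    unfold cnt
    rw [finsum_eq_sum_of_support_subset (s := hfin.toFinset)]
    · congr 1
      refine Finset.sum_congr rfl fun v hv => ?_
      have hi := (Set.Finite.mem_toFinset _).1 hv
      exact if_pos ⟨fun p hp => absurd hp (Finset.notMem_empty p), 0, Finset.mem_univ 0, hi⟩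
    · intro v hv
      rw [Finset.mem_coe, Set.Finite.mem_toFinset]
      by_contra hc
      refine hv (if_neg ?_)
      rintro ⟨-, i, -, hi⟩
      exact hc hi
  have h2 := sum_lam_le (L := K) hF hx hl hfin.toFinset
  have h3 : ∑ v ∈ hfin.toFinset, Real.log (Ideal.absNorm v.asIdeal) ≤
      ∑ v ∈ hfin.toFinset, lam K F κ x v :=
    Finset.sum_le_sum fun v hv => logN_le hx hl v (hfin.mem_toFinset.1 hv)
  have h4 : -∑ w : InfinitePlace K, (w.mult : ℝ) * Real.log (CI F w) ≤
      ∑ w : InfinitePlace K, (w.mult : ℝ) * lamInf K F κ x w := by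
    rw [← Finset.sum_neg_distrib]
    refine Finset.sum_le_sum fun w _ => ?_
    rw [← mul_neg]
    exact mul_le_mul_of_nonneg_left (lamInf_ge hF hx hl w) (Nat.cast_nonneg _)
  have h5 : (finrank K K : ℝ) = 1 := by simp
  rw [h5, one_mul] at h2
  rw [h1]
  unfold hgt
  rw [← mul_div_assoc, ← add_div]
  refine div_le_div_of_nonneg_right ?_ hd.le
  linarith

end Pool.Agent.N752.HY.Upc
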