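import Pool.Agent.N752.HY.Hz

/-!
The points over one number field: power saving for every divisor and one exceptional set.
-/

set_option autoImplicit false

namespace Pool.Agent.N752.HY.KPts

open NumberField IsDedekindDomain Module MvPolynomial Height
open scoped LinearAlgebra.Projectivization
open Pool.Agent.N752.SU (DensityZero diag)
open Pool.Agent.N752.HY
open Pool.Agent.R366.NF (idealHeight)

variable {K : Type} [Field K] [NumberField K] {m : ℕ}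

/-- one field, irreducible components -/
theorem fld4 (φ : K →+* ℂ) (hd : 3 ≤ finrank ℚ K * (m + 1)) {q t : ℕ}
    (F : Fin q → MvPolynomial (Fin (m + 1)) (𝓞 K)) (κ w : Fin q → ℕ)
    (hhom : ∀ j, (F j).IsHomogeneous (κ j))
    (hirr : ∀ j, Irreducible (map (algebraMap (𝓞 K) K) (F j)))
    (hdist : ∀ i j, i ≠ j →
      ¬ Associated (map (algebraMap (𝓞 K) K) (F i)) (map (algebraMap (𝓞 K) K) (F j)))
    (hw : ∀ j, HasW (map (φ.comp (algebraMap (𝓞 K) K)) (F j)) (κ j) (w j))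
    (F' G' : Fin t → MvPolynomial (Fin (m + 1)) (𝓞 K)) (κ' ε' : Fin t → ℕ)
    (hF' : ∀ l, (F' l).IsHomogeneous (κ' l)) (hG' : ∀ l, (G' l).IsHomogeneous (ε' l))
    (hirr' : ∀ l, Irreducible (map (algebraMap (𝓞 K) K) (F' l)))
    (hcop : ∀ l, ¬ map (algebraMap (𝓞 K) K) (F' l) ∣ map (algebraMap (𝓞 K) K) (G' l))
    (Λ : ℝ) (hΛ : 0 ≤ Λ) (θ : ℝ) (hθ : θ < ∑ j, (w j : ℝ)) :
    AA fun Q : ℙ K (Fin (m + 1) → K) => Good F κ F' G' κ' ε' Λ θ Q.rep := by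
  classical
  have hn : 0 < finrank ℚ K := finrank_pos
  have hn0 : (0 : ℝ) < finrank ℚ K := by exact_mod_cast hn
  have hn1 : (1 : ℝ) ≤ finrank ℚ K := by exact_mod_cast hn
  have hκ : ∀ j, 1 ≤ κ j := by
    intro j
    by_contra h
    have h0 : κ j = 0 := by omega
    have h1 := hhom j
    rw [h0] at h1
    have hF0 : F j ≠ 0 := by
      intro h2
      apply (hirr j).ne_zero
      rw [h2, map_zero]
    have h2 : (F j).totalDegree = 0 := h1.totalDegree hF0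
    have h3 := totalDegree_eq_zero_iff_eq_C.1 h2
    apply (hirr j).not_isUnit
    rw [h3, map_C]
    apply IsUnit.map
    rw [isUnit_iff_ne_zero, Ne, FaithfulSMul.algebraMap_eq_zero_iff]
    intro h4
    apply hF0
    rw [h3, h4, C_0]
  set δ : ℝ := (∑ j, (w j : ℝ) - θ) / 2 with hδ
  have hδ0 : 0 < δ := by rw [hδ]; linarith
  have k1 := fld3irr Upc.t_UPC Cup.t_CUP Ovl.t_OVL s_nrm φ hd F κ hhom hirr hdist hκ w hw hδ0
  have k2 : AA fun Q : ℙ K (Fin (m + 1) → K) => ∀ l ∈ (Finset.univ : Finset (Fin t)),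
      idealHeight (F' l) (G' l) (κ' l) (ε' l) Q.rep ≤ δ / (Λ * t + 1) * hgt Q.rep :=
    AA.all _ fun l _ => idl Upc.t_UPC (hF' l) (hG' l) (hirr' l) (hcop l) (by positivity)
  refine (k1.and k2).mono fun Q hQ => ?_
  obtain ⟨⟨g1, g2⟩, g3⟩ := hQ
  refine ⟨g1, ?_⟩
  have hg0 := hgt0 Q.rep
  have g8 : Λ * ((∑ l, idealHeight (F' l) (G' l) (κ' l) (ε' l) Q.rep) / finrank ℚ K) ≤
      δ * hgt Q.rep := by
    have a1 : ∑ l, idealHeight (F' l) (G' l) (κ' l) (ε' l) Q.rep ≤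
        t * (δ / (Λ * t + 1) * hgt Q.rep) := by
      refine (Finset.sum_le_sum fun l hl => g3 l hl).trans ?_
      rw [Finset.sum_const, Finset.card_univ, Fintype.card_fin, nsmul_eq_mul]
    have a2 : 0 ≤ (t : ℝ) * (δ / (Λ * t + 1) * hgt Q.rep) := by positivity
    have a3 : (∑ l, idealHeight (F' l) (G' l) (κ' l) (ε' l) Q.rep) / finrank ℚ K ≤
        t * (δ / (Λ * t + 1) * hgt Q.rep) := by
      rw [div_le_iff₀ hn0]
      calc _ ≤ _ := a1
        _ = (t : ℝ) * (δ / (Λ * t + 1) * hgt Q.rep) * 1 := (mul_one _).symm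
        _ ≤ _ := mul_le_mul_of_nonneg_left hn1 a2
    refine (mul_le_mul_of_nonneg_left a3 hΛ).trans ?_
    have a4 : Λ * (t * (δ / (Λ * t + 1) * hgt Q.rep)) =
        (Λ * t) / (Λ * t + 1) * (δ * hgt Q.rep) := by
      field_simp
    rw [a4]
    refine mul_le_of_le_one_left (by positivity) ?_
    rw [div_le_one (by positivity)]
    linarith
  have g10 : ∑ j, (w j : ℝ) = θ + 2 * δ := by
    rw [hδ]
    ring
  rw [g10] at g2
  have g11 : (θ + 2 * δ - δ) * hgt Q.rep = θ * hgt Q.rep + δ * hgt Q.rep := by ring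
  linarith

/-- the primes above `S` -/
lemma cnt_S {q : ℕ} (F : Fin q → MvPolynomial (Fin (m + 1)) (𝓞 K)) (κ : Fin q → ℕ)
    {x : Fin (m + 1) → K} (hx : x ≠ 0) (h0 : ∀ j, aeval x (F j) ≠ 0) (S : Finset ℕ)
    (hS : ∀ p ∈ S, p.Prime) :
    cnt K ∅ F κ Finset.univ x ≤ cnt K S F κ Finset.univ x + ∑ p ∈ S, Real.log p := by
  classical
  have hn : 0 < finrank ℚ K := finrank_pos
  have hn0 : (0 : ℝ) < finrank ℚ K := by exact_mod_cast hn
  have hfin : {v : HeightOneSpectrum (𝓞 K) | ∃ j, 0 < lam K (F j) (κ j) x v}.Finite := by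
    refine (Set.finite_iUnion fun j => Pool.Agent.N752.HY.Ext.lam_support (L := K)
      (κ := κ j) hx (h0 j)).subset ?_
    rintro v ⟨j, hj⟩
    exact Set.mem_iUnion.2 ⟨j, hj.ne'⟩
  have h1 : ∀ S' : Finset ℕ, cnt K S' F κ Finset.univ x =
      (∑ v ∈ hfin.toFinset, if Outside S' v then Real.log (Ideal.absNorm v.asIdeal : ℝ) else 0) /
        finrank ℚ K := by
    intro S'
    unfold cnt
    rw [finsum_eq_sum_of_support_subset (s := hfin.toFinset)]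
    · congr 1
      refine Finset.sum_congr rfl fun v hv => ?_
      obtain ⟨i, hi⟩ := (Set.Finite.mem_toFinset _).1 hv
      refine if_congr ?_ rfl rfl
      exact ⟨fun h => h.1, fun h => ⟨h, i, Finset.mem_univ i, hi⟩⟩
    · intro v hv
      rw [Finset.mem_coe, Set.Finite.mem_toFinset]
      by_contra hc
      refine hv (if_neg ?_)
      rintro ⟨-, i, -, hi⟩
      exact hc ⟨i, hi⟩
  have h3 := Pool.Agent.N752.HY.Ext.sum_above (L := K) S hS
    (hfin.toFinset.filter fun v => ¬ Outside S v) fun v hv => (Finset.mem_filter.1 hv).2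
  rw [Finset.sum_filter] at h3
  rw [h1, h1, div_add' _ _ _ hn0.ne']
  refine div_le_div_of_nonneg_right ?_ hn0.le
  rw [mul_comm (∑ p ∈ S, Real.log (p : ℝ))]
  refine le_trans ?_ (add_le_add (le_refl _) h3)
  rw [← Finset.sum_add_distrib]
  refine Finset.sum_le_sum fun v _ => ?_
  have h4 : 0 ≤ Real.log (Ideal.absNorm v.asIdeal : ℝ) := Real.log_natCast_nonneg _
  have h5 : Outside ∅ v := fun p hp => absurd hp (Finset.notMem_empty p)
  rw [if_pos h5]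
  by_cases h : Outside S v
  · rw [if_pos h, if_neg (not_not.2 h), add_zero]
  · rw [if_neg h, if_pos h, zero_add]

/-- the points of `ℙ^m(K)` of height at most `T` -/
def Pts (K : Type) [Field K] [NumberField K] (m : ℕ) (T : ℝ) : Set (ℙ K (Fin (m + 1) → K)) :=
  {Q | hgt Q.rep ≤ T}

lemma pts_mono : Monotone (Pts K m) := fun _ _ h _ hQ => le_trans hQ h

lemma pts_fin (T : ℝ) : (Pts K m T).Finite := by
  have hn : 0 < finrank ℚ K := finrank_pos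
  have hn0 : (0 : ℝ) < finrank ℚ K := by exact_mod_cast hn
  obtain ⟨C', -, h⟩ := Pool.Agent.N752.RD.pts_upper K m
  have h1 := (h (Real.exp (max T 0)) (Real.one_le_exp (le_max_right _ _))).1
  refine h1.subset fun Q hQ => ?_
  have hQ' : hgt Q.rep ≤ T := hQ
  have hmh : 1 ≤ Q.mulHeight := by
    rw [← Q.mk_rep, Projectivization.mulHeight_mk]
    exact one_le_mulHeight _
  rw [Set.mem_ofPred_eq, ← Real.exp_nat_mul, ← Real.log_le_iff_le_exp (by linarith)]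
  rw [hgt_rep, div_le_iff₀ hn0] at hQ'
  have h2 := mul_le_mul_of_nonneg_right (le_max_left T 0) hn0.le
  linarith

lemma pts_low (hm : 1 ≤ m) : ∃ c T₀ : ℝ, 0 < c ∧ ∀ T : ℝ, T₀ ≤ T →
    c * Real.exp (finrank ℚ K * (m + 1) * T) ≤ ((Pts K m T).ncard : ℝ) := by
  have hn : 0 < finrank ℚ K := finrank_pos
  have hn0 : (0 : ℝ) < finrank ℚ K := by exact_mod_cast hn
  obtain ⟨c, B₀, hc, h⟩ := s_low K inferInstance inferInstance m hm
  refine ⟨c, Real.log (max B₀ 1), hc, fun T hT => ?_⟩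
  have hB : B₀ ≤ Real.exp T := by
    rw [Real.log_le_iff_le_exp (lt_of_lt_of_le one_pos (le_max_right _ _))] at hT
    exact (le_max_left _ _).trans hT
  obtain ⟨F, h1, h2⟩ := h (Real.exp T) hB
  have h3 : (F : Set (ℙ K (Fin (m + 1) → K))) ⊆ Pts K m T := by
    intro Q hQ
    have h4 := h1 Q hQ
    have hmh : 1 ≤ Q.mulHeight := by
      rw [← Q.mk_rep, Projectivization.mulHeight_mk]
      exact one_le_mulHeight _
    show hgt Q.rep ≤ T
    rw [hgt_rep, div_le_iff₀ hn0]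
    rw [← Real.exp_nat_mul, ← Real.log_le_iff_le_exp (by linarith)] at h4
    linarith
  have h4 := Set.ncard_le_ncard h3 (pts_fin T)
  rw [Set.ncard_coe_finset] at h4
  rw [← Real.exp_nat_mul] at h2
  refine le_trans (le_of_eq ?_) (h2.trans (by exact_mod_cast h4))
  push_cast
  rfl

/-- the number of the exceptions -/
lemma few_of_aa {P : ℙ K (Fin (m + 1) → K) → Prop} (h : AA P) :
    ∃ c C : ℝ, 0 < c ∧ ∀ T : ℝ, 0 ≤ T → (({Q | ¬ P Q} ∩ Pts K m T).ncard : ℝ) ≤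
      C * Real.exp (((finrank ℚ K : ℝ) * (m + 1) - c) * T) := by
  have hn : 0 < finrank ℚ K := finrank_pos
  have hn0 : (0 : ℝ) < finrank ℚ K := by exact_mod_cast hn
  obtain ⟨c, C, hc, -, h⟩ := h
  refine ⟨c, C, hc, fun T hT => ?_⟩
  obtain ⟨Z, hZ, h⟩ := h T hT
  refine le_trans ?_ hZ
  have hsub : {Q | ¬ P Q} ∩ Pts K m T ⊆ (Z : Set (ℙ K (Fin (m + 1) → K))) := by
    rintro Q ⟨hQ1, hQ2⟩
    by_contra hc
    refine hQ1 (h Q ?_ hc)
    have hQ' : hgt Q.rep ≤ T := hQ2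
    rw [hgt_rep, div_le_iff₀ hn0] at hQ'
    linarith
  have h1 := Set.ncard_le_ncard hsub Z.finite_toSet
  rw [Set.ncard_coe_finset] at h1
  exact_mod_cast h1

lemma dens_of_aa (hm : 1 ≤ m) {P : ℙ K (Fin (m + 1) → K) → Prop} (h : AA P) :
    DensityZero (Pts K m) {Q | ¬ P Q} := by
  obtain ⟨c, C, hc, h⟩ := few_of_aa h
  obtain ⟨c₁, T₁, hc₁, hlow⟩ := pts_low (K := K) hm
  intro ε hε
  have h1 : Filter.Tendsto (fun T : ℝ => C * Real.exp (-(c * T))) Filter.atTop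
      (nhds (C * 0)) := by
    refine Filter.Tendsto.const_mul C ?_
    refine Real.tendsto_exp_neg_atTop_nhds_zero.comp ?_
    exact Filter.tendsto_id.const_mul_atTop hc
  rw [mul_zero] at h1
  have h2 : 0 < ε * c₁ := by positivity
  obtain ⟨T₂, hT₂⟩ := Filter.eventually_atTop.1 (h1.eventually_lt_const h2)
  refine ⟨max (max T₁ T₂) 0, fun T hT => ?_⟩
  have hT1 : T₁ ≤ T := (le_max_left _ _).trans ((le_max_left _ _).trans hT)
  have hT2 : T₂ ≤ T := (le_max_right _ _).trans ((le_max_left _ _).trans hT)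
  have hT0 : 0 ≤ T := (le_max_right _ _).trans hT
  have h3 := h T hT0
  have h4 := hlow T hT1
  have h5 := (hT₂ T hT2).le
  have e : C * Real.exp (((finrank ℚ K : ℝ) * (m + 1) - c) * T) =
      (C * Real.exp (-(c * T))) * Real.exp (finrank ℚ K * (m + 1) * T) := by
    rw [mul_assoc, ← Real.exp_add]
    congr 2
    ring
  rw [e] at h3
  have h6 := mul_le_mul_of_nonneg_right h5 (Real.exp_pos (finrank ℚ K * (m + 1) * T)).le
  have h7 := mul_le_mul_of_nonneg_left h4 hε.le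
  linarith

lemma countable_poly (K : Type) [Field K] [NumberField K] (m : ℕ) :
    Countable (MvPolynomial (Fin (m + 1)) (𝓞 K)) := by
  have hcount : Countable K := (Module.finBasis ℚ K).equivFun.toEquiv.countable_iff.2 inferInstance
  have h1 : Countable (𝓞 K) := Function.Injective.countable (RingOfIntegers.coe_injective (K := K))
  let f : MvPolynomial (Fin (m + 1)) (𝓞 K) → ((Fin (m + 1) →₀ ℕ) →₀ 𝓞 K) := fun p =>
    ⟨p.support, fun s => p.coeff s, fun s => MvPolynomial.mem_support_iff⟩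
  refine Function.Injective.countable (f := f) fun p p' h => ?_
  refine MvPolynomial.ext _ _ fun s => ?_
  exact DFunLike.congr_fun h s

/-- the data -/
abbrev Dat (K : Type) [Field K] [NumberField K] (m : ℕ) : Type :=
  (Σ q : ℕ, (Fin q → MvPolynomial (Fin (m + 1)) (𝓞 K)) × (Fin q → ℕ) × (Fin q → ℕ)) ×
    (Σ t : ℕ, (Fin t → MvPolynomial (Fin (m + 1)) (𝓞 K)) ×
      (Fin t → MvPolynomial (Fin (m + 1)) (𝓞 K)) × (Fin t → ℕ) × (Fin t → ℕ)) × ℕ × ℕ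

/-- the conditions on the data -/
def AdmK (φ : K →+* ℂ) {q t : ℕ} (F : Fin q → MvPolynomial (Fin (m + 1)) (𝓞 K))
    (κ w : Fin q → ℕ) (F' G' : Fin t → MvPolynomial (Fin (m + 1)) (𝓞 K)) (κ' ε' : Fin t → ℕ) :
    Prop :=
  (∀ j, (F j).IsHomogeneous (κ j)) ∧
    (∀ j, Irreducible (map (algebraMap (𝓞 K) K) (F j))) ∧
    (∀ i j, i ≠ j →
      ¬ Associated (map (algebraMap (𝓞 K) K) (F i)) (map (algebraMap (𝓞 K) K) (F j))) ∧
    (∀ j, HasW (map (φ.comp (algebraMap (𝓞 K) K)) (F j)) (κ j) (w j)) ∧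
    (∀ l, (F' l).IsHomogeneous (κ' l)) ∧ (∀ l, (G' l).IsHomogeneous (ε' l)) ∧
    (∀ l, Irreducible (map (algebraMap (𝓞 K) K) (F' l))) ∧
    ∀ l, ¬ map (algebraMap (𝓞 K) K) (F' l) ∣ map (algebraMap (𝓞 K) K) (G' l)

theorem aa_of_adm (φ : K →+* ℂ) (hd : 3 ≤ finrank ℚ K * (m + 1)) {q t : ℕ}
    {F : Fin q → MvPolynomial (Fin (m + 1)) (𝓞 K)} {κ w : Fin q → ℕ}
    {F' G' : Fin t → MvPolynomial (Fin (m + 1)) (𝓞 K)} {κ' ε' : Fin t → ℕ}
    (hA : AdmK φ F κ w F' G' κ' ε') (Λ : ℝ) (hΛ : 0 ≤ Λ) (θ : ℝ) (hθ : θ < ∑ j, (w j : ℝ)) :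
    AA fun Q : ℙ K (Fin (m + 1) → K) => Good F κ F' G' κ' ε' Λ θ Q.rep := by
  obtain ⟨h1, h2, h3, h4, h5, h6, h7, h8⟩ := hA
  exact fld4 φ hd F κ w h1 h2 h3 h4 F' G' κ' ε' h5 h6 h7 h8 Λ hΛ θ hθ

/-- one exceptional set -/
theorem univK (φ : K →+* ℂ) (hm : 1 ≤ m) (hd : 3 ≤ finrank ℚ K * (m + 1)) :
    ∃ E₀ : Set (ℙ K (Fin (m + 1) → K)), DensityZero (Pts K m) E₀ ∧
      ∀ (q t : ℕ) (F : Fin q → MvPolynomial (Fin (m + 1)) (𝓞 K)) (κ w : Fin q → ℕ)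
        (F' G' : Fin t → MvPolynomial (Fin (m + 1)) (𝓞 K)) (κ' ε' : Fin t → ℕ),
        AdmK φ F κ w F' G' κ' ε' → ∀ (Λ : ℕ) (θ : ℝ), θ < ∑ j, (w j : ℝ) →
        ∃ T : ℝ, ∀ Q : ℙ K (Fin (m + 1) → K), Q ∉ E₀ → T < hgt Q.rep →
          Good F κ F' G' κ' ε' Λ θ Q.rep := by
  classical
  have hcount := countable_poly K m
  have hne : Nonempty (Dat K m) :=
    ⟨(⟨0, fun i => i.elim0, fun i => i.elim0, fun i => i.elim0⟩,
      ⟨0, fun i => i.elim0, fun i => i.elim0, fun i => i.elim0, fun i => i.elim0⟩, 0, 0)⟩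
  obtain ⟨f, hf⟩ := exists_surjective_nat (Dat K m)
  let good : Dat K m → Prop := fun s =>
    AdmK φ s.1.2.1 s.1.2.2.1 s.1.2.2.2 s.2.1.2.1 s.2.1.2.2.1 s.2.1.2.2.2.1 s.2.1.2.2.2.2
  let Es : Dat K m → Set (ℙ K (Fin (m + 1) → K)) := fun s =>
    if good s then {Q | ¬ Good s.1.2.1 s.1.2.2.1 s.2.1.2.1 s.2.1.2.2.1 s.2.1.2.2.2.1 s.2.1.2.2.2.2
      s.2.2.2 ((∑ j, (s.1.2.2.2 j : ℝ)) - 1 / ((s.2.2.1 : ℝ) + 1)) Q.rep} else ∅
  have hEs : ∀ s : Dat K m, DensityZero (Pts K m) (Es s) := by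
    intro s
    by_cases hg : good s
    · have e1 : Es s = {Q | ¬ Good s.1.2.1 s.1.2.2.1 s.2.1.2.1 s.2.1.2.2.1 s.2.1.2.2.2.1
          s.2.1.2.2.2.2 s.2.2.2 ((∑ j, (s.1.2.2.2 j : ℝ)) - 1 / ((s.2.2.1 : ℝ) + 1)) Q.rep} :=
        if_pos hg
      rw [e1]
      refine dens_of_aa hm (aa_of_adm φ hd hg _ (Nat.cast_nonneg _) _ ?_)
      have : 0 < 1 / ((s.2.2.1 : ℝ) + 1) := by positivity
      linarith
    · have e1 : Es s = ∅ := if_neg hg
      rw [e1]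
      intro ε hε
      refine ⟨0, fun T _ => ?_⟩
      rw [Set.empty_inter, Set.ncard_empty, Nat.cast_zero]
      positivity
  obtain ⟨E₀, hE₀, hall⟩ := diag (Pts K m) pts_mono pts_fin (fun i => Es (f i))
    fun i => hEs (f i)
  refine ⟨E₀, hE₀, fun q t F κ w F' G' κ' ε' hA Λ θ hθ => ?_⟩
  obtain ⟨j, hj⟩ : ∃ j : ℕ, 1 / ((j : ℝ) + 1) < (∑ i, (w i : ℝ)) - θ :=
    exists_nat_one_div_lt (by linarith)
  obtain ⟨i, hi⟩ := hf (⟨q, F, κ, w⟩, ⟨t, F', G', κ', ε'⟩, j, Λ)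
  obtain ⟨T, hT⟩ := hall i
  rw [hi] at hT
  have hg : good (⟨q, F, κ, w⟩, ⟨t, F', G', κ', ε'⟩, j, Λ) := hA
  have e1 : Es (⟨q, F, κ, w⟩, ⟨t, F', G', κ', ε'⟩, j, Λ) = {Q | ¬ Good F κ F' G' κ' ε' Λ
      ((∑ i, (w i : ℝ)) - 1 / ((j : ℝ) + 1)) Q.rep} := if_pos hg
  rw [e1] at hT
  refine ⟨T, fun Q hQE hTQ => ?_⟩
  have hg2 : Good F κ F' G' κ' ε' Λ ((∑ i, (w i : ℝ)) - 1 / ((j : ℝ) + 1)) Q.rep := by
    by_contra hbad
    refine hQE (hT Q hbad ?_)
    intro hh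
    exact absurd (show hgt Q.rep ≤ T from hh) (not_le.2 hTQ)
  refine ⟨hg2.1, le_trans ?_ hg2.2⟩
  have := mul_le_mul_of_nonneg_right (show θ ≤ (∑ i, (w i : ℝ)) - 1 / ((j : ℝ) + 1) by linarith)
    (hgt0 Q.rep)
  linarith

end Pool.Agent.N752.HY.KPts
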