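import Mathlib

set_option autoImplicit false

/-!
Local heights, proximity functions and truncated counting functions relative to hypersurfaces of
projective space, over a number field `L` which contains the field `K` of the point.
-/

namespace Pool.Agent.N752.HY

open NumberField IsDedekindDomain MvPolynomial Module

variable {K : Type} [Field K] [NumberField K] {m q : ℕ}

/-- The local height `log (|x|_w ^ κ / |F(x)|_w)` of `x` relative to the hypersurface `F = 0`, `F` a
form of degree `κ`, at the prime `w` of `L`, for the absolute value `|z|_w = N(w) ^ (- w(z))`. -/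
noncomputable def lam (L : Type) [Field L] [NumberField L] [Algebra K L]
    (F : MvPolynomial (Fin (m + 1)) (𝓞 K)) (κ : ℕ) (x : Fin (m + 1) → K)
    (w : HeightOneSpectrum (𝓞 L)) : ℝ :=
  Real.log ((⨆ j, FinitePlace.mk w (algebraMap K L (x j))) ^ κ /
    FinitePlace.mk w (algebraMap K L (aeval x F)))

/-- The local height `log (|x|_w ^ κ / |F(x)|_w)` at the infinite place `w` of `L`. -/
noncomputable def lamInf (L : Type) [Field L] [NumberField L] [Algebra K L]
    (F : MvPolynomial (Fin (m + 1)) (𝓞 K)) (κ : ℕ) (x : Fin (m + 1) → K)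
    (w : InfinitePlace L) : ℝ :=
  Real.log ((⨆ j, w (algebraMap K L (x j))) ^ κ / w (algebraMap K L (aeval x F)))

/-- The prime `w` of `L` is not above a prime number in `S`. -/
def Outside {L : Type} [Field L] [NumberField L] (S : Finset ℕ) (w : HeightOneSpectrum (𝓞 L)) :
    Prop := ∀ p ∈ S, (p : 𝓞 L) ∉ w.asIdeal

open Classical in
/-- The truncated counting function: the sum of `log N(w) / [L : ℚ]` over the primes `w` of `L` not
above `S` at which the local height relative to some `F_i = 0`, `i ∈ J`, is positive. -/
noncomputable def cnt (L : Type) [Field L] [NumberField L] [Algebra K L] (S : Finset ℕ)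
    (F : Fin q → MvPolynomial (Fin (m + 1)) (𝓞 K)) (κ : Fin q → ℕ) (J : Finset (Fin q))
    (x : Fin (m + 1) → K) : ℝ :=
  (∑ᶠ w : HeightOneSpectrum (𝓞 L), if Outside S w ∧ ∃ i ∈ J, 0 < lam L (F i) (κ i) x w
    then Real.log (Ideal.absNorm w.asIdeal) else 0) / finrank ℚ L

/-- The proximity function: the sum of the local heights relative to `F = 0` at the places of `L` above
`S` and infinity, divided by `[L : ℚ]`. -/
noncomputable def prox (L : Type) [Field L] [NumberField L] [Algebra K L] (S : Finset ℕ)
    (F : MvPolynomial (Fin (m + 1)) (𝓞 K)) (κ : ℕ) (x : Fin (m + 1) → K) : ℝ :=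
  (∑ w : InfinitePlace L, (w.mult : ℝ) * lamInf L F κ x w +
    ∑ᶠ w ∈ {w : HeightOneSpectrum (𝓞 L) | ¬ Outside S w}, lam L F κ x w) / finrank ℚ L

/-- All intersection numbers of `x` and `F_i = 0` at the primes of `L` not above `S` are divisible by
`e_i`. -/
def Integral (L : Type) [Field L] [NumberField L] [Algebra K L] (S : Finset ℕ)
    (F : Fin q → MvPolynomial (Fin (m + 1)) (𝓞 K)) (κ : Fin q → ℕ) (e : Fin q → ℕ)
    (x : Fin (m + 1) → K) : Prop :=
  ∀ w : HeightOneSpectrum (𝓞 L), Outside S w → ∀ i, ∃ t : ℕ,
    lam L (F i) (κ i) x w = t * e i * Real.log (Ideal.absNorm w.asIdeal)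

/-- the logarithmic discriminant `log |disc L| / [L : ℚ]` -/
noncomputable def ldisc (L : Type) [Field L] [NumberField L] : ℝ :=
  Real.log |(discr L : ℝ)| / finrank ℚ L

/-- the absolute logarithmic height -/
noncomputable def hgt (x : Fin (m + 1) → K) : ℝ := Height.logHeight x / finrank ℚ K

end Pool.Agent.N752.HY
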