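import Mathlib
import Pool.Agent.N752.HY.Def

/-!
Statements on proximity functions of forms.
-/

set_option autoImplicit false

namespace Pool.Agent.N752.HY

open NumberField IsDedekindDomain MvPolynomial Module

/-- the absolute values at the primes above `S` in terms of the norm -/
def S_PL1 : Prop := ∀ (K : Type) (_ : Field K) (_ : NumberField K) (S : Finset ℕ),
  (∀ p ∈ S, p.Prime) → ∃ C : ℝ, 0 ≤ C ∧ ∀ (f : 𝓞 K) (E : ℝ), f ≠ 0 → 0 ≤ E →
    (∀ p ∈ S, (padicValInt p (Algebra.norm ℤ f) : ℝ) * Real.log p ≤ E) →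
    ∑ᶠ v ∈ {v : HeightOneSpectrum (𝓞 K) | ¬ Outside S v}, -Real.log (FinitePlace.mk v (f : K)) ≤
      C * E

/-- the proximity function in terms of an integral representative -/
def S_PL2 : Prop := ∀ (K : Type) (_ : Field K) (_ : NumberField K) (S : Finset ℕ),
  (∀ p ∈ S, p.Prime) → ∀ (m κ : ℕ) (F : MvPolynomial (Fin (m + 1)) (𝓞 K)),
  F.IsHomogeneous κ → ∀ (x : Fin (m + 1) → K) (y : Fin (m + 1) → 𝓞 K) (l : K) (R : ℝ),
  l ≠ 0 → (∀ j, (y j : K) = l * x j) → eval y F ≠ 0 → 0 < R →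
  (∀ (w : InfinitePlace K) (j : Fin (m + 1)), w (y j : K) ≤ R) →
  finrank ℚ K * prox K S F κ x ≤ κ * (finrank ℚ K * Real.log R) -
    Real.log |(Algebra.norm ℤ (eval y F) : ℝ)| +
    ∑ᶠ v ∈ {v : HeightOneSpectrum (𝓞 K) | ¬ Outside S v},
      -Real.log (FinitePlace.mk v ((eval y F : 𝓞 K) : K))

end Pool.Agent.N752.HY
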