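import Mathlib
import Pool.Agent.N752.HY.StmP

set_option autoImplicit false

/-!
PX/PL1 (helper356): absolute values above `S` bounded by the `p`-adic valuation of the norm.
-/

namespace Pool.Agent.N752.HY.Pl1

open NumberField IsDedekindDomain Module

variable {K : Type} [Field K] [NumberField K]

theorem mk_le_one (v : HeightOneSpectrum (𝓞 K)) (a : 𝓞 K) : FinitePlace.mk v (a : K) ≤ 1 := by
  rw [FinitePlace.mk_apply]
  exact FinitePlace.norm_le_one K v a

theorem mk_eq_one (v : HeightOneSpectrum (𝓞 K)) {a : 𝓞 K} :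
    FinitePlace.mk v (a : K) = 1 ↔ a ∉ v.asIdeal := by
  rw [FinitePlace.mk_apply]
  exact FinitePlace.norm_eq_one_iff_notMem K v a

theorem mk_pos (v : HeightOneSpectrum (𝓞 K)) {a : 𝓞 K} (ha : a ≠ 0) :
    0 < FinitePlace.mk v (a : K) := by
  have h : FinitePlace.mk v (a : K) ≠ 0 := by
    rw [Ne, map_eq_zero]
    exact_mod_cast ha
  exact lt_of_le_of_ne (apply_nonneg _ _) (Ne.symm h)

theorem neg_log_nonneg (v : HeightOneSpectrum (𝓞 K)) (a : 𝓞 K) :
    0 ≤ -Real.log (FinitePlace.mk v (a : K)) :=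
  neg_nonneg.2 (Real.log_nonpos (apply_nonneg _ _) (mk_le_one v a))

theorem fin_not_outside (S : Finset ℕ) (hS : ∀ p ∈ S, p.Prime) :
    {v : HeightOneSpectrum (𝓞 K) | ¬ Outside S v}.Finite := by
  have h : {v : HeightOneSpectrum (𝓞 K) | ¬ Outside S v} ⊆
      ⋃ p ∈ S, {v : HeightOneSpectrum (𝓞 K) | v.asIdeal ∣ Ideal.span {(p : 𝓞 K)}} := by
    intro v hv
    simp only [Outside, Set.mem_setOf_eq, not_forall, not_not] at hv
    obtain ⟨p, hp, hpv⟩ := hv
    simp only [Set.mem_iUnion]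
    exact ⟨p, hp, Ideal.dvd_span_singleton.2 hpv⟩
  refine Set.Finite.subset (Set.Finite.biUnion S.finite_toSet fun p hp => ?_) h
  refine Ideal.finite_factors ?_
  rw [Ne, Ideal.zero_eq_bot, Ideal.span_singleton_eq_bot]
  exact_mod_cast (hS p hp).ne_zero

theorem local_bound (v : HeightOneSpectrum (𝓞 K)) {p : ℕ} (hp : p.Prime)
    (hpv : (p : 𝓞 K) ∈ v.asIdeal) {f : 𝓞 K} (hf : f ≠ 0) :
    -Real.log (FinitePlace.mk v (f : K)) ≤ (padicValInt p (Algebra.norm ℤ f) : ℝ) *
      -Real.log (FinitePlace.mk v (((p : ℕ) : 𝓞 K) : K)) := by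
  set n : ℕ := (Algebra.norm ℤ f).natAbs with hn
  have hn0 : n ≠ 0 := by
    rw [hn, Ne, Int.natAbs_eq_zero]
    exact Algebra.norm_ne_zero_iff.2 hf
  have h1 : ((n : ℕ) : 𝓞 K) ∈ Ideal.span {f} := by
    have := Ideal.absNorm_mem (Ideal.span {f})
    rwa [Ideal.absNorm_span_singleton] at this
  obtain ⟨g, hg⟩ := Ideal.mem_span_singleton'.1 h1
  set a : ℕ := n.factorization p with ha
  have hval : padicValInt p (Algebra.norm ℤ f) = a := by
    rw [padicValInt, ha, Nat.factorization_def n hp]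
  rw [hval]
  set u : ℕ := n / p ^ a with hu
  have hnu : n = p ^ a * u := (Nat.ordProj_mul_ordCompl_eq_self n p).symm
  have hcop : Nat.Coprime p u := Nat.coprime_ordCompl hp hn0
  have huv : ((u : ℕ) : 𝓞 K) ∉ v.asIdeal := by
    intro hmem
    have h2 : IsCoprime (p : ℤ) (u : ℤ) := Nat.isCoprime_iff_coprime.2 hcop
    obtain ⟨x, y, hxy⟩ := h2
    have h3 : (1 : 𝓞 K) ∈ v.asIdeal := by
      have h4 : (1 : 𝓞 K) = (x : 𝓞 K) * (p : 𝓞 K) + (y : 𝓞 K) * (u : 𝓞 K) := by
        have := congrArg (fun t : ℤ => (t : 𝓞 K)) hxy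
        simp only [Int.cast_add, Int.cast_mul, Int.cast_natCast, Int.cast_one] at this
        exact this.symm
      rw [h4]
      exact v.asIdeal.add_mem (v.asIdeal.mul_mem_left _ hpv) (v.asIdeal.mul_mem_left _ hmem)
    exact v.isPrime.ne_top ((Ideal.eq_top_iff_one _).2 h3)
  have hu1 : FinitePlace.mk v (((u : ℕ) : 𝓞 K) : K) = 1 := (mk_eq_one v).2 huv
  have hprod : FinitePlace.mk v (g : K) * FinitePlace.mk v (f : K) =
      FinitePlace.mk v (((p : ℕ) : 𝓞 K) : K) ^ a := by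
    rw [← map_mul, ← map_pow]
    have h5 : ((g : K) * (f : K)) = ((((p : ℕ) : 𝓞 K) : K) ^ a) * (((u : ℕ) : 𝓞 K) : K) := by
      have := congrArg (fun t : 𝓞 K => (t : K)) hg
      simp only [map_mul, map_natCast] at this ⊢
      rw [this, hnu]
      push_cast
      rfl
    rw [h5, map_mul, hu1, mul_one]
  have hp0 : 0 < FinitePlace.mk v (((p : ℕ) : 𝓞 K) : K) := mk_pos v (by exact_mod_cast hp.ne_zero)
  have hf0 := mk_pos v hf
  have h6 : FinitePlace.mk v (((p : ℕ) : 𝓞 K) : K) ^ a ≤ FinitePlace.mk v (f : K) := by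
    rw [← hprod]
    exact mul_le_of_le_one_left hf0.le (mk_le_one v g)
  have h7 := Real.log_le_log (pow_pos hp0 a) h6
  rw [Real.log_pow] at h7
  linarith

theorem t_PL1 : S_PL1 := by
  intro K _ _ S hS
  have hT : {v : HeightOneSpectrum (𝓞 K) | ¬ Outside S v}.Finite := fin_not_outside S hS
  have hl2 : 0 < Real.log 2 := Real.log_pos (by norm_num)
  refine ⟨∑ v ∈ hT.toFinset, ∑ p ∈ S,
    -Real.log (FinitePlace.mk v (((p : ℕ) : 𝓞 K) : K)) / Real.log 2, ?_, ?_⟩
  · exact Finset.sum_nonneg fun v _ => Finset.sum_nonneg fun p _ =>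
      div_nonneg (neg_log_nonneg v _) hl2.le
  · intro f E hf hE hSE
    rw [finsum_mem_eq_finite_toFinset_sum _ hT, Finset.sum_mul]
    refine Finset.sum_le_sum fun v hv => ?_
    rw [Set.Finite.mem_toFinset] at hv
    simp only [Outside, Set.mem_setOf_eq, not_forall, not_not] at hv
    obtain ⟨p, hp, hpv⟩ := hv
    have h1 := local_bound v (hS p hp) hpv hf
    have hc := neg_log_nonneg v ((p : ℕ) : 𝓞 K)
    have h2 : (padicValInt p (Algebra.norm ℤ f) : ℝ) * Real.log 2 ≤ E := by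
      refine le_trans ?_ (hSE p hp)
      refine mul_le_mul_of_nonneg_left ?_ (Nat.cast_nonneg _)
      exact Real.log_le_log (by norm_num) (by exact_mod_cast (hS p hp).two_le)
    have h3 : (padicValInt p (Algebra.norm ℤ f) : ℝ) ≤ E / Real.log 2 := by
      rw [le_div_iff₀ hl2]
      exact h2
    calc -Real.log (FinitePlace.mk v (f : K))
        ≤ (padicValInt p (Algebra.norm ℤ f) : ℝ) *
          -Real.log (FinitePlace.mk v (((p : ℕ) : 𝓞 K) : K)) := h1
      _ ≤ E / Real.log 2 * -Real.log (FinitePlace.mk v (((p : ℕ) : 𝓞 K) : K)) :=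
          mul_le_mul_of_nonneg_right h3 hc
      _ = (-Real.log (FinitePlace.mk v (((p : ℕ) : 𝓞 K) : K)) / Real.log 2) * E := by ring
      _ ≤ (∑ p ∈ S, -Real.log (FinitePlace.mk v (((p : ℕ) : 𝓞 K) : K)) / Real.log 2) * E := by
          refine mul_le_mul_of_nonneg_right ?_ hE
          exact Finset.single_le_sum (f := fun p : ℕ =>
            -Real.log (FinitePlace.mk v (((p : ℕ) : 𝓞 K) : K)) / Real.log 2)
            (fun q _ => div_nonneg (neg_log_nonneg v _) hl2.le) hp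

end Pool.Agent.N752.HY.Pl1

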