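import Mathlib
import Pool.Agent.N752.HY.StmP

set_option autoImplicit false

/-!
PX/PL2 (helper849): the proximity function in terms of an integral representative.
-/

namespace Pool.Agent.N752.HY.Pl2

open NumberField IsDedekindDomain MvPolynomial Module

theorem hom_aeval {R A σ : Type} [CommSemiring R] [CommSemiring A] [Algebra R A] [Fintype σ]
    {F : MvPolynomial σ R} {κ : ℕ} (hF : F.IsHomogeneous κ) (t : A) (x : σ → A) :
    aeval (fun i => t * x i) F = t ^ κ * aeval x F := by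
  rw [aeval_def, aeval_def, eval₂_eq', eval₂_eq', Finset.mul_sum]
  refine Finset.sum_congr rfl fun d hd => ?_
  have hdeg : ∑ i, d i = κ := by
    have h1 : Finsupp.weight 1 d = κ := hF (mem_support_iff.1 hd)
    rw [Finsupp.weight_apply, Finsupp.sum_fintype _ _ fun i => by simp] at h1
    simpa using h1
  simp only [mul_pow, Finset.prod_mul_distrib]
  rw [Finset.prod_pow_eq_pow_sum, hdeg]
  ring

theorem hom_eval {A σ : Type} [CommSemiring A] [Fintype σ]
    {F : MvPolynomial σ A} {κ : ℕ} (hF : F.IsHomogeneous κ) (t : A) (x : σ → A) :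
    eval (fun i => t * x i) F = t ^ κ * eval x F := by
  have h := hom_aeval hF t x
  rw [aeval_eq_eval, aeval_eq_eval] at h
  exact h

section

variable {K : Type} [Field K] [NumberField K]

theorem mk_le_one (v : HeightOneSpectrum (𝓞 K)) (a : 𝓞 K) : FinitePlace.mk v (a : K) ≤ 1 := by
  rw [FinitePlace.mk_apply]
  exact FinitePlace.norm_le_one K v a

variable {m κ : ℕ} {F : MvPolynomial (Fin (m + 1)) (𝓞 K)} {x : Fin (m + 1) → K}
  {y : Fin (m + 1) → 𝓞 K} {l : K}

omit [NumberField K] in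
theorem aeval_y (hF : F.IsHomogeneous κ) (hy : ∀ j, (y j : K) = l * x j) :
    ((eval y F : 𝓞 K) : K) = l ^ κ * aeval x F := by
  rw [← hom_aeval hF]
  have h1 : (fun i => l * x i) = fun j => algebraMap (𝓞 K) K (y j) := funext fun j => (hy j).symm
  rw [h1]
  have h2 := MvPolynomial.aeval_algebraMap_apply K y F
  rw [aeval_eq_eval] at h2
  exact h2.symm

/-- the local heights in terms of the integral representative -/
theorem lam_eq (hF : F.IsHomogeneous κ) (hl : l ≠ 0) (hy : ∀ j, (y j : K) = l * x j)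
    (v : HeightOneSpectrum (𝓞 K)) :
    lam K F κ x v = Real.log ((⨆ j, FinitePlace.mk v (y j : K)) ^ κ /
      FinitePlace.mk v ((eval y F : 𝓞 K) : K)) := by
  unfold lam
  have hid : ∀ z : K, algebraMap K K z = z := fun z => rfl
  simp only [hid]
  have ha : FinitePlace.mk v l ≠ 0 := by
    have := (FinitePlace.pos_iff (w := FinitePlace.mk v)).2 hl
    exact this.ne'
  rw [aeval_y hF hy, map_mul, map_pow]
  have h1 : (⨆ j, FinitePlace.mk v (y j : K)) =
      FinitePlace.mk v l * ⨆ j, FinitePlace.mk v (x j) := by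
    rw [Real.mul_iSup_of_nonneg (apply_nonneg _ _)]
    refine iSup_congr fun j => ?_
    rw [hy, map_mul]
  rw [h1, mul_pow, mul_div_mul_left _ _ (pow_ne_zero _ ha)]

theorem lamInf_eq (hF : F.IsHomogeneous κ) (hl : l ≠ 0) (hy : ∀ j, (y j : K) = l * x j)
    (w : InfinitePlace K) :
    lamInf K F κ x w = Real.log ((⨆ j, w (y j : K)) ^ κ / w ((eval y F : 𝓞 K) : K)) := by
  unfold lamInf
  have hid : ∀ z : K, algebraMap K K z = z := fun z => rfl
  simp only [hid]
  have ha : w l ≠ 0 := (InfinitePlace.pos_iff.2 hl).ne'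
  rw [aeval_y hF hy, map_mul, map_pow]
  have h1 : (⨆ j, w (y j : K)) = w l * ⨆ j, w (x j) := by
    rw [Real.mul_iSup_of_nonneg (apply_nonneg _ _)]
    refine iSup_congr fun j => ?_
    rw [hy, map_mul]
  rw [h1, mul_pow, mul_div_mul_left _ _ (pow_ne_zero _ ha)]

theorem sup_le (v : HeightOneSpectrum (𝓞 K)) : (⨆ j, FinitePlace.mk v (y j : K)) ≤ 1 :=
  ciSup_le fun j => mk_le_one v (y j)

omit [NumberField K] in
/-- either `κ = 0` or some coordinate is not zero -/
theorem zero_or (hF : F.IsHomogeneous κ) (hf : eval y F ≠ 0) : κ = 0 ∨ ∃ j, y j ≠ 0 := by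
  by_cases hκ : κ = 0
  · exact Or.inl hκ
  · right
    by_contra hcon
    push Not at hcon
    apply hf
    have h1 := hom_eval hF (0 : 𝓞 K) y
    have h2 : (fun i => (0 : 𝓞 K) * y i) = y := by
      funext i
      rw [hcon i, zero_mul]
    rw [h2, zero_pow hκ, zero_mul] at h1
    exact h1

theorem lam_le (hF : F.IsHomogeneous κ) (hl : l ≠ 0) (hy : ∀ j, (y j : K) = l * x j)
    (hf : eval y F ≠ 0) (v : HeightOneSpectrum (𝓞 K)) :
    lam K F κ x v ≤ -Real.log (FinitePlace.mk v ((eval y F : 𝓞 K) : K)) := by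
  rw [lam_eq hF hl hy]
  have h3 : 0 < FinitePlace.mk v ((eval y F : 𝓞 K) : K) :=
    FinitePlace.pos_iff.2 (RingOfIntegers.coe_ne_zero_iff.2 hf)
  have h0 : 0 ≤ ⨆ j, FinitePlace.mk v (y j : K) := Real.iSup_nonneg fun j => apply_nonneg _ _
  have h4 : (⨆ j, FinitePlace.mk v (y j : K)) ^ κ ≤ 1 := pow_le_one₀ h0 (sup_le v)
  have h5 : 0 ≤ (⨆ j, FinitePlace.mk v (y j : K)) ^ κ := pow_nonneg h0 _
  rcases h5.eq_or_lt with h6 | h6
  · rw [← h6, zero_div, Real.log_zero]
    have := Real.log_nonpos h3.le (mk_le_one v (eval y F))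
    linarith
  · rw [Real.log_div h6.ne' h3.ne']
    have := Real.log_nonpos h5 h4
    linarith

theorem lamInf_le (hF : F.IsHomogeneous κ) (hl : l ≠ 0) (hy : ∀ j, (y j : K) = l * x j)
    (hf : eval y F ≠ 0) (w : InfinitePlace K) {R : ℝ}
    (hyR : ∀ j, w (y j : K) ≤ R) :
    lamInf K F κ x w ≤ κ * Real.log R - Real.log (w ((eval y F : 𝓞 K) : K)) := by
  rw [lamInf_eq hF hl hy]
  have h3 : 0 < w ((eval y F : 𝓞 K) : K) :=
    InfinitePlace.pos_iff.2 (RingOfIntegers.coe_ne_zero_iff.2 hf)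
  have h0 : 0 ≤ ⨆ j, w (y j : K) := Real.iSup_nonneg fun j => apply_nonneg _ _
  have h1 : (⨆ j, w (y j : K)) ≤ R := ciSup_le hyR
  have h4 : (⨆ j, w (y j : K)) ^ κ ≤ R ^ κ := pow_le_pow_left₀ h0 h1 κ
  have h5 : 0 < (⨆ j, w (y j : K)) ^ κ := by
    rcases zero_or hF hf with rfl | ⟨j, hj⟩
    · rw [pow_zero]; exact one_pos
    · refine pow_pos (lt_of_lt_of_le (b := w (y j : K)) ?_ ?_) κ
      · exact InfinitePlace.pos_iff.2 (RingOfIntegers.coe_ne_zero_iff.2 hj)
      · exact le_ciSup (f := fun j => w (y j : K)) (Set.finite_range _).bddAbove j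
  rw [Real.log_div h5.ne' h3.ne', ← Real.log_pow]
  have := Real.log_le_log h5 h4
  linarith

theorem fin_set (S : Finset ℕ) (hS : ∀ p ∈ S, p.Prime) :
    {v : HeightOneSpectrum (𝓞 K) | ¬ Outside S v}.Finite := by
  have h1 : {v : HeightOneSpectrum (𝓞 K) | ¬ Outside S v} ⊆
      ⋃ p ∈ S, {v : HeightOneSpectrum (𝓞 K) | v.asIdeal ∣ Ideal.span {(p : 𝓞 K)}} := by
    intro v hv
    have hv' : ¬ Outside S v := hv
    unfold Outside at hv'
    push Not at hv'
    obtain ⟨p, hp, hpv⟩ := hv'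
    refine Set.mem_iUnion₂.2 ⟨p, hp, ?_⟩
    change v.asIdeal ∣ Ideal.span {(p : 𝓞 K)}
    rw [Ideal.dvd_span_singleton]
    exact hpv
  refine Set.Finite.subset ?_ h1
  refine Set.Finite.biUnion (Finset.finite_toSet S) fun p hp => ?_
  refine Ideal.finite_factors ?_
  rw [Ne, Ideal.zero_eq_bot, Ideal.span_singleton_eq_bot]
  exact_mod_cast (hS p hp).ne_zero

end

theorem t_PL2 : S_PL2 := by
  intro K _ _ S hS m κ F hF x y l R hl hy hf hR hyR
  have hn0 : (finrank ℚ K : ℝ) ≠ 0 := by exact_mod_cast (finrank_pos (R := ℚ) (M := K)).ne'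
  unfold prox
  rw [mul_div_cancel₀ _ hn0]
  have hA := fin_set (K := K) S hS
  have h1 : ∑ᶠ v ∈ {v : HeightOneSpectrum (𝓞 K) | ¬ Outside S v}, lam K F κ x v ≤
      ∑ᶠ v ∈ {v : HeightOneSpectrum (𝓞 K) | ¬ Outside S v},
        -Real.log (FinitePlace.mk v ((eval y F : 𝓞 K) : K)) := by
    rw [finsum_mem_eq_finite_toFinset_sum _ hA, finsum_mem_eq_finite_toFinset_sum _ hA]
    exact Finset.sum_le_sum fun v _ => lam_le hF hl hy hf v
  have h2 : ∑ w : InfinitePlace K, (w.mult : ℝ) * lamInf K F κ x w ≤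
      κ * (finrank ℚ K * Real.log R) - Real.log |(Algebra.norm ℤ (eval y F) : ℝ)| := by
    have h3 : ∑ w : InfinitePlace K, (w.mult : ℝ) * lamInf K F κ x w ≤
        ∑ w : InfinitePlace K, (w.mult : ℝ) *
          (κ * Real.log R - Real.log (w ((eval y F : 𝓞 K) : K))) :=
      Finset.sum_le_sum fun w _ => mul_le_mul_of_nonneg_left
        (lamInf_le hF hl hy hf w (hyR w)) (Nat.cast_nonneg _)
    refine h3.trans (le_of_eq ?_)
    simp only [mul_sub]
    rw [Finset.sum_sub_distrib, ← Finset.sum_mul]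
    have h4 : ∑ w : InfinitePlace K, (w.mult : ℝ) = finrank ℚ K := by
      exact_mod_cast InfinitePlace.sum_mult_eq (K := K)
    have h5 : ∑ w : InfinitePlace K, (w.mult : ℝ) * Real.log (w ((eval y F : 𝓞 K) : K)) =
        Real.log |(Algebra.norm ℤ (eval y F) : ℝ)| := by
      have h6 := InfinitePlace.prod_eq_abs_norm ((eval y F : 𝓞 K) : K)
      have h7 : |(Algebra.norm ℤ (eval y F) : ℝ)| =
          ((|Algebra.norm ℚ ((eval y F : 𝓞 K) : K)| : ℚ) : ℝ) := by
        rw [← Algebra.coe_norm_int]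
        push_cast
        rfl
      rw [h7, ← h6, Real.log_prod]
      · refine Finset.sum_congr rfl fun w _ => ?_
        rw [Real.log_pow]
      · intro w _
        exact pow_ne_zero _ (InfinitePlace.pos_iff.2 (RingOfIntegers.coe_ne_zero_iff.2 hf)).ne'
    rw [h4, h5]
    ring
  linarith

end Pool.Agent.N752.HY.Pl2
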