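import Mathlib

set_option autoImplicit false

/-!
The weights of the components of a divisor.
-/

namespace Pool.Agent.N752.HY

open MvPolynomial

/-- `f` is the product of `κ` linear forms such that any `s ≥ 1` of them span a space of dimension
greater than `s / 3`. -/
def Lines {m : ℕ} (f : MvPolynomial (Fin (m + 1)) ℂ) (κ : ℕ) : Prop :=
  ∃ a : Fin κ → Fin (m + 1) → ℂ, f = ∏ i, ∑ j, C (a i j) * X j ∧
    ∀ s : Finset (Fin κ), s.Nonempty → s.card < 3 * Module.finrank ℂ (Submodule.span ℂ (a '' s))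

/-- `f` is the product of `κ` linear forms in general position: any `m + 1` of them (all of them, if
`κ ≤ m + 1`) are linearly independent. -/
def GenPos {m : ℕ} (f : MvPolynomial (Fin (m + 1)) ℂ) (κ : ℕ) : Prop :=
  ∃ a : Fin κ → Fin (m + 1) → ℂ, f = ∏ i, ∑ j, C (a i j) * X j ∧
    ∀ s : Finset (Fin κ), s.card ≤ m + 1 → LinearIndependent ℂ (fun i : s => a i)

open Classical in
/-- The weight of the component `f = 0` of degree `κ`. -/
noncomputable def wgt {m : ℕ} (f : MvPolynomial (Fin (m + 1)) ℂ) (κ : ℕ) : ℕ :=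
  if κ ≤ 2 ∨ Lines f κ then κ else if GenPos f κ then 2 * (m + 1) else 1

/-- the weight of a norm form of degree `κ` and rank `ρ` -/
def W2 (ρ κ : ℕ) : ℕ := if κ < 3 * ρ then κ else 2 * ρ

/-- `w` is an admissible weight for the irreducible component `f = 0` of degree `κ`: `w ≤ 1`, or
`w ≤ κ ≤ 2`, or `f` is a product of `κ` linear forms which span a space of dimension `ρ` and
`w ≤ κ` if `κ < 3 ρ`, `w ≤ 2 ρ` if `κ ≥ 3 ρ`. -/
def HasW {m : ℕ} (f : MvPolynomial (Fin (m + 1)) ℂ) (κ w : ℕ) : Prop :=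
  w ≤ 1 ∨ (w ≤ κ ∧ κ ≤ 2) ∨ ∃ a : Fin κ → Fin (m + 1) → ℂ, f = ∏ i, ∑ j, C (a i j) * X j ∧
    w ≤ W2 (Module.finrank ℂ (Submodule.span ℂ (Set.range a))) κ

end Pool.Agent.N752.HY
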