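import Pool.Agent.N752.HY.Fac

/-!
Factorisation of forms with squarefree product over a number field into irreducible integral forms
(refined version of `Fac.lean` by helper232).
-/

set_option autoImplicit false

namespace Pool.Agent.N752.HY.Fac3

open NumberField IsDedekindDomain MvPolynomial Module
open Pool.Agent.H691R3 (fv)
open Pool.Agent.TH905.VF (fv_lt_iff)
open Pool.Agent.N752.HY.Ext (aeval_le lam_def sup_pos' fv_int_le)
open Pool.Agent.N752.HY.Fac
open scoped Classical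

theorem t_FAC3 (K : Type) [Field K] [NumberField K] (m q : ℕ)
    (F : Fin q → MvPolynomial (Fin (m + 1)) (𝓞 K)) (κ : Fin q → ℕ)
    (hF : ∀ j, (F j).IsHomogeneous (κ j))
    (hsq : Squarefree (∏ j, map (algebraMap (𝓞 K) K) (F j))) :
    ∃ (q₁ : ℕ) (F₁ : Fin q₁ → MvPolynomial (Fin (m + 1)) (𝓞 K)) (κ₁ : Fin q₁ → ℕ) (S : Finset ℕ)
      (f : Fin q₁ → Fin q),
      (∀ p ∈ S, p.Prime) ∧ (∀ i, (F₁ i).IsHomogeneous (κ₁ i)) ∧
      (∀ i, Irreducible (map (algebraMap (𝓞 K) K) (F₁ i))) ∧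
      (∀ i i', i ≠ i' →
        ¬ Associated (map (algebraMap (𝓞 K) K) (F₁ i)) (map (algebraMap (𝓞 K) K) (F₁ i'))) ∧
      (∀ i, 1 ≤ κ₁ i) ∧
      (∀ i, map (algebraMap (𝓞 K) K) (F₁ i) ∣ map (algebraMap (𝓞 K) K) (F (f i))) ∧
      (∀ j, κ j = ∑ i with f i = j, κ₁ i) ∧
      (∀ x : Fin (m + 1) → K, (∀ i, aeval x (F₁ i) ≠ 0) → ∀ j, aeval x (F j) ≠ 0) ∧
      (∀ x : Fin (m + 1) → K, x ≠ 0 → (∀ j, aeval x (F j) ≠ 0) → ∀ v : HeightOneSpectrum (𝓞 K),
        Outside S v → (∃ i, 0 < lam K (F₁ i) (κ₁ i) x v) → ∃ j, 0 < lam K (F j) (κ j) x v) ∧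
      ∀ x : Fin (m + 1) → K, x ≠ 0 → (∀ j, aeval x (F j) ≠ 0) →
        (∀ i, aeval x (F₁ i) ≠ 0) ∧ ∀ v : HeightOneSpectrum (𝓞 K), Outside S v → ∀ j,
          0 < lam K (F j) (κ j) x v → ∃ i, f i = j ∧ 0 < lam K (F₁ i) (κ₁ i) x v := by
  have hprod0 : (∏ j, map (algebraMap (𝓞 K) K) (F j)) ≠ 0 := hsq.ne_zero
  have hF0 : ∀ j, F j ≠ 0 := by
    intro j h
    apply hprod0
    refine Finset.prod_eq_zero (Finset.mem_univ j) ?_
    rw [h, map_zero]
  choose l G κ₁ a b ha hb hG hirr hab using fun j => fac1 (F j) (κ j) (hF j) (hF0 j)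
  have hG0 : ∀ j i, G j i ≠ 0 := by
    intro j i h
    apply (hirr j i).ne_zero
    rw [h, map_zero]
  -- degrees
  have hdeg : ∀ j, κ j = ∑ i, κ₁ j i := by
    intro j
    have h1 : (C (a j) * F j).IsHomogeneous (κ j) := (hF j).C_mul _
    have h2 : (C (b j) * ∏ i, G j i).IsHomogeneous (∑ i, κ₁ j i) :=
      (IsHomogeneous.prod _ _ _ fun i _ => hG j i).C_mul _
    rw [hab j] at h1
    refine h1.inj_right h2 ?_
    refine mul_ne_zero ?_ (Finset.prod_ne_zero_iff.2 fun i _ => hG0 j i)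
    rw [Ne, C_eq_zero]
    exact hb j
  have hκ1 : ∀ j i, 1 ≤ κ₁ j i := by
    intro j i
    by_contra h
    have h0 : κ₁ j i = 0 := by omega
    have h1 := hG j i
    rw [h0] at h1
    have h2 : (G j i).totalDegree = 0 := h1.totalDegree (hG0 j i)
    have h3 := totalDegree_eq_zero_iff_eq_C.1 h2
    apply (hirr j i).not_isUnit
    rw [h3, map_C]
    apply IsUnit.map
    rw [isUnit_iff_ne_zero, Ne, FaithfulSMul.algebraMap_eq_zero_iff]
    intro h4
    apply hG0 j i
    rw [h3, h4, C_0]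
  -- the index set
  let ι := Σ j : Fin q, Fin (l j)
  let e : ι ≃ Fin (Fintype.card ι) := Fintype.equivFin ι
  set cc : 𝓞 K := ∏ j, a j * b j with hcc
  have hcc0 : cc ≠ 0 := Finset.prod_ne_zero_iff.2 fun j _ => mul_ne_zero (ha j) (hb j)
  -- evaluation
  have hev : ∀ (x : Fin (m + 1) → K) j, (algebraMap (𝓞 K) K (a j)) * aeval x (F j) =
      (algebraMap (𝓞 K) K (b j)) * ∏ i, aeval x (G j i) := by
    intro x j
    have h := congrArg (aeval x) (hab j)
    rw [map_mul, map_mul, map_prod, aeval_C, aeval_C] at h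
    exact h
  have hbK : ∀ j, algebraMap (𝓞 K) K (b j) ≠ 0 := fun j => by
    rw [Ne, FaithfulSMul.algebraMap_eq_zero_iff]
    exact hb j
  have hGx : ∀ x : Fin (m + 1) → K, (∀ j, aeval x (F j) ≠ 0) → ∀ j i, aeval x (G j i) ≠ 0 := by
    intro x hFx j i' h0
    have h1 := hev x j
    rw [Finset.prod_eq_zero (Finset.mem_univ i') h0, mul_zero] at h1
    rcases mul_eq_zero.1 h1 with h | h
    · rw [FaithfulSMul.algebraMap_eq_zero_iff] at h
      exact ha j h
    · exact hFx j h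
  have hfvp : ∀ (x : Fin (m + 1) → K) (v : HeightOneSpectrum (𝓞 K)),
      Outside (Ideal.absNorm (Ideal.span {cc})).primeFactors v → ∀ j,
      fv v (aeval x (F j)) = ∏ i, fv v (aeval x (G j i)) := by
    intro x v hv j
    have hcv := not_mem cc hcc0 v hv
    have hav : a j ∉ v.asIdeal := fun h => hcv (Ideal.mem_of_dvd _ ((Dvd.intro _ rfl).trans
      (Finset.dvd_prod_of_mem (fun j => a j * b j) (Finset.mem_univ j))) h)
    have hbv : b j ∉ v.asIdeal := fun h => hcv (Ideal.mem_of_dvd _ ((Dvd.intro_left _ rfl).trans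
      (Finset.dvd_prod_of_mem (fun j => a j * b j) (Finset.mem_univ j))) h)
    have h4 := congrArg (fv v) (hev x j)
    rw [map_mul, map_mul, map_prod] at h4
    have h5 : fv v (algebraMap (𝓞 K) K (a j)) = 1 := fv_one hav
    have h6 : fv v (algebraMap (𝓞 K) K (b j)) = 1 := fv_one hbv
    rw [h5, h6, one_mul, one_mul] at h4
    exact h4
  refine ⟨Fintype.card ι, fun i => G (e.symm i).1 (e.symm i).2,
    fun i => κ₁ (e.symm i).1 (e.symm i).2, (Ideal.absNorm (Ideal.span {cc})).primeFactors,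
    fun i => (e.symm i).1,
    fun p hp => Nat.prime_of_mem_primeFactors hp, fun i => hG _ _, fun i => hirr _ _, ?_,
    fun i => hκ1 _ _, ?_, ?_, ?_, ?_, ?_⟩
  · -- not associated
    intro i i' hii hass
    have hne : e.symm i ≠ e.symm i' := fun h => hii (e.symm.injective h)
    set g : ι → MvPolynomial (Fin (m + 1)) K :=
      fun p => map (algebraMap (𝓞 K) K) (G p.1 p.2) with hg
    have h1 : g (e.symm i) * g (e.symm i') ∣ ∏ p : ι, g p := by
      rw [← Finset.prod_pair hne]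
      exact Finset.prod_dvd_prod_of_subset _ _ _ (Finset.subset_univ _)
    have h2 : (∏ p : ι, g p) ∣ ∏ j, map (algebraMap (𝓞 K) K) (F j) := by
      rw [Fintype.prod_sigma]
      refine Finset.prod_dvd_prod_of_dvd _ _ fun j _ => ?_
      have h3 := congrArg (map (algebraMap (𝓞 K) K)) (hab j)
      rw [map_mul, map_mul, map_prod, map_C, map_C] at h3
      have hu : IsUnit (C (algebraMap (𝓞 K) K (a j)) : MvPolynomial (Fin (m + 1)) K) := by
        apply IsUnit.map
        rw [isUnit_iff_ne_zero, Ne, FaithfulSMul.algebraMap_eq_zero_iff]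
        exact ha j
      rw [← hu.dvd_mul_left, h3]
      exact dvd_mul_left _ _
    have h4 : g (e.symm i) * g (e.symm i) ∣ ∏ j, map (algebraMap (𝓞 K) K) (F j) :=
      (mul_dvd_mul_left _ hass.dvd).trans (h1.trans h2)
    exact (hirr _ _).not_isUnit (hsq _ h4)
  · -- divisors
    intro i
    have h3 := congrArg (map (algebraMap (𝓞 K) K)) (hab (e.symm i).1)
    rw [map_mul, map_mul, map_prod, map_C, map_C] at h3
    have hu : IsUnit (C (algebraMap (𝓞 K) K (a (e.symm i).1)) : MvPolynomial (Fin (m + 1)) K) := by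
      apply IsUnit.map
      rw [isUnit_iff_ne_zero, Ne, FaithfulSMul.algebraMap_eq_zero_iff]
      exact ha _
    rw [← hu.dvd_mul_left, h3]
    exact (Finset.dvd_prod_of_mem (fun i' => map (algebraMap (𝓞 K) K) (G (e.symm i).1 i'))
      (Finset.mem_univ (e.symm i).2)).trans (dvd_mul_left _ _)
  · -- degrees
    intro j
    have h1 : ∑ i with (e.symm i).1 = j, κ₁ (e.symm i).1 (e.symm i).2 =
        ∑ p : ι with p.1 = j, κ₁ p.1 p.2 := by
      rw [Finset.sum_filter, Finset.sum_filter]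
      exact Equiv.sum_comp e.symm (fun p : ι => if p.1 = j then κ₁ p.1 p.2 else 0)
    rw [h1, Finset.sum_filter, Fintype.sum_sigma, hdeg j]
    rw [Finset.sum_eq_single j]
    · simp
    · intro j' _ hj'
      simp [hj']
    · intro h
      exact absurd (Finset.mem_univ j) h
  · -- values
    intro x hx j h0
    have h1 := hev x j
    rw [h0, mul_zero] at h1
    have h2 : ∏ i, aeval x (G j i) ≠ 0 := by
      refine Finset.prod_ne_zero_iff.2 fun i _ => ?_
      have h3 : (fun p : ι => aeval x (G p.1 p.2)) (e.symm (e ⟨j, i⟩)) ≠ 0 := hx (e ⟨j, i⟩)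
      rw [Equiv.symm_apply_apply] at h3
      exact h3
    exact mul_ne_zero (hbK j) h2 h1.symm
  · -- local heights
    intro x hx hFx v hv ⟨i, hi⟩
    set j := (e.symm i).1 with hj
    refine ⟨j, ?_⟩
    rw [lam_pos_iff (hFx j)]
    have h2 := (lam_pos_iff (hGx x hFx j (e.symm i).2) v).1 hi
    have hXp : 0 < ⨆ j, fv v (x j) := sup_pos' (fv v) hx
    rw [hfvp x v hv j, hdeg j, ← Finset.prod_pow_eq_pow_sum]
    refine Finset.prod_lt_prod (fun i' _ => (fv v).pos (hGx x hFx j i')) (fun i' _ => ?_)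
      ⟨(e.symm i).2, Finset.mem_univ _, h2⟩
    exact aeval_le (L := K) (hG j i') v
  · -- local heights, converse
    intro x hx hFx
    refine ⟨fun i => hGx x hFx _ _, fun v hv j hj => ?_⟩
    rw [lam_pos_iff (hFx j), hfvp x v hv j, hdeg j, ← Finset.prod_pow_eq_pow_sum] at hj
    by_contra hc
    push Not at hc
    refine absurd hj (not_lt.2 (Finset.prod_le_prod (fun i _ => ?_) fun i _ => ?_))
    · exact pow_nonneg (sup_pos' (fv v) hx).le _
    · have h1 := hc (e ⟨j, i⟩) (by rw [Equiv.symm_apply_apply])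
      rw [Equiv.symm_apply_apply] at h1
      by_contra h2
      push Not at h2
      exact absurd ((lam_pos_iff (hGx x hFx j i) v).2 h2) (not_lt.2 h1)

end Pool.Agent.N752.HY.Fac3
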