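import Mathlib
import Pool.Agent.N752.HY.Def

set_option autoImplicit false

/-!
The statements of further parts of project HY.
-/

namespace Pool.Agent.N752.HY

open NumberField IsDedekindDomain MvPolynomial Module Height
open scoped LinearAlgebra.Projectivization

/-- the weight of a component of degree `κ` -/
def wt (κ : ℕ) : ℕ := if κ ≤ 2 then κ else 1

/-- factorisation of forms with squarefree product into irreducible forms -/
def S_FAC : Prop := ∀ (K : Type) (_ : Field K) (_ : NumberField K) (m q : ℕ)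
  (F : Fin q → MvPolynomial (Fin (m + 1)) (𝓞 K)) (κ : Fin q → ℕ),
  (∀ j, (F j).IsHomogeneous (κ j)) →
  Squarefree (∏ j, map (algebraMap (𝓞 K) K) (F j)) →
  ∃ (q₁ : ℕ) (F₁ : Fin q₁ → MvPolynomial (Fin (m + 1)) (𝓞 K)) (κ₁ : Fin q₁ → ℕ) (S : Finset ℕ),
    (∀ p ∈ S, p.Prime) ∧ (∀ i, (F₁ i).IsHomogeneous (κ₁ i)) ∧
    (∀ i, Irreducible (map (algebraMap (𝓞 K) K) (F₁ i))) ∧
    (∀ i i', i ≠ i' →
      ¬ Associated (map (algebraMap (𝓞 K) K) (F₁ i)) (map (algebraMap (𝓞 K) K) (F₁ i'))) ∧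
    ∑ j, wt (κ j) ≤ ∑ i, wt (κ₁ i) ∧
    (∀ x : Fin (m + 1) → K, (∀ i, aeval x (F₁ i) ≠ 0) → ∀ j, aeval x (F j) ≠ 0) ∧
    ∀ x : Fin (m + 1) → K, x ≠ 0 → (∀ j, aeval x (F j) ≠ 0) → ∀ v : HeightOneSpectrum (𝓞 K),
      Outside S v → (∃ i, 0 < lam K (F₁ i) (κ₁ i) x v) → ∃ j, 0 < lam K (F j) (κ j) x v

/-- uniform upper bound for the number of the points whose coordinates span a space of dimension `s`
over `k` -/
def S_DEG : Prop := ∀ (k : Type) (_ : Field k) (_ : NumberField k) (n m s : ℕ), 1 ≤ n → 1 ≤ s →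
  s ≤ m + 1 → ∀ ε : ℝ, 0 < ε → ∃ C : ℝ, 1 ≤ C ∧ ∀ (K : Type) (_ : Field K) (_ : NumberField K)
    (_ : Algebra k K), finrank ℚ K = n → ∀ B : ℝ, 1 ≤ B → ∀ F : Finset (ℙ K (Fin (m + 1) → K)),
    (∀ Q ∈ F, Q.mulHeight ≤ B ^ n ∧ finrank k (Submodule.span k (Set.range Q.rep)) = s) →
    (F.card : ℝ) ≤ C * √|(discr K : ℝ)| ^ (1 + ε) * B ^ (n * s + s * finrank ℚ k * (m + 1 - s))

end Pool.Agent.N752.HY
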