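import Mathlib
import Pool.Agent.R366.NF.Final
import Pool.Agent.N752.HY.Stm2

/-!
The truncated counting function relative to hypersurfaces at almost all points over one field.
-/

set_option autoImplicit false

namespace Pool.Agent.N752.HY

open NumberField IsDedekindDomain MvPolynomial Module Height
open scoped LinearAlgebra.Projectivization
open Pool.Agent.R366.NF (truncatedCount idealHeight)

variable {K : Type} [Field K] [NumberField K] {m q t : ℕ}

/-- the inequality at the point `x` -/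
def Good (F : Fin q → MvPolynomial (Fin (m + 1)) (𝓞 K)) (κ : Fin q → ℕ)
    (F' G' : Fin t → MvPolynomial (Fin (m + 1)) (𝓞 K)) (κ' ε' : Fin t → ℕ) (Λ θ : ℝ)
    (x : Fin (m + 1) → K) : Prop :=
  (∀ j, aeval x (F j) ≠ 0) ∧
    θ * hgt x + Λ * ((∑ l, idealHeight (F' l) (G' l) (κ' l) (ε' l) x) / finrank ℚ K) ≤
      cnt K ∅ F κ Finset.univ x

lemma cnt_self (F : Fin q → MvPolynomial (Fin (m + 1)) (𝓞 K)) (κ : Fin q → ℕ)
    {x : Fin (m + 1) → K} (hF : ∀ j, aeval x (F j) ≠ 0) :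
    cnt K ∅ F κ Finset.univ x = truncatedCount ∅ F κ x / finrank ℚ K := by
  classical
  unfold cnt truncatedCount
  congr 1
  refine finsum_congr fun v => ?_
  have h : ∀ j, (0 < lam K (F j) (κ j) x v) ↔
      (FinitePlace.mk v (aeval x (F j)) < (⨆ i, FinitePlace.mk v (x i)) ^ κ j) := by
    intro j
    unfold lam
    have h1 : 0 < FinitePlace.mk v (aeval x (F j)) := FinitePlace.pos_iff.2 (hF j)
    have h2 : 0 ≤ (⨆ i, FinitePlace.mk v (x i)) ^ κ j :=
      pow_nonneg (Real.iSup_nonneg fun i => apply_nonneg _ _) _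
    show 0 < Real.log ((⨆ i, FinitePlace.mk v (x i)) ^ κ j / FinitePlace.mk v (aeval x (F j))) ↔ _
    constructor
    · intro h3
      by_contra h4
      push Not at h4
      have h5 := Real.log_nonpos (div_nonneg h2 h1.le) ((div_le_one h1).2 h4)
      linarith
    · intro h3
      exact Real.log_pos ((one_lt_div h1).2 h3)
  refine if_congr (and_congr (by simp [Outside]) ?_) rfl rfl
  constructor
  · rintro ⟨j, -, hj⟩
    exact ⟨j, (h j).1 hj⟩
  · rintro ⟨j, hj⟩
    exact ⟨j, Finset.mem_univ j, (h j).2 hj⟩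

lemma wt_spec (κ : ℕ) : wt κ ≤ 1 ∨ (wt κ ≤ κ ∧ κ ≤ 2) := by
  unfold wt
  by_cases h : κ ≤ 2
  · rw [if_pos h]
    exact Or.inr ⟨le_refl _, h⟩
  · rw [if_neg h]
    exact Or.inl (le_refl _)

/-- **Almost all points over one field.** -/
theorem fld (F : Fin q → MvPolynomial (Fin (m + 1)) (𝓞 K)) (κ : Fin q → ℕ)
    (hhom : ∀ j, (F j).IsHomogeneous (κ j))
    (hirr : ∀ j, Irreducible (map (algebraMap (𝓞 K) K) (F j)))
    (hdist : ∀ i j, i ≠ j →
      ¬ Associated (map (algebraMap (𝓞 K) K) (F i)) (map (algebraMap (𝓞 K) K) (F j)))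
    (F' G' : Fin t → MvPolynomial (Fin (m + 1)) (𝓞 K)) (κ' ε' : Fin t → ℕ)
    (hF' : ∀ l, (F' l).IsHomogeneous (κ' l)) (hG' : ∀ l, (G' l).IsHomogeneous (ε' l))
    (hirr' : ∀ l, Irreducible (map (algebraMap (𝓞 K) K) (F' l)))
    (hcop : ∀ l, ¬ map (algebraMap (𝓞 K) K) (F' l) ∣ map (algebraMap (𝓞 K) K) (G' l))
    (Λ : ℝ) (hΛ : 0 ≤ Λ) (θ : ℝ) (hθ0 : 0 ≤ θ) (hθ : θ < ∑ j, (wt (κ j) : ℝ)) :
    ∃ c C : ℝ, 0 < c ∧ 0 ≤ C ∧ ∀ T : ℝ, 0 ≤ T → ∃ Z : Finset (ℙ K (Fin (m + 1) → K)),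
      (Z.card : ℝ) ≤ C * Real.exp (((finrank ℚ K : ℝ) * (m + 1) - c) * T) ∧
      ∀ Q : ℙ K (Fin (m + 1) → K), Real.log Q.mulHeight ≤ finrank ℚ K * T → Q ∉ Z →
        Good F κ F' G' κ' ε' Λ θ Q.rep := by
  classical
  obtain ⟨c, hc, C, h⟩ := Pool.Agent.R366.NF.main_points F κ (fun j => wt (κ j)) hhom hirr hdist
    (fun j => (wt_spec (κ j)).imp_right Or.inl) ∅ (by simp) F' G' κ' ε' hF' hG' hirr' hcop Λ hΛ θ hθ
  have hn : 0 < finrank ℚ K := finrank_pos
  have hn0 : (0 : ℝ) < finrank ℚ K := by exact_mod_cast hn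
  set n : ℝ := (finrank ℚ K : ℝ) with hn'
  set c' := min c 1 with hc'
  have hc'0 : 0 < c' := lt_min hc one_pos
  refine ⟨n * c', |C| * 2 ^ ((m : ℝ) + 1 - c'), by positivity, by positivity, fun T hT => ?_⟩
  set B : ℕ := ⌈Real.exp (n * T)⌉₊ with hB
  have hexp : 1 ≤ Real.exp (n * T) := Real.one_le_exp (by positivity)
  have hBexp : Real.exp (n * T) ≤ B := Nat.le_ceil _
  have hB1 : (1 : ℝ) ≤ B := hexp.trans hBexp
  have hB1' : 1 ≤ B := by exact_mod_cast hB1
  have hB2 : (B : ℝ) ≤ 2 * Real.exp (n * T) := by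
    have := Nat.ceil_lt_add_one (Real.exp_pos (n * T)).le
    rw [← hB] at this
    linarith
  obtain ⟨Z, hZ, hall⟩ := h B hB1'
  refine ⟨Z, ?_, fun Q hQ hQZ => ?_⟩
  · have hm0 : (0 : ℝ) ≤ (m : ℝ) + 1 - c' := by
      have h1 : c' ≤ 1 := min_le_right _ _
      have h2 : (0 : ℝ) ≤ m := Nat.cast_nonneg _
      linarith
    calc (Z.card : ℝ) ≤ C * (B : ℝ) ^ ((m : ℝ) + 1 - c) := hZ
      _ ≤ |C| * (B : ℝ) ^ ((m : ℝ) + 1 - c) :=
          mul_le_mul_of_nonneg_right (le_abs_self C) (by positivity)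
      _ ≤ |C| * (B : ℝ) ^ ((m : ℝ) + 1 - c') := by
          refine mul_le_mul_of_nonneg_left ?_ (abs_nonneg C)
          refine Real.rpow_le_rpow_of_exponent_le hB1 ?_
          have := min_le_left c 1
          linarith
      _ ≤ |C| * (2 * Real.exp (n * T)) ^ ((m : ℝ) + 1 - c') := by
          refine mul_le_mul_of_nonneg_left ?_ (abs_nonneg C)
          exact Real.rpow_le_rpow (by positivity) hB2 hm0
      _ = _ := by
          have e : Real.exp (n * T) ^ ((m : ℝ) + 1 - c') =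
              Real.exp ((n * (m + 1) - n * c') * T) := by
            rw [← Real.exp_mul]
            congr 1
            ring
          rw [Real.mul_rpow (by norm_num) (Real.exp_pos _).le, e, mul_assoc]
  · have hmh : 1 ≤ Q.mulHeight := by
      rw [← Q.mk_rep, Projectivization.mulHeight_mk]
      exact one_le_mulHeight _
    have hQB : Q.mulHeight ≤ B := by
      have h1 : Q.mulHeight ≤ Real.exp (n * T) := by
        rw [← Real.log_le_iff_le_exp (by linarith)]
        exact hQ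
      exact h1.trans hBexp
    obtain ⟨h1, h2⟩ := hall Q hQB hQZ
    refine ⟨h1, ?_⟩
    rw [cnt_self F κ h1]
    have h3 : logHeight Q.rep ≤ Real.log B := by
      rw [logHeight_eq_log_mulHeight]
      have h4 : mulHeight Q.rep = Q.mulHeight := by
        conv_rhs => rw [← Q.mk_rep]
        rw [Projectivization.mulHeight_mk]
      rw [h4]
      exact Real.log_le_log (by linarith) hQB
    unfold hgt
    rw [← hn', ← mul_div_assoc, ← mul_div_assoc, ← add_div]
    refine div_le_div_of_nonneg_right ?_ hn0.le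
    have h5 : θ * logHeight Q.rep ≤ θ * Real.log B := mul_le_mul_of_nonneg_left h3 hθ0
    linarith

end Pool.Agent.N752.HY
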