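import Mathlib
import Pool.Agent.N752.HY.Fld
import Pool.Agent.N752.HY.Ext

/-!
The truncated counting function relative to arbitrary reduced divisors at almost all points over one
field.
-/

set_option autoImplicit false

namespace Pool.Agent.N752.HY

open NumberField IsDedekindDomain MvPolynomial Module Height
open scoped LinearAlgebra.Projectivization
open Pool.Agent.R366.NF (truncatedCount idealHeight)

lemma isUnit_of_map {K E : Type} [Field K] [Field E] (φ : K →+* E) {n : ℕ}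
    {A : MvPolynomial (Fin n) K} (hA : IsUnit (map φ A)) : IsUnit A := by
  rw [MvPolynomial.isUnit_iff_eq_C_of_isReduced] at hA ⊢
  obtain ⟨r, hr, hA⟩ := hA
  have h1 : A.totalDegree = 0 := by
    have h2 : (map φ A).totalDegree = A.totalDegree := by
      unfold MvPolynomial.totalDegree
      rw [MvPolynomial.support_map_of_injective A φ.injective]
    rw [← h2, hA, totalDegree_C]
  rw [MvPolynomial.totalDegree_eq_zero_iff_eq_C] at h1
  refine ⟨A.coeff 0, ?_, h1⟩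
  rw [isUnit_iff_ne_zero]
  intro h0
  rw [h0, C_0] at h1
  rw [h1, map_zero] at hA
  have h2 : r = 0 := by
    have := congrArg (MvPolynomial.coeff 0) hA
    rw [coeff_zero, coeff_C, if_pos rfl] at this
    exact this.symm
  rw [h2] at hr
  exact not_isUnit_zero hr

lemma squarefree_of_map {K E : Type} [Field K] [Field E] (φ : K →+* E) {n : ℕ}
    {A : MvPolynomial (Fin n) K} (hA : Squarefree (map φ A)) : Squarefree A := by
  intro x hx
  refine isUnit_of_map φ (hA (map φ x) ?_)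
  rw [← map_mul]
  exact _root_.map_dvd (map φ) hx

variable {K : Type} [Field K] [NumberField K] {m q t : ℕ}

/-- **Almost all points over one field**, irreducible components, any finite set of primes. -/
theorem fldS (F : Fin q → MvPolynomial (Fin (m + 1)) (𝓞 K)) (κ : Fin q → ℕ)
    (hhom : ∀ j, (F j).IsHomogeneous (κ j))
    (hirr : ∀ j, Irreducible (map (algebraMap (𝓞 K) K) (F j)))
    (hdist : ∀ i j, i ≠ j →
      ¬ Associated (map (algebraMap (𝓞 K) K) (F i)) (map (algebraMap (𝓞 K) K) (F j)))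
    (S : Finset ℕ) (hS : ∀ p ∈ S, p.Prime)
    (F' G' : Fin t → MvPolynomial (Fin (m + 1)) (𝓞 K)) (κ' ε' : Fin t → ℕ)
    (hF' : ∀ l, (F' l).IsHomogeneous (κ' l)) (hG' : ∀ l, (G' l).IsHomogeneous (ε' l))
    (hirr' : ∀ l, Irreducible (map (algebraMap (𝓞 K) K) (F' l)))
    (hcop : ∀ l, ¬ map (algebraMap (𝓞 K) K) (F' l) ∣ map (algebraMap (𝓞 K) K) (G' l))
    (Λ : ℝ) (hΛ : 0 ≤ Λ) (θ : ℝ) (hθ0 : 0 ≤ θ) (hθ : θ < ∑ j, (wt (κ j) : ℝ)) :
    ∃ c C : ℝ, 0 < c ∧ 0 ≤ C ∧ ∀ T : ℝ, 0 ≤ T → ∃ Z : Finset (ℙ K (Fin (m + 1) → K)),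
      (Z.card : ℝ) ≤ C * Real.exp (((finrank ℚ K : ℝ) * (m + 1) - c) * T) ∧
      ∀ Q : ℙ K (Fin (m + 1) → K), Real.log Q.mulHeight ≤ finrank ℚ K * T → Q ∉ Z →
        (∀ j, aeval Q.rep (F j) ≠ 0) ∧
        θ * hgt Q.rep + Λ * ((∑ l, idealHeight (F' l) (G' l) (κ' l) (ε' l) Q.rep) /
          finrank ℚ K) ≤ truncatedCount S F κ Q.rep / finrank ℚ K := by
  classical
  obtain ⟨c, hc, C, h⟩ := Pool.Agent.R366.NF.main_points F κ (fun j => wt (κ j)) hhom hirr hdist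
    (fun j => (wt_spec (κ j)).imp_right Or.inl) S hS F' G' κ' ε' hF' hG' hirr' hcop Λ hΛ θ hθ
  have hn : 0 < finrank ℚ K := finrank_pos
  have hn0 : (0 : ℝ) < finrank ℚ K := by exact_mod_cast hn
  set n : ℝ := (finrank ℚ K : ℝ) with hn'
  set c' := min c 1 with hc'
  have hc'0 : 0 < c' := lt_min hc one_pos
  refine ⟨n * c', |C| * 2 ^ ((m : ℝ) + 1 - c'), by positivity, by positivity, fun T hT => ?_⟩
  set B : ℕ := ⌈Real.exp (n * T)⌉₊ with hB
  have hexp : 1 ≤ Real.exp (n * T) := Real.one_le_exp (by positivity)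
  have hBexp : Real.exp (n * T) ≤ B := Nat.le_ceil _
  have hB1 : (1 : ℝ) ≤ B := hexp.trans hBexp
  have hB1' : 1 ≤ B := by exact_mod_cast hB1
  have hB2 : (B : ℝ) ≤ 2 * Real.exp (n * T) := by
    have := Nat.ceil_lt_add_one (Real.exp_pos (n * T)).le
    rw [← hB] at this
    linarith
  obtain ⟨Z, hZ, hall⟩ := h B hB1'
  refine ⟨Z, ?_, fun Q hQ hQZ => ?_⟩
  · have hm0 : (0 : ℝ) ≤ (m : ℝ) + 1 - c' := by
      have h1 : c' ≤ 1 := min_le_right _ _
      have h2 : (0 : ℝ) ≤ m := Nat.cast_nonneg _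
      linarith
    calc (Z.card : ℝ) ≤ C * (B : ℝ) ^ ((m : ℝ) + 1 - c) := hZ
      _ ≤ |C| * (B : ℝ) ^ ((m : ℝ) + 1 - c) :=
          mul_le_mul_of_nonneg_right (le_abs_self C) (by positivity)
      _ ≤ |C| * (B : ℝ) ^ ((m : ℝ) + 1 - c') := by
          refine mul_le_mul_of_nonneg_left ?_ (abs_nonneg C)
          refine Real.rpow_le_rpow_of_exponent_le hB1 ?_
          have := min_le_left c 1
          linarith
      _ ≤ |C| * (2 * Real.exp (n * T)) ^ ((m : ℝ) + 1 - c') := by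
          refine mul_le_mul_of_nonneg_left ?_ (abs_nonneg C)
          exact Real.rpow_le_rpow (by positivity) hB2 hm0
      _ = _ := by
          have e : Real.exp (n * T) ^ ((m : ℝ) + 1 - c') =
              Real.exp ((n * (m + 1) - n * c') * T) := by
            rw [← Real.exp_mul]
            congr 1
            ring
          rw [Real.mul_rpow (by norm_num) (Real.exp_pos _).le, e, mul_assoc]
  · have hmh : 1 ≤ Q.mulHeight := by
      rw [← Q.mk_rep, Projectivization.mulHeight_mk]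
      exact one_le_mulHeight _
    have hQB : Q.mulHeight ≤ B := by
      have h1 : Q.mulHeight ≤ Real.exp (n * T) := by
        rw [← Real.log_le_iff_le_exp (by linarith)]
        exact hQ
      exact h1.trans hBexp
    obtain ⟨h1, h2⟩ := hall Q hQB hQZ
    refine ⟨h1, ?_⟩
    have h3 : logHeight Q.rep ≤ Real.log B := by
      rw [logHeight_eq_log_mulHeight]
      have h4 : mulHeight Q.rep = Q.mulHeight := by
        conv_rhs => rw [← Q.mk_rep]
        rw [Projectivization.mulHeight_mk]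
      rw [h4]
      exact Real.log_le_log (by linarith) hQB
    unfold hgt
    rw [← hn', ← mul_div_assoc, ← mul_div_assoc, ← add_div]
    refine div_le_div_of_nonneg_right ?_ hn0.le
    have h5 : θ * logHeight Q.rep ≤ θ * Real.log B := mul_le_mul_of_nonneg_left h3 hθ0
    linarith

/-- comparison of the truncated counting functions of the components and of the divisor -/
lemma count_le {q₁ : ℕ} {F : Fin q → MvPolynomial (Fin (m + 1)) (𝓞 K)} {κ : Fin q → ℕ}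
    {F₁ : Fin q₁ → MvPolynomial (Fin (m + 1)) (𝓞 K)} {κ₁ : Fin q₁ → ℕ} {S : Finset ℕ}
    {x : Fin (m + 1) → K} (hx : x ≠ 0) (h1 : ∀ i, aeval x (F₁ i) ≠ 0)
    (h : ∀ j, aeval x (F j) ≠ 0)
    (hloc : ∀ v : HeightOneSpectrum (𝓞 K), Outside S v → (∃ i, 0 < lam K (F₁ i) (κ₁ i) x v) →
      ∃ j, 0 < lam K (F j) (κ j) x v) :
    truncatedCount S F₁ κ₁ x / finrank ℚ K ≤ cnt K ∅ F κ Finset.univ x := by
  classical
  unfold cnt truncatedCount
  refine div_le_div_of_nonneg_right ?_ (Nat.cast_nonneg _)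
  have hlog : ∀ v : HeightOneSpectrum (𝓞 K), 0 ≤ Real.log (Ideal.absNorm v.asIdeal : ℝ) :=
    fun v => Real.log_natCast_nonneg _
  have hfin : {v : HeightOneSpectrum (𝓞 K) | ∃ j, 0 < lam K (F j) (κ j) x v}.Finite := by
    refine (Set.finite_iUnion fun j => Pool.Agent.N752.HY.Ext.lam_support (L := K)
      (κ := κ j) hx (h j)).subset ?_
    rintro v ⟨j, hj⟩
    exact Set.mem_iUnion.2 ⟨j, hj.ne'⟩
  have hlam : ∀ (v : HeightOneSpectrum (𝓞 K)) (i : Fin q₁),
      (FinitePlace.mk v (aeval x (F₁ i)) < (⨆ i, FinitePlace.mk v (x i)) ^ κ₁ i) →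
      0 < lam K (F₁ i) (κ₁ i) x v := by
    intro v i hv
    unfold lam
    exact Real.log_pos ((one_lt_div (FinitePlace.pos_iff.2 (h1 i))).2 hv)
  rw [finsum_eq_sum_of_support_subset (s := hfin.toFinset),
    finsum_eq_sum_of_support_subset (s := hfin.toFinset)]
  · refine Finset.sum_le_sum fun v hv => ?_
    have hv' := (Set.Finite.mem_toFinset _).1 hv
    obtain ⟨j, hj⟩ := hv'
    rw [if_pos (show Outside ∅ v ∧ ∃ i ∈ Finset.univ, 0 < lam K (F i) (κ i) x v from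
      ⟨by simp [Outside], j, Finset.mem_univ j, hj⟩)]
    by_cases hc : (∀ p ∈ S, (p : 𝓞 K) ∉ v.asIdeal) ∧
      ∃ j, FinitePlace.mk v (aeval x (F₁ j)) < (⨆ i, FinitePlace.mk v (x i)) ^ κ₁ j
    · rw [if_pos hc]
    · rw [if_neg hc]
      exact hlog v
  · intro v hv
    rw [Finset.mem_coe, Set.Finite.mem_toFinset]
    by_contra hc
    refine hv (if_neg ?_)
    rintro ⟨-, i, -, hi⟩
    exact hc ⟨i, hi⟩
  · intro v hv
    rw [Finset.mem_coe, Set.Finite.mem_toFinset]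
    by_contra hc
    refine hv (if_neg ?_)
    rintro ⟨hS, i, hi⟩
    exact hc (hloc v hS ⟨i, hlam v i hi⟩)

/-- **Almost all points over one field**, arbitrary reduced divisors. -/
theorem fld2 (hFAC : S_FAC) (F : Fin q → MvPolynomial (Fin (m + 1)) (𝓞 K)) (κ : Fin q → ℕ)
    (hhom : ∀ j, (F j).IsHomogeneous (κ j))
    (hsq : Squarefree (∏ j, map (algebraMap (𝓞 K) K) (F j)))
    (F' G' : Fin t → MvPolynomial (Fin (m + 1)) (𝓞 K)) (κ' ε' : Fin t → ℕ)
    (hF' : ∀ l, (F' l).IsHomogeneous (κ' l)) (hG' : ∀ l, (G' l).IsHomogeneous (ε' l))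
    (hirr' : ∀ l, Irreducible (map (algebraMap (𝓞 K) K) (F' l)))
    (hcop : ∀ l, ¬ map (algebraMap (𝓞 K) K) (F' l) ∣ map (algebraMap (𝓞 K) K) (G' l))
    (Λ : ℝ) (hΛ : 0 ≤ Λ) (θ : ℝ) (hθ0 : 0 ≤ θ) (hθ : θ < ∑ j, (wt (κ j) : ℝ)) :
    ∃ c C : ℝ, 0 < c ∧ 0 ≤ C ∧ ∀ T : ℝ, 0 ≤ T → ∃ Z : Finset (ℙ K (Fin (m + 1) → K)),
      (Z.card : ℝ) ≤ C * Real.exp (((finrank ℚ K : ℝ) * (m + 1) - c) * T) ∧
      ∀ Q : ℙ K (Fin (m + 1) → K), Real.log Q.mulHeight ≤ finrank ℚ K * T → Q ∉ Z →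
        Good F κ F' G' κ' ε' Λ θ Q.rep := by
  obtain ⟨q₁, F₁, κ₁, S, hS, h1, h2, h3, h4, h5, h6⟩ :=
    hFAC K inferInstance inferInstance m q F κ hhom hsq
  have h4' : ∑ j, (wt (κ j) : ℝ) ≤ ∑ i, (wt (κ₁ i) : ℝ) := by exact_mod_cast h4
  obtain ⟨c, C, hc, hC, h⟩ := fldS F₁ κ₁ h1 h2 h3 S hS F' G' κ' ε' hF' hG' hirr' hcop Λ hΛ θ hθ0
    (hθ.trans_le h4')
  refine ⟨c, C, hc, hC, fun T hT => ?_⟩
  obtain ⟨Z, hZ, hall⟩ := h T hT
  refine ⟨Z, hZ, fun Q hQ hQZ => ?_⟩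
  obtain ⟨h7, h8⟩ := hall Q hQ hQZ
  have h9 := h5 Q.rep h7
  exact ⟨h9, h8.trans (count_le Q.rep_nonzero h7 h9 (h6 Q.rep Q.rep_nonzero h9))⟩

end Pool.Agent.N752.HY
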