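import Mathlib
import Pool.Agent.N752.HY.Stm2
import Pool.Agent.N752.HY.Def3

set_option autoImplicit false

/-!
Statements for orbits of conjugate hyperplanes (project HZ).
-/

namespace Pool.Agent.N752.HY

open NumberField IsDedekindDomain MvPolynomial Module Height
open scoped LinearAlgebra.Projectivization

/-- `f` is the product of `κ` linear forms in general position: any `m + 1` of them (all of them, if
`κ ≤ m + 1`) are linearly independent -/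
def Arr {m : ℕ} (f : MvPolynomial (Fin (m + 1)) ℂ) (κ : ℕ) : Prop :=
  ∃ a : Fin κ → Fin (m + 1) → ℂ, f = ∏ i, ∑ j, C (a i j) * X j ∧
    ∀ s : Finset (Fin κ), s.card ≤ m + 1 → LinearIndependent ℂ (fun i : s => a i)

/-- norm forms over `ℚ` are nearly squarefree -/
def S_QN : Prop := ∀ (N κ ρ : ℕ) (G : MvPolynomial (Fin N) ℤ) (E : Type) (_ : Field E)
  (_ : NumberField E) (α : Fin N → E) (c : ℚ), 3 ≤ N → G.IsHomogeneous κ →
  Irreducible (map (Int.castRingHom ℚ) G) →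
  finrank ℚ (Submodule.span ℚ (Set.range α)) = ρ → 1 ≤ ρ →
  (∀ z : Fin N → ℤ, (eval z G : ℚ) = c * Algebra.norm ℚ (∑ i, (z i : E) * α i)) →
  ∀ θ : ℝ, θ < W2 ρ κ → ∃ c₁ C : ℝ, 0 < c₁ ∧ 0 ≤ C ∧ ∀ B : ℕ, 1 ≤ B →
    ({z : Fin N → ℤ | (∀ i, |z i| ≤ B) ∧ Finset.univ.gcd z = 1 ∧ (eval z G = 0 ∨
      ∑ p ∈ (eval z G).natAbs.primeFactors, Real.log p < θ * Real.log B)}.ncard : ℝ) ≤
      C * (B : ℝ) ^ ((N : ℝ) - c₁)

/-- the norm form of a generic linear form is irreducible -/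
def S_NI : Prop := ∀ (E : Type) (_ : Field E) (_ : NumberField E) (N : ℕ) (β : Fin N → E)
  (i₀ : Fin N), β i₀ = 1 → IntermediateField.adjoin ℚ (Set.range β) = ⊤ → ∀ c : ℚ, c ≠ 0 →
  ∀ G : MvPolynomial (Fin N) ℚ,
    (∀ z : Fin N → ℚ, eval z G = c * Algebra.norm ℚ (∑ i, z i • β i)) → Irreducible G

/-- restriction of scalars -/
def S_RES : Prop := ∀ (K : Type) (_ : Field K) (_ : NumberField K) (E : Type) (_ : Field E)
  (_ : NumberField E) (_ : Algebra K E) (m κ : ℕ) (F : MvPolynomial (Fin (m + 1)) (𝓞 K))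
  (α : Fin (m + 1) → E) (c : K) (i₀ : Fin (m + 1)), F.IsHomogeneous κ → finrank K E = κ → c ≠ 0 →
  α i₀ = 1 → IntermediateField.adjoin K (Set.range α) = ⊤ →
  (∀ x : Fin (m + 1) → K, aeval x F = c * Algebra.norm K (∑ i, x i • α i)) →
  ∃ (N : ℕ) (G : MvPolynomial (Fin N) ℤ) (L : (Fin N → ℤ) ≃+ (Fin (m + 1) → 𝓞 K))
    (α' : Fin N → E) (c' : ℚ) (A : ℝ), N = finrank ℚ K * (m + 1) ∧
    G.IsHomogeneous (finrank ℚ K * κ) ∧ Irreducible (map (Int.castRingHom ℚ) G) ∧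
    finrank ℚ (Submodule.span ℚ (Set.range α')) =
      finrank ℚ K * finrank K (Submodule.span K (Set.range α)) ∧
    (∀ z : Fin N → ℤ, (eval z G : ℚ) = c' * Algebra.norm ℚ (∑ i, (z i : E) * α' i)) ∧
    (∀ z : Fin N → ℤ, eval z G = Algebra.norm ℤ (eval (L z) F)) ∧ 0 < A ∧
    ∀ (z : Fin N → ℤ) (T : ℝ),
      (∀ (w : InfinitePlace K) (i : Fin (m + 1)), w (L z i : K) ≤ T) → ∀ j, |(z j : ℝ)| ≤ A * T

/-- norm forms over a number field are nearly squarefree -/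
def S_NRM : Prop := ∀ (K : Type) (_ : Field K) (_ : NumberField K) (E : Type) (_ : Field E)
  (_ : NumberField E) (_ : Algebra K E) (m κ : ℕ) (F : MvPolynomial (Fin (m + 1)) (𝓞 K))
  (α : Fin (m + 1) → E) (c : K) (i₀ : Fin (m + 1)), 3 ≤ finrank ℚ K * (m + 1) →
  F.IsHomogeneous κ → finrank K E = κ → c ≠ 0 → α i₀ = 1 →
  IntermediateField.adjoin K (Set.range α) = ⊤ →
  (∀ x : Fin (m + 1) → K, aeval x F = c * Algebra.norm K (∑ i, x i • α i)) →
  ∀ θ : ℝ, θ < W2 (finrank K (Submodule.span K (Set.range α))) κ →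
  ∃ c₁ C : ℝ, 0 < c₁ ∧ 0 ≤ C ∧ ∀ T : ℝ, 0 ≤ T → ∃ Z : Finset (ℙ K (Fin (m + 1) → K)),
    (Z.card : ℝ) ≤ C * Real.exp (((finrank ℚ K : ℝ) * (m + 1) - c₁) * T) ∧
    ∀ Q : ℙ K (Fin (m + 1) → K), Real.log Q.mulHeight ≤ finrank ℚ K * T → Q ∉ Z →
      aeval Q.rep F ≠ 0 ∧
      θ * hgt Q.rep ≤ cnt K ∅ (fun _ : Fin 1 => F) (fun _ => κ) Finset.univ Q.rep

/-- the coefficients of a linear factor are algebraic -/
def S_ALG : Prop := ∀ (K : Type) (_ : Field K) (_ : NumberField K) (φ : K →+* ℂ) (m : ℕ)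
  (F : MvPolynomial (Fin (m + 1)) K) (β : Fin (m + 1) → ℂ) (i₀ : Fin (m + 1)), F ≠ 0 → β i₀ = 1 →
  (∑ i, C (β i) * X i) ∣ map φ F → ∀ i, ∃ p : Polynomial K, p ≠ 0 ∧ Polynomial.eval₂ φ (β i) p = 0

/-- an irreducible form with a linear factor is a norm form -/
def S_CNJ : Prop := ∀ (K : Type) (_ : Field K) (_ : NumberField K) (E : Type) (_ : Field E)
  (_ : NumberField E) (_ : Algebra K E) (ψ : E →+* ℂ) (m κ : ℕ) (F : MvPolynomial (Fin (m + 1)) K)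
  (α : Fin (m + 1) → E) (i₀ : Fin (m + 1)), α i₀ = 1 →
  IntermediateField.adjoin K (Set.range α) = ⊤ → F.IsHomogeneous κ → Irreducible F →
  (∑ i, C (ψ (α i)) * X i) ∣ map (ψ.comp (algebraMap K E)) F →
  finrank K E = κ ∧
  (∃ c : K, c ≠ 0 ∧ ∀ x : Fin (m + 1) → K, eval x F = c * Algebra.norm K (∑ i, x i • α i)) ∧
  ∃ σ : Fin κ → (E →+* ℂ), Function.Injective σ ∧
    (∀ i, (σ i).comp (algebraMap K E) = ψ.comp (algebraMap K E)) ∧
    ∃ c : ℂ, c ≠ 0 ∧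
      map (ψ.comp (algebraMap K E)) F = C c * ∏ i, ∑ j, C (σ i (α j)) * X j

/-- the rank of a linear form with conjugates in general position -/
def S_RNK : Prop := ∀ (K : Type) (_ : Field K) (_ : NumberField K) (E : Type) (_ : Field E)
  (_ : NumberField E) (_ : Algebra K E) (φ : K →+* ℂ) (m κ : ℕ) (α : Fin (m + 1) → E)
  (σ : Fin κ → (E →+* ℂ)), (∀ i, (σ i).comp (algebraMap K E) = φ) →
  Arr (∏ i, ∑ j, C (σ i (α j)) * X j : MvPolynomial (Fin (m + 1)) ℂ) κ →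
  min (m + 1) κ ≤ finrank K (Submodule.span K (Set.range α))

/-- the divisors of a product of linear forms in general position -/
def S_SUB : Prop := ∀ (m κ κ' : ℕ) (f g : MvPolynomial (Fin (m + 1)) ℂ), Arr f κ →
  g.IsHomogeneous κ' → 1 ≤ κ' → g ∣ f → Arr g κ'

/-- irreducible forms which are products of linear forms in general position are norm forms -/
def S_LIN : Prop := ∀ (K : Type) (_ : Field K) (_ : NumberField K) (φ : K →+* ℂ) (m κ : ℕ)
  (F : MvPolynomial (Fin (m + 1)) K), F.IsHomogeneous κ → Irreducible F → 1 ≤ κ →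
  Arr (map φ F) κ → ∃ (E : Type) (_ : Field E) (_ : NumberField E) (_ : Algebra K E)
    (α : Fin (m + 1) → E) (c : K) (i₀ : Fin (m + 1)), finrank K E = κ ∧ c ≠ 0 ∧ α i₀ = 1 ∧
    IntermediateField.adjoin K (Set.range α) = ⊤ ∧
    (∀ x : Fin (m + 1) → K, eval x F = c * Algebra.norm K (∑ i, x i • α i)) ∧
    min (m + 1) κ ≤ finrank K (Submodule.span K (Set.range α))

/-- the truncated counting functions of the components and of their union -/
def S_CUP : Prop := ∀ (K : Type) (_ : Field K) (_ : NumberField K) (m q : ℕ)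
  (F : Fin q → MvPolynomial (Fin (m + 1)) (𝓞 K)) (κ : Fin q → ℕ) (J : Finset (Fin q))
  (x : Fin (m + 1) → K), x ≠ 0 → (∀ j, aeval x (F j) ≠ 0) →
  ∑ j ∈ J, cnt K ∅ (fun _ : Fin 1 => F j) (fun _ => κ j) Finset.univ x + cnt K ∅ F κ Jᶜ x ≤
    cnt K ∅ F κ Finset.univ x +
      (∑ j ∈ J, ∑ i ∈ Finset.univ.erase j,
        ∑ᶠ v ∈ {v : HeightOneSpectrum (𝓞 K) | 0 < lam K (F j) (κ j) x v ∧
          0 < lam K (F i) (κ i) x v}, Real.log (Ideal.absNorm v.asIdeal : ℝ)) / finrank ℚ K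

/-- upper bound for the truncated counting function -/
def S_UPC : Prop := ∀ (K : Type) (_ : Field K) (_ : NumberField K) (m : ℕ)
  (F : MvPolynomial (Fin (m + 1)) (𝓞 K)) (κ : ℕ), F.IsHomogeneous κ →
  ∃ C : ℝ, ∀ x : Fin (m + 1) → K, x ≠ 0 → aeval x F ≠ 0 →
    cnt K ∅ (fun _ : Fin 1 => F) (fun _ => κ) Finset.univ x ≤ κ * hgt x + C

end Pool.Agent.N752.HY
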