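import Mathlib
import Pool.Agent.N752.HY.Stm3

set_option autoImplicit false

/-!
Project HZ, part ALG: the coefficients of a linear factor are algebraic (helper955).
-/

namespace Pool.Agent.N752.HY.Alg

open MvPolynomial
open Pool.Agent.N752.HY

section

variable {K : Type} [Field K] {m : ℕ}

/-- the polynomial in one variable -/
noncomputable def fy (F : MvPolynomial (Fin (m + 1)) K) (i₀ : Fin (m + 1)) (y : Fin (m + 1) → K) :
    Polynomial K :=
  aeval (fun i => if i = i₀ then (Polynomial.X : Polynomial K) else Polynomial.C (y i)) F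

theorem fy_eval₂ {R : Type} [CommRing R] (φ : K →+* R) (F : MvPolynomial (Fin (m + 1)) K)
    (i₀ : Fin (m + 1)) (y : Fin (m + 1) → K) (z : R) :
    Polynomial.eval₂ φ z (fy F i₀ y) = eval₂ φ (fun i => if i = i₀ then z else φ (y i)) F := by
  unfold fy
  have h : (Polynomial.eval₂RingHom φ z).comp ((aeval (R := K) (fun i => if i = i₀ then
      (Polynomial.X : Polynomial K) else Polynomial.C (y i))) :
      MvPolynomial (Fin (m + 1)) K →+* Polynomial K) =
      eval₂Hom φ (fun i => if i = i₀ then z else φ (y i)) := by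
    apply MvPolynomial.ringHom_ext
    · intro a
      simp
    · intro i
      by_cases hi : i = i₀ <;> simp [hi]
  exact congrArg (fun f => f F) h

theorem fy_ne {F : MvPolynomial (Fin (m + 1)) K} {i₀ : Fin (m + 1)} {y : Fin (m + 1) → K}
    (h : eval y F ≠ 0) : fy F i₀ y ≠ 0 := by
  intro h0
  apply h
  have h1 := fy_eval₂ (RingHom.id K) F i₀ y (y i₀)
  rw [h0, Polynomial.eval₂_zero] at h1
  have h2 : (fun i => if i = i₀ then y i₀ else (RingHom.id K) (y i)) = y := by
    funext i
    by_cases hi : i = i₀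
    · rw [if_pos hi, hi]
    · rw [if_neg hi, RingHom.id_apply]
  rw [h2] at h1
  exact h1.symm

/-- the value at a point where `F` does not vanish is algebraic -/
theorem alg_of_ne [Algebra K ℂ] {F : MvPolynomial (Fin (m + 1)) K} {β : Fin (m + 1) → ℂ}
    {i₀ : Fin (m + 1)} (hβ : β i₀ = 1) (hd : (∑ i, C (β i) * X i) ∣ map (algebraMap K ℂ) F)
    {y : Fin (m + 1) → K} (hy : eval y F ≠ 0) :
    IsAlgebraic K (∑ i ∈ Finset.univ.erase i₀, β i * algebraMap K ℂ (y i)) := by
  obtain ⟨s, hs⟩ : ∃ s, s = ∑ i ∈ Finset.univ.erase i₀, β i * algebraMap K ℂ (y i) := ⟨_, rfl⟩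
  rw [← hs]
  have h1 : IsAlgebraic K (-s) := by
    refine ⟨fy F i₀ y, fy_ne hy, ?_⟩
    rw [Polynomial.aeval_def, fy_eval₂, ← eval_map]
    obtain ⟨G, hG⟩ := hd
    rw [hG, map_mul]
    have h2 : eval (fun i => if i = i₀ then -s else (algebraMap K ℂ) (y i))
        (∑ i, C (β i) * X i) = 0 := by
      rw [map_sum, ← Finset.add_sum_erase _ _ (Finset.mem_univ i₀)]
      have h3 : ∀ i ∈ Finset.univ.erase i₀, eval (fun i => if i = i₀ then -s else
          (algebraMap K ℂ) (y i)) (C (β i) * X i) = β i * algebraMap K ℂ (y i) := by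
        intro i hi
        rw [map_mul, eval_C, eval_X, if_neg (Finset.ne_of_mem_erase hi)]
      rw [Finset.sum_congr rfl h3, ← hs, map_mul, eval_C, eval_X, if_pos rfl, hβ]
      ring
    rw [h2, zero_mul]
  have h2 := h1.neg
  rwa [neg_neg] at h2

/-- a point where the polynomial and its translate do not vanish -/
theorem exists_pt [Infinite K] {F : MvPolynomial (Fin (m + 1)) K} (hF : F ≠ 0)
    (e : Fin (m + 1) → K) : ∃ y : Fin (m + 1) → K, eval y F ≠ 0 ∧ eval (y + e) F ≠ 0 := by
  obtain ⟨F', hF'⟩ : ∃ F' : MvPolynomial (Fin (m + 1)) K,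
      F' = aeval (fun i => (X i + C (e i) : MvPolynomial (Fin (m + 1)) K)) F := ⟨_, rfl⟩
  have hev : ∀ y, eval y F' = eval (y + e) F := by
    intro y
    have h : (eval y).comp ((aeval (R := K) (fun i => (X i + C (e i) :
        MvPolynomial (Fin (m + 1)) K))) : MvPolynomial (Fin (m + 1)) K →+*
        MvPolynomial (Fin (m + 1)) K) = eval (y + e) := by
      apply MvPolynomial.ringHom_ext
      · intro a
        simp
      · intro i
        simp
    rw [hF']
    exact congrArg (fun f => f F) h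
  have hne : ∀ G : MvPolynomial (Fin (m + 1)) K, G ≠ 0 → ∃ z, eval z G ≠ 0 := by
    intro G hG
    by_contra hcon
    push Not at hcon
    exact hG (MvPolynomial.funext fun z => by rw [hcon z, map_zero])
  have hF'0 : F' ≠ 0 := by
    intro h0
    obtain ⟨z, hz⟩ := hne F hF
    apply hz
    have h1 := hev (z - e)
    rw [h0, map_zero, sub_add_cancel] at h1
    exact h1.symm
  obtain ⟨y, hy⟩ := hne (F * F') (mul_ne_zero hF hF'0)
  rw [map_mul, hev] at hy
  exact ⟨y, left_ne_zero_of_mul hy, right_ne_zero_of_mul hy⟩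

end

theorem t_ALG : S_ALG := by
  intro K _ _ φ m F β i₀ hF hβ hd i
  let _ : Algebra K ℂ := φ.toAlgebra
  have : Infinite K := Infinite.of_injective (algebraMap ℚ K) (algebraMap ℚ K).injective
  have hφ : algebraMap K ℂ = φ := rfl
  suffices h : IsAlgebraic K (β i) by
    obtain ⟨p, hp, hp'⟩ := h
    exact ⟨p, hp, hp'⟩
  by_cases hi : i = i₀
  · rw [hi, hβ]
    exact isAlgebraic_one
  · obtain ⟨y, hy, hy'⟩ := exists_pt hF (Pi.single i 1)
    have h1 := alg_of_ne (F := F) hβ hd hy
    have h2 := alg_of_ne (F := F) hβ hd hy'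
    have h3 : β i = (∑ j ∈ Finset.univ.erase i₀, β j * algebraMap K ℂ ((y + (Pi.single i 1 : Fin (m + 1) → K)) j)) -
        ∑ j ∈ Finset.univ.erase i₀, β j * algebraMap K ℂ (y j) := by
      rw [← Finset.sum_sub_distrib, Finset.sum_eq_single_of_mem i
        (Finset.mem_erase.2 ⟨hi, Finset.mem_univ i⟩)]
      · rw [Pi.add_apply, Pi.single_eq_same, map_add, map_one]
        ring
      · intro j _ hj
        rw [Pi.add_apply, Pi.single_eq_of_ne hj, add_zero, sub_self]
    rw [h3]
    exact h2.sub h1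

end Pool.Agent.N752.HY.Alg
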