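import Mathlib
import Pool.Agent.N752.HY.Stm3

set_option autoImplicit false

/-!
Project HZ, part CNJ: an irreducible form with a linear factor is a norm form.
-/

namespace Pool.Agent.N752.HY.Cnj

open NumberField MvPolynomial Module

/-- the linear form with coefficients `a` -/
noncomputable def lf {R : Type} [CommSemiring R] {n : ℕ} (a : Fin n → R) : MvPolynomial (Fin n) R :=
  ∑ j, C (a j) * X j

lemma map_lf {R S : Type} [CommSemiring R] [CommSemiring S] (f : R →+* S) {n : ℕ} (a : Fin n → R) :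
    map f (lf a) = lf (fun j => f (a j)) := by
  simp [lf]

lemma coeff_lf {R : Type} [CommSemiring R] {n : ℕ} (a : Fin n → R) (i : Fin n) :
    coeff (Finsupp.single i 1) (lf a) = a i := by
  classical
  unfold lf
  rw [coeff_sum, Finset.sum_eq_single i]
  · rw [coeff_C_mul, coeff_X, if_pos rfl, mul_one]
  · intro j _ hj
    rw [coeff_C_mul, coeff_X, if_neg, mul_zero]
    intro h
    exact hj ((Finsupp.single_left_inj one_ne_zero).mp h)
  · intro h; exact absurd (Finset.mem_univ _) h

lemma lf_hom {R : Type} [CommSemiring R] {n : ℕ} (a : Fin n → R) : (lf a).IsHomogeneous 1 := by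
  unfold lf
  refine IsHomogeneous.sum _ _ _ fun j _ => ?_
  have := (isHomogeneous_C (Fin n) (a j)).mul (isHomogeneous_X R j)
  simpa using this

lemma lf_ne {R : Type} [CommRing R] [Nontrivial R] {n : ℕ} (a : Fin n → R) (i : Fin n)
    (hi : a i = 1) : lf a ≠ 0 := by
  intro h
  have := coeff_lf a i
  rw [h, coeff_zero, hi] at this
  exact zero_ne_one this

lemma lf_irr {R : Type} [Field R] {n : ℕ} (a : Fin n → R) (i : Fin n)
    (hi : a i = 1) : Irreducible (lf a) := by
  apply irreducible_of_totalDegree_eq_one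
  · exact (lf_hom a).totalDegree (lf_ne a i hi)
  · intro x hx
    have := hx (Finsupp.single i 1)
    rw [coeff_lf, hi] at this
    exact isUnit_of_dvd_one this

lemma lf_eq_of_dvd {R : Type} [Field R] {n : ℕ} (a b : Fin n → R) (i : Fin n)
    (hi : a i = 1) (hi' : b i = 1) (h : lf a ∣ lf b) : a = b := by
  have h1 : Associated (lf a) (lf b) := (lf_irr a i hi).associated_of_dvd (lf_irr b i hi') h
  obtain ⟨u, hu⟩ := h1
  obtain ⟨c, hc, hc'⟩ := (isUnit_iff_eq_C_of_isReduced).mp u.isUnit
  rw [hc', mul_comm] at hu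
  have h2 : ∀ j, c * a j = b j := by
    intro j
    have := congrArg (coeff (Finsupp.single j 1)) hu
    rwa [coeff_C_mul, coeff_lf, coeff_lf] at this
  have h3 : c = 1 := by
    have := h2 i
    rwa [hi, hi', mul_one] at this
  funext j
  have := h2 j
  rwa [h3, one_mul] at this

/-- substitution for the variable `i₀` -/
noncomputable def sb {R : Type} [CommRing R] {n : ℕ} (i₀ : Fin n) (a : Fin n → R) :
    MvPolynomial (Fin n) R →ₐ[R] MvPolynomial (Fin n) R :=
  aeval fun i => if i = i₀ then X i₀ - lf a else X i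

lemma sb_lf {R : Type} [CommRing R] {n : ℕ} (i₀ : Fin n) (a : Fin n → R) (h : a i₀ = 1) :
    sb i₀ a (lf a) = 0 := by
  have h1 : ∀ j, sb i₀ a (C (a j) * X j) = C (a j) * X j - if j = i₀ then lf a else 0 := by
    intro j
    unfold sb
    rw [map_mul, aeval_X, ← algebraMap_eq, AlgHom.commutes]
    by_cases hj : j = i₀
    · subst hj
      rw [if_pos rfl, if_pos rfl, h, map_one]
      ring
    · rw [if_neg hj, if_neg hj, sub_zero]
  have h2 : sb i₀ a (lf a) = ∑ j, sb i₀ a (C (a j) * X j) := by
    rw [← map_sum]; rfl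
  rw [h2, Finset.sum_congr rfl fun j _ => h1 j, Finset.sum_sub_distrib, Finset.sum_ite_eq']
  simp [lf]

lemma dvd_of_sb {R : Type} [CommRing R] {n : ℕ} (i₀ : Fin n) (a : Fin n → R)
    (G : MvPolynomial (Fin n) R) (hG : sb i₀ a G = 0) : lf a ∣ G := by
  rw [← Ideal.mem_span_singleton, ← Ideal.Quotient.eq_zero_iff_mem]
  have h1 : ((Ideal.Quotient.mkₐ R (Ideal.span {lf a})).comp (sb i₀ a)) =
      Ideal.Quotient.mkₐ R (Ideal.span {lf a}) := by
    apply algHom_ext
    intro i
    unfold sb
    rw [AlgHom.comp_apply, aeval_X]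
    by_cases hi : i = i₀
    · subst hi
      rw [if_pos rfl, map_sub]
      have : Ideal.Quotient.mkₐ R (Ideal.span {lf a}) (lf a) = 0 :=
        Ideal.Quotient.eq_zero_iff_mem.mpr (Ideal.mem_span_singleton_self _)
      rw [this, sub_zero]
    · rw [if_neg hi]
  have h2 := DFunLike.congr_fun h1 G
  rw [AlgHom.comp_apply, hG, map_zero] at h2
  exact h2.symm

lemma map_sb {R S : Type} [CommRing R] [CommRing S] (f : R →+* S) {n : ℕ} (i₀ : Fin n)
    (a : Fin n → R) (G : MvPolynomial (Fin n) R) :
    map f (sb i₀ a G) = sb i₀ (fun j => f (a j)) (map f G) := by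
  have h1 : ((map f).comp (sb i₀ a).toRingHom : MvPolynomial (Fin n) R →+* _) =
      (sb i₀ (fun j => f (a j))).toRingHom.comp (map f) := by
    apply ringHom_ext
    · intro r
      simp [sb]
    · intro i
      simp only [sb, RingHom.comp_apply, AlgHom.toRingHom_eq_coe, RingHom.coe_coe, aeval_X, map_X]
      split
      · rw [map_sub, map_X, map_lf]
      · rw [map_X]
  exact DFunLike.congr_fun h1 G

/-- divisibility descends along field extensions -/
lemma dvd_descend {K L σ : Type} [Field K] [Field L] [Algebra K L] (P Q : MvPolynomial σ K)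
    (h : map (algebraMap K L) P ∣ map (algebraMap K L) Q) : P ∣ Q := by
  classical
  obtain ⟨R, hR⟩ := h
  obtain ⟨r, hr⟩ := LinearMap.exists_leftInverse_of_injective (Algebra.linearMap K L)
    (LinearMap.ker_eq_bot.mpr (algebraMap K L).injective)
  have hr' : ∀ k : K, r (algebraMap K L k) = k := fun k => LinearMap.congr_fun hr k
  refine ⟨∑ d ∈ R.support, monomial d (r (coeff d R)), ?_⟩
  have hc : ∀ d, coeff d (∑ d ∈ R.support, monomial d (r (coeff d R))) = r (coeff d R) := by
    intro d
    rw [coeff_sum]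
    simp only [coeff_monomial]
    rw [Finset.sum_ite_eq']
    split
    · rfl
    · rename_i hd
      rw [notMem_support_iff.mp hd, map_zero]
  ext d
  have h1 := congrArg (fun G => r (coeff d G)) hR
  simp only [coeff_map, coeff_mul, hr', map_sum] at h1
  rw [h1, coeff_mul]
  refine Finset.sum_congr rfl fun x _ => ?_
  rw [hc, ← Algebra.smul_def, map_smul, smul_eq_mul]

lemma cnj_ext {K E L : Type} [Field K] [Field E] [Algebra K E] [Field L] [Algebra K L] {n : ℕ}
    (α : Fin n → E) (h : IntermediateField.adjoin K (Set.range α) = ⊤) (τ τ' : E →ₐ[K] L)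
    (hh : ∀ i, τ (α i) = τ' (α i)) : τ = τ' := by
  ext x
  have hx : x ∈ IntermediateField.adjoin K (Set.range α) := by rw [h]; trivial
  induction hx using IntermediateField.adjoin_induction with
  | mem x hx => obtain ⟨i, rfl⟩ := hx; exact hh i
  | algebraMap x => simp
  | add x y _ _ h1 h2 => simp [h1, h2]
  | inv x _ h1 => simp [h1]
  | mul x y _ _ h1 h2 => simp [h1, h2]

/-- the norm of the generic linear form -/
lemma exists_norm {K E : Type} [Field K] [Field E] [Algebra K E] [FiniteDimensional K E] {n : ℕ}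
    (α : Fin n → E) : ∃ N₀ : MvPolynomial (Fin n) K,
      ∀ x : Fin n → K, eval x N₀ = Algebra.norm K (∑ i, x i • α i) := by
  classical
  let b := Module.finBasis K E
  refine ⟨(∑ i, (X i : MvPolynomial (Fin n) K) • (Algebra.leftMulMatrix b (α i)).map C).det, ?_⟩
  intro x
  rw [RingHom.map_det, Algebra.norm_eq_matrix_det b, map_sum]
  congr 1
  ext k l
  simp [Matrix.sum_apply, Matrix.map_apply]

theorem t_CNJ : S_CNJ := by
  intro K _ _ E _ _ _ ψ m κ F α i₀ hα hadj hF hirr hdvd
  classical
  set φ : K →+* ℂ := ψ.comp (algebraMap K E) with hφ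
  let _ : Algebra K ℂ := φ.toAlgebra
  have hφa : algebraMap K ℂ = φ := rfl
  have : FiniteDimensional K E := Module.Finite.of_restrictScalars_finite ℚ K E
  -- the number of embeddings
  have hcard : Fintype.card (E →ₐ[K] ℂ) = finrank K E := AlgHom.card K E ℂ
  let ψ' : E →ₐ[K] ℂ := { ψ with commutes' := fun r => rfl }
  let l : (E →ₐ[K] ℂ) → MvPolynomial (Fin (m + 1)) ℂ := fun τ => lf fun j => τ (α j)
  -- (1) all the linear forms divide
  have hFE : lf α ∣ map (algebraMap K E) F := by
    apply dvd_of_sb i₀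
    apply map_injective ψ ψ.injective
    rw [map_sb, map_zero, MvPolynomial.map_map, ← hφ]
    obtain ⟨Q, hQ⟩ := hdvd
    rw [hQ, map_mul]
    have : sb i₀ (fun j => ψ (α j)) (∑ i, C (ψ (α i)) * X i) = 0 :=
      sb_lf i₀ (fun j => ψ (α j)) (by simp [hα])
    rw [this, zero_mul]
  have h1 : ∀ τ : E →ₐ[K] ℂ, l τ ∣ map φ F := by
    intro τ
    have h2 : map (τ : E →+* ℂ) (lf α) ∣ map (τ : E →+* ℂ) (map (algebraMap K E) F) :=
      map_dvd _ hFE
    rw [map_lf, MvPolynomial.map_map, AlgHom.comp_algebraMap, hφa] at h2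
    exact h2
  -- (2) the product divides
  have hl1 : ∀ τ : E →ₐ[K] ℂ, τ (α i₀) = 1 := fun τ => by rw [hα, map_one]
  have h2 : ∏ τ, l τ ∣ map φ F := by
    apply Fintype.prod_dvd_of_isRelPrime _ h1
    intro τ τ' hne
    have hi := lf_irr (fun j => τ (α j)) i₀ (hl1 τ)
    refine hi.isRelPrime_iff_not_dvd.mpr fun hd => hne ?_
    have := lf_eq_of_dvd _ _ i₀ (hl1 τ) (hl1 τ') hd
    exact cnj_ext α hadj τ τ' fun i => congrFun this i
  -- (3) the norm form
  obtain ⟨N₀, hN₀⟩ := exists_norm (K := K) α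
  have hN : map φ N₀ = ∏ τ, l τ := by
    apply funext_set (fun _ => Set.range φ)
    · intro _
      exact Set.infinite_range_of_injective φ.injective
    · intro x hx
      have hx' : ∃ y : Fin (m + 1) → K, x = fun i => φ (y i) := by
        choose y hy using fun i => hx i (Set.mem_univ i)
        exact ⟨y, funext fun i => (hy i).symm⟩
      obtain ⟨y, rfl⟩ := hx'
      have e1 : eval (fun i => φ (y i)) (map φ N₀) = φ (eval y N₀) := by
        rw [eval_map, eval₂_comp]
        rfl
      rw [e1, hN₀, ← hφa, Algebra.norm_eq_prod_embeddings, map_prod]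
      refine Finset.prod_congr rfl fun τ _ => ?_
      simp only [l, lf, map_sum, map_mul, eval_C, eval_X, Algebra.smul_def, AlgHom.commutes]
      exact Finset.sum_congr rfl fun i _ => mul_comm _ _
  -- (4) descent
  have h4 : N₀ ∣ F := by
    apply dvd_descend (L := ℂ)
    rw [hφa, hN]; exact h2
  obtain ⟨Q, hQ⟩ := h4
  have hNu : ¬ IsUnit N₀ := by
    intro hu
    have hu2 : IsUnit (∏ τ, l τ) := by rw [← hN]; exact hu.map _
    have hu3 : IsUnit (l ψ') := isUnit_of_dvd_unit (Finset.dvd_prod_of_mem l (Finset.mem_univ ψ')) hu2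
    exact (lf_irr _ i₀ (hl1 ψ')).not_isUnit hu3
  have hQu : IsUnit Q := (hirr.isUnit_or_isUnit hQ).resolve_left hNu
  obtain ⟨c, hc, hc'⟩ := (isUnit_iff_eq_C_of_isReduced).mp hQu
  have hc0 : c ≠ 0 := hc.ne_zero
  have hFN : F = C c * N₀ := by rw [hQ, hc', mul_comm]
  have hφF : map φ F = C (φ c) * ∏ τ, l τ := by
    rw [hFN, map_mul, map_C, hN]
  have hφc : φ c ≠ 0 := (map_ne_zero φ).mpr hc0
  have hF0 : map φ F ≠ 0 := by
    intro h0
    exact hirr.ne_zero (map_injective φ φ.injective (by rw [h0, map_zero]))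
  have hdeg : finrank K E = κ := by
    have e1 : (map φ F).IsHomogeneous κ := hF.map φ
    have e2 : (map φ F).IsHomogeneous (finrank K E) := by
      rw [hφF]
      have e3 := (isHomogeneous_C (Fin (m + 1)) (φ c)).mul
        (IsHomogeneous.prod Finset.univ l (fun _ => 1) fun τ _ => lf_hom _)
      simpa [hcard] using e3
    exact e2.inj_right e1 hF0
  refine ⟨hdeg, ⟨c, hc0, ?_⟩, ?_⟩
  · intro x
    rw [hFN, map_mul, eval_C, hN₀]
  · have hcard' : Fintype.card (Fin κ) = Fintype.card (E →ₐ[K] ℂ) := by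
      rw [Fintype.card_fin, hcard, hdeg]
    let en : Fin κ ≃ (E →ₐ[K] ℂ) := Fintype.equivOfCardEq hcard'
    refine ⟨fun i => (en i : E →+* ℂ), ?_, ?_, φ c, hφc, ?_⟩
    · intro i j hij
      apply en.injective
      exact AlgHom.coe_ringHom_injective hij
    · intro i
      rw [AlgHom.comp_algebraMap]
      exact hφa
    · rw [hφF]
      congr 1
      exact (Equiv.prod_comp en l).symm

end Pool.Agent.N752.HY.Cnj
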