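import Pool.Agent.N752.HY.Stm3

set_option autoImplicit false

/-!
HZ/LIN (helper427 for helper752): irreducible forms which are products of linear forms in general
position are norm forms.
-/

namespace Pool.Agent.N752.HY.Lin

open NumberField IsDedekindDomain MvPolynomial Module Height Pool.Agent.N752.HY

/-- The subfield generated by finitely many algebraic numbers. -/
theorem exists_field (K : Type) [Field K] [NumberField K] (φ : K →+* ℂ) {n : ℕ} (β : Fin n → ℂ)
    (hβ : ∀ i, ∃ p : Polynomial K, p ≠ 0 ∧ Polynomial.eval₂ φ (β i) p = 0) :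
    ∃ (E : Type) (_ : Field E) (_ : NumberField E) (_ : Algebra K E) (ψ : E →+* ℂ)
      (α : Fin n → E), ψ.comp (algebraMap K E) = φ ∧ (∀ i, ψ (α i) = β i) ∧
      IntermediateField.adjoin K (Set.range α) = ⊤ := by
  let _ : Algebra K ℂ := φ.toAlgebra
  have hmap : algebraMap K ℂ = φ := rfl
  have hint : ∀ x ∈ Set.range β, IsIntegral K x := by
    rintro x ⟨i, rfl⟩
    obtain ⟨p, hp, hp0⟩ := hβ i
    exact isAlgebraic_iff_isIntegral.1 ⟨p, hp, by rw [Polynomial.aeval_def, hmap]; exact hp0⟩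
  have hfd : FiniteDimensional K (IntermediateField.adjoin K (Set.range β)) :=
    IntermediateField.finiteDimensional_adjoin hint
  have hcz : CharZero (IntermediateField.adjoin K (Set.range β)) :=
    charZero_of_injective_algebraMap (algebraMap K _).injective
  have htow : IsScalarTower ℚ K (IntermediateField.adjoin K (Set.range β)) :=
    IsScalarTower.of_algebraMap_eq' (Subsingleton.elim _ _)
  have hfq : FiniteDimensional ℚ (IntermediateField.adjoin K (Set.range β)) :=
    Module.Finite.trans K _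
  refine ⟨IntermediateField.adjoin K (Set.range β), inferInstance, ⟨⟩, inferInstance,
    algebraMap _ ℂ, fun i => ⟨β i, IntermediateField.subset_adjoin K _ ⟨i, rfl⟩⟩, ?_, ?_, ?_⟩
  · rw [← IsScalarTower.algebraMap_eq K (IntermediateField.adjoin K (Set.range β)) ℂ, hmap]
  · intro i
    rfl
  · apply IntermediateField.lift_injective
    rw [IntermediateField.lift_adjoin, IntermediateField.lift_top, ← Set.range_comp]
    rfl

theorem t_LIN : S_ALG → S_CNJ → S_RNK → S_SUB → S_LIN := by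
  intro hALG hCNJ hRNK hSUB K _ _ φ m κ F hF hirr hκ hArr
  obtain ⟨a, ha, hind⟩ := id hArr
  obtain ⟨i₀, hi₀⟩ : ∃ i₀, a ⟨0, hκ⟩ i₀ ≠ 0 := by
    have h1 := hind {⟨0, hκ⟩} (by rw [Finset.card_singleton]; omega)
    have h2 := h1.ne_zero ⟨⟨0, hκ⟩, Finset.mem_singleton_self _⟩
    by_contra hcon
    push Not at hcon
    exact h2 (funext hcon)
  obtain ⟨β, hβ⟩ : ∃ β : Fin (m + 1) → ℂ, ∀ i, β i = a ⟨0, hκ⟩ i / a ⟨0, hκ⟩ i₀ :=
    ⟨_, fun _ => rfl⟩
  have hβ0 : β i₀ = 1 := by rw [hβ, div_self hi₀]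
  have hdiv : (∑ i, C (β i) * X i) ∣ map φ F := by
    have h1 : (∑ j, C (a ⟨0, hκ⟩ j) * X j : MvPolynomial (Fin (m + 1)) ℂ) =
        C (a ⟨0, hκ⟩ i₀) * ∑ i, C (β i) * X i := by
      rw [Finset.mul_sum]
      refine Finset.sum_congr rfl fun j _ => ?_
      rw [← mul_assoc, ← C_mul, hβ, mul_div_cancel₀ _ hi₀]
    have h2 : (∑ j, C (a ⟨0, hκ⟩ j) * X j : MvPolynomial (Fin (m + 1)) ℂ) ∣ map φ F := by
      rw [ha]
      exact Finset.dvd_prod_of_mem (fun i => ∑ j, C (a i j) * X j) (Finset.mem_univ _)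
    rw [h1] at h2
    exact dvd_of_mul_left_dvd h2
  obtain ⟨E, _, _, _, ψ, α, hψ, hα, hadj⟩ := exists_field K φ β
    (hALG K inferInstance inferInstance φ m F β i₀ hirr.ne_zero hβ0 hdiv)
  have hα0 : α i₀ = 1 := by
    apply ψ.injective
    rw [hα, hβ0, map_one]
  have hdiv' : (∑ i, C (ψ (α i)) * X i) ∣ map (ψ.comp (algebraMap K E)) F := by
    rw [hψ]
    simp only [hα]
    exact hdiv
  obtain ⟨hfin, ⟨c, hc, hcn⟩, σ, -, hσ, c', hc', hfac⟩ := hCNJ K inferInstance inferInstance E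
    inferInstance inferInstance inferInstance ψ m κ F α i₀ hα0 hadj hF hirr hdiv'
  refine ⟨E, inferInstance, inferInstance, inferInstance, α, c, i₀, hfin, hc, hα0, hadj, hcn, ?_⟩
  refine hRNK K inferInstance inferInstance E inferInstance inferInstance inferInstance φ m κ α σ
    (fun i => by rw [hσ i, hψ]) ?_
  rw [hψ] at hfac
  refine hSUB m κ κ (map φ F) _ hArr ?_ hκ ?_
  · have h1 : (∏ i, ∑ j, C (σ i (α j)) * X j : MvPolynomial (Fin (m + 1)) ℂ).IsHomogeneous
        (∑ _i : Fin κ, 1) := by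
      refine IsHomogeneous.prod _ _ _ fun i _ => ?_
      refine IsHomogeneous.sum _ _ _ fun j _ => ?_
      exact isHomogeneous_C_mul_X _ _
    simpa using h1
  · rw [hfac]
    exact dvd_mul_left _ _

end Pool.Agent.N752.HY.Lin
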