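import Pool.Agent.N752.HY.Stm3

/-! HZ/RNK: the rank of a linear form with conjugates in general position (helper402 for helper752). -/

set_option autoImplicit false

namespace Pool.Agent.N752.HY.Rnk

open NumberField IsDedekindDomain MvPolynomial Module Pool.Agent.N752.HY

/-- linear forms -/
noncomputable def lf {m : ℕ} (a : Fin (m + 1) → ℂ) : MvPolynomial (Fin (m + 1)) ℂ :=
  ∑ j, C (a j) * X j

variable {m : ℕ}

lemma eval_lf (a : Fin (m + 1) → ℂ) (x : Fin (m + 1) → ℂ) : eval x (lf a) = ∑ j, a j * x j := by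
  unfold lf
  simp

lemma eval_lf_single (a : Fin (m + 1) → ℂ) (k : Fin (m + 1)) :
    eval (Pi.single k 1) (lf a) = a k := by
  rw [eval_lf, Finset.sum_eq_single k]
  · simp
  · intro j _ hj
    rw [Pi.single_eq_of_ne hj, mul_zero]
  · intro h
    exact absurd (Finset.mem_univ k) h

lemma deg_lf_le (a : Fin (m + 1) → ℂ) : (lf a).totalDegree ≤ 1 := by
  unfold lf
  refine (totalDegree_finsetSum _ _).trans ?_
  refine Finset.sup_le fun j _ => ?_
  refine (totalDegree_mul _ _).trans ?_
  rw [totalDegree_C, totalDegree_X]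

lemma lf_ne (a : Fin (m + 1) → ℂ) (ha : a ≠ 0) : lf a ≠ 0 := by
  intro h
  apply ha
  funext k
  rw [← eval_lf_single a k, h, map_zero]
  rfl

lemma deg_lf (a : Fin (m + 1) → ℂ) (ha : a ≠ 0) : (lf a).totalDegree = 1 := by
  have h1 := deg_lf_le a
  rcases Nat.lt_or_ge (lf a).totalDegree 1 with h | h
  · exfalso
    have h2 : (lf a).totalDegree = 0 := by omega
    rw [totalDegree_eq_zero_iff_eq_C] at h2
    have h3 : eval 0 (lf a) = 0 := by
      rw [eval_lf]; simp
    rw [h2, eval_C] at h3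
    rw [h3, C_0] at h2
    exact lf_ne a ha h2
  · omega

lemma isUnit_of_deg (p : MvPolynomial (Fin (m + 1)) ℂ) (hp : p ≠ 0) (h : p.totalDegree = 0) :
    IsUnit p := by
  rw [totalDegree_eq_zero_iff_eq_C] at h
  rw [h]
  refine IsUnit.map C (IsUnit.mk0 _ ?_)
  intro h0
  rw [h0, C_0] at h
  exact hp h

lemma irr_lf (a : Fin (m + 1) → ℂ) (ha : a ≠ 0) : Irreducible (lf a) := by
  refine ⟨?_, ?_⟩
  · intro h
    obtain ⟨q, hq⟩ := h.exists_right_inv
    have hq0 : q ≠ 0 := by rintro rfl; simp at hq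
    have h1 := totalDegree_mul_of_isDomain (lf_ne a ha) hq0
    rw [hq, deg_lf a ha, totalDegree_one] at h1
    omega
  · intro p q hpq
    have h0 := lf_ne a ha
    have hp0 : p ≠ 0 := by rintro rfl; rw [zero_mul] at hpq; exact h0 hpq
    have hq0 : q ≠ 0 := by rintro rfl; rw [mul_zero] at hpq; exact h0 hpq
    have h1 := totalDegree_mul_of_isDomain hp0 hq0
    rw [← hpq, deg_lf a ha] at h1
    rcases Nat.eq_zero_or_pos p.totalDegree with h | h
    · exact Or.inl (isUnit_of_deg p hp0 h)
    · exact Or.inr (isUnit_of_deg q hq0 (by omega))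

/-- a linear form dividing a product of linear forms is proportional to one of them -/
lemma prop_of_dvd {κ : ℕ} (a : Fin (m + 1) → ℂ) (ha : a ≠ 0) (b : Fin κ → Fin (m + 1) → ℂ)
    (hb : ∏ i, lf (b i) ≠ 0) (h : lf a ∣ ∏ i, lf (b i)) : ∃ i, ∃ c : ℂ, a = c • b i := by
  have hp : Prime (lf a) := (irr_lf a ha).prime
  obtain ⟨i, -, hi⟩ := (hp.dvd_finsetProd_iff _).1 h
  have hbi : lf (b i) ≠ 0 := fun h0 => hb (Finset.prod_eq_zero (Finset.mem_univ i) h0)
  obtain ⟨r, hr⟩ := hi
  have hr0 : r ≠ 0 := by rintro rfl; rw [mul_zero] at hr; exact hbi hr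
  have h1 := totalDegree_mul_of_isDomain (lf_ne a ha) hr0
  rw [← hr, deg_lf a ha] at h1
  have h2 := deg_lf_le (b i)
  have h3 : r.totalDegree = 0 := by omega
  rw [totalDegree_eq_zero_iff_eq_C] at h3
  have hc : coeff 0 r ≠ 0 := by
    intro h0
    rw [h0, C_0] at h3
    exact hr0 h3
  refine ⟨i, (coeff 0 r)⁻¹, ?_⟩
  funext k
  have h4 : eval (Pi.single k 1) (lf (b i)) = eval (Pi.single k 1) (lf a) * coeff 0 r := by
    rw [hr, h3, map_mul, eval_C, coeff_C, if_pos rfl]
  rw [eval_lf_single, eval_lf_single] at h4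
  rw [Pi.smul_apply, smul_eq_mul, h4]
  field_simp

theorem t_RNK : S_RNK := by
  intro K _ _ E _ _ _ φ m κ α σ hσ hArr
  obtain ⟨a, hprod, hind⟩ := hArr
  have hprod' : ∏ i, lf (fun j => σ i (α j)) = ∏ i, lf (a i) := hprod
  have ha : ∀ i, a i ≠ 0 := by
    intro i
    have h1 := hind {i} (by rw [Finset.card_singleton]; omega)
    exact h1.ne_zero ⟨i, Finset.mem_singleton_self i⟩
  have hne : ∏ i, lf (a i) ≠ 0 := Finset.prod_ne_zero_iff.2 fun i _ => lf_ne _ (ha i)
  -- the span
  set V := Submodule.span K (Set.range α) with hV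
  haveI : Module.Finite K V := by
    rw [hV]
    exact FiniteDimensional.span_of_finite K (Set.finite_range α)
  set γ := Module.finBasis K V with hγ
  have hα : ∀ j, α j ∈ V := fun j => Submodule.subset_span (Set.mem_range_self j)
  obtain ⟨w, hw⟩ : ∃ w : Fin (finrank K V) → Fin (m + 1) → ℂ, ∀ t j,
    w t j = φ (γ.repr ⟨α j, hα j⟩ t) := ⟨_, fun _ _ => rfl⟩
  have hb : ∀ i, (fun j => σ i (α j)) ∈ Submodule.span ℂ (Set.range w) := by
    intro i
    have h1 : (fun j => σ i (α j)) = ∑ t, σ i (γ t : E) • w t := by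
      funext j
      have h2 : α j = ∑ t, γ.repr ⟨α j, hα j⟩ t • (γ t : E) := by
        have h3 := congrArg V.subtype (γ.sum_repr ⟨α j, hα j⟩)
        rw [map_sum] at h3
        simp only [map_smul, Submodule.subtype_apply] at h3
        exact h3.symm
      rw [Finset.sum_apply]
      conv_lhs => rw [h2]
      rw [map_sum]
      refine Finset.sum_congr rfl fun t _ => ?_
      rw [Pi.smul_apply, smul_eq_mul, hw, Algebra.smul_def, map_mul, mul_comm]
      congr 1
      rw [← hσ i]
      rfl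
    rw [h1]
    exact Submodule.sum_mem _ fun t _ =>
      Submodule.smul_mem _ _ (Submodule.subset_span (Set.mem_range_self t))
  have haw : ∀ i, a i ∈ Submodule.span ℂ (Set.range w) := by
    intro i
    obtain ⟨j, c, hc⟩ := prop_of_dvd (a i) (ha i) (fun i j => σ i (α j))
      (by rw [hprod']; exact hne) (by
        rw [hprod']
        exact Finset.dvd_prod_of_mem _ (Finset.mem_univ i))
    rw [hc]
    exact Submodule.smul_mem _ _ (hb j)
  obtain ⟨s, -, hs⟩ := Finset.exists_subset_card_eq (s := (Finset.univ : Finset (Fin κ)))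
    (n := min (m + 1) κ) (by rw [Finset.card_univ, Fintype.card_fin]; exact min_le_right _ _)
  have hli := hind s (by rw [hs]; exact min_le_left _ _)
  have h1 := finrank_span_eq_card hli
  rw [Fintype.card_coe, hs] at h1
  rw [← h1]
  have h2 : Submodule.span ℂ (Set.range fun i : s => a i) ≤ Submodule.span ℂ (Set.range w) := by
    rw [Submodule.span_le]
    rintro _ ⟨i, rfl⟩
    exact haw i
  refine (Submodule.finrank_mono h2).trans ?_
  refine (finrank_range_le_card w).trans ?_
  rw [Fintype.card_fin]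

end Pool.Agent.N752.HY.Rnk
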