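import Pool.Agent.N752.HY.Stm3

/-!
Project HZ: divisors of products of linear forms in general position.
-/

set_option autoImplicit false

namespace Pool.Agent.N752.HY.Sub

open MvPolynomial

variable {m : ℕ}

theorem lin_coeff (a : Fin (m + 1) → ℂ) (i : Fin (m + 1)) :
    coeff (Finsupp.single i 1) (∑ j, C (a j) * X j : MvPolynomial (Fin (m + 1)) ℂ) = a i := by
  classical
  rw [coeff_sum]
  rw [Finset.sum_eq_single i]
  · rw [coeff_C_mul, coeff_X, if_pos rfl, mul_one]
  · intro j _ hj
    rw [coeff_C_mul, coeff_X, if_neg, mul_zero]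
    intro h
    exact hj (Finsupp.single_left_injective one_ne_zero h)
  · intro h
    exact absurd (Finset.mem_univ i) h

theorem lin_hom (a : Fin (m + 1) → ℂ) :
    (∑ j, C (a j) * X j : MvPolynomial (Fin (m + 1)) ℂ).IsHomogeneous 1 := by
  refine IsHomogeneous.sum _ _ _ fun j _ => ?_
  have := (isHomogeneous_C (Fin (m + 1)) (a j)).mul (isHomogeneous_X ℂ j)
  rwa [zero_add] at this

theorem lin_ne {a : Fin (m + 1) → ℂ} (ha : a ≠ 0) :
    (∑ j, C (a j) * X j : MvPolynomial (Fin (m + 1)) ℂ) ≠ 0 := by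
  intro h
  apply ha
  funext i
  rw [← lin_coeff a i, h, coeff_zero]
  rfl

theorem lin_irr {a : Fin (m + 1) → ℂ} (ha : a ≠ 0) :
    Irreducible (∑ j, C (a j) * X j : MvPolynomial (Fin (m + 1)) ℂ) := by
  apply irreducible_of_totalDegree_eq_one
  · exact (lin_hom a).totalDegree (lin_ne ha)
  · intro x hx
    rw [isUnit_iff_ne_zero]
    rintro rfl
    apply lin_ne ha
    ext i
    have := hx i
    rw [coeff_zero]
    exact zero_dvd_iff.mp this

theorem dvd_prod_prime {R ι : Type*} [CommRing R] [IsDomain R] [DecidableEq ι] (l : ι → R)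
    (hl : ∀ i, Prime (l i)) (s : Finset ι) :
    ∀ g : R, g ∣ ∏ i ∈ s, l i → ∃ I ⊆ s, Associated g (∏ i ∈ I, l i) := by
  induction s using Finset.induction_on with
  | empty =>
    intro g hg
    rw [Finset.prod_empty] at hg
    refine ⟨∅, subset_rfl, ?_⟩
    rw [Finset.prod_empty]
    exact associated_one_iff_isUnit.mpr (isUnit_of_dvd_one hg)
  | insert i s hi ih =>
    intro g hg
    rw [Finset.prod_insert hi] at hg
    by_cases h : l i ∣ g
    · obtain ⟨g', rfl⟩ := h
      have hg' : g' ∣ ∏ i ∈ s, l i := (mul_dvd_mul_iff_left (hl i).ne_zero).mp hg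
      obtain ⟨I, hI, hA⟩ := ih g' hg'
      refine ⟨insert i I, Finset.insert_subset_insert i hI, ?_⟩
      rw [Finset.prod_insert (fun h => hi (hI h))]
      exact hA.mul_left _
    · obtain ⟨k, hk⟩ := hg
      have h1 : l i ∣ g * k := ⟨_, hk.symm⟩
      rcases (hl i).dvd_or_dvd h1 with h2 | ⟨k', rfl⟩
      · exact absurd h2 h
      · have h3 : ∏ i ∈ s, l i = g * k' := by
          apply mul_left_cancel₀ (hl i).ne_zero
          rw [hk]
          ring
        obtain ⟨I, hI, hA⟩ := ih g ⟨k', h3⟩
        exact ⟨I, hI.trans (Finset.subset_insert i s), hA⟩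

theorem t_SUB : S_SUB := by
  classical
  rintro m κ κ' f g ⟨a, rfl, ha⟩ hg hκ hdvd
  set l : Fin κ → MvPolynomial (Fin (m + 1)) ℂ := fun i => ∑ j, C (a i j) * X j with hl
  have hane : ∀ i, a i ≠ 0 := by
    intro i h
    have h1 := ha {i} (by rw [Finset.card_singleton]; omega)
    exact h1.ne_zero ⟨i, Finset.mem_singleton_self i⟩ h
  have hprime : ∀ i, Prime (l i) := fun i => (lin_irr (hane i)).prime
  obtain ⟨I, _, hA⟩ := dvd_prod_prime l hprime Finset.univ g hdvd
  obtain ⟨u, hu⟩ := hA.symm
  obtain ⟨c, hc, huc⟩ := isUnit_iff_eq_C_of_isReduced.mp u.isUnit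
  rw [huc] at hu
  have hcne : c ≠ 0 := hc.ne_zero
  have hPne : ∏ i ∈ I, l i ≠ 0 := Finset.prod_ne_zero_iff.mpr fun i _ => (hprime i).ne_zero
  have hgne : g ≠ 0 := by
    rw [← hu]
    exact mul_ne_zero hPne (by rwa [Ne, C_eq_zero])
  have hPhom : (∏ i ∈ I, l i).IsHomogeneous (∑ _i ∈ I, 1) :=
    IsHomogeneous.prod I l (fun _ => 1) fun i _ => lin_hom (a i)
  have hghom : g.IsHomogeneous (∑ _i ∈ I, 1) := by
    rw [← hu]
    have := hPhom.mul (isHomogeneous_C (Fin (m + 1)) c)
    rwa [add_zero] at this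
  have hcard : I.card = κ' := by
    have := hghom.inj_right hg hgne
    rwa [← Finset.card_eq_sum_ones] at this
  let e : Fin κ' ≃ I := (I.equivFinOfCardEq hcard).symm
  set w : Fin κ' → ℂ := fun i => if i.val = 0 then c else 1 with hw
  have hwne : ∀ i, w i ≠ 0 := by
    intro i
    simp only [hw]
    split_ifs
    · exact hcne
    · exact one_ne_zero
  have hwprod : ∏ i, w i = c := by
    rw [Finset.prod_eq_single (⟨0, by omega⟩ : Fin κ')]
    · simp [hw]
    · intro i _ hi
      simp only [hw]
      rw [if_neg]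
      intro h
      exact hi (Fin.ext h)
    · intro h
      exact absurd (Finset.mem_univ _) h
  refine ⟨fun i => w i • a (e i), ?_, ?_⟩
  · rw [← hu]
    have h1 : ∀ i : Fin κ', (∑ j, C ((w i • a (e i)) j) * X j : MvPolynomial (Fin (m + 1)) ℂ) =
        C (w i) * l (e i) := by
      intro i
      rw [hl]
      simp only [Pi.smul_apply, smul_eq_mul, map_mul]
      rw [Finset.mul_sum]
      refine Finset.sum_congr rfl fun j _ => ?_
      ring
    simp only [h1]
    rw [Finset.prod_mul_distrib, ← map_prod, hwprod, mul_comm]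
    congr 1
    rw [← Finset.prod_coe_sort I l]
    exact (Equiv.prod_comp e (fun i : I => l i)).symm
  · intro s hs
    have hinj : Function.Injective (fun i : Fin κ' => ((e i : I) : Fin κ)) :=
      Subtype.val_injective.comp e.injective
    set t : Finset (Fin κ) := s.image (fun i : Fin κ' => ((e i : I) : Fin κ)) with ht
    have htc : t.card ≤ m + 1 := by
      rw [ht, Finset.card_image_of_injective _ hinj]
      exact hs
    have h1 := ha t htc
    have h2 : LinearIndependent ℂ (fun i : s => a ((e i : I) : Fin κ)) := by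
      have h3 := h1.comp (fun i : s => (⟨((e i : I) : Fin κ),
        Finset.mem_image.mpr ⟨i, i.2, rfl⟩⟩ : t)) (by
          intro i i' hii
          have := congrArg (fun x : t => (x : Fin κ)) hii
          exact Subtype.ext (hinj this))
      exact h3
    exact h2.units_smul (fun i => Units.mk0 (w i) (hwne i))

end Pool.Agent.N752.HY.Sub
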