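import Pool.Agent.N752.HY.Def3
import Pool.Agent.N752.HY.Stm3
import Pool.Agent.N752.HY.Cnj
import Pool.Agent.N752.HY.Rnk
import Pool.Agent.N752.HY.Alg
import Pool.Agent.N752.HY.Lin
import Pool.Agent.N752.HY.Sub

set_option autoImplicit false

/-!
Products of linear forms such that any `s` of them span a space of dimension greater than `s / 3`
(from the files of helpers 427, 263, 402, 955).
-/

namespace Pool.Agent.N752.HY.Lin3

open NumberField IsDedekindDomain MvPolynomial Module Pool.Agent.N752.HY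
open Pool.Agent.N752.HY.Rnk (lf irr_lf lf_ne prop_of_dvd deg_lf_le)

variable {m : ℕ}

lemma dvd_prod {R ι : Type} [CommRing R] [IsDomain R] [DecidableEq ι] (p : ι → R)
    (hp : ∀ i, Prime (p i)) (s : Finset ι) :
    ∀ g : R, g ∣ ∏ i ∈ s, p i → ∃ t ⊆ s, Associated g (∏ i ∈ t, p i) := by
  induction s using Finset.induction_on with
  | empty =>
    intro g hg
    refine ⟨∅, le_refl _, ?_⟩
    rw [Finset.prod_empty] at hg ⊢
    exact associated_one_iff_isUnit.2 (isUnit_of_dvd_one hg)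
  | insert a s ha ih =>
    intro g hg
    rw [Finset.prod_insert ha] at hg
    rcases (hp a).left_dvd_or_dvd_right_of_dvd_mul hg with h | h
    · obtain ⟨g', rfl⟩ := h
      obtain ⟨t, ht, hass⟩ := ih g' ((mul_dvd_mul_iff_left (hp a).ne_zero).1 hg)
      refine ⟨insert a t, Finset.insert_subset_insert a ht, ?_⟩
      rw [Finset.prod_insert fun h => ha (ht h)]
      exact hass.mul_left (p a)
    · obtain ⟨t, ht, hass⟩ := ih g h
      exact ⟨t, ht.trans (Finset.subset_insert a s), hass⟩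

lemma ne_of {κ : ℕ} {a : Fin κ → Fin (m + 1) → ℂ}
    (h : ∀ s : Finset (Fin κ), s.Nonempty →
      s.card < 3 * Module.finrank ℂ (Submodule.span ℂ (a '' s))) (i : Fin κ) : a i ≠ 0 := by
  intro h0
  have h1 := h {i} (Finset.singleton_nonempty i)
  rw [Finset.coe_singleton, Set.image_singleton, h0, Submodule.span_zero_singleton,
    finrank_bot] at h1
  omega

/-- divisors -/
theorem sub3 (m κ κ' : ℕ) (f g : MvPolynomial (Fin (m + 1)) ℂ) (hf : Lines f κ)
    (hg : g.IsHomogeneous κ') (hκ : 1 ≤ κ') (hdvd : g ∣ f) : Lines g κ' := by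
  classical
  obtain ⟨a, rfl, hind⟩ := hf
  have hne := ne_of hind
  have hp : ∀ i, Prime (lf (a i)) := fun i => (irr_lf (a i) (hne i)).prime
  obtain ⟨t, -, hass⟩ := dvd_prod (fun i => lf (a i)) hp Finset.univ g hdvd
  obtain ⟨u, hu⟩ := hass.symm
  have hur : IsUnit (u : MvPolynomial (Fin (m + 1)) ℂ) := u.isUnit
  rw [MvPolynomial.isUnit_iff_eq_C_of_isReduced] at hur
  obtain ⟨c, hc, hcu⟩ := hur
  have hc0 : c ≠ 0 := hc.ne_zero
  rw [hcu] at hu
  have hprod : (∏ i ∈ t, lf (a i)) ≠ 0 := Finset.prod_ne_zero_iff.2 fun i _ => (hp i).ne_zero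
  have hcard : t.card = κ' := by
    have h1 : (∏ i ∈ t, lf (a i)).IsHomogeneous t.card := by
      have h2 := MvPolynomial.IsHomogeneous.prod t (fun i => lf (a i)) (fun _ => 1)
        (fun i _ => Pool.Agent.N752.HY.Cnj.lf_hom (a i))
      simpa using h2
    have h3 : g.IsHomogeneous t.card := by
      rw [← hu, mul_comm]
      exact h1.C_mul c
    refine h3.inj_right hg ?_
    rw [← hu]
    refine mul_ne_zero hprod ?_
    rwa [Ne, C_eq_zero]
  -- the indices
  set e : Fin κ' ≃ t := (t.orderIsoOfFin hcard).toEquiv with he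
  set i₀ : Fin κ' := ⟨0, hκ⟩ with hi₀
  refine ⟨fun i => (if i = i₀ then c else 1) • a (e i), ?_, ?_⟩
  · have h1 : ∀ i : Fin κ', (∑ j, C (((if i = i₀ then c else 1) • a (e i)) j) * X j :
        MvPolynomial (Fin (m + 1)) ℂ) =
        C (if i = i₀ then c else 1) * lf (a (e i)) := by
      intro i
      unfold lf
      rw [Finset.mul_sum]
      refine Finset.sum_congr rfl fun j _ => ?_
      rw [Pi.smul_apply, smul_eq_mul, C_mul, mul_assoc]
    rw [Finset.prod_congr rfl fun i _ => h1 i, Finset.prod_mul_distrib]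
    have h2 : ∏ i : Fin κ', (C (if i = i₀ then c else 1) : MvPolynomial (Fin (m + 1)) ℂ) = C c := by
      rw [Finset.prod_eq_single i₀]
      · rw [if_pos rfl]
      · intro i _ hi
        rw [if_neg hi, C_1]
      · intro h
        exact absurd (Finset.mem_univ _) h
    rw [h2, Equiv.prod_comp e (fun i : t => lf (a i)), ← hu, mul_comm]
    congr 1
    exact (Finset.prod_coe_sort t fun i => lf (a i)).symm
  · intro s hs
    have hinj : Function.Injective fun i : Fin κ' => (e i : Fin κ) :=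
      Subtype.val_injective.comp e.injective
    have h1 := hind (s.image fun i => (e i : Fin κ)) (hs.image _)
    rw [Finset.card_image_of_injective _ hinj] at h1
    refine h1.trans_le (Nat.mul_le_mul_left 3 (Submodule.finrank_mono ?_))
    rw [Submodule.span_le]
    rintro _ ⟨_, hi, rfl⟩
    rw [Finset.mem_coe, Finset.mem_image] at hi
    obtain ⟨i, hi, rfl⟩ := hi
    have h3 : (if i = i₀ then c else (1 : ℂ)) ≠ 0 := by
      split_ifs
      · exact hc0
      · exact one_ne_zero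
    have h4 : a (e i) = (if i = i₀ then c else (1 : ℂ))⁻¹ •
        ((if i = i₀ then c else (1 : ℂ)) • a (e i)) := by
      rw [smul_smul, inv_mul_cancel₀ h3, one_smul]
    rw [SetLike.mem_coe, h4]
    exact Submodule.smul_mem _ _ (Submodule.subset_span ⟨i, hi, rfl⟩)

/-- the rank -/
theorem rnk3 (K : Type) [Field K] [NumberField K] (E : Type) [Field E] [NumberField E]
    [Algebra K E] (φ : K →+* ℂ) (m κ : ℕ) (α : Fin (m + 1) → E) (σ : Fin κ → (E →+* ℂ))
    (hκ : 1 ≤ κ) (hσ : ∀ i, (σ i).comp (algebraMap K E) = φ)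
    (hArr : Lines (∏ i, ∑ j, C (σ i (α j)) * X j : MvPolynomial (Fin (m + 1)) ℂ) κ) :
    κ < 3 * finrank K (Submodule.span K (Set.range α)) := by
  obtain ⟨a, hprod, hind⟩ := hArr
  have hprod' : ∏ i, lf (fun j => σ i (α j)) = ∏ i, lf (a i) := hprod
  have ha := ne_of hind
  have hne : ∏ i, lf (a i) ≠ 0 := Finset.prod_ne_zero_iff.2 fun i _ => lf_ne _ (ha i)
  -- the span
  set V := Submodule.span K (Set.range α) with hV
  haveI : Module.Finite K V := by
    rw [hV]
    exact FiniteDimensional.span_of_finite K (Set.finite_range α)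
  set γ := Module.finBasis K V with hγ
  have hα : ∀ j, α j ∈ V := fun j => Submodule.subset_span (Set.mem_range_self j)
  obtain ⟨w, hw⟩ : ∃ w : Fin (finrank K V) → Fin (m + 1) → ℂ, ∀ t j,
    w t j = φ (γ.repr ⟨α j, hα j⟩ t) := ⟨_, fun _ _ => rfl⟩
  have hb : ∀ i, (fun j => σ i (α j)) ∈ Submodule.span ℂ (Set.range w) := by
    intro i
    have h1 : (fun j => σ i (α j)) = ∑ t, σ i (γ t : E) • w t := by
      funext j
      have h2 : α j = ∑ t, γ.repr ⟨α j, hα j⟩ t • (γ t : E) := by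
        have h3 := congrArg V.subtype (γ.sum_repr ⟨α j, hα j⟩)
        rw [map_sum] at h3
        simp only [map_smul, Submodule.subtype_apply] at h3
        exact h3.symm
      rw [Finset.sum_apply]
      conv_lhs => rw [h2]
      rw [map_sum]
      refine Finset.sum_congr rfl fun t _ => ?_
      rw [Pi.smul_apply, smul_eq_mul, hw, Algebra.smul_def, map_mul, mul_comm]
      congr 1
      rw [← hσ i]
      rfl
    rw [h1]
    exact Submodule.sum_mem _ fun t _ =>
      Submodule.smul_mem _ _ (Submodule.subset_span (Set.mem_range_self t))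
  have haw : ∀ i, a i ∈ Submodule.span ℂ (Set.range w) := by
    intro i
    obtain ⟨j, c, hc⟩ := prop_of_dvd (a i) (ha i) (fun i j => σ i (α j))
      (by rw [hprod']; exact hne) (by
        rw [hprod']
        exact Finset.dvd_prod_of_mem _ (Finset.mem_univ i))
    rw [hc]
    exact Submodule.smul_mem _ _ (hb j)
  have h1 := hind Finset.univ ⟨⟨0, hκ⟩, Finset.mem_univ _⟩
  rw [Finset.card_univ, Fintype.card_fin] at h1
  refine h1.trans_le (Nat.mul_le_mul_left 3 ?_)
  have h2 : Submodule.span ℂ (a '' (Finset.univ : Finset (Fin κ))) ≤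
      Submodule.span ℂ (Set.range w) := by
    rw [Submodule.span_le]
    rintro _ ⟨i, -, rfl⟩
    exact haw i
  refine (Submodule.finrank_mono h2).trans ?_
  refine (finrank_range_le_card w).trans ?_
  rw [Fintype.card_fin]

/-- irreducible forms which are products of linear forms are norm forms -/
theorem lin3 (K : Type) [Field K] [NumberField K] (φ : K →+* ℂ) (m κ : ℕ)
    (F : MvPolynomial (Fin (m + 1)) K) (hF : F.IsHomogeneous κ) (hirr : Irreducible F)
    (hκ : 1 ≤ κ) (hArr : Lines (map φ F) κ) :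
    ∃ (E : Type) (_ : Field E) (_ : NumberField E) (_ : Algebra K E)
    (α : Fin (m + 1) → E) (c : K) (i₀ : Fin (m + 1)), finrank K E = κ ∧ c ≠ 0 ∧ α i₀ = 1 ∧
    IntermediateField.adjoin K (Set.range α) = ⊤ ∧
    (∀ x : Fin (m + 1) → K, eval x F = c * Algebra.norm K (∑ i, x i • α i)) ∧
    κ < 3 * finrank K (Submodule.span K (Set.range α)) := by
  obtain ⟨a, ha, hind⟩ := id hArr
  obtain ⟨i₀, hi₀⟩ : ∃ i₀, a ⟨0, hκ⟩ i₀ ≠ 0 := by
    have h2 := ne_of hind ⟨0, hκ⟩
    by_contra hcon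
    push Not at hcon
    exact h2 (funext hcon)
  obtain ⟨β, hβ⟩ : ∃ β : Fin (m + 1) → ℂ, ∀ i, β i = a ⟨0, hκ⟩ i / a ⟨0, hκ⟩ i₀ :=
    ⟨_, fun _ => rfl⟩
  have hβ0 : β i₀ = 1 := by rw [hβ, div_self hi₀]
  have hdiv : (∑ i, C (β i) * X i) ∣ map φ F := by
    have h1 : (∑ j, C (a ⟨0, hκ⟩ j) * X j : MvPolynomial (Fin (m + 1)) ℂ) =
        C (a ⟨0, hκ⟩ i₀) * ∑ i, C (β i) * X i := by
      rw [Finset.mul_sum]
      refine Finset.sum_congr rfl fun j _ => ?_
      rw [← mul_assoc, ← C_mul, hβ, mul_div_cancel₀ _ hi₀]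
    have h2 : (∑ j, C (a ⟨0, hκ⟩ j) * X j : MvPolynomial (Fin (m + 1)) ℂ) ∣ map φ F := by
      rw [ha]
      exact Finset.dvd_prod_of_mem (fun i => ∑ j, C (a i j) * X j) (Finset.mem_univ _)
    rw [h1] at h2
    exact dvd_of_mul_left_dvd h2
  obtain ⟨E, _, _, _, ψ, α, hψ, hα, hadj⟩ := Pool.Agent.N752.HY.Lin.exists_field K φ β
    (Pool.Agent.N752.HY.Alg.t_ALG K inferInstance inferInstance φ m F β i₀ hirr.ne_zero hβ0 hdiv)
  have hα0 : α i₀ = 1 := by
    apply ψ.injective
    rw [hα, hβ0, map_one]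
  have hdiv' : (∑ i, C (ψ (α i)) * X i) ∣ map (ψ.comp (algebraMap K E)) F := by
    rw [hψ]
    simp only [hα]
    exact hdiv
  obtain ⟨hfin, ⟨c, hc, hcn⟩, σ, -, hσ, c', hc', hfac⟩ := Pool.Agent.N752.HY.Cnj.t_CNJ K
    inferInstance inferInstance E inferInstance inferInstance inferInstance ψ m κ F α i₀ hα0 hadj
    hF hirr hdiv'
  refine ⟨E, inferInstance, inferInstance, inferInstance, α, c, i₀, hfin, hc, hα0, hadj, hcn, ?_⟩
  refine rnk3 K E φ m κ α σ hκ (fun i => by rw [hσ i, hψ]) ?_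
  rw [hψ] at hfac
  refine sub3 m κ κ (map φ F) _ hArr ?_ hκ ?_
  · have h1 : (∏ i, ∑ j, C (σ i (α j)) * X j : MvPolynomial (Fin (m + 1)) ℂ).IsHomogeneous
        (∑ _i : Fin κ, 1) := by
      refine IsHomogeneous.prod _ _ _ fun i _ => ?_
      refine IsHomogeneous.sum _ _ _ fun j _ => ?_
      exact isHomogeneous_C_mul_X _ _
    simpa using h1
  · rw [hfac]
    exact dvd_mul_left _ _

/-- irreducible forms which are products of linear forms are norm forms, any rank -/
theorem lin4 (K : Type) [Field K] [NumberField K] (φ : K →+* ℂ) (m κ : ℕ)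
    (F : MvPolynomial (Fin (m + 1)) K) (hF : F.IsHomogeneous κ) (hirr : Irreducible F)
    (hκ : 1 ≤ κ) (a : Fin κ → Fin (m + 1) → ℂ)
    (ha : map φ F = ∏ i, ∑ j, C (a i j) * X j) :
    ∃ (E : Type) (_ : Field E) (_ : NumberField E) (_ : Algebra K E)
    (α : Fin (m + 1) → E) (c : K) (i₀ : Fin (m + 1)), finrank K E = κ ∧ c ≠ 0 ∧ α i₀ = 1 ∧
    IntermediateField.adjoin K (Set.range α) = ⊤ ∧
    (∀ x : Fin (m + 1) → K, eval x F = c * Algebra.norm K (∑ i, x i • α i)) ∧
    finrank ℂ (Submodule.span ℂ (Set.range a)) ≤ finrank K (Submodule.span K (Set.range α)) := by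
  have hF0 : map φ F ≠ 0 := by
    intro h0
    exact hirr.ne_zero (MvPolynomial.map_injective φ φ.injective (by rw [h0, map_zero]))
  have hane : ∀ i, a i ≠ 0 := by
    intro i h0
    apply hF0
    rw [ha]
    refine Finset.prod_eq_zero (Finset.mem_univ i) ?_
    refine Finset.sum_eq_zero fun j _ => ?_
    rw [h0, Pi.zero_apply, C_0, zero_mul]
  obtain ⟨i₀, hi₀⟩ : ∃ i₀, a ⟨0, hκ⟩ i₀ ≠ 0 := by
    have h2 := hane ⟨0, hκ⟩
    by_contra hcon
    push Not at hcon
    exact h2 (funext hcon)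
  obtain ⟨β, hβ⟩ : ∃ β : Fin (m + 1) → ℂ, ∀ i, β i = a ⟨0, hκ⟩ i / a ⟨0, hκ⟩ i₀ :=
    ⟨_, fun _ => rfl⟩
  have hβ0 : β i₀ = 1 := by rw [hβ, div_self hi₀]
  have hdiv : (∑ i, C (β i) * X i) ∣ map φ F := by
    have h1 : (∑ j, C (a ⟨0, hκ⟩ j) * X j : MvPolynomial (Fin (m + 1)) ℂ) =
        C (a ⟨0, hκ⟩ i₀) * ∑ i, C (β i) * X i := by
      rw [Finset.mul_sum]
      refine Finset.sum_congr rfl fun j _ => ?_
      rw [← mul_assoc, ← C_mul, hβ, mul_div_cancel₀ _ hi₀]
    have h2 : (∑ j, C (a ⟨0, hκ⟩ j) * X j : MvPolynomial (Fin (m + 1)) ℂ) ∣ map φ F := by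
      rw [ha]
      exact Finset.dvd_prod_of_mem (fun i => ∑ j, C (a i j) * X j) (Finset.mem_univ _)
    rw [h1] at h2
    exact dvd_of_mul_left_dvd h2
  obtain ⟨E, _, _, _, ψ, α, hψ, hα, hadj⟩ := Pool.Agent.N752.HY.Lin.exists_field K φ β
    (Pool.Agent.N752.HY.Alg.t_ALG K inferInstance inferInstance φ m F β i₀ hirr.ne_zero hβ0 hdiv)
  have hα0 : α i₀ = 1 := by
    apply ψ.injective
    rw [hα, hβ0, map_one]
  have hdiv' : (∑ i, C (ψ (α i)) * X i) ∣ map (ψ.comp (algebraMap K E)) F := by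
    rw [hψ]
    simp only [hα]
    exact hdiv
  obtain ⟨hfin, ⟨c, hc, hcn⟩, σ, -, hσ', c', hc', hfac⟩ := Pool.Agent.N752.HY.Cnj.t_CNJ K
    inferInstance inferInstance E inferInstance inferInstance inferInstance ψ m κ F α i₀ hα0 hadj
    hF hirr hdiv'
  refine ⟨E, inferInstance, inferInstance, inferInstance, α, c, i₀, hfin, hc, hα0, hadj, hcn, ?_⟩
  have hσ : ∀ i, (σ i).comp (algebraMap K E) = φ := fun i => by rw [hσ' i, hψ]
  rw [hψ] at hfac
  have hprod : ∏ i, lf (a i) = C c' * ∏ i, lf (fun j => σ i (α j)) := by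
    rw [← show map φ F = ∏ i, lf (a i) from ha]
    exact hfac
  have hσ0 : ∏ i, lf (fun j => σ i (α j)) ≠ 0 := by
    intro h0
    apply hF0
    rw [show map φ F = ∏ i, lf (a i) from ha, hprod, h0, mul_zero]
  -- the span
  set V := Submodule.span K (Set.range α) with hV
  haveI : Module.Finite K V := by
    rw [hV]
    exact FiniteDimensional.span_of_finite K (Set.finite_range α)
  set γ := Module.finBasis K V with hγ
  have hαV : ∀ j, α j ∈ V := fun j => Submodule.subset_span (Set.mem_range_self j)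
  obtain ⟨w, hw⟩ : ∃ w : Fin (finrank K V) → Fin (m + 1) → ℂ, ∀ t j,
    w t j = φ (γ.repr ⟨α j, hαV j⟩ t) := ⟨_, fun _ _ => rfl⟩
  have hb : ∀ i, (fun j => σ i (α j)) ∈ Submodule.span ℂ (Set.range w) := by
    intro i
    have h1 : (fun j => σ i (α j)) = ∑ t, σ i (γ t : E) • w t := by
      funext j
      have h2 : α j = ∑ t, γ.repr ⟨α j, hαV j⟩ t • (γ t : E) := by
        have h3 := congrArg V.subtype (γ.sum_repr ⟨α j, hαV j⟩)
        rw [map_sum] at h3
        simp only [map_smul, Submodule.subtype_apply] at h3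
        exact h3.symm
      rw [Finset.sum_apply]
      conv_lhs => rw [h2]
      rw [map_sum]
      refine Finset.sum_congr rfl fun t _ => ?_
      rw [Pi.smul_apply, smul_eq_mul, hw, Algebra.smul_def, map_mul, mul_comm]
      congr 1
      rw [← hσ i]
      rfl
    rw [h1]
    exact Submodule.sum_mem _ fun t _ =>
      Submodule.smul_mem _ _ (Submodule.subset_span (Set.mem_range_self t))
  have haw : ∀ i, a i ∈ Submodule.span ℂ (Set.range w) := by
    intro i
    have hu : IsUnit (C c' : MvPolynomial (Fin (m + 1)) ℂ) :=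
      IsUnit.map C (isUnit_iff_ne_zero.2 hc')
    obtain ⟨j, c, hc⟩ := prop_of_dvd (a i) (hane i) (fun i j => σ i (α j)) hσ0 (by
      rw [← hu.dvd_mul_left, ← hprod]
      exact Finset.dvd_prod_of_mem _ (Finset.mem_univ i))
    rw [hc]
    exact Submodule.smul_mem _ _ (hb j)
  have h2 : Submodule.span ℂ (Set.range a) ≤ Submodule.span ℂ (Set.range w) := by
    rw [Submodule.span_le]
    rintro _ ⟨i, rfl⟩
    exact haw i
  refine (Submodule.finrank_mono h2).trans ?_
  refine (finrank_range_le_card w).trans ?_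
  rw [Fintype.card_fin]

lemma W2_mono {ρ ρ' : ℕ} (κ : ℕ) (h : ρ ≤ ρ') : W2 ρ κ ≤ W2 ρ' κ := by
  unfold W2
  split_ifs <;> omega

lemma W2_pos {ρ κ : ℕ} (hρ : 1 ≤ ρ) (hκ : 1 ≤ κ) : 1 ≤ W2 ρ κ := by
  unfold W2
  split_ifs <;> omega

/-- the rank of linear forms in general position -/
lemma rank_genPos {m κ : ℕ} {a : Fin κ → Fin (m + 1) → ℂ}
    (ha : ∀ s : Finset (Fin κ), s.card ≤ m + 1 → LinearIndependent ℂ (fun i : s => a i)) :
    min (m + 1) κ ≤ finrank ℂ (Submodule.span ℂ (Set.range a)) := by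
  obtain ⟨s, -, hs⟩ := Finset.exists_subset_card_eq (s := (Finset.univ : Finset (Fin κ)))
    (n := min (m + 1) κ) (by rw [Finset.card_univ, Fintype.card_fin]; exact min_le_right _ _)
  have hli := ha s (by rw [hs]; exact min_le_left _ _)
  have h1 := finrank_span_eq_card hli
  rw [Fintype.card_coe, hs] at h1
  rw [← h1]
  refine Submodule.finrank_mono ?_
  rw [Submodule.span_le]
  rintro _ ⟨i, rfl⟩
  exact Submodule.subset_span ⟨i, rfl⟩

/-- divisors -/
theorem sub4 (m κ κ' : ℕ) (f g : MvPolynomial (Fin (m + 1)) ℂ) (hf : GenPos f κ)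
    (hg : g.IsHomogeneous κ') (hκ : 1 ≤ κ') (hdvd : g ∣ f) : GenPos g κ' :=
  Pool.Agent.N752.HY.Sub.t_SUB m κ κ' f g hf hg hκ hdvd

/-- linear forms in general position -/
theorem lines_of_arr {m κ : ℕ} {f : MvPolynomial (Fin (m + 1)) ℂ}
    {a : Fin κ → Fin (m + 1) → ℂ} (hf : f = ∏ i, ∑ j, C (a i j) * X j)
    (ha : ∀ s : Finset (Fin κ), s.card ≤ m + 1 → LinearIndependent ℂ (fun i : s => a i))
    (hκ : κ ≤ 3 * m + 2) : Lines f κ := by
  classical
  refine ⟨a, hf, fun s hs => ?_⟩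
  obtain ⟨t, hts, ht⟩ := Finset.exists_subset_card_eq (s := s)
    (n := min (m + 1) s.card) (min_le_right _ _)
  have h1 := finrank_span_eq_card (ha t (by rw [ht]; exact min_le_left _ _))
  rw [Fintype.card_coe, ht] at h1
  have h2 : Submodule.span ℂ (Set.range fun i : t => a i) ≤ Submodule.span ℂ (a '' s) := by
    rw [Submodule.span_le]
    rintro _ ⟨i, rfl⟩
    exact Submodule.subset_span ⟨i, hts i.2, rfl⟩
  have h3 := Submodule.finrank_mono h2
  have h4 : s.card ≤ κ := by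
    have := Finset.card_le_univ s
    rwa [Fintype.card_fin] at this
  have h5 : 1 ≤ s.card := hs.card_pos
  have h6 : s.card < 3 * min (m + 1) s.card := by
    rcases le_total (m + 1) s.card with h | h
    · rw [min_eq_left h]; omega
    · rw [min_eq_right h]; omega
  omega

end Pool.Agent.N752.HY.Lin3
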