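import Mathlib
import Pool.Agent.N752.HY.Stm3
import Pool.Agent.R366.NF.Ideal

set_option autoImplicit false

namespace Pool.Agent.N752.HY

open NumberField IsDedekindDomain MvPolynomial Module Height
open Pool.Agent.R366.NF (idealHeight)

/-- common primes of two forms -/
def S_OVL : Prop := ∀ (K : Type) (_ : Field K) (_ : NumberField K) (m : ℕ)
  (F G : MvPolynomial (Fin (m + 1)) (𝓞 K)) (κ ε : ℕ), F.IsHomogeneous κ → G.IsHomogeneous ε →
  ∃ C : ℝ, ∀ x : Fin (m + 1) → K, x ≠ 0 → aeval x F ≠ 0 → aeval x G ≠ 0 →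
    (0 : ℝ) ≤ idealHeight F G κ ε x + C ∧
    ∑ᶠ v ∈ {v : HeightOneSpectrum (𝓞 K) | 0 < lam K F κ x v ∧ 0 < lam K G ε x v},
      Real.log (Ideal.absNorm v.asIdeal : ℝ) ≤ idealHeight F G κ ε x + C

end Pool.Agent.N752.HY
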