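import Mathlib
import Pool.Agent.N752.HY.Fld2
import Pool.Agent.N752.HY.Fac3
import Pool.Agent.N752.HY.Def3
import Pool.Agent.N752.HY.Stm4
import Pool.Agent.N752.HY.Lin3
import Pool.Agent.N752.RD.Low

/-!
The truncated counting function relative to arbitrary reduced divisors at almost all points over one
field, with the full weight for orbits of conjugate hyperplanes.
-/

set_option autoImplicit false

namespace Pool.Agent.N752.HY

open NumberField IsDedekindDomain MvPolynomial Module Height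
open scoped LinearAlgebra.Projectivization
open Pool.Agent.R366.NF (truncatedCount idealHeight)

variable {K : Type} [Field K] [NumberField K] {m : ℕ}

/-- almost all points -/
def AA (P : ℙ K (Fin (m + 1) → K) → Prop) : Prop :=
  ∃ c C : ℝ, 0 < c ∧ 0 ≤ C ∧ ∀ T : ℝ, 0 ≤ T → ∃ Z : Finset (ℙ K (Fin (m + 1) → K)),
    (Z.card : ℝ) ≤ C * Real.exp (((finrank ℚ K : ℝ) * (m + 1) - c) * T) ∧
    ∀ Q : ℙ K (Fin (m + 1) → K), Real.log Q.mulHeight ≤ finrank ℚ K * T → Q ∉ Z → P Q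

lemma AA.mono {P P' : ℙ K (Fin (m + 1) → K) → Prop} (h : AA P) (hPP : ∀ Q, P Q → P' Q) :
    AA P' := by
  obtain ⟨c, C, hc, hC, h⟩ := h
  refine ⟨c, C, hc, hC, fun T hT => ?_⟩
  obtain ⟨Z, hZ, h⟩ := h T hT
  exact ⟨Z, hZ, fun Q hQ hQZ => hPP Q (h Q hQ hQZ)⟩

lemma AA.and {P P' : ℙ K (Fin (m + 1) → K) → Prop} (h : AA P) (h' : AA P') :
    AA fun Q => P Q ∧ P' Q := by
  classical
  obtain ⟨c, C, hc, hC, h⟩ := h
  obtain ⟨c', C', hc', hC', h'⟩ := h'
  refine ⟨min c c', C + C', lt_min hc hc', by positivity, fun T hT => ?_⟩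
  obtain ⟨Z, hZ, h⟩ := h T hT
  obtain ⟨Z', hZ', h'⟩ := h' T hT
  refine ⟨Z ∪ Z', ?_, fun Q hQ hQZ => ?_⟩
  · have h1 : ((Z ∪ Z').card : ℝ) ≤ Z.card + Z'.card := by exact_mod_cast Finset.card_union_le _ _
    have h2 : Real.exp (((finrank ℚ K : ℝ) * (m + 1) - c) * T) ≤
        Real.exp (((finrank ℚ K : ℝ) * (m + 1) - min c c') * T) := by
      refine Real.exp_le_exp.2 (mul_le_mul_of_nonneg_right ?_ hT)
      have := min_le_left c c'
      linarith
    have h3 : Real.exp (((finrank ℚ K : ℝ) * (m + 1) - c') * T) ≤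
        Real.exp (((finrank ℚ K : ℝ) * (m + 1) - min c c') * T) := by
      refine Real.exp_le_exp.2 (mul_le_mul_of_nonneg_right ?_ hT)
      have := min_le_right c c'
      linarith
    have h4 := mul_le_mul_of_nonneg_left h2 hC
    have h5 := mul_le_mul_of_nonneg_left h3 hC'
    rw [add_mul]
    linarith
  · rw [Finset.mem_union, not_or] at hQZ
    exact ⟨h Q hQ hQZ.1, h' Q hQ hQZ.2⟩

lemma AA.triv : AA fun _ : ℙ K (Fin (m + 1) → K) => True :=
  ⟨1, 0, one_pos, le_refl _, fun T _ => ⟨∅, by simp, fun _ _ _ => trivial⟩⟩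

lemma AA.all {ι : Type} (s : Finset ι) {P : ι → ℙ K (Fin (m + 1) → K) → Prop}
    (h : ∀ i ∈ s, AA (P i)) : AA fun Q => ∀ i ∈ s, P i Q := by
  classical
  induction s using Finset.induction_on with
  | empty => exact AA.triv.mono fun Q _ i hi => absurd hi (Finset.notMem_empty i)
  | insert a s ha ih =>
    have h1 := (h a (Finset.mem_insert_self a s)).and
      (ih fun i hi => h i (Finset.mem_insert_of_mem hi))
    refine h1.mono fun Q hQ i hi => ?_
    rcases Finset.mem_insert.1 hi with rfl | hi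
    · exact hQ.1
    · exact hQ.2 i hi

lemma hgt_rep (Q : ℙ K (Fin (m + 1) → K)) :
    hgt Q.rep = Real.log Q.mulHeight / finrank ℚ K := by
  unfold hgt
  rw [logHeight_eq_log_mulHeight]
  have h4 : mulHeight Q.rep = Q.mulHeight := by
    conv_rhs => rw [← Q.mk_rep]
    rw [Projectivization.mulHeight_mk]
  rw [h4]

lemma hgt0 (x : Fin (m + 1) → K) : 0 ≤ hgt x := by
  unfold hgt
  rw [Height.logHeight_eq_log_mulHeight]
  exact div_nonneg (Real.log_nonneg (Height.one_le_mulHeight _)) (Nat.cast_nonneg _)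

/-- almost all points have large height -/
lemma AA.large (T₀ : ℝ) : AA fun Q : ℙ K (Fin (m + 1) → K) => T₀ < hgt Q.rep := by
  classical
  have hn : 0 < finrank ℚ K := finrank_pos
  have hn0 : (0 : ℝ) < finrank ℚ K := by exact_mod_cast hn
  obtain ⟨C', -, h⟩ := Pool.Agent.N752.RD.pts_upper K m
  obtain ⟨h1, -⟩ := h (Real.exp (max T₀ 0)) (Real.one_le_exp (le_max_right _ _))
  set Z : Finset (ℙ K (Fin (m + 1) → K)) := h1.toFinset with hZ
  refine ⟨(finrank ℚ K : ℝ) * (m + 1), Z.card, by positivity, Nat.cast_nonneg _,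
    fun T hT => ⟨Z, ?_, fun Q hQ hQZ => ?_⟩⟩
  · rw [sub_self, zero_mul, Real.exp_zero, mul_one]
  · by_contra hc
    push Not at hc
    refine hQZ ?_
    rw [hZ, Set.Finite.mem_toFinset, Set.mem_ofPred_eq, ← Real.exp_nat_mul]
    have hmh : 1 ≤ Q.mulHeight := by
      rw [← Q.mk_rep, Projectivization.mulHeight_mk]
      exact one_le_mulHeight _
    rw [← Real.log_le_iff_le_exp (by linarith)]
    rw [hgt_rep, div_le_iff₀ hn0] at hc
    have h2 := mul_le_mul_of_nonneg_right (le_max_left T₀ 0) hn0.le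
    linarith


lemma cnt_nonneg {q : ℕ} (S : Finset ℕ) (F : Fin q → MvPolynomial (Fin (m + 1)) (𝓞 K))
    (κ : Fin q → ℕ) (J : Finset (Fin q)) (x : Fin (m + 1) → K) : 0 ≤ cnt K S F κ J x := by
  classical
  unfold cnt
  refine div_nonneg (finsum_nonneg fun v => ?_) (Nat.cast_nonneg _)
  split_ifs
  · exact Real.log_natCast_nonneg _
  · exact le_refl _

/-- one family, weights `wt` -/
lemma comp {q : ℕ} (F : Fin q → MvPolynomial (Fin (m + 1)) (𝓞 K)) (κ : Fin q → ℕ)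
    (hhom : ∀ j, (F j).IsHomogeneous (κ j))
    (hirr : ∀ j, Irreducible (map (algebraMap (𝓞 K) K) (F j)))
    (hdist : ∀ i j, i ≠ j →
      ¬ Associated (map (algebraMap (𝓞 K) K) (F i)) (map (algebraMap (𝓞 K) K) (F j)))
    (hκ : ∀ j, 1 ≤ κ j) {δ : ℝ} (hδ : 0 < δ) :
    AA fun Q => (∀ j, aeval Q.rep (F j) ≠ 0) ∧
      ((∑ j, (wt (κ j) : ℝ)) - δ) * hgt Q.rep ≤ cnt K ∅ F κ Finset.univ Q.rep := by
  rcases Nat.eq_zero_or_pos q with hq | hq
  · subst hq
    refine AA.triv.mono fun Q _ => ⟨fun j => j.elim0, ?_⟩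
    have h1 := cnt_nonneg ∅ F κ Finset.univ Q.rep
    have h2 := hgt0 Q.rep
    simp only [Finset.univ_eq_empty, Finset.sum_empty, zero_sub]
    rw [Finset.univ_eq_empty] at h1
    nlinarith
  · have hpos : 0 < ∑ j, (wt (κ j) : ℝ) := by
      have : Nonempty (Fin q) := ⟨⟨0, hq⟩⟩
      refine Finset.sum_pos (fun j _ => ?_) Finset.univ_nonempty
      have h1 := hκ j
      have h2 : 1 ≤ wt (κ j) := by
        unfold wt
        split_ifs <;> omega
      exact_mod_cast h2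
    obtain ⟨c, C, hc, hC, h⟩ := fld (t := 0) F κ hhom hirr hdist (fun i => i.elim0)
      (fun i => i.elim0) (fun i => i.elim0) (fun i => i.elim0) (fun i => i.elim0)
      (fun i => i.elim0) (fun i => i.elim0) (fun i => i.elim0) 0 (le_refl _)
      (max 0 ((∑ j, (wt (κ j) : ℝ)) - δ)) (le_max_left _ _) (max_lt hpos (by linarith))
    have h' : AA fun Q : ℙ K (Fin (m + 1) → K) =>
        Good F κ (fun i : Fin 0 => i.elim0) (fun i : Fin 0 => i.elim0) (fun i => i.elim0)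
          (fun i => i.elim0) 0 (max 0 ((∑ j, (wt (κ j) : ℝ)) - δ)) Q.rep := ⟨c, C, hc, hC, h⟩
    refine h'.mono fun Q hQ => ⟨hQ.1, ?_⟩
    have h1 := hQ.2
    rw [zero_mul, add_zero] at h1
    exact (mul_le_mul_of_nonneg_right (le_max_right _ _) (hgt0 _)).trans h1

/-- the heights relative to ideals of codimension two are small -/
lemma idl (hUPC : S_UPC) {F' G' : MvPolynomial (Fin (m + 1)) (𝓞 K)} {κ' ε' : ℕ}
    (hF' : F'.IsHomogeneous κ') (hG' : G'.IsHomogeneous ε')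
    (hirr' : Irreducible (map (algebraMap (𝓞 K) K) F'))
    (hcop : ¬ map (algebraMap (𝓞 K) K) F' ∣ map (algebraMap (𝓞 K) K) G') {δ : ℝ} (hδ : 0 < δ) :
    AA fun Q => idealHeight F' G' κ' ε' Q.rep ≤ δ * hgt Q.rep := by
  classical
  have hn : 0 < finrank ℚ K := finrank_pos
  have hn0 : (0 : ℝ) < finrank ℚ K := by exact_mod_cast hn
  obtain ⟨C₁, hC₁⟩ := hUPC K inferInstance inferInstance m (X 0) 1 (isHomogeneous_X _ _)
  have hX : Irreducible (map (algebraMap (𝓞 K) K) (X 0 : MvPolynomial (Fin (m + 1)) (𝓞 K))) := by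
    rw [map_X]
    exact (MvPolynomial.X_prime (R := K) (i := (0 : Fin (m + 1)))).irreducible
  obtain ⟨c, C, hc, hC, h⟩ := fld (q := 1) (t := 1) (fun _ => X 0) (fun _ => 1)
    (fun _ => isHomogeneous_X _ _) (fun _ => hX) (fun i j hij => absurd (Subsingleton.elim i j) hij)
    (fun _ => F') (fun _ => G') (fun _ => κ') (fun _ => ε') (fun _ => hF') (fun _ => hG')
    (fun _ => hirr') (fun _ => hcop) (2 * finrank ℚ K / δ) (by positivity) 0 (le_refl _)
    (by simp [wt])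
  have h' : AA fun Q : ℙ K (Fin (m + 1) → K) =>
      Good (fun _ : Fin 1 => X 0) (fun _ => 1) (fun _ : Fin 1 => F') (fun _ => G') (fun _ => κ')
        (fun _ => ε') (2 * finrank ℚ K / δ) 0 Q.rep := ⟨c, C, hc, hC, h⟩
  refine (h'.and (AA.large C₁)).mono fun Q hQ => ?_
  obtain ⟨⟨h1, h2⟩, h3⟩ := hQ
  have h4 := hC₁ Q.rep Q.rep_nonzero (h1 0)
  rw [zero_mul, zero_add, Fin.sum_univ_one] at h2
  rw [Nat.cast_one, one_mul] at h4
  have h5 : 2 * finrank ℚ K / δ * (idealHeight F' G' κ' ε' Q.rep / finrank ℚ K) =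
      2 / δ * idealHeight F' G' κ' ε' Q.rep := by field_simp
  rw [h5] at h2
  have h6 : 2 / δ * idealHeight F' G' κ' ε' Q.rep ≤ 2 * hgt Q.rep := by linarith
  have h7 : idealHeight F' G' κ' ε' Q.rep = δ / 2 * (2 / δ * idealHeight F' G' κ' ε' Q.rep) := by
    field_simp
  rw [h7]
  have h8 := mul_le_mul_of_nonneg_left h6 (show 0 ≤ δ / 2 by positivity)
  linarith

lemma cnt_reindex {q q' : ℕ} (S : Finset ℕ) (F : Fin q → MvPolynomial (Fin (m + 1)) (𝓞 K))
    (κ : Fin q → ℕ) (J : Finset (Fin q)) (e : Fin q' → Fin q) (he : ∀ j, j ∈ J ↔ ∃ i, e i = j)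
    (x : Fin (m + 1) → K) :
    cnt K S (fun i => F (e i)) (fun i => κ (e i)) Finset.univ x = cnt K S F κ J x := by
  classical
  unfold cnt
  congr 1
  refine finsum_congr fun v => ?_
  refine if_congr (and_congr Iff.rfl ?_) rfl rfl
  constructor
  · rintro ⟨i, -, hi⟩
    exact ⟨e i, (he _).2 ⟨i, rfl⟩, hi⟩
  · rintro ⟨j, hj, hj'⟩
    obtain ⟨i, rfl⟩ := (he j).1 hj
    exact ⟨i, Finset.mem_univ i, hj'⟩

lemma sum_reindex {q q' : ℕ} (J : Finset (Fin q)) (e : Fin q' → Fin q)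
    (hinj : Function.Injective e) (he : ∀ j, j ∈ J ↔ ∃ i, e i = j) (f : Fin q → ℝ) :
    ∑ j ∈ J, f j = ∑ i, f (e i) := by
  classical
  have e1 : J = Finset.univ.image e := by
    ext j
    rw [he j]
    simp
  rw [e1, Finset.sum_image fun i _ i' _ h => hinj h]

/-- irreducible components -/
theorem fld3irr (hUPC : S_UPC) (hCUP : S_CUP) (hOVL : S_OVL) (hNRM : S_NRM)
    (φ : K →+* ℂ) (hd : 3 ≤ finrank ℚ K * (m + 1)) {q : ℕ}
    (F : Fin q → MvPolynomial (Fin (m + 1)) (𝓞 K)) (κ : Fin q → ℕ)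
    (hhom : ∀ j, (F j).IsHomogeneous (κ j))
    (hirr : ∀ j, Irreducible (map (algebraMap (𝓞 K) K) (F j)))
    (hdist : ∀ i j, i ≠ j →
      ¬ Associated (map (algebraMap (𝓞 K) K) (F i)) (map (algebraMap (𝓞 K) K) (F j)))
    (hκ : ∀ j, 1 ≤ κ j) (w : Fin q → ℕ)
    (hw : ∀ j, HasW (map (φ.comp (algebraMap (𝓞 K) K)) (F j)) (κ j) (w j)) {δ : ℝ} (hδ : 0 < δ) :
    AA fun Q => (∀ j, aeval Q.rep (F j) ≠ 0) ∧
      ((∑ j, (w j : ℝ)) - δ) * hgt Q.rep ≤ cnt K ∅ F κ Finset.univ Q.rep := by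
  classical
  have hn : 0 < finrank ℚ K := finrank_pos
  have hn0 : (0 : ℝ) < finrank ℚ K := by exact_mod_cast hn
  have hn1 : (1 : ℝ) ≤ finrank ℚ K := by exact_mod_cast hn
  set J : Finset (Fin q) := Finset.univ.filter fun j =>
    ∃ a : Fin (κ j) → Fin (m + 1) → ℂ, map (φ.comp (algebraMap (𝓞 K) K)) (F j) =
      ∏ i, ∑ l, C (a i l) * X l ∧ w j ≤ W2 (finrank ℂ (Submodule.span ℂ (Set.range a))) (κ j)
    with hJ
  set δ' : ℝ := δ / (2 * (q + 1 + q * q)) with hδ'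
  have hδ'0 : 0 < δ' := by positivity
  -- the norm forms
  have h1 : ∀ j ∈ J, AA fun Q : ℙ K (Fin (m + 1) → K) =>
      ((w j : ℝ) - δ') * hgt Q.rep ≤
        cnt K ∅ (fun _ : Fin 1 => F j) (fun _ => κ j) Finset.univ Q.rep := by
    intro j hj
    obtain ⟨-, a, hj1, hj2⟩ := Finset.mem_filter.1 hj
    obtain ⟨E, i1, i2, i3, α, c, i₀, g1, g2, g3, g4, g5, g7⟩ := Lin3.lin4 K φ
      m (κ j) (map (algebraMap (𝓞 K) K) (F j)) ((hhom j).map _) (hirr j) (hκ j) a
      (by rw [MvPolynomial.map_map]; exact hj1)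
    have g8 : ((w j : ℕ) : ℝ) ≤ (W2 (finrank K (Submodule.span K (Set.range α))) (κ j) : ℕ) := by
      exact_mod_cast hj2.trans (Lin3.W2_mono (κ j) g7)
    obtain ⟨c₁, C, hc₁, hC, h⟩ := hNRM K inferInstance inferInstance E i1 i2 i3 m (κ j) (F j) α c i₀
      hd (hhom j) g1 g2 g3 g4 (fun x => by
        rw [← g5 x, MvPolynomial.eval_map]
        rfl) ((w j : ℝ) - δ') (by linarith)
    have h' : AA fun Q : ℙ K (Fin (m + 1) → K) => aeval Q.rep (F j) ≠ 0 ∧
        ((w j : ℝ) - δ') * hgt Q.rep ≤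
          cnt K ∅ (fun _ : Fin 1 => F j) (fun _ => κ j) Finset.univ Q.rep := ⟨c₁, C, hc₁, hC, h⟩
    exact h'.mono fun Q hQ => hQ.2
  -- the other components
  set e : Fin Jᶜ.card → Fin q := fun i => Jᶜ.orderEmbOfFin rfl i with he
  have hinj : Function.Injective e := (Jᶜ.orderEmbOfFin rfl).injective
  have hrange : ∀ j, j ∈ Jᶜ ↔ ∃ i, e i = j := by
    intro j
    have := Jᶜ.range_orderEmbOfFin rfl
    have h2 : j ∈ Set.range (Jᶜ.orderEmbOfFin rfl) ↔ j ∈ (Jᶜ : Set (Fin q)) := by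
      rw [this]
      simp
    rw [← Finset.mem_coe, Finset.coe_compl, ← h2]
    rfl
  have h2 := comp (fun i => F (e i)) (fun i => κ (e i)) (fun i => hhom _) (fun i => hirr _)
    (fun i i' hii => hdist _ _ fun h => hii (hinj h)) (fun i => hκ _) hδ'0
  -- nonvanishing
  have h3 := comp F κ hhom hirr hdist hκ (δ := 1) one_pos
  -- overlaps
  have hovl := fun j i => hOVL K inferInstance inferInstance m (F j) (F i) (κ j) (κ i) (hhom j)
    (hhom i)
  choose Co hCo using hovl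
  have h4 : AA fun Q : ℙ K (Fin (m + 1) → K) => ∀ j ∈ (Finset.univ : Finset (Fin q)),
      ∀ i ∈ Finset.univ.erase j, idealHeight (F j) (F i) (κ j) (κ i) Q.rep ≤ δ' * hgt Q.rep := by
    refine AA.all _ fun j _ => AA.all _ fun i hi => ?_
    have hij : j ≠ i := (Finset.ne_of_mem_erase hi).symm
    exact idl hUPC (hhom j) (hhom i) (hirr j)
      (fun h => hdist j i hij ((hirr j).associated_of_dvd (hirr i) h)) hδ'0
  set C' : ℝ := ∑ j, ∑ i, |Co j i| with hC'
  have hC'0 : 0 ≤ C' := Finset.sum_nonneg fun j _ => Finset.sum_nonneg fun i _ => abs_nonneg _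
  refine ((((AA.all J h1).and h2).and h3).and (h4.and (AA.large (2 * C' / δ)))).mono fun Q hQ => ?_
  obtain ⟨⟨⟨k1, -, k2⟩, k3, -⟩, k4, k5⟩ := hQ
  refine ⟨k3, ?_⟩
  have hg0 := hgt0 Q.rep
  rw [cnt_reindex ∅ F κ Jᶜ e hrange] at k2
  have k6 := hCUP K inferInstance inferInstance m q F κ J Q.rep Q.rep_nonzero k3
  -- the weights
  have w2 : ∀ j ∈ Jᶜ, w j ≤ wt (κ j) := by
    intro j hj
    have hj' := fun hc => (Finset.mem_compl.1 hj) (Finset.mem_filter.2 ⟨Finset.mem_univ _, hc⟩)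
    have hκj := hκ j
    unfold wt
    rcases hw j with h | h | h
    · split_ifs <;> omega
    · rw [if_pos h.2]
      exact h.1
    · exact absurd h hj'
  have w3 : (∑ j, (w j : ℝ)) ≤ ∑ j ∈ J, (w j : ℝ) + ∑ i, (wt (κ (e i)) : ℝ) := by
    rw [← Finset.sum_add_sum_compl J]
    refine add_le_add (le_refl _) ?_
    rw [← sum_reindex Jᶜ e hinj hrange fun j => (wt (κ j) : ℝ)]
    exact Finset.sum_le_sum fun j hj => by exact_mod_cast w2 j hj
  have w4 := mul_le_mul_of_nonneg_right w3 hg0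
  -- the sums
  have s1 : (∑ j ∈ J, (w j : ℝ) - q * δ') * hgt Q.rep ≤
      ∑ j ∈ J, cnt K ∅ (fun _ : Fin 1 => F j) (fun _ => κ j) Finset.univ Q.rep := by
    have a1 := Finset.sum_le_sum k1
    rw [← Finset.sum_mul, Finset.sum_sub_distrib, Finset.sum_const, nsmul_eq_mul] at a1
    refine le_trans (mul_le_mul_of_nonneg_right ?_ hg0) a1
    have a2 : (J.card : ℝ) ≤ q := by
      have := Finset.card_le_univ J
      rw [Fintype.card_fin] at this
      exact_mod_cast this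
    have := mul_le_mul_of_nonneg_right a2 hδ'0.le
    linarith
  have s2 : (∑ j ∈ J, ∑ i ∈ Finset.univ.erase j,
        ∑ᶠ v ∈ {v : HeightOneSpectrum (𝓞 K) | 0 < lam K (F j) (κ j) Q.rep v ∧
          0 < lam K (F i) (κ i) Q.rep v}, Real.log (Ideal.absNorm v.asIdeal : ℝ)) / finrank ℚ K ≤
      q * q * δ' * hgt Q.rep + C' := by
    have a1 : (∑ j ∈ J, ∑ i ∈ Finset.univ.erase j,
        ∑ᶠ v ∈ {v : HeightOneSpectrum (𝓞 K) | 0 < lam K (F j) (κ j) Q.rep v ∧
          0 < lam K (F i) (κ i) Q.rep v}, Real.log (Ideal.absNorm v.asIdeal : ℝ)) ≤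
        ∑ j ∈ J, ∑ i ∈ Finset.univ.erase j, (δ' * hgt Q.rep + |Co j i|) := by
      refine Finset.sum_le_sum fun j _ => Finset.sum_le_sum fun i hi => ?_
      have b1 := (hCo j i Q.rep Q.rep_nonzero (k3 j) (k3 i)).2
      have b2 := k4 j (Finset.mem_univ j) i hi
      have b3 := le_abs_self (Co j i)
      linarith
    have a2 : ∑ j ∈ J, ∑ i ∈ Finset.univ.erase j, (δ' * hgt Q.rep + |Co j i|) ≤
        ∑ j : Fin q, ∑ i : Fin q, (δ' * hgt Q.rep + |Co j i|) := by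
      have pos : ∀ j i, 0 ≤ δ' * hgt Q.rep + |Co j i| := fun j i =>
        add_nonneg (mul_nonneg hδ'0.le hg0) (abs_nonneg _)
      refine (Finset.sum_le_sum_of_subset_of_nonneg (Finset.subset_univ J)
        fun j _ _ => Finset.sum_nonneg fun i _ => pos j i).trans ?_
      exact Finset.sum_le_sum fun j _ => Finset.sum_le_sum_of_subset_of_nonneg
        (Finset.erase_subset _ _) fun i _ _ => pos j i
    have a3 : ∑ j : Fin q, ∑ i : Fin q, (δ' * hgt Q.rep + |Co j i|) =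
        q * q * δ' * hgt Q.rep + C' := by
      simp only [Finset.sum_add_distrib, Finset.sum_const, Finset.card_univ, Fintype.card_fin,
        nsmul_eq_mul, hC']
      ring
    have a4 : 0 ≤ q * q * δ' * hgt Q.rep + C' := by positivity
    rw [div_le_iff₀ hn0]
    calc _ ≤ _ := a1
      _ ≤ _ := a2
      _ = _ := a3
      _ = (q * q * δ' * hgt Q.rep + C') * 1 := (mul_one _).symm
      _ ≤ _ := mul_le_mul_of_nonneg_left hn1 a4
  have s3 : C' ≤ δ / 2 * hgt Q.rep := by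
    rw [div_lt_iff₀ hδ] at k5
    linarith
  have s4 : (q + 1 + q * q) * δ' = δ / 2 := by
    rw [hδ']
    field_simp
  have s5 : (q * δ' + δ' + q * q * δ') * hgt Q.rep = δ / 2 * hgt Q.rep := by
    rw [← s4]
    ring
  linarith [s5]

/-- comparison of the truncated counting functions of the components and of the divisor -/
lemma cnt_cmp (S : Finset ℕ) (hS : ∀ p ∈ S, p.Prime) : ∃ C : ℝ, 0 ≤ C ∧
    ∀ (q q₁ : ℕ) (F : Fin q → MvPolynomial (Fin (m + 1)) (𝓞 K)) (κ : Fin q → ℕ)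
      (F₁ : Fin q₁ → MvPolynomial (Fin (m + 1)) (𝓞 K)) (κ₁ : Fin q₁ → ℕ) (x : Fin (m + 1) → K),
      x ≠ 0 → (∀ j, aeval x (F j) ≠ 0) → (∀ i, aeval x (F₁ i) ≠ 0) →
      (∀ v : HeightOneSpectrum (𝓞 K), Outside S v → (∃ i, 0 < lam K (F₁ i) (κ₁ i) x v) →
        ∃ j, 0 < lam K (F j) (κ j) x v) →
      cnt K ∅ F₁ κ₁ Finset.univ x ≤ cnt K ∅ F κ Finset.univ x + C := by
  classical
  have hn : 0 < finrank ℚ K := finrank_pos
  have hn0 : (0 : ℝ) < finrank ℚ K := by exact_mod_cast hn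
  have hB : {v : HeightOneSpectrum (𝓞 K) | ¬ Outside S v}.Finite := by
    have hI : (Ideal.span {((∏ p ∈ S, p : ℕ) : 𝓞 K)} : Ideal (𝓞 K)) ≠ 0 := by
      rw [Ne, Ideal.zero_eq_bot, Ideal.span_singleton_eq_bot, Nat.cast_eq_zero,
        Finset.prod_eq_zero_iff]
      rintro ⟨p, hp, h0⟩
      exact (hS p hp).ne_zero h0
    refine (Ideal.finite_factors hI).subset ?_
    intro v hv
    have hv' : ∃ p ∈ S, (p : 𝓞 K) ∈ v.asIdeal := by
      by_contra hc
      push Not at hc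
      exact hv hc
    obtain ⟨p, hp, hpv⟩ := hv'
    rw [Set.mem_ofPred_eq, Ideal.dvd_iff_le, Ideal.span_singleton_le_iff_mem]
    exact Ideal.mem_of_dvd _ (Nat.cast_dvd_cast (Finset.dvd_prod_of_mem (fun p => p) hp)) hpv
  have hlog : ∀ v : HeightOneSpectrum (𝓞 K), 0 ≤ Real.log (Ideal.absNorm v.asIdeal : ℝ) :=
    fun v => Real.log_natCast_nonneg _
  refine ⟨(∑ v ∈ hB.toFinset, Real.log (Ideal.absNorm v.asIdeal : ℝ)) / finrank ℚ K,
    div_nonneg (Finset.sum_nonneg fun v _ => hlog v) hn0.le, ?_⟩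
  intro q q₁ F κ F₁ κ₁ x hx h0 h1 hloc
  have hfin : {v : HeightOneSpectrum (𝓞 K) | ∃ j, 0 < lam K (F j) (κ j) x v}.Finite := by
    refine (Set.finite_iUnion fun j => Pool.Agent.N752.HY.Ext.lam_support (L := K)
      (κ := κ j) hx (h0 j)).subset ?_
    rintro v ⟨j, hj⟩
    exact Set.mem_iUnion.2 ⟨j, hj.ne'⟩
  have hfin1 : {v : HeightOneSpectrum (𝓞 K) | ∃ i, 0 < lam K (F₁ i) (κ₁ i) x v}.Finite := by
    refine (Set.finite_iUnion fun j => Pool.Agent.N752.HY.Ext.lam_support (L := K)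
      (κ := κ₁ j) hx (h1 j)).subset ?_
    rintro v ⟨j, hj⟩
    exact Set.mem_iUnion.2 ⟨j, hj.ne'⟩
  set T : Finset (HeightOneSpectrum (𝓞 K)) := hfin.toFinset ∪ hfin1.toFinset ∪ hB.toFinset with hT
  unfold cnt
  rw [← add_div]
  refine div_le_div_of_nonneg_right ?_ hn0.le
  rw [finsum_eq_sum_of_support_subset (s := T), finsum_eq_sum_of_support_subset (s := T)]
  · have e : ∑ v ∈ hB.toFinset, Real.log (Ideal.absNorm v.asIdeal : ℝ) =
        ∑ v ∈ T, if ¬ Outside S v then Real.log (Ideal.absNorm v.asIdeal : ℝ) else 0 := by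
      rw [← Finset.sum_filter]
      refine Finset.sum_congr ?_ fun _ _ => rfl
      ext v
      rw [Finset.mem_filter, Set.Finite.mem_toFinset, Set.mem_ofPred_eq]
      refine ⟨fun h => ⟨?_, h⟩, fun h => h.2⟩
      rw [hT, Finset.mem_union, Set.Finite.mem_toFinset]
      exact Or.inr h
    rw [e, ← Finset.sum_add_distrib]
    refine Finset.sum_le_sum fun v _ => ?_
    have hout : Outside ∅ v := by simp [Outside]
    by_cases hc : Outside ∅ v ∧ ∃ i ∈ Finset.univ, 0 < lam K (F₁ i) (κ₁ i) x v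
    · rw [if_pos hc]
      obtain ⟨-, i, -, hi⟩ := hc
      by_cases hv : Outside S v
      · obtain ⟨j, hj⟩ := hloc v hv ⟨i, hi⟩
        rw [if_pos (show Outside ∅ v ∧ ∃ i ∈ Finset.univ, 0 < lam K (F i) (κ i) x v from
          ⟨hout, j, Finset.mem_univ j, hj⟩)]
        split_ifs
        all_goals linarith [hlog v]
      · rw [if_pos hv]
        split_ifs
        all_goals linarith [hlog v]
    · rw [if_neg hc]
      have := hlog v
      split_ifs <;> linarith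
  · intro v hv
    rw [Finset.mem_coe, hT, Finset.mem_union, Finset.mem_union, Set.Finite.mem_toFinset]
    left; left
    by_contra hc
    refine hv (if_neg ?_)
    rintro ⟨-, i, -, hi⟩
    exact hc ⟨i, hi⟩
  · intro v hv
    rw [Finset.mem_coe, hT, Finset.mem_union, Finset.mem_union, Set.Finite.mem_toFinset (hs := hfin1)]
    left; right
    by_contra hc
    refine hv (if_neg ?_)
    rintro ⟨-, i, -, hi⟩
    exact hc ⟨i, hi⟩

open Classical in
/-- the primes at which two of the local heights are positive -/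
noncomputable def ovl (K : Type) [Field K] [NumberField K] {m q : ℕ}
    (F : Fin q → MvPolynomial (Fin (m + 1)) (𝓞 K)) (κ : Fin q → ℕ) (x : Fin (m + 1) → K) : ℝ :=
  (∑ᶠ v : HeightOneSpectrum (𝓞 K), if ∃ i j, i ≠ j ∧ 0 < lam K (F i) (κ i) x v ∧
    0 < lam K (F j) (κ j) x v then Real.log (Ideal.absNorm v.asIdeal) else 0) / finrank ℚ K

lemma finsum_set (P : HeightOneSpectrum (𝓞 K) → Prop) [DecidablePred P]
    (g : HeightOneSpectrum (𝓞 K) → ℝ) (T : Finset (HeightOneSpectrum (𝓞 K)))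
    (h : ∀ v, P v → v ∈ T) :
    ∑ᶠ v ∈ {v : HeightOneSpectrum (𝓞 K) | P v}, g v = ∑ v ∈ T, if P v then g v else 0 := by
  classical
  have hfin : {v : HeightOneSpectrum (𝓞 K) | P v}.Finite := T.finite_toSet.subset h
  rw [finsum_mem_eq_finite_toFinset_sum _ hfin, ← Finset.sum_filter]
  refine Finset.sum_congr ?_ fun _ _ => rfl
  ext v
  rw [Set.Finite.mem_toFinset, Finset.mem_filter]
  exact ⟨fun hv => ⟨h v hv, hv⟩, fun hv => hv.2⟩

/-- the common primes of the divisors and of their components -/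
lemma ovl_le (S : Finset ℕ) (hS : ∀ p ∈ S, p.Prime) : ∃ C : ℝ, 0 ≤ C ∧
    ∀ (q q₁ : ℕ) (F : Fin q → MvPolynomial (Fin (m + 1)) (𝓞 K)) (κ : Fin q → ℕ)
      (F₁ : Fin q₁ → MvPolynomial (Fin (m + 1)) (𝓞 K)) (κ₁ : Fin q₁ → ℕ) (f : Fin q₁ → Fin q)
      (x : Fin (m + 1) → K), x ≠ 0 → (∀ i, aeval x (F₁ i) ≠ 0) →
      (∀ v : HeightOneSpectrum (𝓞 K), Outside S v → ∀ j, 0 < lam K (F j) (κ j) x v →
        ∃ i, f i = j ∧ 0 < lam K (F₁ i) (κ₁ i) x v) →
      ovl K F κ x ≤ (∑ i, ∑ i' ∈ Finset.univ.erase i,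
        ∑ᶠ v ∈ {v : HeightOneSpectrum (𝓞 K) | 0 < lam K (F₁ i) (κ₁ i) x v ∧
          0 < lam K (F₁ i') (κ₁ i') x v}, Real.log (Ideal.absNorm v.asIdeal : ℝ)) / finrank ℚ K +
        C := by
  classical
  have hn : 0 < finrank ℚ K := finrank_pos
  have hn0 : (0 : ℝ) < finrank ℚ K := by exact_mod_cast hn
  have hB : {v : HeightOneSpectrum (𝓞 K) | ¬ Outside S v}.Finite :=
    Pool.Agent.N752.HY.Ext.above_finite S hS
  have hlog : ∀ v : HeightOneSpectrum (𝓞 K), 0 ≤ Real.log (Ideal.absNorm v.asIdeal : ℝ) :=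
    fun v => Real.log_natCast_nonneg _
  refine ⟨(∑ v ∈ hB.toFinset, Real.log (Ideal.absNorm v.asIdeal : ℝ)) / finrank ℚ K,
    div_nonneg (Finset.sum_nonneg fun v _ => hlog v) hn0.le, ?_⟩
  intro q q₁ F κ F₁ κ₁ f x hx h1 hloc
  have hfin1 : {v : HeightOneSpectrum (𝓞 K) | ∃ i, 0 < lam K (F₁ i) (κ₁ i) x v}.Finite := by
    refine (Set.finite_iUnion fun j => Pool.Agent.N752.HY.Ext.lam_support (L := K)
      (κ := κ₁ j) hx (h1 j)).subset ?_
    rintro v ⟨j, hj⟩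
    exact Set.mem_iUnion.2 ⟨j, hj.ne'⟩
  set T : Finset (HeightOneSpectrum (𝓞 K)) := hfin1.toFinset ∪ hB.toFinset with hT
  unfold ovl
  rw [← add_div]
  refine div_le_div_of_nonneg_right ?_ hn0.le
  have e1 : ∀ i i' : Fin q₁, ∑ᶠ v ∈ {v : HeightOneSpectrum (𝓞 K) | 0 < lam K (F₁ i) (κ₁ i) x v ∧
      0 < lam K (F₁ i') (κ₁ i') x v}, Real.log (Ideal.absNorm v.asIdeal : ℝ) =
      ∑ v ∈ T, if 0 < lam K (F₁ i) (κ₁ i) x v ∧ 0 < lam K (F₁ i') (κ₁ i') x v then
        Real.log (Ideal.absNorm v.asIdeal : ℝ) else 0 := by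
    intro i i'
    refine finsum_set _ _ _ fun v hv => ?_
    rw [hT, Finset.mem_union, Set.Finite.mem_toFinset]
    exact Or.inl ⟨i, hv.1⟩
  have e2 : ∑ v ∈ hB.toFinset, Real.log (Ideal.absNorm v.asIdeal : ℝ) =
      ∑ v ∈ T, if ¬ Outside S v then Real.log (Ideal.absNorm v.asIdeal : ℝ) else 0 := by
    rw [← Finset.sum_filter]
    refine Finset.sum_congr ?_ fun _ _ => rfl
    ext v
    rw [Finset.mem_filter, Set.Finite.mem_toFinset, Set.mem_ofPred_eq]
    refine ⟨fun h => ⟨?_, h⟩, fun h => h.2⟩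
    rw [hT, Finset.mem_union, Set.Finite.mem_toFinset (hs := hB)]
    exact Or.inr h
  have e3 : ∑ i, ∑ i' ∈ Finset.univ.erase i,
        ∑ᶠ v ∈ {v : HeightOneSpectrum (𝓞 K) | 0 < lam K (F₁ i) (κ₁ i) x v ∧
          0 < lam K (F₁ i') (κ₁ i') x v}, Real.log (Ideal.absNorm v.asIdeal : ℝ) =
      ∑ v ∈ T, ∑ i, ∑ i' ∈ Finset.univ.erase i,
        if 0 < lam K (F₁ i) (κ₁ i) x v ∧ 0 < lam K (F₁ i') (κ₁ i') x v then
        Real.log (Ideal.absNorm v.asIdeal : ℝ) else 0 := by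
    rw [Finset.sum_comm]
    refine Finset.sum_congr rfl fun i _ => ?_
    rw [Finset.sum_comm]
    exact Finset.sum_congr rfl fun i' _ => e1 i i'
  rw [e3, e2, ← Finset.sum_add_distrib, finsum_eq_sum_of_support_subset (s := T)]
  · refine Finset.sum_le_sum fun v _ => ?_
    have hnn : ∀ i i' : Fin q₁, 0 ≤ (if 0 < lam K (F₁ i) (κ₁ i) x v ∧
        0 < lam K (F₁ i') (κ₁ i') x v then Real.log (Ideal.absNorm v.asIdeal : ℝ) else 0) := by
      intro i i'
      split_ifs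
      · exact hlog v
      · exact le_refl _
    have hnn2 : 0 ≤ ∑ i, ∑ i' ∈ Finset.univ.erase i,
        (if 0 < lam K (F₁ i) (κ₁ i) x v ∧
        0 < lam K (F₁ i') (κ₁ i') x v then Real.log (Ideal.absNorm v.asIdeal : ℝ) else 0) :=
      Finset.sum_nonneg fun i _ => Finset.sum_nonneg fun i' _ => hnn i i'
    by_cases hv : Outside S v
    · by_cases hc : ∃ i j, i ≠ j ∧ 0 < lam K (F i) (κ i) x v ∧ 0 < lam K (F j) (κ j) x v
      · rw [if_pos hc, if_neg (not_not.2 hv), add_zero]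
        obtain ⟨j, j', hjj, hj, hj'⟩ := hc
        obtain ⟨i, hi1, hi2⟩ := hloc v hv j hj
        obtain ⟨i', hi1', hi2'⟩ := hloc v hv j' hj'
        have hii : i' ≠ i := by
          rintro rfl
          exact hjj (hi1.symm.trans hi1')
        have g1 : Real.log (Ideal.absNorm v.asIdeal : ℝ) ≤ ∑ i'' ∈ Finset.univ.erase i,
            (if 0 < lam K (F₁ i) (κ₁ i) x v ∧ 0 < lam K (F₁ i'') (κ₁ i'') x v then
              Real.log (Ideal.absNorm v.asIdeal : ℝ) else 0) := by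
          refine le_trans (le_of_eq ?_) (Finset.single_le_sum
            (f := fun i'' => (if 0 < lam K (F₁ i) (κ₁ i) x v ∧ 0 < lam K (F₁ i'') (κ₁ i'') x v then
              Real.log (Ideal.absNorm v.asIdeal : ℝ) else 0)) (fun i'' _ => hnn i i'')
            (Finset.mem_erase.2 ⟨hii, Finset.mem_univ i'⟩))
          exact (if_pos ⟨hi2, hi2'⟩).symm
        exact g1.trans (Finset.single_le_sum (f := fun i => ∑ i'' ∈ Finset.univ.erase i,
            (if 0 < lam K (F₁ i) (κ₁ i) x v ∧ 0 < lam K (F₁ i'') (κ₁ i'') x v then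
              Real.log (Ideal.absNorm v.asIdeal : ℝ) else 0))
          (fun i _ => Finset.sum_nonneg fun i'' _ => hnn i i'') (Finset.mem_univ i))
      · rw [if_neg hc, if_neg (not_not.2 hv), add_zero]
        exact hnn2
    · rw [if_pos hv]
      have := hlog v
      split_ifs
      all_goals linarith
  · intro v hv
    rw [Finset.mem_coe, hT, Finset.mem_union, Set.Finite.mem_toFinset,
      Set.Finite.mem_toFinset (hs := hB)]
    by_contra hc
    rw [not_or] at hc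
    obtain ⟨hc1, hc2⟩ := hc
    refine hv (if_neg ?_)
    rintro ⟨j, j', -, hj, -⟩
    obtain ⟨i, -, hi⟩ := hloc v (not_not.1 hc2) j hj
    exact hc1 ⟨i, hi⟩

/-- the common primes of irreducible components -/
lemma pairs_small (hUPC : S_UPC) (hOVL : S_OVL) {q : ℕ}
    (F : Fin q → MvPolynomial (Fin (m + 1)) (𝓞 K)) (κ : Fin q → ℕ)
    (hhom : ∀ j, (F j).IsHomogeneous (κ j))
    (hirr : ∀ j, Irreducible (map (algebraMap (𝓞 K) K) (F j)))
    (hdist : ∀ i j, i ≠ j →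
      ¬ Associated (map (algebraMap (𝓞 K) K) (F i)) (map (algebraMap (𝓞 K) K) (F j)))
    {δ : ℝ} (hδ : 0 < δ) :
    AA fun Q => (∀ j, aeval Q.rep (F j) ≠ 0) → (∑ j, ∑ i ∈ Finset.univ.erase j,
        ∑ᶠ v ∈ {v : HeightOneSpectrum (𝓞 K) | 0 < lam K (F j) (κ j) Q.rep v ∧
          0 < lam K (F i) (κ i) Q.rep v}, Real.log (Ideal.absNorm v.asIdeal : ℝ)) / finrank ℚ K ≤
      δ * hgt Q.rep := by
  classical
  have hn : 0 < finrank ℚ K := finrank_pos
  have hn0 : (0 : ℝ) < finrank ℚ K := by exact_mod_cast hn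
  have hn1 : (1 : ℝ) ≤ finrank ℚ K := by exact_mod_cast hn
  set δ' : ℝ := δ / (2 * (1 + q * q)) with hδ'
  have hδ'0 : 0 < δ' := by positivity
  have hovl := fun j i => hOVL K inferInstance inferInstance m (F j) (F i) (κ j) (κ i) (hhom j)
    (hhom i)
  choose Co hCo using hovl
  have h4 : AA fun Q : ℙ K (Fin (m + 1) → K) => ∀ j ∈ (Finset.univ : Finset (Fin q)),
      ∀ i ∈ Finset.univ.erase j, idealHeight (F j) (F i) (κ j) (κ i) Q.rep ≤ δ' * hgt Q.rep := by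
    refine AA.all _ fun j _ => AA.all _ fun i hi => ?_
    have hij : j ≠ i := (Finset.ne_of_mem_erase hi).symm
    exact idl hUPC (hhom j) (hhom i) (hirr j)
      (fun h => hdist j i hij ((hirr j).associated_of_dvd (hirr i) h)) hδ'0
  set C' : ℝ := ∑ j, ∑ i, |Co j i| with hC'
  have hC'0 : 0 ≤ C' := Finset.sum_nonneg fun j _ => Finset.sum_nonneg fun i _ => abs_nonneg _
  refine (h4.and (AA.large (2 * C' / δ))).mono fun Q hQ k3 => ?_
  obtain ⟨k4, k5⟩ := hQ
  have hg0 := hgt0 Q.rep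
  have a1 : (∑ j, ∑ i ∈ Finset.univ.erase j,
      ∑ᶠ v ∈ {v : HeightOneSpectrum (𝓞 K) | 0 < lam K (F j) (κ j) Q.rep v ∧
        0 < lam K (F i) (κ i) Q.rep v}, Real.log (Ideal.absNorm v.asIdeal : ℝ)) ≤
      ∑ j, ∑ i ∈ Finset.univ.erase j, (δ' * hgt Q.rep + |Co j i|) := by
    refine Finset.sum_le_sum fun j _ => Finset.sum_le_sum fun i hi => ?_
    have b1 := (hCo j i Q.rep Q.rep_nonzero (k3 j) (k3 i)).2
    have b2 := k4 j (Finset.mem_univ j) i hi
    have b3 := le_abs_self (Co j i)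
    linarith
  have a2 : ∑ j, ∑ i ∈ Finset.univ.erase j, (δ' * hgt Q.rep + |Co j i|) ≤
      ∑ j : Fin q, ∑ i : Fin q, (δ' * hgt Q.rep + |Co j i|) := by
    have pos : ∀ j i, 0 ≤ δ' * hgt Q.rep + |Co j i| := fun j i =>
      add_nonneg (mul_nonneg hδ'0.le hg0) (abs_nonneg _)
    exact Finset.sum_le_sum fun j _ => Finset.sum_le_sum_of_subset_of_nonneg
      (Finset.erase_subset _ _) fun i _ _ => pos j i
  have a3 : ∑ j : Fin q, ∑ i : Fin q, (δ' * hgt Q.rep + |Co j i|) =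
      q * q * δ' * hgt Q.rep + C' := by
    simp only [Finset.sum_add_distrib, Finset.sum_const, Finset.card_univ, Fintype.card_fin,
      nsmul_eq_mul, hC']
    ring
  have a4 : 0 ≤ q * q * δ' * hgt Q.rep + C' := by positivity
  have s3 : C' ≤ δ / 2 * hgt Q.rep := by
    rw [div_lt_iff₀ hδ] at k5
    linarith
  have s4 : (1 + q * q) * δ' = δ / 2 := by
    rw [hδ']
    field_simp
  have s5 : (δ' + q * q * δ') * hgt Q.rep = δ / 2 * hgt Q.rep := by
    rw [← s4]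
    ring
  have s6 : 0 ≤ δ' * hgt Q.rep := mul_nonneg hδ'0.le hg0
  rw [div_le_iff₀ hn0]
  calc _ ≤ _ := a1
    _ ≤ _ := a2
    _ = _ := a3
    _ = (q * q * δ' * hgt Q.rep + C') * 1 := (mul_one _).symm
    _ ≤ (q * q * δ' * hgt Q.rep + C') * finrank ℚ K := mul_le_mul_of_nonneg_left hn1 a4
    _ ≤ _ := by
      refine mul_le_mul_of_nonneg_right ?_ hn0.le
      linarith

/-- the inequality at the point `x`, together with the common primes -/
def Good4 {q t : ℕ} (F : Fin q → MvPolynomial (Fin (m + 1)) (𝓞 K)) (κ : Fin q → ℕ)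
    (F' G' : Fin t → MvPolynomial (Fin (m + 1)) (𝓞 K)) (κ' ε' : Fin t → ℕ) (Λ θ : ℝ)
    (x : Fin (m + 1) → K) : Prop :=
  (∀ j, aeval x (F j) ≠ 0) ∧
    θ * hgt x + Λ * ((∑ l, idealHeight (F' l) (G' l) (κ' l) (ε' l) x) / finrank ℚ K) +
      ovl K F κ x ≤ cnt K ∅ F κ Finset.univ x

lemma ovl_nonneg {q : ℕ} (F : Fin q → MvPolynomial (Fin (m + 1)) (𝓞 K)) (κ : Fin q → ℕ)
    (x : Fin (m + 1) → K) : 0 ≤ ovl K F κ x := by
  classical
  unfold ovl
  refine div_nonneg (finsum_nonneg fun v => ?_) (Nat.cast_nonneg _)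
  split_ifs
  · exact Real.log_natCast_nonneg _
  · exact le_refl _

/-- weights for the components of a divisor -/
lemma exists_weights {q q₁ : ℕ} {f : Fin q → MvPolynomial (Fin (m + 1)) ℂ} {κ : Fin q → ℕ}
    {f₁ : Fin q₁ → MvPolynomial (Fin (m + 1)) ℂ} {κ₁ : Fin q₁ → ℕ} (g : Fin q₁ → Fin q)
    (h1 : ∀ i, (f₁ i).IsHomogeneous (κ₁ i)) (h4 : ∀ i, 1 ≤ κ₁ i) (h5 : ∀ i, f₁ i ∣ f (g i))
    (h6 : ∀ j, κ j = ∑ i with g i = j, κ₁ i) :
    ∃ w : Fin q₁ → ℕ, (∀ i, HasW (f₁ i) (κ₁ i) (w i)) ∧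
      ∀ j, wgt (f j) (κ j) ≤ ∑ i with g i = j, w i := by
  classical
  refine ⟨fun i => if κ (g i) ≤ 2 ∨ Lines (f (g i)) (κ (g i)) then κ₁ i
    else if GenPos (f (g i)) (κ (g i)) then W2 (min (m + 1) (κ₁ i)) (κ₁ i) else 1,
    fun i => ?_, fun j => ?_⟩
  · have hle : κ₁ i ≤ κ (g i) := by
      rw [h6 (g i)]
      exact Finset.single_le_sum (f := κ₁) (fun _ _ => Nat.zero_le _)
        (Finset.mem_filter.2 ⟨Finset.mem_univ i, rfl⟩)
    simp only
    split_ifs with hc1 hc2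
    · rcases hc1 with hc | hc
      · exact Or.inr (Or.inl ⟨le_refl _, hle.trans hc⟩)
      · obtain ⟨a, ha, hs⟩ := Lin3.sub3 m _ (κ₁ i) _ _ hc (h1 i) (h4 i) (h5 i)
        refine Or.inr (Or.inr ⟨a, ha, ?_⟩)
        have h7 := hs Finset.univ ⟨⟨0, h4 i⟩, Finset.mem_univ _⟩
        rw [Finset.card_univ, Fintype.card_fin, Finset.coe_univ, Set.image_univ] at h7
        unfold W2
        rw [if_pos h7]
    · obtain ⟨a, ha, hs⟩ := Lin3.sub4 m _ (κ₁ i) _ _ hc2 (h1 i) (h4 i) (h5 i)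
      exact Or.inr (Or.inr ⟨a, ha, Lin3.W2_mono _ (Lin3.rank_genPos hs)⟩)
    · exact Or.inl (le_refl _)
  · have hfil : ∀ i, i ∈ Finset.univ.filter (fun i => g i = j) → g i = j := fun i hi =>
      (Finset.mem_filter.1 hi).2
    unfold wgt
    split_ifs with hc1 hc2
    · conv_lhs => rw [h6 j]
      refine Finset.sum_le_sum fun i hi => le_of_eq ?_
      rw [hfil i hi, if_pos hc1]
    · have hκj : 3 * (m + 1) ≤ κ j := by
        by_contra hc
        push Not at hc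
        obtain ⟨a, ha, hs⟩ := hc2
        exact hc1 (Or.inr (Lin3.lines_of_arr ha hs (by omega)))
      have e : ∀ i ∈ Finset.univ.filter (fun i => g i = j),
          (if κ (g i) ≤ 2 ∨ Lines (f (g i)) (κ (g i)) then κ₁ i
            else if GenPos (f (g i)) (κ (g i)) then W2 (min (m + 1) (κ₁ i)) (κ₁ i) else 1) =
          W2 (min (m + 1) (κ₁ i)) (κ₁ i) := by
        intro i hi
        rw [hfil i hi, if_neg hc1, if_pos hc2]
      rw [Finset.sum_congr rfl e]
      by_cases hbig : ∃ i ∈ Finset.univ.filter (fun i => g i = j), 3 * (m + 1) ≤ κ₁ i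
      · obtain ⟨i, hi, hi2⟩ := hbig
        refine le_trans ?_ (Finset.single_le_sum (f := fun i => W2 (min (m + 1) (κ₁ i)) (κ₁ i))
          (fun _ _ => Nat.zero_le _) hi)
        have h7 : min (m + 1) (κ₁ i) = m + 1 := min_eq_left (by omega)
        rw [h7]
        unfold W2
        rw [if_neg (by omega)]
      · push Not at hbig
        have e2 : ∀ i ∈ Finset.univ.filter (fun i => g i = j),
            W2 (min (m + 1) (κ₁ i)) (κ₁ i) = κ₁ i := by
          intro i hi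
          have h7 := hbig i hi
          have h8 := h4 i
          unfold W2
          refine if_pos ?_
          rcases le_total (m + 1) (κ₁ i) with h | h
          · rw [min_eq_left h]; omega
          · rw [min_eq_right h]; omega
        rw [Finset.sum_congr rfl e2, ← h6 j]
        omega
    · push Not at hc1
      have hne : (Finset.univ.filter fun i => g i = j).Nonempty := by
        rw [Finset.nonempty_iff_ne_empty]
        intro h0
        have h9 := h6 j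
        rw [h0, Finset.sum_empty] at h9
        omega
      obtain ⟨i, hi⟩ := hne
      refine le_trans ?_ (Finset.single_le_sum
        (f := fun i => if κ (g i) ≤ 2 ∨ Lines (f (g i)) (κ (g i)) then κ₁ i
            else if GenPos (f (g i)) (κ (g i)) then W2 (min (m + 1) (κ₁ i)) (κ₁ i) else 1)
        (fun _ _ => Nat.zero_le _) hi)
      split_ifs
      · exact h4 i
      · exact Lin3.W2_pos (le_min (by omega) (h4 i)) (h4 i)
      · exact le_refl _

/-- **Almost all points over one field**, arbitrary reduced divisors. -/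
theorem fld3 (hUPC : S_UPC) (hCUP : S_CUP) (hOVL : S_OVL) (hNRM : S_NRM) (φ : K →+* ℂ)
    (hd : 3 ≤ finrank ℚ K * (m + 1)) {q t : ℕ}
    (F : Fin q → MvPolynomial (Fin (m + 1)) (𝓞 K)) (κ : Fin q → ℕ)
    (hhom : ∀ j, (F j).IsHomogeneous (κ j))
    (hsq : Squarefree (∏ j, map (algebraMap (𝓞 K) K) (F j)))
    (F' G' : Fin t → MvPolynomial (Fin (m + 1)) (𝓞 K)) (κ' ε' : Fin t → ℕ)
    (hF' : ∀ l, (F' l).IsHomogeneous (κ' l)) (hG' : ∀ l, (G' l).IsHomogeneous (ε' l))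
    (hirr' : ∀ l, Irreducible (map (algebraMap (𝓞 K) K) (F' l)))
    (hcop : ∀ l, ¬ map (algebraMap (𝓞 K) K) (F' l) ∣ map (algebraMap (𝓞 K) K) (G' l))
    (Λ : ℝ) (hΛ : 0 ≤ Λ) (θ : ℝ)
    (hθ : θ < ∑ j, (wgt (map (φ.comp (algebraMap (𝓞 K) K)) (F j)) (κ j) : ℝ)) :
    ∃ c C : ℝ, 0 < c ∧ 0 ≤ C ∧ ∀ T : ℝ, 0 ≤ T → ∃ Z : Finset (ℙ K (Fin (m + 1) → K)),
      (Z.card : ℝ) ≤ C * Real.exp (((finrank ℚ K : ℝ) * (m + 1) - c) * T) ∧
      ∀ Q : ℙ K (Fin (m + 1) → K), Real.log Q.mulHeight ≤ finrank ℚ K * T → Q ∉ Z →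
        Good4 F κ F' G' κ' ε' Λ θ Q.rep := by
  classical
  have hn : 0 < finrank ℚ K := finrank_pos
  have hn0 : (0 : ℝ) < finrank ℚ K := by exact_mod_cast hn
  have hn1 : (1 : ℝ) ≤ finrank ℚ K := by exact_mod_cast hn
  obtain ⟨q₁, F₁, κ₁, S, f, hS, h1, h2, h3, h4, h5, h6, h7, h8, h9⟩ :=
    Fac3.t_FAC3 K m q F κ hhom hsq
  set ψ : 𝓞 K →+* ℂ := φ.comp (algebraMap (𝓞 K) K) with hψ
  -- the weights
  obtain ⟨w, hwt, hw⟩ := exists_weights (f := fun j => map ψ (F j)) (κ := κ)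
    (f₁ := fun i => map ψ (F₁ i)) (κ₁ := κ₁) f (fun i => (h1 i).map _) h4 (fun i => by
      have hdvd := _root_.map_dvd (MvPolynomial.map φ : MvPolynomial (Fin (m + 1)) K →+* _) (h5 i)
      rw [MvPolynomial.map_map, MvPolynomial.map_map] at hdvd
      exact hdvd) h6
  have hw' : ∑ j, (wgt (map ψ (F j)) (κ j) : ℝ) ≤ ∑ i, (w i : ℝ) := by
    have e : ∑ j, wgt (map ψ (F j)) (κ j) ≤ ∑ i, w i := by
      refine (Finset.sum_le_sum fun j _ => hw j).trans (le_of_eq ?_)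
      exact Finset.sum_fiberwise Finset.univ f w
    exact_mod_cast e
  set δ : ℝ := (∑ j, (wgt (map ψ (F j)) (κ j) : ℝ) - θ) / 4 with hδ
  have hδ0 : 0 < δ := by rw [hδ]; linarith
  obtain ⟨C, hC, hcmp⟩ := cnt_cmp (K := K) (m := m) S hS
  obtain ⟨C₂, hC₂, hovl⟩ := ovl_le (K := K) (m := m) S hS
  have k1 := fld3irr hUPC hCUP hOVL hNRM φ hd F₁ κ₁ h1 h2 h3 h4 w hwt hδ0
  have k2 : AA fun Q : ℙ K (Fin (m + 1) → K) => ∀ l ∈ (Finset.univ : Finset (Fin t)),
      idealHeight (F' l) (G' l) (κ' l) (ε' l) Q.rep ≤ δ / (Λ * t + 1) * hgt Q.rep :=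
    AA.all _ fun l _ => idl hUPC (hF' l) (hG' l) (hirr' l) (hcop l) (by positivity)
  have k3 := pairs_small hUPC hOVL F₁ κ₁ h1 h2 h3 (δ := δ / 2) (by positivity)
  refine (((k1.and k2).and k3).and (AA.large ((C + C₂) / (δ / 2)))).mono fun Q hQ => ?_
  obtain ⟨⟨⟨⟨g1, g2⟩, g3⟩, g3'⟩, g4⟩ := hQ
  have g5 := h7 Q.rep g1
  refine ⟨g5, ?_⟩
  have hg0 := hgt0 Q.rep
  have g6 := hcmp q q₁ F κ F₁ κ₁ Q.rep Q.rep_nonzero g5 g1 (h8 Q.rep Q.rep_nonzero g5)
  have g7 : C + C₂ < δ / 2 * hgt Q.rep := by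
    rw [div_lt_iff₀ (by positivity)] at g4
    linarith
  have g13 := hovl q q₁ F κ F₁ κ₁ f Q.rep Q.rep_nonzero g1 (h9 Q.rep Q.rep_nonzero g5).2
  have g14 := g3' g1
  have g8 : Λ * ((∑ l, idealHeight (F' l) (G' l) (κ' l) (ε' l) Q.rep) / finrank ℚ K) ≤
      δ * hgt Q.rep := by
    have a1 : ∑ l, idealHeight (F' l) (G' l) (κ' l) (ε' l) Q.rep ≤
        t * (δ / (Λ * t + 1) * hgt Q.rep) := by
      refine (Finset.sum_le_sum fun l hl => g3 l hl).trans ?_
      rw [Finset.sum_const, Finset.card_univ, Fintype.card_fin, nsmul_eq_mul]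
    have a2 : 0 ≤ (t : ℝ) * (δ / (Λ * t + 1) * hgt Q.rep) := by positivity
    have a3 : (∑ l, idealHeight (F' l) (G' l) (κ' l) (ε' l) Q.rep) / finrank ℚ K ≤
        t * (δ / (Λ * t + 1) * hgt Q.rep) := by
      rw [div_le_iff₀ hn0]
      calc _ ≤ _ := a1
        _ = (t : ℝ) * (δ / (Λ * t + 1) * hgt Q.rep) * 1 := (mul_one _).symm
        _ ≤ _ := mul_le_mul_of_nonneg_left hn1 a2
    refine (mul_le_mul_of_nonneg_left a3 hΛ).trans ?_
    have a4 : Λ * (t * (δ / (Λ * t + 1) * hgt Q.rep)) =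
        (Λ * t) / (Λ * t + 1) * (δ * hgt Q.rep) := by
      field_simp
    rw [a4]
    refine mul_le_of_le_one_left (by positivity) ?_
    rw [div_le_one (by positivity)]
    linarith
  have g9 : (∑ j, (wgt (map ψ (F j)) (κ j) : ℝ) - δ) * hgt Q.rep ≤
      (∑ i, (w i : ℝ) - δ) * hgt Q.rep :=
    mul_le_mul_of_nonneg_right (by linarith) hg0
  have g10 : ∑ j, (wgt (map ψ (F j)) (κ j) : ℝ) = θ + 4 * δ := by
    rw [hδ]
    ring
  rw [g10] at g9
  have g11 : (θ + 4 * δ - δ) * hgt Q.rep = θ * hgt Q.rep + 3 * (δ * hgt Q.rep) := by ring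
  have g12 : 0 ≤ δ * hgt Q.rep := by positivity
  linarith

end Pool.Agent.N752.HY
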