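import Mathlib
import Pool.Agent.N752.HY.Def

set_option autoImplicit false

/-!
The statements of the parts of project HY.
-/

namespace Pool.Agent.N752.HY

open NumberField IsDedekindDomain MvPolynomial Module Height
open scoped LinearAlgebra.Projectivization

/-- a representative of a projective point with bounded content and balanced conjugates -/
def S_REP : Prop := ∀ (K : Type) (_ : Field K) (_ : NumberField K) (n : ℕ) (x : Fin n → K), x ≠ 0 →
  ∃ (lam : K) (y : Fin n → 𝓞 K), lam ≠ 0 ∧ (∀ j, (y j : K) = lam * x j) ∧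
    (∀ (w : InfinitePlace K) (j : Fin n), w (y j : K) ^ finrank ℚ K ≤
      (√|(discr K : ℝ)| + 1) * mulHeight x) ∧
    (Ideal.absNorm (Ideal.span (Set.range y)) : ℝ) ≤ √|(discr K : ℝ)| + 1

/-- the sharp uniform upper bound for the number of the points whose coordinates span the field -/
def S_PTS : Prop := ∀ (k : Type) (_ : Field k) (_ : NumberField k) (n m : ℕ), 1 ≤ n → ∀ ε : ℝ,
  0 < ε → ∃ C : ℝ, 1 ≤ C ∧ ∀ (K : Type) (_ : Field K) (_ : NumberField K) (_ : Algebra k K),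
    finrank ℚ K = n → ∀ H : ℝ, 1 ≤ H → ∀ F : Finset (ℙ K (Fin (m + 1) → K)),
    (∀ Q ∈ F, Q.mulHeight ≤ H ∧ Submodule.span k (Set.range Q.rep) = ⊤) →
    (F.card : ℝ) ≤ C * H ^ (m + 1) * √|(discr K : ℝ)| ^ (ε - m)

/-- the sharp lower bound for the number of the points over one field -/
def S_LOW : Prop := ∀ (K : Type) (_ : Field K) (_ : NumberField K) (m : ℕ), 1 ≤ m →
  ∃ c B₀ : ℝ, 0 < c ∧ ∀ B : ℝ, B₀ ≤ B → ∃ F : Finset (ℙ K (Fin (m + 1) → K)),
    (∀ Q ∈ F, Q.mulHeight ≤ B ^ finrank ℚ K) ∧ c * B ^ (finrank ℚ K * (m + 1)) ≤ (F.card : ℝ)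

/-- a polynomial which is irreducible over a larger field is irreducible -/
def S_LFT : Prop := ∀ (K E : Type) (_ : Field K) (_ : Field E) (φ : K →+* E) (n : ℕ)
  (F : MvPolynomial (Fin n) K), Irreducible (map φ F) → Irreducible F

/-- the truncated counting function over `K` and over an extension `L` -/
def S_EXT : Prop := ∀ (K : Type) (_ : Field K) (_ : NumberField K) (L : Type) (_ : Field L)
  (_ : NumberField L) (_ : Algebra K L) (m q : ℕ) (F : Fin q → MvPolynomial (Fin (m + 1)) (𝓞 K))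
  (κ : Fin q → ℕ) (x : Fin (m + 1) → K) (S : Finset ℕ) (e : Fin q → ℕ) (J : Finset (Fin q)),
  (∀ i, (F i).IsHomogeneous (κ i)) → x ≠ 0 → (∀ i, aeval x (F i) ≠ 0) → (∀ p ∈ S, p.Prime) →
  (∀ i, 1 ≤ e i) → Integral L S F κ e x →
  cnt K ∅ F κ Finset.univ x + ∑ i ∈ Jᶜ, 1 / (e i : ℝ) * prox L S (F i) (κ i) x ≤
    cnt L S F κ J x + (ldisc L - ldisc K) + ∑ p ∈ S, Real.log p +
      (∑ i ∈ Jᶜ, (κ i : ℝ) / e i) * hgt x

end Pool.Agent.N752.HY
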