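import Mathlib
import Pool.Agent.N752.HY.Stm

set_option autoImplicit false
set_option linter.unusedSectionVars false
set_option linter.unusedVariables false

/-!
HY/LOW (helper55, project HY of helper752): the sharp lower bound for the number of the points of
bounded height of projective space over a number field.
-/

namespace Pool.Agent.N752.HY.Low2

open NumberField IsDedekindDomain Module Height Finset
open scoped LinearAlgebra.Projectivization

/-! ### Sums over ideals -/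

section sums

variable (K : Type) [Field K] [NumberField K]

/-- the number of the ideals of norm `n` -/
noncomputable def ni (n : ℕ) : ℝ := (Nat.card {I : Ideal (𝓞 K) // Ideal.absNorm I = n} : ℝ)

theorem ni_nonneg (n : ℕ) : 0 ≤ ni K n := Nat.cast_nonneg _

theorem tendsto_ni : ∃ l : ℝ, Filter.Tendsto (fun n : ℕ => (∑ k ∈ Finset.Icc 1 n, ni K k) / n)
    Filter.atTop (nhds l) := by
  refine ⟨_, ((NumberField.Ideal.tendsto_norm_le_div_atTop₀ K).comp
    tendsto_natCast_atTop_atTop).congr fun n ↦ ?_⟩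
  unfold ni
  simp only [Function.comp_apply, Nat.cast_le, ← Nat.cast_sum]
  congr
  rw [← add_left_inj 1, ← Ideal.card_norm_le_eq_card_norm_le_add_one,
    show Finset.Icc 1 n = Finset.Ioc 0 n from Finset.Icc_succ_left_eq_Ioc _ _,
    show 1 = Nat.card {I : Ideal (𝓞 K) // Ideal.absNorm I = 0} by simp [Ideal.absNorm_eq_zero_iff],
    Finset.sum_Ioc_add_eq_sum_Icc (n.zero_le),
    ← Finset.card_preimage_eq_sum_card_image_eq (fun k _ ↦ Ideal.finite_setOfPred_absNorm_eq k)]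
  simp [Set.coe_eq_subtype]

theorem tail (ε : ℝ) (hε : 0 < ε) : ∃ M : ℕ, 1 ≤ M ∧ ∀ X : ℕ,
    ∑ n ∈ Finset.Ioc M X, ni K n / (n : ℝ) ^ 2 ≤ ε := by
  obtain ⟨l, hl⟩ := tendsto_ni K
  have hO : (fun n : ℕ ↦ ∑ k ∈ Finset.Icc 1 n, ni K k) =O[Filter.atTop] fun n ↦ (n : ℝ) ^ (1 : ℝ) := by
    simp only [Real.rpow_one]
    refine Asymptotics.isBigO_of_div_tendsto_nhds ?_ l hl
    filter_upwards [Filter.eventually_ge_atTop 1] with n hn h0
    exfalso
    have : (n : ℝ) ≠ 0 := by positivity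
    exact this h0
  have hs := LSeriesSummable_of_sum_norm_bigO_and_nonneg hO (ni_nonneg K) zero_le_one
    (s := 2) (by norm_num)
  have hs2 : Summable (fun n => ‖LSeries.term (fun n => (ni K n : ℂ)) 2 n‖) := hs.norm
  obtain ⟨s, hs3⟩ := summable_iff_vanishing_norm.1 hs2 ε hε
  refine ⟨s.sup id + 1, by omega, fun X => ?_⟩
  have hd : Disjoint (Finset.Ioc (s.sup id + 1) X) s := by
    rw [Finset.disjoint_left]
    intro a ha has
    have h1 := Finset.le_sup (f := id) has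
    have h2 := (Finset.mem_Ioc.1 ha).1
    simp only [id] at h1
    omega
  have h3 := hs3 _ hd
  refine le_trans (le_of_eq ?_) ((le_abs_self _).trans h3.le)
  refine Finset.sum_congr rfl fun n hn => ?_
  have hn0 : n ≠ 0 := by
    have := (Finset.mem_Ioc.1 hn).1
    omega
  rw [LSeries.norm_term_eq, if_neg hn0]
  norm_num
  rw [abs_of_nonneg (ni_nonneg K n)]

theorem tail' (ε : ℝ) (hε : 0 < ε) : ∃ M : ℕ, 1 ≤ M ∧ ∀ (X : ℕ) (S : Finset (Ideal (𝓞 K))),
    (∀ I ∈ S, M < Ideal.absNorm I ∧ Ideal.absNorm I ≤ X) →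
    ∑ I ∈ S, 1 / (Ideal.absNorm I : ℝ) ^ 2 ≤ ε := by
  classical
  obtain ⟨M, hM, h⟩ := tail K ε hε
  refine ⟨M, hM, fun X S hS => le_trans ?_ (h X)⟩
  rw [← Finset.sum_fiberwise_of_maps_to (s := S) (t := Finset.Ioc M X)
    (g := fun I => Ideal.absNorm I) (fun I hI => Finset.mem_Ioc.2 (hS I hI))]
  refine Finset.sum_le_sum fun n hn => ?_
  have h1 : ∀ I ∈ S.filter (fun I => Ideal.absNorm I = n), 1 / (Ideal.absNorm I : ℝ) ^ 2 =
      1 / (n : ℝ) ^ 2 := by
    intro I hI
    rw [(Finset.mem_filter.1 hI).2]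
  rw [Finset.sum_congr rfl h1, Finset.sum_const, nsmul_eq_mul, mul_one_div]
  have h2 : ((S.filter (fun I => Ideal.absNorm I = n)).card : ℝ) ≤ ni K n := by
    unfold ni
    rw [Nat.cast_le]
    have h3 : (S.filter (fun I => Ideal.absNorm I = n)).card =
        ((S.filter (fun I => Ideal.absNorm I = n) : Finset (Ideal (𝓞 K))) :
          Set (Ideal (𝓞 K))).ncard := (Set.ncard_coe_finset _).symm
    have h4 : Nat.card {I : Ideal (𝓞 K) // Ideal.absNorm I = n} =
        {I : Ideal (𝓞 K) | Ideal.absNorm I = n}.ncard := rfl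
    rw [h3, h4]
    refine Set.ncard_le_ncard ?_ (Ideal.finite_setOfPred_absNorm_eq n)
    intro I hI
    exact (Finset.mem_filter.1 (Finset.mem_coe.1 hI)).2
  gcongr

end sums


section box

variable {K : Type} [Field K] [NumberField K]

/-- the index set of the integral basis -/
abbrev Ix (K : Type) [Field K] [NumberField K] : Type := Free.ChooseBasisIndex ℤ (𝓞 K)

/-- the element with given coordinates -/
noncomputable def el (a : Ix K → ℤ) : 𝓞 K := (RingOfIntegers.basis K).equivFun.symm a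

theorem el_inj : Function.Injective (el : (Ix K → ℤ) → 𝓞 K) :=
  (RingOfIntegers.basis K).equivFun.symm.injective

theorem el_sub (a a' : Ix K → ℤ) : el (a - a') = el a - el a' := map_sub _ _ _

theorem el_eq (a : Ix K → ℤ) : el a = ∑ l, a l • RingOfIntegers.basis K l :=
  (RingOfIntegers.basis K).equivFun_symm_apply a

theorem card_Ix : Fintype.card (Ix K) = finrank ℚ K := by
  rw [← RingOfIntegers.rank K, Module.finrank_eq_card_chooseBasisIndex]

theorem abv_sum {ι : Type} (w : InfinitePlace K) (s : Finset ι) (f : ι → K) :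
    w (∑ i ∈ s, f i) ≤ ∑ i ∈ s, w (f i) := by
  classical
  induction s using Finset.induction_on with
  | empty => simp
  | insert i s hi ih =>
    rw [Finset.sum_insert hi, Finset.sum_insert hi]
    exact (w.1.add_le _ _).trans (add_le_add le_rfl ih)

theorem abv_int (w : InfinitePlace K) (n : ℤ) : w (n : K) = |(n : ℝ)| := by
  obtain ⟨φ, rfl⟩ : ∃ φ, InfinitePlace.mk φ = w := ⟨w.embedding, w.mk_embedding⟩
  rw [InfinitePlace.apply, map_intCast, Complex.norm_intCast]

variable (K) in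
/-- a bound for the size of the elements of the basis -/
theorem exists_A : ∃ A : ℕ, 1 ≤ A ∧ ∀ (w : InfinitePlace K) (a : Ix K → ℤ) (y : ℝ),
    (∀ l, |(a l : ℝ)| ≤ y) → w (el a : K) ≤ A * y := by
  classical
  set C : ℝ := ∑ w : InfinitePlace K, ∑ l, w ((RingOfIntegers.basis K l : 𝓞 K) : K) with hC
  have hnn : ∀ (w : InfinitePlace K) (x : K), 0 ≤ w x := fun w x => apply_nonneg w x
  refine ⟨⌈C⌉₊ + 1, by omega, fun w a y hy => ?_⟩
  have h1 : ((el a : 𝓞 K) : K) = ∑ l, (a l : K) * ((RingOfIntegers.basis K l : 𝓞 K) : K) := by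
    rw [el_eq]
    change algebraMap (𝓞 K) K (∑ l, a l • RingOfIntegers.basis K l) = _
    rw [map_sum]
    refine Finset.sum_congr rfl fun l _ => ?_
    rw [zsmul_eq_mul, map_mul, map_intCast]
  have hy0 : 0 ≤ y := by
    obtain ⟨l⟩ : Nonempty (Ix K) := by
      rw [← Fintype.card_pos_iff, card_Ix]
      exact finrank_pos
    exact (abs_nonneg _).trans (hy l)
  have h2 : w (el a : K) ≤ ∑ l, y * w ((RingOfIntegers.basis K l : 𝓞 K) : K) := by
    rw [h1]
    refine (abv_sum w _ _).trans (Finset.sum_le_sum fun l _ => ?_)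
    rw [map_mul, abv_int]
    exact mul_le_mul_of_nonneg_right (hy l) (hnn _ _)
  have h3 : ∑ l, w ((RingOfIntegers.basis K l : 𝓞 K) : K) ≤ C := by
    rw [hC]
    exact Finset.single_le_sum (f := fun w : InfinitePlace K =>
      ∑ l, w ((RingOfIntegers.basis K l : 𝓞 K) : K))
      (fun w _ => Finset.sum_nonneg fun l _ => hnn _ _) (Finset.mem_univ w)
  have h4 : C ≤ (⌈C⌉₊ + 1 : ℕ) := by
    push_cast
    linarith [Nat.le_ceil C]
  rw [← Finset.mul_sum] at h2
  calc w (el a : K) ≤ y * ∑ l, w ((RingOfIntegers.basis K l : 𝓞 K) : K) := h2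
    _ ≤ y * (⌈C⌉₊ + 1 : ℕ) := mul_le_mul_of_nonneg_left (h3.trans h4) hy0
    _ = _ := mul_comm _ _

/-- the norm of a small element -/
theorem norm_le {x : 𝓞 K} {T : ℝ} (hT : 0 ≤ T) (h : ∀ w : InfinitePlace K, w (x : K) ≤ T) :
    (Ideal.absNorm (Ideal.span {x}) : ℝ) ≤ T ^ finrank ℚ K := by
  have h1 : (Ideal.absNorm (Ideal.span {x}) : ℝ) = ∏ w : InfinitePlace K, w (x : K) ^ w.mult := by
    rw [InfinitePlace.prod_eq_abs_norm, Ideal.absNorm_span_singleton, ← Algebra.coe_norm_int,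
      Nat.cast_natAbs]
    push_cast
    rfl
  rw [h1]
  calc ∏ w : InfinitePlace K, w (x : K) ^ w.mult ≤ ∏ w : InfinitePlace K, T ^ w.mult := by
        refine Finset.prod_le_prod (fun w _ => pow_nonneg (apply_nonneg w _) _) fun w _ => ?_
        exact pow_le_pow_left₀ (apply_nonneg w _) (h w) _
    _ = T ^ finrank ℚ K := by
        rw [Finset.prod_pow_eq_pow_sum, InfinitePlace.sum_mult_eq]

/-- the box -/
noncomputable def bx (K : Type) [Field K] [NumberField K] (Y : ℕ) : Finset (Ix K → ℤ) :=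
  Fintype.piFinset fun _ => Finset.Icc (-(Y : ℤ)) Y

theorem mem_bx {Y : ℕ} {a : Ix K → ℤ} : a ∈ bx K Y ↔ ∀ l, -(Y : ℤ) ≤ a l ∧ a l ≤ Y := by
  unfold bx
  rw [Fintype.mem_piFinset]
  simp only [Finset.mem_Icc]

theorem card_bx (Y : ℕ) : (bx K Y).card = (2 * Y + 1) ^ finrank ℚ K := by
  unfold bx
  rw [Fintype.card_piFinset, Finset.prod_const, Finset.card_univ, card_Ix, Int.card_Icc]
  congr 1
  omega

theorem abs_le_of_mem {Y : ℕ} {a : Ix K → ℤ} (h : a ∈ bx K Y) (l : Ix K) :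
    |(a l : ℝ)| ≤ Y := by
  have h1 := (mem_bx.1 h) l
  rw [abs_le]
  constructor
  · exact_mod_cast h1.1
  · exact_mod_cast h1.2

/-- the number of the elements of a translate of the box in an ideal -/
theorem cnt_ideal {A : ℕ} (hA : 1 ≤ A)
    (hA2 : ∀ (w : InfinitePlace K) (a : Ix K → ℤ) (y : ℝ), (∀ l, |(a l : ℝ)| ≤ y) →
      w (el a : K) ≤ A * y) (Y : ℕ) (I : Ideal (𝓞 K)) (hI : 1 ≤ Ideal.absNorm I)
    (hI2 : Ideal.absNorm I ≤ (3 * A * Y) ^ finrank ℚ K) (z : 𝓞 K) [DecidablePred fun a : Ix K → ℤ => z + el a ∈ I] :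
    (((bx K Y).filter fun a => z + el a ∈ I).card : ℝ) ≤
      (5 * A * Y) ^ finrank ℚ K / Ideal.absNorm I := by
  classical
  set d := finrank ℚ K with hd
  have hd0 : d ≠ 0 := finrank_pos.ne'
  set t : ℝ := (Ideal.absNorm I : ℝ) ^ ((d : ℝ)⁻¹) with ht
  have hN : (0 : ℝ) < Ideal.absNorm I := by exact_mod_cast hI
  have ht0 : 0 < t := Real.rpow_pos_of_pos hN _
  have htd : t ^ d = Ideal.absNorm I := by
    rw [ht, Real.rpow_inv_natCast_pow hN.le hd0]
  have hA0 : (0 : ℝ) < A := by exact_mod_cast hA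
  have htY : t ≤ 3 * A * Y := by
    refine le_of_pow_le_pow_left₀ hd0 (by positivity) ?_
    rw [htd]
    exact_mod_cast hI2
  set s : ℕ := ⌈t / A⌉₊ with hs
  have hs0 : 0 < s := Nat.ceil_pos.2 (by positivity)
  have hs1 : t / A ≤ s := Nat.le_ceil _
  have hs2 : (s : ℝ) < t / A + 1 := Nat.ceil_lt_add_one (by positivity)
  have hsZ : (0 : ℤ) < s := by exact_mod_cast hs0
  -- the pigeonhole principle
  have hmap : Set.MapsTo (fun (a : Ix K → ℤ) (l : Ix K) => (a l + Y) / (s : ℤ))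
      ((bx K Y).filter fun a => z + el a ∈ I : Finset (Ix K → ℤ))
      (Fintype.piFinset fun _ : Ix K => Finset.Icc (0 : ℤ) (2 * Y / s) : Finset (Ix K → ℤ)) := by
    intro a ha
    have h1 := mem_bx.1 (Finset.mem_filter.1 (Finset.mem_coe.1 ha)).1
    rw [Finset.mem_coe, Fintype.mem_piFinset]
    intro l
    rw [Finset.mem_Icc]
    constructor
    · exact Int.ediv_nonneg (by linarith [(h1 l).1]) hsZ.le
    · exact Int.ediv_le_ediv hsZ (by linarith [(h1 l).2])
  have hinj : Set.InjOn (fun (a : Ix K → ℤ) (l : Ix K) => (a l + Y) / (s : ℤ))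
      ((bx K Y).filter fun a => z + el a ∈ I : Finset (Ix K → ℤ)) := by
    intro a ha a' ha' hq
    by_contra hne
    have h1 := (Finset.mem_filter.1 (Finset.mem_coe.1 ha)).2
    have h2 := (Finset.mem_filter.1 (Finset.mem_coe.1 ha')).2
    have h3 : el (a - a') ∈ I := by
      rw [el_sub]
      have := I.sub_mem h1 h2
      rwa [add_sub_add_left_eq_sub] at this
    have h4 : ∀ l, |((a - a') l : ℝ)| ≤ (s : ℝ) - 1 := by
      intro l
      have h5 : (a l + Y) / (s : ℤ) = (a' l + Y) / (s : ℤ) := congrFun hq l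
      have h6 := Int.emod_add_mul_ediv (a l + Y) s
      have h7 := Int.emod_add_mul_ediv (a' l + Y) s
      have h8 := Int.emod_nonneg (a l + Y) hsZ.ne'
      have h9 := Int.emod_lt_of_pos (a l + Y) hsZ
      have h10 := Int.emod_nonneg (a' l + Y) hsZ.ne'
      have h11 := Int.emod_lt_of_pos (a' l + Y) hsZ
      rw [h5] at h6
      have h12 : a l - a' l ≤ s - 1 := by linarith
      have h13 : -((s : ℤ) - 1) ≤ a l - a' l := by linarith
      rw [Pi.sub_apply, abs_le]
      constructor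
      · exact_mod_cast h13
      · exact_mod_cast h12
    have hs3 : (0 : ℝ) ≤ (s : ℝ) - 1 := by
      have : (1 : ℝ) ≤ s := by exact_mod_cast hs0
      linarith
    have h5 := norm_le (x := el (a - a')) (T := A * ((s : ℝ) - 1)) (by positivity)
      (fun w => hA2 w _ _ h4)
    have h6 : Ideal.absNorm I ≤ Ideal.absNorm (Ideal.span {el (a - a')}) := by
      refine Nat.le_of_dvd (Nat.pos_of_ne_zero ?_)
        (Ideal.absNorm_dvd_absNorm_of_le ((Ideal.span_singleton_le_iff_mem _).2 h3))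
      rw [Ne, Ideal.absNorm_eq_zero_iff, Ideal.span_singleton_eq_bot]
      intro h0
      apply hne
      have h7 : el (a - a') = el (0 : Ix K → ℤ) := by
        rw [h0]; exact (map_zero _).symm
      exact sub_eq_zero.1 (el_inj h7)
    have h7 : (A * ((s : ℝ) - 1)) ^ d < t ^ d := by
      refine pow_lt_pow_left₀ ?_ (by positivity) hd0
      have : (s : ℝ) - 1 < t / A := by linarith
      calc A * ((s : ℝ) - 1) < A * (t / A) := by gcongr
        _ = t := by field_simp
    rw [htd] at h7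
    have h8 : (Ideal.absNorm I : ℝ) ≤ Ideal.absNorm (Ideal.span {el (a - a')}) := by exact_mod_cast h6
    linarith
  have hcard := Finset.card_le_card_of_injOn _ hmap hinj
  rw [Fintype.card_piFinset, Finset.prod_const, Finset.card_univ, card_Ix, Int.card_Icc] at hcard
  have h1 : (((bx K Y).filter fun a => z + el a ∈ I).card : ℝ) ≤
      (((2 * (Y : ℤ) / s + 1 - 0).toNat : ℕ) : ℝ) ^ d := by exact_mod_cast hcard
  have h2 : (((2 * (Y : ℤ) / s + 1 - 0).toNat : ℕ) : ℝ) ≤ 5 * A * Y / t := by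
    have e1 : 2 * (Y : ℤ) / s + 1 - 0 = ((2 * Y / s + 1 : ℕ) : ℤ) := by push_cast; ring
    rw [e1, Int.toNat_natCast]
    have e2 : ((2 * Y / s : ℕ) : ℝ) ≤ (2 * Y : ℝ) / s := by
      have := Nat.cast_div_le (α := ℝ) (m := 2 * Y) (n := s)
      refine this.trans (le_of_eq ?_)
      push_cast; ring
    have e3 : (2 * Y : ℝ) / s ≤ 2 * A * Y / t := by
      rw [div_le_div_iff₀ (by exact_mod_cast hs0) ht0]
      have : t ≤ s * A := by
        rw [div_le_iff₀ hA0] at hs1
        exact hs1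
      nlinarith [Nat.cast_nonneg (α := ℝ) Y]
    have e4 : (1 : ℝ) ≤ 3 * A * Y / t := by
      rw [le_div_iff₀ ht0, one_mul]
      exact htY
    push_cast
    calc ((2 * Y / s : ℕ) : ℝ) + 1 ≤ 2 * A * Y / t + 3 * A * Y / t := by linarith
      _ = 5 * A * Y / t := by ring
  calc _ ≤ (((2 * (Y : ℤ) / s + 1 - 0).toNat : ℕ) : ℝ) ^ d := h1
    _ ≤ (5 * A * Y / t) ^ d := pow_le_pow_left₀ (Nat.cast_nonneg _) h2 _
    _ = _ := by rw [div_pow, htd]

end box


section main

variable {K : Type} [Field K] [NumberField K]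

/-- the first coordinate -/
noncomputable def x0 (A Y : ℕ) (a : Ix K → ℤ) : 𝓞 K := ((2 * A * Y : ℕ) : 𝓞 K) + el a

theorem x0_bd {A : ℕ}
    (hA2 : ∀ (w : InfinitePlace K) (a : Ix K → ℤ) (y : ℝ), (∀ l, |(a l : ℝ)| ≤ y) →
      w (el a : K) ≤ A * y) {Y : ℕ} {a : Ix K → ℤ} (ha : a ∈ bx K Y) (w : InfinitePlace K) :
    (A * Y : ℝ) ≤ w (x0 A Y a : K) ∧ w (x0 A Y a : K) ≤ 3 * A * Y := by
  have h1 : w (el a : K) ≤ A * Y := hA2 w a Y (abs_le_of_mem ha)
  have h2 : ((x0 A Y a : 𝓞 K) : K) = ((2 * A * Y : ℕ) : K) + (el a : K) := by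
    unfold x0
    change algebraMap (𝓞 K) K (((2 * A * Y : ℕ) : 𝓞 K) + el a) = _
    rw [map_add, map_natCast]
  have h3 : w ((2 * A * Y : ℕ) : K) = 2 * A * Y := by
    have := abv_int w ((2 * A * Y : ℕ) : ℤ)
    rw [Int.cast_natCast, Int.cast_natCast, Nat.abs_cast] at this
    rw [this]; push_cast; ring
  have h4 : w (x0 A Y a : K) ≤ 2 * A * Y + w (el a : K) := by
    rw [h2, ← h3]
    exact w.1.add_le _ _
  have h5 : (2 * A * Y : ℝ) ≤ w (x0 A Y a : K) + w (el a : K) := by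
    rw [← h3]
    have e : ((2 * A * Y : ℕ) : K) = (x0 A Y a : K) - (el a : K) := by rw [h2]; ring
    rw [e]
    exact w.1.sub_le_add _ _
  constructor <;> linarith

theorem x0_ne {A : ℕ} (hA : 1 ≤ A)
    (hA2 : ∀ (w : InfinitePlace K) (a : Ix K → ℤ) (y : ℝ), (∀ l, |(a l : ℝ)| ≤ y) →
      w (el a : K) ≤ A * y) {Y : ℕ} (hY : 1 ≤ Y) {a : Ix K → ℤ} (ha : a ∈ bx K Y) :
    x0 A Y a ≠ 0 := by
  intro h
  obtain ⟨w⟩ : Nonempty (InfinitePlace K) := inferInstance
  have h1 := (x0_bd hA2 ha w).1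
  rw [h] at h1
  have h2 : w ((0 : 𝓞 K) : K) = 0 := by
    change w (algebraMap (𝓞 K) K 0) = 0
    rw [map_zero, map_zero]
  rw [h2] at h1
  have h3 : (0 : ℝ) < A * Y := by
    have : 0 < A * Y := Nat.mul_pos hA hY
    exact_mod_cast this
  linarith

open Classical in
/-- the pairs of coordinates with bounded greatest common divisor -/
noncomputable def good (K : Type) [Field K] [NumberField K] (A M Y : ℕ) :
    Finset ((Ix K → ℤ) × (Ix K → ℤ)) :=
  (bx K Y ×ˢ bx K Y).filter fun q => Ideal.absNorm (Ideal.span {x0 A Y q.1, el q.2}) ≤ M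

theorem good_pairs {A : ℕ} (hA : 1 ≤ A)
    (hA2 : ∀ (w : InfinitePlace K) (a : Ix K → ℤ) (y : ℝ), (∀ l, |(a l : ℝ)| ≤ y) →
      w (el a : K) ≤ A * y) : ∃ M : ℕ, 1 ≤ M ∧ ∀ Y : ℕ, 1 ≤ Y →
    ((2 * Y + 1 : ℝ) ^ finrank ℚ K) ^ 2 / 2 ≤ ((good K A M Y).card : ℝ) := by
  classical
  set d := finrank ℚ K with hd
  have hA0 : (0 : ℝ) < A := by exact_mod_cast hA
  obtain ⟨M, hM, hsum⟩ := tail' K (1 / (2 * ((5 * A : ℝ) ^ d) ^ 2)) (by positivity)
  refine ⟨M, hM, fun Y hY => ?_⟩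
  have hY0 : (0 : ℝ) < Y := by exact_mod_cast hY
  set S : Finset (Ideal (𝓞 K)) := (Ideal.finite_setOfPred_absNorm_le
    ((3 * A * Y) ^ d)).toFinset.filter (fun I => M < Ideal.absNorm I) with hS
  have hSm : ∀ I ∈ S, M < Ideal.absNorm I ∧ Ideal.absNorm I ≤ (3 * A * Y) ^ d := by
    intro I hI
    rw [hS, Finset.mem_filter, Set.Finite.mem_toFinset] at hI
    exact ⟨hI.2, hI.1⟩
  set bad : Finset ((Ix K → ℤ) × (Ix K → ℤ)) := (bx K Y ×ˢ bx K Y).filter fun q =>
    ¬ Ideal.absNorm (Ideal.span {x0 A Y q.1, el q.2}) ≤ M with hbad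
  have hsub : bad ⊆ S.biUnion fun I => ((bx K Y).filter fun a => ((2 * A * Y : ℕ) : 𝓞 K) + el a ∈ I) ×ˢ
      ((bx K Y).filter fun a => (0 : 𝓞 K) + el a ∈ I) := by
    rintro ⟨a, a'⟩ hq
    rw [hbad, Finset.mem_filter, Finset.mem_product] at hq
    obtain ⟨⟨ha, ha'⟩, hN⟩ := hq
    have m1 : x0 A Y a ∈ Ideal.span {x0 A Y a, el a'} := Ideal.subset_span (by simp)
    have m2 : el a' ∈ Ideal.span {x0 A Y a, el a'} := Ideal.subset_span (by simp)
    rw [Finset.mem_biUnion]
    refine ⟨Ideal.span {x0 A Y a, el a'}, ?_, ?_⟩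
    · rw [hS, Finset.mem_filter, Set.Finite.mem_toFinset]
      refine ⟨?_, not_le.1 hN⟩
      have h1 := norm_le (x := x0 A Y a) (T := 3 * A * Y) (by positivity)
        (fun w => (x0_bd hA2 ha w).2)
      have h2 : Ideal.absNorm (Ideal.span {x0 A Y a, el a'}) ≤
          Ideal.absNorm (Ideal.span {x0 A Y a}) := by
        refine Nat.le_of_dvd (Nat.pos_of_ne_zero ?_)
          (Ideal.absNorm_dvd_absNorm_of_le ((Ideal.span_singleton_le_iff_mem _).2 m1))
        rw [Ne, Ideal.absNorm_eq_zero_iff, Ideal.span_singleton_eq_bot]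
        exact x0_ne hA hA2 hY ha
      have h3 : Ideal.absNorm (Ideal.span {x0 A Y a}) ≤ (3 * A * Y) ^ d := by exact_mod_cast h1
      exact h2.trans h3
    · rw [Finset.mem_product, Finset.mem_filter, Finset.mem_filter]
      refine ⟨⟨ha, m1⟩, ha', ?_⟩
      rw [zero_add]; exact m2
  have hcb : (bad.card : ℝ) ≤ ((2 * Y + 1 : ℝ) ^ d) ^ 2 / 2 := by
    calc (bad.card : ℝ) ≤ ∑ I ∈ S, ((((bx K Y).filter fun a => ((2 * A * Y : ℕ) : 𝓞 K) + el a ∈ I) ×ˢ
          ((bx K Y).filter fun a => (0 : 𝓞 K) + el a ∈ I)).card : ℝ) := by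
          have := (Finset.card_le_card hsub).trans Finset.card_biUnion_le
          exact_mod_cast this
      _ ≤ ∑ I ∈ S, ((5 * A * Y : ℝ) ^ d) ^ 2 * (1 / (Ideal.absNorm I : ℝ) ^ 2) := by
          refine Finset.sum_le_sum fun I hI => ?_
          obtain ⟨h1, h2⟩ := hSm I hI
          have c1 := cnt_ideal hA hA2 Y I (by omega) h2 ((2 * A * Y : ℕ) : 𝓞 K)
          have c2 := cnt_ideal hA hA2 Y I (by omega) h2 (0 : 𝓞 K)
          rw [Finset.card_product]
          push_cast at c1 c2 ⊢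
          have h3 : (0 : ℝ) < Ideal.absNorm I := by
            have : 0 < Ideal.absNorm I := by omega
            exact_mod_cast this
          calc _ ≤ ((5 * A * Y : ℝ) ^ d / Ideal.absNorm I) * ((5 * A * Y : ℝ) ^ d / Ideal.absNorm I) :=
                mul_le_mul c1 c2 (Nat.cast_nonneg _) (by positivity)
            _ = _ := by field_simp
      _ = ((5 * A * Y : ℝ) ^ d) ^ 2 * ∑ I ∈ S, (1 / (Ideal.absNorm I : ℝ) ^ 2) := by
          rw [Finset.mul_sum]
      _ ≤ ((5 * A * Y : ℝ) ^ d) ^ 2 * (1 / (2 * ((5 * A : ℝ) ^ d) ^ 2)) := by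
          have := hsum ((3 * A * Y) ^ d) S hSm
          gcongr
      _ = ((Y : ℝ) ^ d) ^ 2 / 2 := by
          rw [mul_pow]
          field_simp
      _ ≤ _ := by
          gcongr
          linarith
  have htot : (good K A M Y).card + bad.card = ((2 * Y + 1) ^ d) ^ 2 := by
    rw [good, hbad, Finset.card_filter_add_card_filter_not, Finset.card_product, card_bx]
    ring
  have htot' : ((good K A M Y).card : ℝ) + bad.card = ((2 * Y + 1 : ℝ) ^ d) ^ 2 := by
    exact_mod_cast htot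
  linarith

end main


section fin

variable {K : Type} [Field K] [NumberField K]

/-- the vector of a pair and the other coordinates -/
noncomputable def vec (A Y : ℕ) {k : ℕ} (g : ((Ix K → ℤ) × (Ix K → ℤ)) × (Fin k → Ix K → ℤ)) :
    Fin (k + 1 + 1) → 𝓞 K :=
  Fin.cons (x0 A Y g.1.1) (Fin.cons (el g.1.2) fun j => el (g.2 j))

theorem vec_zero (A Y : ℕ) {k : ℕ} (g : ((Ix K → ℤ) × (Ix K → ℤ)) × (Fin k → Ix K → ℤ)) :
    vec A Y g 0 = x0 A Y g.1.1 := rfl

theorem vec_one (A Y : ℕ) {k : ℕ} (g : ((Ix K → ℤ) × (Ix K → ℤ)) × (Fin k → Ix K → ℤ)) :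
    vec A Y g 1 = el g.1.2 := rfl

theorem vec_inj (A Y : ℕ) {k : ℕ} : Function.Injective
    (vec A Y : ((Ix K → ℤ) × (Ix K → ℤ)) × (Fin k → Ix K → ℤ) → Fin (k + 1 + 1) → 𝓞 K) := by
  rintro ⟨⟨a, b⟩, v⟩ ⟨⟨a', b'⟩, v'⟩ h
  obtain ⟨h1, h2⟩ := Fin.cons_inj.1 h
  obtain ⟨h3, h4⟩ := Fin.cons_inj.1 h2
  have e1 : a = a' := el_inj (add_left_cancel h1)
  have e2 : b = b' := el_inj h3
  have e3 : v = v' := funext fun j => el_inj (congrFun h4 j)
  rw [e1, e2, e3]

theorem fin_lam (K : Type) [Field K] [NumberField K] (n : ℕ) (hn : n ≠ 0) :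
    {μ : K | IsIntegral ℤ ((n : K) * μ) ∧ ∀ w : InfinitePlace K, w μ ≤ 3}.Finite := by
  have h1 := Embeddings.finite_of_norm_le K ℂ (n * 3 : ℝ)
  refine (h1.preimage (f := fun μ : K => (n : K) * μ) ?_).subset ?_
  · intro a _ b _ hab
    exact mul_left_cancel₀ (Nat.cast_ne_zero.2 hn) hab
  · rintro μ ⟨h2, h3⟩
    refine ⟨h2, fun φ => ?_⟩
    have h4 := h3 (InfinitePlace.mk φ)
    rw [InfinitePlace.apply] at h4
    rw [map_mul, norm_mul, map_natCast, Complex.norm_natCast]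
    gcongr

theorem height_le {k : ℕ} (u : Fin (k + 1) → 𝓞 K) (hu : u ≠ 0) {T : ℝ}
    (h : ∀ (w : InfinitePlace K) j, w (u j : K) ≤ T) :
    mulHeight (fun j => (u j : K)) ≤ T ^ finrank ℚ K := by
  have hu' : (fun j => (u j : K)) ≠ 0 := by
    intro h
    apply hu
    funext i
    have := congrFun h i
    simpa using this
  have e1 : mulHeight (fun j => (u j : K)) * Ideal.absNorm (Ideal.span (Set.range u)) =
      ∏ v : InfinitePlace K, (⨆ i, v (u i : K)) ^ v.mult := by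
    rw [NumberField.mulHeight_eq hu', mul_assoc, mul_comm (∏ᶠ v : FinitePlace K, ⨆ i, v (u i : K)),
      absNorm_mul_finprod_finitePlace_eq_one hu, mul_one]
  have e2 : 1 ≤ (Ideal.absNorm (Ideal.span (Set.range u)) : ℝ) := by
    have : Ideal.absNorm (Ideal.span (Set.range u)) ≠ 0 := by
      rw [Ne, Ideal.absNorm_eq_zero_iff]
      intro h0
      apply hu
      funext i
      have h1 : u i ∈ Ideal.span (Set.range u) := Ideal.subset_span ⟨i, rfl⟩
      rw [h0] at h1
      exact h1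
    exact_mod_cast Nat.one_le_iff_ne_zero.2 this
  have e3 : 0 ≤ mulHeight (fun j => (u j : K)) := (zero_lt_one.trans_le (one_le_mulHeight _)).le
  calc mulHeight (fun j => (u j : K)) ≤
        mulHeight (fun j => (u j : K)) * Ideal.absNorm (Ideal.span (Set.range u)) :=
        le_mul_of_one_le_right e3 e2
    _ = ∏ v : InfinitePlace K, (⨆ i, v (u i : K)) ^ v.mult := e1
    _ ≤ ∏ w : InfinitePlace K, T ^ w.mult := by
        refine Finset.prod_le_prod (fun w _ => pow_nonneg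
          (Real.iSup_nonneg fun i => apply_nonneg w _) _) fun w _ => ?_
        exact pow_le_pow_left₀ (Real.iSup_nonneg fun i => apply_nonneg w _)
          (ciSup_le fun j => h w j) _
    _ = T ^ finrank ℚ K := by
        rw [Finset.prod_pow_eq_pow_sum, InfinitePlace.sum_mult_eq]

end fin

theorem t_LOW : S_LOW := by
  intro K _ _ m hm
  obtain ⟨k, rfl⟩ : ∃ k, m = k + 1 := ⟨m - 1, by omega⟩
  classical
  obtain ⟨A, hA, hA2⟩ := exists_A K
  obtain ⟨M, hM, hgood⟩ := good_pairs hA hA2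
  set d := finrank ℚ K with hd
  have hA0 : (0 : ℝ) < A := by exact_mod_cast hA
  set Λ := (fin_lam K M.factorial M.factorial_ne_zero).toFinset with hΛ
  set R := Λ.card with hR
  refine ⟨1 / (2 * (R + 1) * (3 * A) ^ (d * (k + 1 + 1))), 3 * A, by positivity, fun B hB => ?_⟩
  have hB0 : 0 < B := lt_of_lt_of_le (by positivity) hB
  set Y := ⌊B / (3 * A)⌋₊ with hYdef
  have hY : 1 ≤ Y := by
    rw [hYdef, Nat.one_le_floor_iff, le_div_iff₀ (by positivity), one_mul]
    exact hB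
  have hYB : 3 * A * (Y : ℝ) ≤ B := by
    have := Nat.floor_le (a := B / (3 * A)) (by positivity)
    rw [le_div_iff₀ (by positivity)] at this
    linarith
  have hYB2 : B / (3 * A) ≤ 2 * Y + 1 := by
    have := (Nat.lt_floor_add_one (B / (3 * A))).le
    have h0 : (0 : ℝ) ≤ Y := Nat.cast_nonneg _
    linarith
  have hY0 : (0 : ℝ) < Y := by exact_mod_cast hY
  set G : Finset (((Ix K → ℤ) × (Ix K → ℤ)) × (Fin k → Ix K → ℤ)) :=
    good K A M Y ×ˢ Fintype.piFinset fun _ : Fin k => bx K Y with hG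
  have hGm : ∀ g ∈ G, g.1.1 ∈ bx K Y ∧ g.1.2 ∈ bx K Y ∧
      Ideal.absNorm (Ideal.span {x0 A Y g.1.1, el g.1.2}) ≤ M ∧ ∀ j, g.2 j ∈ bx K Y := by
    intro g hg
    rw [hG, Finset.mem_product, good, Finset.mem_filter, Finset.mem_product,
      Fintype.mem_piFinset] at hg
    exact ⟨hg.1.1.1, hg.1.1.2, hg.1.2, hg.2⟩
  have hel : ∀ a ∈ bx K Y, ∀ w : InfinitePlace K, w (el a : K) ≤ 3 * A * Y := by
    intro a ha w
    have h1 : w (el a : K) ≤ A * Y := hA2 w a Y (abs_le_of_mem ha)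
    have h2 : (0 : ℝ) ≤ A * Y := by positivity
    linarith
  have hbd : ∀ g ∈ G, ∀ (w : InfinitePlace K) j, w (vec A Y g j : K) ≤ 3 * A * Y := by
    intro g hg w j
    obtain ⟨h1, h2, _, h4⟩ := hGm g hg
    refine Fin.cases ?_ (fun j => Fin.cases ?_ (fun j => ?_) j) j
    · exact (x0_bd hA2 h1 w).2
    · exact hel _ h2 w
    · exact hel _ (h4 j) w
  have hx0 : ∀ g ∈ G, x0 A Y g.1.1 ≠ 0 := fun g hg => x0_ne hA hA2 hY (hGm g hg).1
  have hne0 : ∀ g ∈ G, vec A Y g ≠ 0 := fun g hg h => hx0 g hg (congrFun h 0)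
  have hne : ∀ g ∈ G, (fun j => (vec A Y g j : K)) ≠ 0 := by
    intro g hg h
    have h1 := congrFun h 0
    exact hx0 g hg (RingOfIntegers.coe_eq_zero_iff.1 h1)
  let Φ : {g // g ∈ G} → ℙ K (Fin (k + 1 + 1) → K) := fun g =>
    Projectivization.mk K (fun j => (vec A Y g.1 j : K)) (hne g.1 g.2)
  refine ⟨G.attach.image Φ, ?_, ?_⟩
  · intro Q hQ
    obtain ⟨g, _, rfl⟩ := Finset.mem_image.1 hQ
    rw [Projectivization.mulHeight_mk]
    refine (height_le (vec A Y g.1) (hne0 g.1 g.2) (hbd g.1 g.2)).trans ?_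
    exact pow_le_pow_left₀ (by positivity) hYB _
  · have hfib : G.attach.card ≤ R * (G.attach.image Φ).card := by
      refine Finset.card_le_mul_card_image _ _ fun Q hQ => ?_
      obtain ⟨g₀, _, rfl⟩ := Finset.mem_image.1 hQ
      have hx : ((x0 A Y g₀.1.1.1 : 𝓞 K) : K) ≠ 0 := by
        rw [Ne, RingOfIntegers.coe_eq_zero_iff]
        exact hx0 _ g₀.2
      -- the multiplier
      have key : ∀ g : {g // g ∈ G}, Φ g = Φ g₀ → ∀ j, (vec A Y g.1 j : K) =
          ((x0 A Y g.1.1.1 : 𝓞 K) : K) / ((x0 A Y g₀.1.1.1 : 𝓞 K) : K) * (vec A Y g₀.1 j : K) := by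
        intro g hg j
        obtain ⟨c, hc⟩ := (Projectivization.mk_eq_mk_iff' K _ _ (hne g.1 g.2) (hne g₀.1 g₀.2)).1 hg
        have h1 : c * ((x0 A Y g₀.1.1.1 : 𝓞 K) : K) = ((x0 A Y g.1.1.1 : 𝓞 K) : K) := congrFun hc 0
        have h2 : c * (vec A Y g₀.1 j : K) = (vec A Y g.1 j : K) := congrFun hc j
        rw [← h2, ← h1]
        field_simp
      refine Finset.card_le_card_of_injOn (fun g : {g // g ∈ G} =>
        ((x0 A Y g.1.1.1 : 𝓞 K) : K) / ((x0 A Y g₀.1.1.1 : 𝓞 K) : K)) ?_ ?_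
      · intro g hg
        have hgQ := (Finset.mem_filter.1 (Finset.mem_coe.1 hg)).2
        rw [Finset.mem_coe, hΛ, Set.Finite.mem_toFinset]
        refine ⟨?_, fun w => ?_⟩
        · -- integrality
          have hN := (hGm g₀.1 g₀.2).2.2.1
          set I := Ideal.span {x0 A Y g₀.1.1.1, el g₀.1.1.2} with hI
          have hN0 : Ideal.absNorm I ≠ 0 := by
            rw [Ne, Ideal.absNorm_eq_zero_iff]
            intro h0
            have h1 : x0 A Y g₀.1.1.1 ∈ I := Ideal.subset_span (by simp)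
            rw [h0] at h1
            exact hx0 _ g₀.2 h1
          have hmem := Ideal.absNorm_mem I
          rw [hI, Ideal.mem_span_pair] at hmem
          obtain ⟨u, v, huv⟩ := hmem
          rw [← hI] at huv
          have hdvd : Ideal.absNorm I ∣ M.factorial :=
            Nat.dvd_factorial (Nat.pos_of_ne_zero hN0) hN
          obtain ⟨q, hq⟩ := hdvd
          have h1 := key g hgQ 1
          rw [vec_one, vec_one] at h1
          have h2 : ((Ideal.absNorm I : ℕ) : K) = (u : K) * ((x0 A Y g₀.1.1.1 : 𝓞 K) : K) +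
              (v : K) * ((el g₀.1.1.2 : 𝓞 K) : K) := by
            have := congrArg (algebraMap (𝓞 K) K) huv
            rw [map_add, map_mul, map_mul, map_natCast] at this
            exact this.symm
          have h3 : ((M.factorial : ℕ) : K) * (((x0 A Y g.1.1.1 : 𝓞 K) : K) /
              ((x0 A Y g₀.1.1.1 : 𝓞 K) : K)) =
              ((q : 𝓞 K) * (u * x0 A Y g.1.1.1 + v * el g.1.1.2) : 𝓞 K) := by
            have e3 : (((q : 𝓞 K) * (u * x0 A Y g.1.1.1 + v * el g.1.1.2) : 𝓞 K) : K) =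
                (q : K) * ((u : K) * ((x0 A Y g.1.1.1 : 𝓞 K) : K) +
                  (v : K) * ((el g.1.1.2 : 𝓞 K) : K)) := by
              change algebraMap (𝓞 K) K _ = _
              rw [map_mul, map_natCast, map_add, map_mul, map_mul]
            rw [hq, e3, Nat.cast_mul, h1, h2]
            field_simp
          rw [h3]
          exact RingOfIntegers.isIntegral_coe _
        · have h1 := (x0_bd hA2 (hGm g.1 g.2).1 w).2
          have h2 := (x0_bd hA2 (hGm g₀.1 g₀.2).1 w).1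
          have h3 : (0 : ℝ) < A * Y := by positivity
          rw [map_div₀, div_le_iff₀ (by linarith)]
          nlinarith
      · intro g hg g' hg' heq
        have hgQ := (Finset.mem_filter.1 (Finset.mem_coe.1 hg)).2
        have hgQ' := (Finset.mem_filter.1 (Finset.mem_coe.1 hg')).2
        apply Subtype.ext
        apply vec_inj A Y
        funext j
        apply RingOfIntegers.ext
        have e1 := key g hgQ j
        have e2 := key g' hgQ' j
        change ((x0 A Y g.1.1.1 : 𝓞 K) : K) / ((x0 A Y g₀.1.1.1 : 𝓞 K) : K) =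
          ((x0 A Y g'.1.1.1 : 𝓞 K) : K) / ((x0 A Y g₀.1.1.1 : 𝓞 K) : K) at heq
        rw [e1, e2, heq]
    rw [Finset.card_attach] at hfib
    have hcG : ((2 * Y + 1 : ℝ) ^ d) ^ (k + 1 + 1) / 2 ≤ (G.card : ℝ) := by
      have h1 := hgood Y hY
      rw [hG, Finset.card_product, Fintype.card_piFinset, Finset.prod_const, Finset.card_univ,
        Fintype.card_fin, card_bx]
      push_cast
      calc ((2 * Y + 1 : ℝ) ^ d) ^ (k + 1 + 1) / 2 =
            ((2 * Y + 1 : ℝ) ^ d) ^ 2 / 2 * ((2 * Y + 1 : ℝ) ^ d) ^ k := by ring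
        _ ≤ _ := by gcongr
    have hfib' : (G.card : ℝ) ≤ (R + 1) * ((G.attach.image Φ).card : ℝ) := by
      have : (G.card : ℝ) ≤ R * ((G.attach.image Φ).card : ℝ) := by exact_mod_cast hfib
      have h0 : (0 : ℝ) ≤ ((G.attach.image Φ).card : ℝ) := Nat.cast_nonneg _
      linarith
    have h5 : (B / (3 * A)) ^ (d * (k + 1 + 1)) ≤ ((2 * Y + 1 : ℝ) ^ d) ^ (k + 1 + 1) := by
      rw [← pow_mul]
      exact pow_le_pow_left₀ (by positivity) hYB2 _
    have hR0 : (0 : ℝ) < R + 1 := by positivity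
    have h6 : (B / (3 * A)) ^ (d * (k + 1 + 1)) / (2 * (R + 1)) ≤ ((G.attach.image Φ).card : ℝ) := by
      rw [div_le_iff₀ (by positivity)]
      linarith
    refine le_trans (le_of_eq ?_) h6
    rw [div_pow]
    field_simp

end Pool.Agent.N752.HY.Low2
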