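import Mathlib
import Pool.Agent.N752.HY.Stm
import Pool.Agent.N752.HY.Stm3

set_option autoImplicit false

/-!
HZ/NRM (helper297): norm forms over a number field, from integer vectors to points of `P^m(K)`.
-/

namespace Pool.Agent.N752.HY.Nrm

open NumberField IsDedekindDomain MvPolynomial Module Height
open scoped LinearAlgebra.Projectivization

/-! ### Homogeneous forms -/

theorem hom_aeval {R A σ : Type} [CommSemiring R] [CommSemiring A] [Algebra R A] [Fintype σ]
    {F : MvPolynomial σ R} {κ : ℕ} (hF : F.IsHomogeneous κ) (t : A) (x : σ → A) :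
    aeval (fun i => t * x i) F = t ^ κ * aeval x F := by
  rw [aeval_def, aeval_def, eval₂_eq', eval₂_eq', Finset.mul_sum]
  refine Finset.sum_congr rfl fun d hd => ?_
  have hdeg : ∑ i, d i = κ := by
    have h1 : Finsupp.weight 1 d = κ := hF (mem_support_iff.1 hd)
    rw [Finsupp.weight_apply, Finsupp.sum_fintype _ _ fun i => by simp] at h1
    simpa using h1
  simp only [mul_pow, Finset.prod_mul_distrib]
  rw [Finset.prod_pow_eq_pow_sum, hdeg]
  ring

theorem hom_eval {A σ : Type} [CommSemiring A] [Fintype σ]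
    {F : MvPolynomial σ A} {κ : ℕ} (hF : F.IsHomogeneous κ) (t : A) (x : σ → A) :
    eval (fun i => t * x i) F = t ^ κ * eval x F := by
  have h := hom_aeval hF t x
  rw [aeval_eq_eval, aeval_eq_eval] at h
  exact h

/-! ### Primes -/

section primes

variable {K : Type} [Field K] [NumberField K]

/-- the primes which divide an ideal -/
theorem sum_log_le {I : Ideal (𝓞 K)} (hI : I ≠ ⊥) (s : Finset (HeightOneSpectrum (𝓞 K)))
    (hs : ∀ v ∈ s, v.asIdeal ∣ I) :
    ∑ v ∈ s, Real.log (Ideal.absNorm v.asIdeal) ≤ Real.log (Ideal.absNorm I) := by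
  classical
  have hinj : Function.Injective (fun v : HeightOneSpectrum (𝓞 K) => v.asIdeal) :=
    fun v w h => HeightOneSpectrum.ext h
  have h1 : ∏ v ∈ s, v.asIdeal ∣ I := by
    have h2 := Finset.prod_primes_dvd (s := s.map ⟨_, hinj⟩) I (by
      intro a ha
      rw [Finset.mem_map] at ha
      obtain ⟨v, -, rfl⟩ := ha
      exact v.prime) (by
      intro a ha
      rw [Finset.mem_map] at ha
      obtain ⟨v, hv, rfl⟩ := ha
      exact hs v hv)
    rw [Finset.prod_map] at h2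
    exact h2
  have h3 : ∏ v ∈ s, Ideal.absNorm v.asIdeal ∣ Ideal.absNorm I := by
    rw [← map_prod]
    exact map_dvd Ideal.absNorm h1
  have hI0 : Ideal.absNorm I ≠ 0 := by rwa [Ne, Ideal.absNorm_eq_zero_iff]
  have h4 := Nat.le_of_dvd (Nat.pos_of_ne_zero hI0) h3
  have hv0 : ∀ v : HeightOneSpectrum (𝓞 K), (Ideal.absNorm v.asIdeal : ℝ) ≠ 0 := by
    intro v
    have : Ideal.absNorm v.asIdeal ≠ 0 := by
      rw [Ne, Ideal.absNorm_eq_zero_iff]
      exact v.ne_bot
    exact_mod_cast this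
  rw [← Real.log_prod fun v _ => hv0 v]
  have h5 : 0 < ∏ v ∈ s, (Ideal.absNorm v.asIdeal : ℝ) :=
    Finset.prod_pos fun v _ => lt_of_le_of_ne (Nat.cast_nonneg _) (Ne.symm (hv0 v))
  refine Real.log_le_log h5 ?_
  exact_mod_cast h4

theorem log_nonneg' (v : HeightOneSpectrum (𝓞 K)) :
    0 ≤ Real.log (Ideal.absNorm v.asIdeal : ℝ) := Real.log_natCast_nonneg _

/-- the prime divisors of a norm -/
theorem sum_primes_le {f : 𝓞 K} (hf : f ≠ 0) (s : Finset (HeightOneSpectrum (𝓞 K)))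
    (hs : ∀ v : HeightOneSpectrum (𝓞 K), f ∈ v.asIdeal → v ∈ s) :
    ∑ p ∈ (Algebra.norm ℤ f).natAbs.primeFactors, Real.log p ≤
      ∑ v ∈ s, Real.log (Ideal.absNorm v.asIdeal) := by
  classical
  have hfb : Ideal.span {f} ≠ ⊥ := by rwa [Ne, Ideal.span_singleton_eq_bot]
  have h1 : ∀ p ∈ (Algebra.norm ℤ f).natAbs.primeFactors, ∃ v : HeightOneSpectrum (𝓞 K),
      f ∈ v.asIdeal ∧ v.asIdeal.under ℤ = Ideal.span {(p : ℤ)} := by
    intro p hp
    rw [Nat.mem_primeFactors] at hp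
    obtain ⟨P, hP1, hP2, hP3⟩ := Ideal.exists_isMaximal_dvd_of_dvd_absNorm' hp.1 (Ideal.span {f})
      (by rw [Ideal.absNorm_span_singleton]; exact hp.2.1)
    have hPb : P ≠ ⊥ := by
      rintro rfl
      exact hfb (zero_dvd_iff.1 hP3)
    refine ⟨⟨P, hP1.isPrime, hPb⟩, ?_, hP2⟩
    exact (Ideal.dvd_iff_le.1 hP3) (Ideal.mem_span_singleton_self f)
  choose V hV1 hV2 using h1
  rw [← Finset.sum_attach]
  have hle : ∀ p (hp : p ∈ (Algebra.norm ℤ f).natAbs.primeFactors),
      Real.log p ≤ Real.log (Ideal.absNorm (V p hp).asIdeal) := by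
    intro p hp
    have h2 : ((Ideal.absNorm (V p hp).asIdeal : ℕ) : ℤ) ∈ (V p hp).asIdeal.under ℤ := by
      rw [Ideal.mem_comap]
      have := Ideal.absNorm_mem (V p hp).asIdeal
      simpa using this
    rw [hV2, Ideal.mem_span_singleton, Int.natCast_dvd_natCast] at h2
    have h3 : Ideal.absNorm (V p hp).asIdeal ≠ 0 := by
      rw [Ne, Ideal.absNorm_eq_zero_iff]
      exact (V p hp).ne_bot
    refine Real.log_le_log ?_ ?_
    · exact_mod_cast (Nat.prime_of_mem_primeFactors hp).pos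
    · exact_mod_cast Nat.le_of_dvd (Nat.pos_of_ne_zero h3) h2
  refine (Finset.sum_le_sum fun p _ => hle p.1 p.2).trans ?_
  have hinj : Set.InjOn (fun p : {x // x ∈ (Algebra.norm ℤ f).natAbs.primeFactors} => V p.1 p.2)
      ((Algebra.norm ℤ f).natAbs.primeFactors.attach) := by
    intro p _ p' _ h
    have h2 := hV2 p.1 p.2
    have h3 := hV2 p'.1 p'.2
    have h4 : V p.1 p.2 = V p'.1 p'.2 := h
    rw [h4, h3] at h2
    rw [Ideal.span_singleton_eq_span_singleton, Int.associated_iff_natAbs] at h2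
    simp only [Int.natAbs_natCast] at h2
    exact Subtype.ext h2.symm
  rw [← Finset.sum_image (f := fun v : HeightOneSpectrum (𝓞 K) =>
    Real.log (Ideal.absNorm v.asIdeal : ℝ)) hinj]
  refine Finset.sum_le_sum_of_subset_of_nonneg ?_ fun v _ _ => log_nonneg' v
  intro v hv
  rw [Finset.mem_image] at hv
  obtain ⟨p, -, rfl⟩ := hv
  exact hs _ (hV1 p.1 p.2)

/-! ### Finite places -/

theorem mk_le_one (v : HeightOneSpectrum (𝓞 K)) (a : 𝓞 K) : FinitePlace.mk v (a : K) ≤ 1 := by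
  rw [FinitePlace.mk_apply]
  exact FinitePlace.norm_le_one K v a

theorem mk_lt_one (v : HeightOneSpectrum (𝓞 K)) {a : 𝓞 K} :
    FinitePlace.mk v (a : K) < 1 ↔ a ∈ v.asIdeal := by
  rw [FinitePlace.mk_apply]
  exact FinitePlace.norm_lt_one_iff_mem K v a

theorem mk_eq_one (v : HeightOneSpectrum (𝓞 K)) {a : 𝓞 K} :
    FinitePlace.mk v (a : K) = 1 ↔ a ∉ v.asIdeal := by
  rw [FinitePlace.mk_apply]
  exact FinitePlace.norm_eq_one_iff_notMem K v a

variable {m κ : ℕ} {F : MvPolynomial (Fin (m + 1)) (𝓞 K)} {x : Fin (m + 1) → K}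
  {y : Fin (m + 1) → 𝓞 K} {l : K}

omit [NumberField K] in
theorem aeval_y (hF : F.IsHomogeneous κ) (hy : ∀ j, (y j : K) = l * x j) :
    ((eval y F : 𝓞 K) : K) = l ^ κ * aeval x F := by
  rw [← hom_aeval hF]
  have h1 : (fun i => l * x i) = fun j => algebraMap (𝓞 K) K (y j) := funext fun j => (hy j).symm
  rw [h1]
  have h2 := MvPolynomial.aeval_algebraMap_apply K y F
  rw [aeval_eq_eval] at h2
  exact h2.symm

/-- the local heights in terms of the integral representative -/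
theorem lam_eq (hF : F.IsHomogeneous κ) (hl : l ≠ 0) (hy : ∀ j, (y j : K) = l * x j)
    (v : HeightOneSpectrum (𝓞 K)) :
    lam K F κ x v = Real.log ((⨆ j, FinitePlace.mk v (y j : K)) ^ κ /
      FinitePlace.mk v ((eval y F : 𝓞 K) : K)) := by
  unfold lam
  have hid : ∀ z : K, algebraMap K K z = z := fun z => rfl
  simp only [hid]
  have ha : FinitePlace.mk v l ≠ 0 := by
    have := (FinitePlace.pos_iff (w := FinitePlace.mk v)).2 hl
    exact this.ne'
  rw [aeval_y hF hy, map_mul, map_pow]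
  have h1 : (⨆ j, FinitePlace.mk v (y j : K)) =
      FinitePlace.mk v l * ⨆ j, FinitePlace.mk v (x j) := by
    rw [Real.mul_iSup_of_nonneg (apply_nonneg _ _)]
    refine iSup_congr fun j => ?_
    rw [hy, map_mul]
  rw [h1, mul_pow, mul_div_mul_left _ _ (pow_ne_zero _ ha)]

theorem sup_le (v : HeightOneSpectrum (𝓞 K)) : (⨆ j, FinitePlace.mk v (y j : K)) ≤ 1 :=
  ciSup_le fun j => mk_le_one v (y j)

theorem lam_pos_of (hF : F.IsHomogeneous κ) (hl : l ≠ 0) (hy : ∀ j, (y j : K) = l * x j)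
    (hf : eval y F ≠ 0) (v : HeightOneSpectrum (𝓞 K)) (hv : eval y F ∈ v.asIdeal)
    (hyv : ∃ j, y j ∉ v.asIdeal) : 0 < lam K F κ x v := by
  rw [lam_eq hF hl hy]
  obtain ⟨j, hj⟩ := hyv
  have h1 : 1 ≤ ⨆ j, FinitePlace.mk v (y j : K) := by
    rw [← (mk_eq_one v).2 hj]
    exact le_ciSup (f := fun j => FinitePlace.mk v (y j : K)) (Set.finite_range _).bddAbove j
  have h2 : FinitePlace.mk v ((eval y F : 𝓞 K) : K) < 1 := (mk_lt_one v).2 hv
  have h3 : 0 < FinitePlace.mk v ((eval y F : 𝓞 K) : K) :=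
    FinitePlace.pos_iff.2 (RingOfIntegers.coe_ne_zero_iff.2 hf)
  exact Real.log_pos ((one_lt_div h3).2 (h2.trans_le (one_le_pow₀ h1)))

theorem mem_of_lam_pos (hF : F.IsHomogeneous κ) (hl : l ≠ 0) (hy : ∀ j, (y j : K) = l * x j)
    (hf : eval y F ≠ 0) (v : HeightOneSpectrum (𝓞 K)) (h : 0 < lam K F κ x v) :
    eval y F ∈ v.asIdeal := by
  rw [lam_eq hF hl hy] at h
  have h3 : 0 < FinitePlace.mk v ((eval y F : 𝓞 K) : K) :=
    FinitePlace.pos_iff.2 (RingOfIntegers.coe_ne_zero_iff.2 hf)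
  have h0 : 0 ≤ ⨆ j, FinitePlace.mk v (y j : K) := Real.iSup_nonneg fun j => apply_nonneg _ _
  rw [← mk_lt_one]
  by_contra hc
  push Not at hc
  have h4 : (⨆ j, FinitePlace.mk v (y j : K)) ^ κ / FinitePlace.mk v ((eval y F : 𝓞 K) : K) ≤ 1 :=
    (div_le_one h3).2 ((pow_le_one₀ h0 (sup_le v)).trans hc)
  exact absurd (Real.log_nonpos (div_nonneg (pow_nonneg h0 _) h3.le) h4) (not_le.2 h)

/-- **The lower bound for the truncated counting function.** -/
theorem cnt_ge (hF : F.IsHomogeneous κ) (hl : l ≠ 0) (hy : ∀ j, (y j : K) = l * x j)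
    (hf : eval y F ≠ 0) (hy0 : y ≠ 0) {q : ℝ}
    (hq : (Ideal.absNorm (Ideal.span (Set.range y)) : ℝ) ≤ q) :
    ∑ p ∈ (Algebra.norm ℤ (eval y F)).natAbs.primeFactors, Real.log p - Real.log q ≤
      finrank ℚ K * cnt K ∅ (fun _ : Fin 1 => F) (fun _ => κ) Finset.univ x := by
  classical
  have hn0 : (finrank ℚ K : ℝ) ≠ 0 := by exact_mod_cast (finrank_pos (R := ℚ) (M := K)).ne'
  have hIb : Ideal.span (Set.range y) ≠ ⊥ := by
    rw [Ne, Ideal.span_eq_bot]
    intro h
    apply hy0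
    funext j
    exact h _ ⟨j, rfl⟩
  have hfb : Ideal.span {eval y F} ≠ ⊥ := by rwa [Ne, Ideal.span_singleton_eq_bot]
  have hfin : {v : HeightOneSpectrum (𝓞 K) | v.asIdeal ∣ Ideal.span {eval y F}}.Finite :=
    Ideal.finite_factors hfb
  have hmem : ∀ v : HeightOneSpectrum (𝓞 K), v ∈ hfin.toFinset ↔ eval y F ∈ v.asIdeal := by
    intro v
    rw [Set.Finite.mem_toFinset, Set.mem_ofPred_eq, Ideal.dvd_span_singleton]
  have h1 := sum_primes_le hf hfin.toFinset fun v hv => (hmem v).2 hv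
  rw [← Finset.sum_filter_add_sum_filter_not hfin.toFinset (fun v => ∃ j, y j ∉ v.asIdeal)] at h1
  have h2 : ∑ v ∈ hfin.toFinset.filter (fun v => ¬ ∃ j, y j ∉ v.asIdeal),
      Real.log (Ideal.absNorm v.asIdeal) ≤ Real.log q := by
    refine (sum_log_le hIb _ fun v hv => ?_).trans ?_
    · rw [Finset.mem_filter] at hv
      obtain ⟨-, hv⟩ := hv
      push Not at hv
      rw [Ideal.dvd_iff_le, Ideal.span_le]
      rintro _ ⟨j, rfl⟩
      exact hv j
    · have h3 : Ideal.absNorm (Ideal.span (Set.range y)) ≠ 0 := by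
        rwa [Ne, Ideal.absNorm_eq_zero_iff]
      refine Real.log_le_log ?_ hq
      exact_mod_cast Nat.pos_of_ne_zero h3
  have h4 : ∑ v ∈ hfin.toFinset.filter (fun v => ∃ j, y j ∉ v.asIdeal),
      Real.log (Ideal.absNorm v.asIdeal) ≤
      finrank ℚ K * cnt K ∅ (fun _ : Fin 1 => F) (fun _ => κ) Finset.univ x := by
    unfold cnt
    rw [mul_div_cancel₀ _ hn0]
    rw [finsum_eq_sum_of_support_subset (s := hfin.toFinset)]
    · rw [Finset.sum_filter]
      refine Finset.sum_le_sum fun v hv => ?_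
      by_cases h5 : ∃ j, y j ∉ v.asIdeal
      · rw [if_pos h5, if_pos]
        refine ⟨fun p hp => absurd hp (Finset.notMem_empty p), 0, Finset.mem_univ _, ?_⟩
        exact lam_pos_of hF hl hy hf v ((hmem v).1 hv) h5
      · rw [if_neg h5]
        split_ifs
        · exact log_nonneg' v
        · exact le_rfl
    · intro v hv
      rw [Function.mem_support] at hv
      have h6 : Outside ∅ v ∧ ∃ i ∈ (Finset.univ : Finset (Fin 1)), 0 < lam K F κ x v := by
        by_contra h7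
        exact hv (if_neg h7)
      obtain ⟨-, i, -, h7⟩ := h6
      exact Finset.mem_coe.2 ((hmem v).2 (mem_of_lam_pos hF hl hy hf v h7))
  linarith

end primes

/-! ### Points and integer vectors -/

section points

variable {K : Type} [Field K] [NumberField K] {m N : ℕ}

omit [NumberField K] in
theorem one_ne : (fun _ : Fin (m + 1) => (1 : K)) ≠ 0 := fun h => one_ne_zero (congrFun h 0)

open Classical in
/-- the point with the coordinates `L z` -/
noncomputable def Psi (L : (Fin N → ℤ) ≃+ (Fin (m + 1) → 𝓞 K)) (z : Fin N → ℤ) :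
    ℙ K (Fin (m + 1) → K) :=
  if h : (fun j => (L z j : K)) ≠ 0 then Projectivization.mk K _ h else
    Projectivization.mk K _ one_ne

theorem mulHeight_rep (Q : ℙ K (Fin (m + 1) → K)) : Height.mulHeight Q.rep = Q.mulHeight := by
  conv_rhs => rw [← Q.mk_rep]
  rw [Projectivization.mulHeight_mk]

theorem repr (hREP : S_REP) (L : (Fin N → ℤ) ≃+ (Fin (m + 1) → 𝓞 K)) (hN : 0 < N) {A : ℝ}
    (hA : ∀ (z : Fin N → ℤ) (T : ℝ),
      (∀ (w : InfinitePlace K) (i : Fin (m + 1)), w (L z i : K) ≤ T) → ∀ j, |(z j : ℝ)| ≤ A * T)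
    (Q : ℙ K (Fin (m + 1) → K)) {T : ℝ} (_hT : 0 ≤ T)
    (hQ : Real.log Q.mulHeight ≤ finrank ℚ K * T) :
    ∃ (l : K) (z' : Fin N → ℤ) (g : ℤ), l ≠ 0 ∧ g ≠ 0 ∧ Finset.univ.gcd z' = 1 ∧
      (∀ i, |(z' i : ℝ)| ≤ A * ((√|(discr K : ℝ)| + 1) * Real.exp T)) ∧
      (∀ j, (L (fun i => g * z' i) j : K) = l * Q.rep j) ∧
      (Ideal.absNorm (Ideal.span (Set.range (L fun i => g * z' i))) : ℝ) ≤
        √|(discr K : ℝ)| + 1 ∧ Q = Psi L z' := by
  obtain ⟨l, y, hl, hy, hyw, hyq⟩ := hREP K _ _ (m + 1) Q.rep Q.rep_nonzero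
  have hq1 : 1 ≤ √|(discr K : ℝ)| + 1 := by
    have := Real.sqrt_nonneg |(discr K : ℝ)|
    linarith
  set q : ℝ := √|(discr K : ℝ)| + 1 with hq
  have hn0 : finrank ℚ K ≠ 0 := (finrank_pos (R := ℚ) (M := K)).ne'
  obtain ⟨z, hz⟩ : ∃ z, z = L.symm y := ⟨_, rfl⟩
  have hLz : L z = y := by rw [hz, AddEquiv.apply_symm_apply]
  have hne : (Finset.univ : Finset (Fin N)).Nonempty := ⟨⟨0, hN⟩, Finset.mem_univ _⟩
  obtain ⟨z', hz', hgcd⟩ := Finset.extract_gcd z hne
  obtain ⟨g, hg⟩ : ∃ g, g = Finset.univ.gcd z := ⟨_, rfl⟩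
  rw [← hg] at hz'
  have hzz : z = fun i => g * z' i := funext fun i => hz' i (Finset.mem_univ i)
  have hy0 : y ≠ 0 := by
    intro h
    apply Q.rep_nonzero
    funext j
    have h1 := hy j
    rw [h] at h1
    have h2 : l * Q.rep j = 0 := by
      rw [← h1]
      rfl
    exact (mul_eq_zero.1 h2).resolve_left hl
  have hg0 : g ≠ 0 := by
    intro h
    apply hy0
    rw [← hLz, hzz, h]
    have : (fun i => (0 : ℤ) * z' i) = 0 := by
      funext i
      rw [zero_mul]
      rfl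
    rw [this, map_zero]
  have hbd : ∀ i, |(z i : ℝ)| ≤ A * (q * Real.exp T) := by
    refine hA z _ fun w i => ?_
    rw [hLz]
    have h1 : w (y i : K) ^ finrank ℚ K ≤ (q * Real.exp T) ^ finrank ℚ K := by
      refine (hyw w i).trans ?_
      rw [mulHeight_rep, mul_pow]
      refine mul_le_mul (le_self_pow₀ hq1 hn0) ?_ Q.mulHeight_pos.le (by positivity)
      rw [← Real.exp_nat_mul]
      exact (Real.log_le_iff_le_exp Q.mulHeight_pos).1 hQ
    exact le_of_pow_le_pow_left₀ hn0 (by positivity) h1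
  refine ⟨l, z', g, hl, hg0, hgcd, fun i => ?_, fun j => ?_, ?_, ?_⟩
  · refine le_trans ?_ (hbd i)
    rw [hzz]
    push_cast
    rw [abs_mul]
    have h1 : 1 ≤ |(g : ℝ)| := by exact_mod_cast Int.one_le_abs hg0
    nlinarith [abs_nonneg (z' i : ℝ)]
  · rw [← hzz, hLz]
    exact hy j
  · rw [← hzz, hLz]
    exact hyq
  · have hgK : (g : K) ≠ 0 := by exact_mod_cast hg0
    have h1 : ∀ j, (g : K) * (L z' j : K) = l * Q.rep j := by
      intro j
      rw [← hy j, ← hLz, hzz]
      have h2 : (fun i => g * z' i) = g • z' := by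
        funext i
        rw [Pi.smul_apply, smul_eq_mul]
      rw [h2, map_zsmul, Pi.smul_apply, zsmul_eq_mul]
      push_cast
      rfl
    have h3 : (fun j => (L z' j : K)) = (l / g) • Q.rep := by
      funext j
      rw [Pi.smul_apply, smul_eq_mul]
      apply mul_left_cancel₀ hgK
      rw [h1]
      field_simp
    have h4 : (fun j => (L z' j : K)) ≠ 0 := by
      rw [h3]
      exact smul_ne_zero (div_ne_zero hl hgK) Q.rep_nonzero
    rw [Psi, dif_pos h4]
    conv_lhs => rw [← Q.mk_rep]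
    rw [Projectivization.mk_eq_mk_iff']
    refine ⟨g / l, ?_⟩
    rw [h3, smul_smul]
    have h5 : (g : K) / l * (l / g) = 1 := by field_simp
    rw [h5, one_smul]

/-- a box -/
noncomputable def box (N B : ℕ) : Finset (Fin N → ℤ) := Fintype.piFinset fun _ => Finset.Icc (-(B : ℤ)) B

theorem mem_box {N B : ℕ} {z : Fin N → ℤ} : z ∈ box N B ↔ ∀ i, |z i| ≤ B := by
  rw [box, Fintype.mem_piFinset]
  refine forall_congr' fun i => ?_
  rw [Finset.mem_Icc, abs_le]

end points

/-- **HZ/NRM.** -/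
theorem t_NRM : S_REP → S_QN → S_RES → S_NRM := by
  classical
  intro hREP hQN hRES K iK iK' E iE iE' iKE m κ F α c i₀ hn hF hE hc hα hadj hnorm θ hθ
  obtain ⟨N, G, L, α', c', A, hN, hG, hirr, hrank, hG1, hG2, hA0, hA⟩ :=
    hRES K iK iK' E iE iE' iKE m κ F α c i₀ hF hE hc hα hadj hnorm
  obtain ⟨n, hnd⟩ : ∃ n, n = finrank ℚ K := ⟨_, rfl⟩
  obtain ⟨ρ, hρd⟩ : ∃ ρ, ρ = finrank K (Submodule.span K (Set.range α)) := ⟨_, rfl⟩
  rw [← hnd] at hN hG hrank hn ⊢
  rw [← hρd] at hrank hθ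
  have hκ1 : 0 < κ := by
    rw [← hE]
    exact finrank_pos
  have hn0 : (0 : ℝ) < n := by
    have : 0 < n := by
      rw [hnd]
      exact finrank_pos
    exact_mod_cast this
  have hN3 : 3 ≤ N := by
    rw [hN]
    exact hn
  have hρ1 : 1 ≤ ρ := by
    rw [hρd, Nat.one_le_iff_ne_zero]
    intro h0
    have hfin : Module.Finite K (Submodule.span K (Set.range α)) :=
      FiniteDimensional.span_of_finite K (Set.finite_range α)
    rw [Submodule.finrank_eq_zero] at h0
    have h1 : α i₀ ∈ Submodule.span K (Set.range α) := Submodule.subset_span ⟨i₀, rfl⟩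
    rw [h0, Submodule.mem_bot, hα] at h1
    exact one_ne_zero h1
  have hW1 : 0 < W2 ρ κ := by
    unfold W2
    split_ifs <;> omega
  have hWn : W2 (n * ρ) (n * κ) = n * W2 ρ κ := by
    have hn1 : 0 < n := by exact_mod_cast hn0
    unfold W2
    have e : (n * κ < 3 * (n * ρ)) ↔ (κ < 3 * ρ) := by
      rw [show 3 * (n * ρ) = n * (3 * ρ) by ring]
      exact Nat.mul_lt_mul_left hn1
    simp only [e]
    split_ifs
    · rfl
    · ring
  -- the exponent
  obtain ⟨τ, hτ⟩ : ∃ τ, τ = max θ 0 := ⟨_, rfl⟩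
  have hτ0 : 0 ≤ τ := by rw [hτ]; exact le_max_right _ _
  have hτθ : θ ≤ τ := by rw [hτ]; exact le_max_left _ _
  have hτκ : τ < W2 ρ κ := by
    rw [hτ]
    exact max_lt hθ (by exact_mod_cast hW1)
  obtain ⟨θ', h1, h2⟩ : ∃ θ' : ℝ, n * τ < θ' ∧ θ' < ((W2 (n * ρ) (n * κ) : ℕ) : ℝ) := by
    refine exists_between ?_
    rw [hWn]
    push_cast
    exact mul_lt_mul_of_pos_left hτκ hn0
  have hθ'0 : 0 ≤ θ' := le_trans (by positivity) h1.le
  obtain ⟨c₁, C₁, hc₁, hC₁, hbad⟩ := hQN N (n * κ) (n * ρ) G E iE iE' α' c' hN3 hG hirr hrank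
    (by nlinarith) hG1 θ' h2
  -- the constants
  have hq1 : 1 ≤ √|(discr K : ℝ)| + 1 := by
    have := Real.sqrt_nonneg |(discr K : ℝ)|
    linarith
  obtain ⟨q, hq⟩ : ∃ q : ℝ, q = √|(discr K : ℝ)| + 1 := ⟨_, rfl⟩
  rw [← hq] at hq1
  obtain ⟨D, hD⟩ : ∃ D : ℝ, D = A * q + 1 := ⟨_, rfl⟩
  have hAq : 0 ≤ A * q := by positivity
  have hD1 : 1 ≤ D := by rw [hD]; linarith
  obtain ⟨B, hB⟩ : ∃ B : ℝ → ℕ, B = fun T => ⌈D * Real.exp T⌉₊ := ⟨_, rfl⟩
  have hB1 : ∀ T, D * Real.exp T ≤ B T := fun T => by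
    rw [hB]
    exact Nat.le_ceil _
  have hBexp : ∀ T, Real.exp T ≤ B T := fun T => by
    refine le_trans ?_ (hB1 T)
    nlinarith [Real.exp_pos T]
  have hBA : ∀ T, A * (q * Real.exp T) ≤ B T := fun T => by
    refine le_trans ?_ (hB1 T)
    rw [hD]
    nlinarith [Real.exp_pos T]
  have hB2 : ∀ T, 0 ≤ T → (B T : ℝ) ≤ (D + 1) * Real.exp T := fun T hT => by
    have h3 : (B T : ℝ) < D * Real.exp T + 1 := by
      rw [hB]
      exact Nat.ceil_lt_add_one (by positivity)
    have h4 := Real.one_le_exp hT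
    nlinarith
  have hB3 : ∀ T, 0 ≤ T → 1 ≤ B T := fun T hT => by
    have h3 := (Real.one_le_exp hT).trans (hBexp T)
    exact_mod_cast h3
  obtain ⟨T₀, hT₀⟩ : ∃ T₀ : ℝ, T₀ = max 0 (Real.log q / (θ' - n * τ)) := ⟨_, rfl⟩
  have hT₀0 : 0 ≤ T₀ := by rw [hT₀]; exact le_max_left _ _
  have hT₀1 : Real.log q / (θ' - n * τ) ≤ T₀ := by rw [hT₀]; exact le_max_right _ _
  obtain ⟨c₂, hc₂⟩ : ∃ c₂ : ℝ, c₂ = min c₁ 1 := ⟨_, rfl⟩
  have hc₂1 : c₂ ≤ 1 := by rw [hc₂]; exact min_le_right _ _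
  have hc₂2 : c₂ ≤ c₁ := by rw [hc₂]; exact min_le_left _ _
  have hc₂0 : 0 < c₂ := by
    rw [hc₂]
    exact lt_min hc₁ one_pos
  have hNr : (N : ℝ) = n * (m + 1) := by
    rw [hN]
    push_cast
    ring
  have hNc : 0 ≤ (N : ℝ) - c₂ := by
    have : (3 : ℝ) ≤ N := by exact_mod_cast hN3
    linarith
  refine ⟨c₂, max (C₁ * (D + 1) ^ ((N : ℝ) - c₂)) (box N (B T₀)).card, hc₂0,
    (Nat.cast_nonneg _).trans (le_max_right _ _), fun T hT => ?_⟩
  rw [← hNr]
  have hexp : 1 ≤ Real.exp (((N : ℝ) - c₂) * T) := Real.one_le_exp (mul_nonneg hNc hT)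
  have hint : ∀ (T : ℝ) (z : ℤ), |(z : ℝ)| ≤ A * ((√|(discr K : ℝ)| + 1) * Real.exp T) →
      |z| ≤ B T := by
    intro T z hz
    rw [← hq] at hz
    have h3 := hz.trans (hBA T)
    exact_mod_cast h3
  by_cases hTT : T₀ ≤ T
  · -- large `T`
    obtain ⟨S, hS⟩ : ∃ S : Set (Fin N → ℤ), S = {z : Fin N → ℤ | (∀ i, |z i| ≤ B T) ∧
      Finset.univ.gcd z = 1 ∧ (eval z G = 0 ∨
      ∑ p ∈ (eval z G).natAbs.primeFactors, Real.log p < θ' * Real.log (B T))} := ⟨_, rfl⟩
    have hSf : S.Finite := by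
      refine (box N (B T)).finite_toSet.subset ?_
      rw [hS]
      intro z hz
      exact Finset.mem_coe.2 (mem_box.2 hz.1)
    have hScard := hbad (B T) (hB3 T hT)
    rw [← hS] at hScard
    refine ⟨hSf.toFinset.image (Psi L), ?_, fun Q hQ hQZ => ?_⟩
    · have h3 : ((hSf.toFinset.image (Psi L)).card : ℝ) ≤ S.ncard := by
        rw [Set.ncard_eq_toFinset_card S hSf]
        exact_mod_cast Finset.card_image_le
      refine h3.trans (hScard.trans ?_)
      have hB1' : (1 : ℝ) ≤ B T := by exact_mod_cast hB3 T hT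
      calc C₁ * (B T : ℝ) ^ ((N : ℝ) - c₁) ≤ C₁ * (B T : ℝ) ^ ((N : ℝ) - c₂) := by
            refine mul_le_mul_of_nonneg_left ?_ hC₁
            exact Real.rpow_le_rpow_of_exponent_le hB1' (by linarith)
        _ ≤ C₁ * ((D + 1) * Real.exp T) ^ ((N : ℝ) - c₂) := by
            refine mul_le_mul_of_nonneg_left ?_ hC₁
            exact Real.rpow_le_rpow (by positivity) (hB2 T hT) hNc
        _ = C₁ * (D + 1) ^ ((N : ℝ) - c₂) * Real.exp (((N : ℝ) - c₂) * T) := by
            rw [Real.mul_rpow (by linarith) (Real.exp_pos T).le, ← Real.exp_mul, mul_comm T]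
            ring
        _ ≤ _ := mul_le_mul_of_nonneg_right (le_max_left _ _) (by positivity)
    · have hQ' : Real.log Q.mulHeight ≤ finrank ℚ K * T := by
        rw [← hnd]
        exact hQ
      have hN0 : 0 < N := by omega
      obtain ⟨l, z', g, hl, hg, hgcd, hz', hy, hyq, hQP⟩ := repr hREP L hN0 hA Q hT hQ'
      have hzS : z' ∉ S := by
        intro h
        apply hQZ
        rw [Finset.mem_image]
        exact ⟨z', hSf.mem_toFinset.2 h, hQP.symm⟩
      rw [hS, Set.mem_ofPred_eq] at hzS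
      have hzS' : ¬ (eval z' G = 0 ∨ ∑ p ∈ (eval z' G).natAbs.primeFactors, Real.log p <
          θ' * Real.log (B T)) := fun h => hzS ⟨fun i => hint T (z' i) (hz' i), hgcd, h⟩
      push Not at hzS'
      obtain ⟨h3, h4⟩ := hzS'
      have h5 : Algebra.norm ℤ (eval (L fun i => g * z' i) F) = g ^ (n * κ) * eval z' G := by
        rw [← hG2, hom_eval hG]
      have h6 : Algebra.norm ℤ (eval (L fun i => g * z' i) F) ≠ 0 := by
        rw [h5]
        exact mul_ne_zero (pow_ne_zero _ hg) h3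
      have h7 : eval (L fun i => g * z' i) F ≠ 0 := by
        intro h
        rw [h] at h6
        exact h6 (Algebra.norm_zero)
      have hy0 : (L fun i => g * z' i) ≠ 0 := by
        intro h
        apply Q.rep_nonzero
        funext j
        have h8 := hy j
        rw [h] at h8
        have h9 : l * Q.rep j = 0 := by
          rw [← h8]
          rfl
        exact (mul_eq_zero.1 h9).resolve_left hl
      have h8 : aeval Q.rep F ≠ 0 := by
        intro h
        have h9 := aeval_y hF hy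
        rw [h, mul_zero] at h9
        exact h7 (RingOfIntegers.coe_eq_zero_iff.1 h9)
      refine ⟨h8, ?_⟩
      rw [← hq] at hyq
      have h9 := cnt_ge hF hl hy h7 hy0 hyq
      have h10 : ∑ p ∈ (eval z' G).natAbs.primeFactors, Real.log p ≤
          ∑ p ∈ (Algebra.norm ℤ (eval (L fun i => g * z' i) F)).natAbs.primeFactors,
            Real.log p := by
        refine Finset.sum_le_sum_of_subset_of_nonneg ?_ fun p _ _ => Real.log_natCast_nonneg p
        refine Nat.primeFactors_mono ?_ (Int.natAbs_ne_zero.2 h6)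
        rw [h5, Int.natAbs_dvd_natAbs]
        exact dvd_mul_left _ _
      rw [← hnd] at h9
      -- the heights
      have h11 : Height.logHeight Q.rep = Real.log Q.mulHeight := by
        rw [Height.logHeight_eq_log_mulHeight, mulHeight_rep]
      have h12 : 0 ≤ Height.logHeight Q.rep := by
        rw [h11]
        exact Real.log_nonneg Q.one_le_mulHeight
      have h13 : θ * hgt Q.rep = θ * Height.logHeight Q.rep / n := by
        rw [hgt, ← hnd]
        ring
      have h14 : θ * Height.logHeight Q.rep ≤ τ * (n * T) := by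
        calc θ * Height.logHeight Q.rep ≤ τ * Height.logHeight Q.rep :=
              mul_le_mul_of_nonneg_right hτθ h12
          _ ≤ τ * (n * T) := mul_le_mul_of_nonneg_left (by rw [h11]; exact hQ) hτ0
      have h15 : T ≤ Real.log (B T) := by
        rw [Real.le_log_iff_exp_le (lt_of_lt_of_le (Real.exp_pos T) (hBexp T))]
        exact hBexp T
      have h16 : Real.log q ≤ T * (θ' - n * τ) := by
        rw [← div_le_iff₀ (by linarith)]
        exact hT₀1.trans hTT
      rw [h13, div_le_iff₀ hn0, mul_comm _ (n : ℝ)]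
      nlinarith [mul_le_mul_of_nonneg_left h15 hθ'0]
  · -- small `T`
    push Not at hTT
    refine ⟨(box N (B T₀)).image (Psi L), ?_, fun Q hQ hQZ => ?_⟩
    · have h3 : (((box N (B T₀)).image (Psi L)).card : ℝ) ≤ (box N (B T₀)).card := by
        exact_mod_cast Finset.card_image_le
      refine h3.trans ((le_max_right (C₁ * (D + 1) ^ ((N : ℝ) - c₂)) _).trans ?_)
      refine le_mul_of_one_le_right ?_ hexp
      exact (Nat.cast_nonneg _).trans (le_max_right _ _)
    · exfalso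
      have hQ' : Real.log Q.mulHeight ≤ finrank ℚ K * T₀ := by
        rw [← hnd]
        exact hQ.trans (mul_le_mul_of_nonneg_left hTT.le hn0.le)
      have hN0 : 0 < N := by omega
      obtain ⟨l, z', g, hl, hg, hgcd, hz', hy, hyq, hQP⟩ := repr hREP L hN0 hA Q hT₀0 hQ'
      apply hQZ
      rw [Finset.mem_image]
      exact ⟨z', mem_box.2 (fun i => hint T₀ (z' i) (hz' i)), hQP.symm⟩

end Pool.Agent.N752.HY.Nrm
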