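import Mathlib
import Pool.Agent.N752.HY.Stm
import Pool.Agent.N752.SU.Rep

/-!
Balanced integral representatives of projective points over a number field.
-/

set_option autoImplicit false

namespace Pool.Agent.N752.HY.Rep2

section Minkowski

open NumberField NumberField.InfinitePlace NumberField.mixedEmbedding Module MeasureTheory
open scoped nonZeroDivisors NNReal ENNReal

variable (K : Type) [Field K] [NumberField K]

/-- Minkowski: if `N(I) * sqrt |disc K|` is less than the product of the `c w ^ mult w` then the ideal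
`I` contains a nonzero element `x` with `w x < c w` for all infinite places `w`. -/
theorem exists_small (I : Ideal (𝓞 K)) (hI : I ≠ ⊥) (c : InfinitePlace K → ℝ≥0)
    (hc : (Ideal.absNorm I : ℝ) * √|(discr K : ℝ)| < ∏ w, (c w : ℝ) ^ mult w) :
    ∃ x ∈ I, x ≠ 0 ∧ ∀ w : InfinitePlace K, w (x : K) < c w := by
  classical
  have hI' : (I : FractionalIdeal (𝓞 K)⁰ K) ≠ 0 := FractionalIdeal.coeIdeal_ne_zero.mpr hI
  let J : (FractionalIdeal (𝓞 K)⁰ K)ˣ := Units.mk0 (I : FractionalIdeal (𝓞 K)⁰ K) hI'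
  have hN : finrank ℚ K = nrRealPlaces K + 2 * nrComplexPlaces K :=
    (card_add_two_mul_card_eq_rank K).symm
  obtain ⟨P, hP⟩ : ∃ P : ℝ≥0, ∏ w : InfinitePlace K, (c w) ^ (mult w) = P := ⟨_, rfl⟩
  have hc' : (Ideal.absNorm I : ℝ) * √|(discr K : ℝ)| < P := by
    rw [← hP]
    push_cast
    exact hc
  have h : minkowskiBound K J < volume (convexBodyLT K c) := by
    rw [minkowskiBound, volume_fundamentalDomain_fractionalIdealLatticeBasis,
      volume_fundamentalDomain_latticeBasis, convexBodyLT_volume, mixedEmbedding.finrank, hP]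
    have h1 : (FractionalIdeal.absNorm J.1 : ℚ) = (Ideal.absNorm I : ℚ) := by
      rw [Units.val_mk0, FractionalIdeal.coeIdeal_absNorm]
    rw [h1]
    have h2 : ENNReal.ofReal ((Ideal.absNorm I : ℚ) : ℝ) = ((Ideal.absNorm I : ℝ≥0) : ℝ≥0∞) := by
      rw [Rat.cast_natCast, ENNReal.ofReal_natCast]; simp
    rw [h2]
    have h3 : ((2 : ℝ≥0∞)⁻¹ ^ nrComplexPlaces K) =
        (((2 : ℝ≥0)⁻¹ ^ nrComplexPlaces K : ℝ≥0) : ℝ≥0∞) := by
      rw [ENNReal.coe_pow, ENNReal.coe_inv two_ne_zero]; rfl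
    rw [h3, show (2 : ℝ≥0∞) = ((2 : ℝ≥0) : ℝ≥0∞) from rfl, ← ENNReal.coe_pow, ← ENNReal.coe_mul,
      ← ENNReal.coe_mul, ← ENNReal.coe_mul, ← ENNReal.coe_mul, ENNReal.coe_lt_coe,
      ← NNReal.coe_lt_coe]
    push_cast
    rw [Int.norm_eq_abs, NNReal.coe_real_pi]
    have h5 : (2 : ℝ)⁻¹ ^ nrComplexPlaces K * 2 ^ finrank ℚ K =
        2 ^ nrRealPlaces K * 2 ^ nrComplexPlaces K := by
      rw [hN, pow_add, pow_mul', sq, ← mul_assoc, mul_comm ((2 : ℝ)⁻¹ ^ nrComplexPlaces K),
        inv_pow]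
      field_simp
    calc (Ideal.absNorm I : ℝ) * ((2 : ℝ)⁻¹ ^ nrComplexPlaces K * √|(discr K : ℝ)|) *
          2 ^ finrank ℚ K
        = ((Ideal.absNorm I : ℝ) * √|(discr K : ℝ)|) *
          ((2 : ℝ)⁻¹ ^ nrComplexPlaces K * 2 ^ finrank ℚ K) := by ring
      _ = ((Ideal.absNorm I : ℝ) * √|(discr K : ℝ)|) *
          (2 ^ nrRealPlaces K * 2 ^ nrComplexPlaces K) := by rw [h5]
      _ < (P : ℝ) * (2 ^ nrRealPlaces K * 2 ^ nrComplexPlaces K) := by
          apply mul_lt_mul_of_pos_right hc'; positivity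
      _ ≤ (P : ℝ) * (2 ^ nrRealPlaces K * Real.pi ^ nrComplexPlaces K) := by
          gcongr
          exact Real.two_le_pi
      _ = 2 ^ nrRealPlaces K * Real.pi ^ nrComplexPlaces K * (P : ℝ) := by ring
  obtain ⟨a, ha, ha0, hw⟩ := exists_ne_zero_mem_ideal_lt K J h
  rw [Units.val_mk0, FractionalIdeal.mem_coeIdeal] at ha
  obtain ⟨x, hx, rfl⟩ := ha
  refine ⟨x, hx, ?_, fun w => hw w⟩
  rintro rfl
  exact ha0 (map_zero _)

end Minkowski

open Finset Filter Topology
open NumberField IsDedekindDomain Height Module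
open scoped NNReal
open Pool.Agent.R405 (mulHeight_int)

/-- a representative with integral coordinates, bounded content and balanced conjugates -/
theorem t_REP : S_REP := by
  intro K _ _ n x hx
  classical
  set q : ℝ := √|(discr K : ℝ)| with hq
  have hq0 : 0 ≤ q := Real.sqrt_nonneg _
  obtain ⟨j0, hj0⟩ := Function.ne_iff.1 hx
  have hj0' : x j0 ≠ 0 := hj0
  set d : ℕ := finrank ℚ K with hd
  have hd0 : 0 < d := finrank_pos
  obtain ⟨⟨m, hm⟩, hmx⟩ := IsLocalization.exist_integer_multiples_of_finite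
    (nonZeroDivisors (𝓞 K)) (fun j => x j / x j0)
  choose u hu using hmx
  have hm0 : m ≠ 0 := nonZeroDivisors.ne_zero hm
  have hmK : (m : K) ≠ 0 := RingOfIntegers.coe_ne_zero_iff.2 hm0
  have hu' : ∀ j, (u j : K) = (m : K) * (x j / x j0) := by
    intro j
    have := hu j
    rw [Algebra.smul_def] at this
    exact this
  have huj : u j0 = m := by
    apply RingOfIntegers.ext
    rw [hu', div_self hj0', mul_one]
  have hu0 : u ≠ 0 := by
    intro h
    apply hm0
    rw [← huj, h]
    rfl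
  set A : Ideal (𝓞 K) := Ideal.span (Set.range u) with hA
  have hmA : Ideal.span {m} ≤ A := by
    rw [Ideal.span_singleton_le_iff_mem, ← huj]
    exact Ideal.subset_span (Set.mem_range_self _)
  obtain ⟨J, hJ⟩ := Ideal.dvd_iff_le.2 hmA
  have hmb : Ideal.span {m} ≠ ⊥ := by rwa [Ne, Ideal.span_singleton_eq_bot]
  have hA0 : A ≠ ⊥ := by
    rintro h
    apply hmb
    rw [hJ, h, Ideal.bot_mul]
  have hJ0 : J ≠ ⊥ := by
    rintro h
    apply hmb
    rw [hJ, h, Ideal.mul_bot]
  have hNA : (0 : ℝ) < Ideal.absNorm A := by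
    have : Ideal.absNorm A ≠ 0 := by rwa [Ne, Ideal.absNorm_eq_zero_iff]
    exact_mod_cast Nat.pos_of_ne_zero this
  have hNJ : (0 : ℝ) < Ideal.absNorm J := by
    have : Ideal.absNorm J ≠ 0 := by rwa [Ne, Ideal.absNorm_eq_zero_iff]
    exact_mod_cast Nat.pos_of_ne_zero this
  have hNJ1 : (1 : ℝ) ≤ Ideal.absNorm J := by
    have : Ideal.absNorm J ≠ 0 := by rwa [Ne, Ideal.absNorm_eq_zero_iff]
    exact_mod_cast Nat.one_le_iff_ne_zero.2 this
  have hNm : (Ideal.absNorm (Ideal.span {m}) : ℝ) = Ideal.absNorm A * Ideal.absNorm J := by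
    rw [hJ, map_mul]
    push_cast
    rfl
  -- heights
  set z : Fin n → K := fun j => x j / x j0 with hz
  have hzx : mulHeight z = mulHeight x := by
    have : z = (x j0)⁻¹ • x := by
      funext j
      rw [hz]
      simp only [Pi.smul_apply, smul_eq_mul]
      rw [div_eq_inv_mul]
    rw [this, mulHeight_smul_eq_mulHeight _ (inv_ne_zero hj0')]
  have hzu : (fun j => (u j : K)) = (m : K) • z := by
    funext j
    rw [hu' j]
    rfl
  have hsup : ∀ w : InfinitePlace K, 1 ≤ ⨆ i, w (z i) := by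
    intro w
    have h1 : w (z j0) = 1 := by
      rw [hz]
      simp only [div_self hj0', map_one]
    rw [← h1]
    exact le_ciSup (f := fun i => w (z i)) (Set.finite_range _).bddAbove j0
  have hprod : mulHeight x = (Ideal.absNorm J : ℝ) *
      ∏ w : InfinitePlace K, (⨆ i, w (z i)) ^ w.mult := by
    have h1 := mulHeight_int u hu0
    rw [hzu, mulHeight_smul_eq_mulHeight _ hmK, hzx] at h1
    have h2 : ∏ v : InfinitePlace K, (⨆ i, v (u i : K)) ^ v.mult =
        (∏ v : InfinitePlace K, v (m : K) ^ v.mult) *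
          ∏ w : InfinitePlace K, (⨆ i, w (z i)) ^ w.mult := by
      rw [← Finset.prod_mul_distrib]
      refine Finset.prod_congr rfl fun w _ => ?_
      rw [← mul_pow]
      congr 1
      rw [Real.mul_iSup_of_nonneg (apply_nonneg w _)]
      refine iSup_congr fun i => ?_
      rw [hu' i, map_mul]
    have h3 : ∏ v : InfinitePlace K, v (m : K) ^ v.mult = (Ideal.absNorm A : ℝ) *
        Ideal.absNorm J := by
      rw [InfinitePlace.prod_eq_abs_norm, ← hNm, Ideal.absNorm_span_singleton]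
      have : (Algebra.norm ℚ (m : K) : ℚ) = ((Algebra.norm ℤ m : ℤ) : ℚ) :=
        (Algebra.coe_norm_int m).symm
      rw [this, Nat.cast_natAbs]
      push_cast
      rfl
    rw [h2, h3] at h1
    have h4 : (Ideal.absNorm A : ℝ) * mulHeight x = (Ideal.absNorm A : ℝ) *
        ((Ideal.absNorm J : ℝ) * ∏ w : InfinitePlace K, (⨆ i, w (z i)) ^ w.mult) := by
      rw [mul_comm, h1]; ring
    exact mul_left_cancel₀ hNA.ne' h4
  have hs0 : ∀ w : InfinitePlace K, 0 < ⨆ i, w (z i) := fun w => zero_lt_one.trans_le (hsup w)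
  have hP0 : 0 < ∏ w : InfinitePlace K, (⨆ i, w (z i)) ^ w.mult :=
    Finset.prod_pos fun w _ => pow_pos (hs0 w) _
  have hx0 : 0 < mulHeight x := by
    rw [hprod]
    exact mul_pos hNJ hP0
  -- the small element
  set A' : ℝ := (mulHeight x * (q + 1)) ^ (1 / (d : ℝ)) with hA'
  have hbase : 0 < mulHeight x * (q + 1) := mul_pos hx0 (by linarith)
  have hA0' : 0 < A' := Real.rpow_pos_of_pos hbase _
  have hAd : A' ^ d = mulHeight x * (q + 1) := by
    rw [hA', ← Real.rpow_natCast, ← Real.rpow_mul hbase.le, one_div,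
      inv_mul_cancel₀ (by exact_mod_cast hd0.ne'), Real.rpow_one]
  have hcpos : ∀ w : InfinitePlace K, 0 < A' / ⨆ i, w (z i) := fun w => div_pos hA0' (hs0 w)
  have hcprod : ∏ w : InfinitePlace K, (A' / ⨆ i, w (z i)) ^ w.mult =
      (Ideal.absNorm J : ℝ) * (q + 1) := by
    have h1 : ∏ w : InfinitePlace K, (A' / ⨆ i, w (z i)) ^ w.mult =
        (∏ w : InfinitePlace K, A' ^ w.mult) / ∏ w : InfinitePlace K, (⨆ i, w (z i)) ^ w.mult := by
      rw [← Finset.prod_div_distrib]
      exact Finset.prod_congr rfl fun w _ => div_pow _ _ _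
    rw [h1, Finset.prod_pow_eq_pow_sum, InfinitePlace.sum_mult_eq, ← hd, hAd, hprod,
      div_eq_iff hP0.ne']
    ring
  obtain ⟨l, hlJ, hl0, hlw⟩ := exists_small K J hJ0 (fun w => ⟨A' / ⨆ i, w (z i), (hcpos w).le⟩) (by
    show (Ideal.absNorm J : ℝ) * √|(discr K : ℝ)| <
      ∏ w : InfinitePlace K, (A' / ⨆ i, w (z i)) ^ w.mult
    rw [← hq, hcprod]
    nlinarith)
  have hlw' : ∀ w : InfinitePlace K, w (l : K) < A' / ⨆ i, w (z i) := fun w => hlw w
  -- the coordinates
  have hy : ∀ j, ∃ y : 𝓞 K, l * u j = m * y := by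
    intro j
    have h1 : u j * l ∈ A * J := Ideal.mul_mem_mul (Ideal.subset_span (Set.mem_range_self j)) hlJ
    rw [← hJ, Ideal.mem_span_singleton] at h1
    obtain ⟨y, hy⟩ := h1
    exact ⟨y, by rw [mul_comm, hy]⟩
  choose y hy using hy
  have hyK : ∀ j, (y j : K) = (l : K) * (x j / x j0) := by
    intro j
    have h2 : (l : K) * (u j : K) = (m : K) * (y j : K) := by
      have h1 := congrArg (algebraMap (𝓞 K) K) (hy j)
      rw [map_mul, map_mul] at h1
      exact h1
    rw [hu' j] at h2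
    have h3 : (m : K) * ((l : K) * (x j / x j0)) = (m : K) * (y j : K) := by
      rw [← h2]; ring
    exact (mul_left_cancel₀ hmK h3).symm
  have hlK : (l : K) ≠ 0 := RingOfIntegers.coe_ne_zero_iff.2 hl0
  refine ⟨(l : K) / x j0, y, div_ne_zero hlK hj0', fun j => ?_, fun w j => ?_, ?_⟩
  · rw [hyK]
    ring
  · have h1 : w (z j) ≤ ⨆ i, w (z i) :=
      le_ciSup (f := fun i => w (z i)) (Set.finite_range _).bddAbove j
    have h2 : w (y j : K) ≤ A' := by
      rw [hyK, map_mul]
      calc w (l : K) * w (x j / x j0) ≤ (A' / ⨆ i, w (z i)) * ⨆ i, w (z i) :=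
            mul_le_mul (hlw' w).le h1 (apply_nonneg w _) (hcpos w).le
        _ = A' := div_mul_cancel₀ _ (hs0 w).ne'
    calc w (y j : K) ^ d ≤ A' ^ d := pow_le_pow_left₀ (apply_nonneg w _) h2 _
      _ = (q + 1) * mulHeight x := by rw [hAd, mul_comm]
  · -- the content
    have h1 : Ideal.span {m} * Ideal.span (Set.range y) = Ideal.span {l} * A := by
      rw [hA, Ideal.span_mul_span', Ideal.span_mul_span', Set.singleton_mul, Set.singleton_mul,
        ← Set.range_comp, ← Set.range_comp]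
      congr 1
      congr 1
      funext j
      exact (hy j).symm
    have h2 : (Ideal.absNorm A : ℝ) * Ideal.absNorm J * Ideal.absNorm (Ideal.span (Set.range y)) =
        Ideal.absNorm (Ideal.span {l}) * Ideal.absNorm A := by
      rw [← hNm]
      have := congrArg (fun I : Ideal (𝓞 K) => (Ideal.absNorm I : ℝ)) h1
      simp only [map_mul] at this
      push_cast at this
      exact this
    have h3 : (Ideal.absNorm (Ideal.span {l}) : ℝ) ≤
        ∏ w : InfinitePlace K, (A' / ⨆ i, w (z i)) ^ w.mult := by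
      rw [Ideal.absNorm_span_singleton, Nat.cast_natAbs]
      have e1 : ((|Algebra.norm ℤ l| : ℤ) : ℝ) = |(Algebra.norm ℚ (l : K) : ℚ)| := by
        have : (Algebra.norm ℚ (l : K) : ℚ) = ((Algebra.norm ℤ l : ℤ) : ℚ) :=
          (Algebra.coe_norm_int l).symm
        rw [this]
        push_cast
        rfl
      rw [e1, ← InfinitePlace.prod_eq_abs_norm]
      exact Finset.prod_le_prod (fun w _ => pow_nonneg (apply_nonneg w _) _)
        fun w _ => pow_le_pow_left₀ (apply_nonneg w _) (hlw' w).le _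
    rw [hcprod] at h3
    have h4 : (Ideal.absNorm J : ℝ) * Ideal.absNorm (Ideal.span (Set.range y)) =
        Ideal.absNorm (Ideal.span {l}) := by
      apply mul_left_cancel₀ hNA.ne'
      rw [← mul_assoc, h2, mul_comm]
    rw [← h4] at h3
    exact le_of_mul_le_mul_left h3 hNJ

end Pool.Agent.N752.HY.Rep2
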