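import Mathlib
import Pool.Agent.N752.HY.Stm3

/-!
Restriction of scalars of norm forms (helper530, project HZ).
-/

set_option autoImplicit false

namespace Pool.Agent.N752.HY.Res

open NumberField MvPolynomial Module Pool.Agent.N752.HY
open scoped Pointwise

section Coord

variable (K : Type) [Field K] [NumberField K]

abbrev J := Free.ChooseBasisIndex ℤ (𝓞 K)

noncomputable abbrev ω : Basis (J K) ℤ (𝓞 K) := RingOfIntegers.basis K

theorem card_J : Fintype.card (J K) = finrank ℚ K := by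
  rw [← RingOfIntegers.rank K]
  exact (finrank_eq_card_chooseBasisIndex ℤ (𝓞 K)).symm

theorem coord_bound : ∃ A : ℝ, 0 < A ∧ ∀ (y : 𝓞 K) (T : ℝ),
    (∀ w : InfinitePlace K, w (y : K) ≤ T) → ∀ j, |((ω K).repr y j : ℝ)| ≤ A * T := by
  classical
  obtain ⟨d, hd⟩ : ∃ d : J K → K, ∀ (x : K) j,
      (integralBasis K).repr x j = Algebra.trace ℚ K (x * d j) := by
    let B := Algebra.traceForm ℚ K
    have hB : B.Nondegenerate := traceForm_nondegenerate ℚ K
    have hs : B.IsSymm := Algebra.traceForm_isSymm ℚ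
    refine ⟨B.dualBasis hB (integralBasis K), fun x j => ?_⟩
    have h1 : B.dualBasis hB (B.dualBasis hB (integralBasis K)) = integralBasis K :=
      LinearMap.BilinForm.dualBasis_dualBasis hB hs (integralBasis K)
    conv_lhs => rw [← h1]
    rw [LinearMap.BilinForm.dualBasis_repr_apply]
    rfl
  refine ⟨1 + ∑ j, ∑ σ : K →ₐ[ℚ] ℂ, ‖σ (d j)‖, by positivity, ?_⟩
  intro y T hT j
  obtain ⟨w₀⟩ : Nonempty (InfinitePlace K) := inferInstance
  have hT0 : 0 ≤ T := (apply_nonneg w₀ _).trans (hT w₀)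
  have h2 : (((ω K).repr y j : ℝ) : ℂ) = ∑ σ : K →ₐ[ℚ] ℂ, σ y * σ (d j) := by
    have h3 := hd y j
    rw [show (y : K) = algebraMap (𝓞 K) K y from rfl, integralBasis_repr_apply] at h3
    have h4 := trace_eq_sum_embeddings ℂ (K := ℚ) (L := K) (x := (y : K) * d j)
    rw [show (y : K) = algebraMap (𝓞 K) K y from rfl, ← h3] at h4
    simp only [map_mul] at h4
    rw [← h4]
    simp
  have h5 : |((ω K).repr y j : ℝ)| = ‖(((ω K).repr y j : ℝ) : ℂ)‖ := by
    rw [Complex.norm_real, Real.norm_eq_abs]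
  rw [h5, h2]
  calc ‖∑ σ : K →ₐ[ℚ] ℂ, σ y * σ (d j)‖ ≤ ∑ σ : K →ₐ[ℚ] ℂ, ‖σ y * σ (d j)‖ := norm_sum_le _ _
    _ ≤ ∑ σ : K →ₐ[ℚ] ℂ, T * ‖σ (d j)‖ := by
        refine Finset.sum_le_sum fun σ _ => ?_
        rw [norm_mul]
        refine mul_le_mul_of_nonneg_right ?_ (norm_nonneg _)
        have := hT (InfinitePlace.mk (σ : K →+* ℂ))
        rwa [InfinitePlace.apply] at this
    _ = (∑ σ : K →ₐ[ℚ] ℂ, ‖σ (d j)‖) * T := by rw [← Finset.mul_sum, mul_comm]
    _ ≤ (1 + ∑ j, ∑ σ : K →ₐ[ℚ] ℂ, ‖σ (d j)‖) * T := by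
        refine mul_le_mul_of_nonneg_right ?_ hT0
        have h6 : ∑ σ : K →ₐ[ℚ] ℂ, ‖σ (d j)‖ ≤ ∑ j, ∑ σ : K →ₐ[ℚ] ℂ, ‖σ (d j)‖ :=
          Finset.single_le_sum (f := fun j => ∑ σ : K →ₐ[ℚ] ℂ, ‖σ (d j)‖)
            (fun j _ => by positivity) (Finset.mem_univ j)
        linarith

/-- the norm of the values of a polynomial is a polynomial -/
theorem exists_poly {N : ℕ} (F' : MvPolynomial (Fin N) (𝓞 K)) (κ : ℕ) (hF : F'.IsHomogeneous κ) :
    ∃ G : MvPolynomial (Fin N) ℤ, G.IsHomogeneous (finrank ℚ K * κ) ∧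
      ∀ z : Fin N → ℤ, eval z G = Algebra.norm ℤ (eval (fun i => (z i : 𝓞 K)) F') := by
  classical
  obtain ⟨P, hP⟩ : ∃ P : J K → MvPolynomial (Fin N) ℤ,
      ∀ j, P j = ∑ s ∈ F'.support, monomial s ((ω K).repr (coeff s F') j) := ⟨_, fun _ => rfl⟩
  obtain ⟨M, hM⟩ : ∃ M : Matrix (J K) (J K) (MvPolynomial (Fin N) ℤ),
      M = ∑ j, P j • (Algebra.leftMulMatrix (ω K) (ω K j)).map (C : ℤ →+* _) := ⟨_, rfl⟩
  have hPh : ∀ j, (P j).IsHomogeneous κ := by
    intro j
    rw [hP]
    refine IsHomogeneous.sum _ _ _ fun s hs => ?_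
    refine isHomogeneous_monomial _ ?_
    rw [Finsupp.degree_eq_weight_one]
    exact hF (mem_support_iff.1 hs)
  refine ⟨M.det, ?_, ?_⟩
  · rw [Matrix.det_apply]
    refine IsHomogeneous.sum _ _ _ fun σ _ => ?_
    have h1 : (∏ i, M (σ i) i).IsHomogeneous (∑ i : J K, κ) := by
      refine IsHomogeneous.prod _ _ _ fun i _ => ?_
      rw [hM, Matrix.sum_apply]
      refine IsHomogeneous.sum _ _ _ fun j _ => ?_
      rw [Matrix.smul_apply, Matrix.map_apply, smul_eq_mul]
      have := (hPh j).mul (isHomogeneous_C (Fin N) (Algebra.leftMulMatrix (ω K) (ω K j) (σ i) i))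
      rwa [add_zero] at this
    rw [Finset.sum_const, Finset.card_univ, card_J, smul_eq_mul] at h1
    rcases Int.units_eq_one_or (Equiv.Perm.sign σ) with h | h <;> rw [h]
    · simpa using h1
    · simpa using h1.neg
  · intro z
    have h1 : eval z M.det = (∑ j, eval z (P j) • Algebra.leftMulMatrix (ω K) (ω K j)).det := by
      rw [RingHom.map_det, hM]
      congr 1
      ext i k
      rw [RingHom.mapMatrix_apply, Matrix.map_apply, Matrix.sum_apply, Matrix.sum_apply, map_sum]
      refine Finset.sum_congr rfl fun j _ => ?_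
      rw [Matrix.smul_apply, Matrix.smul_apply, Matrix.map_apply, smul_eq_mul, smul_eq_mul,
        map_mul, eval_C]
    have h2 : ∑ j, eval z (P j) • Algebra.leftMulMatrix (ω K) (ω K j) =
        Algebra.leftMulMatrix (ω K) (∑ j, eval z (P j) • ω K j) := by
      rw [map_sum]
      refine Finset.sum_congr rfl fun j _ => ?_
      rw [map_smul]
    have h3 : ∑ j, eval z (P j) • ω K j = eval (fun i => (z i : 𝓞 K)) F' := by
      have h4 : ∀ j, eval z (P j) • ω K j = ∑ s ∈ F'.support,
          ((∏ i, (z i : 𝓞 K) ^ s i) * ((ω K).repr (coeff s F') j • ω K j)) := by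
        intro j
        rw [hP, map_sum, Finset.sum_smul]
        refine Finset.sum_congr rfl fun s _ => ?_
        rw [eval_monomial, Finsupp.prod_fintype _ _ (fun i => pow_zero _), zsmul_eq_mul, zsmul_eq_mul]
        push_cast
        ring
      rw [Finset.sum_congr rfl fun j _ => h4 j, Finset.sum_comm, eval_eq']
      refine Finset.sum_congr rfl fun s _ => ?_
      rw [← Finset.mul_sum, (ω K).sum_repr, mul_comm]
    rw [h1, h2, h3, Algebra.norm_eq_matrix_det (ω K)]

end Coord

section Main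

variable (K : Type) [Field K] [NumberField K] (m : ℕ)

theorem exists_equiv : Nonempty (Fin (m + 1) × J K ≃ Fin (finrank ℚ K * (m + 1))) := by
  refine ⟨Fintype.equivFinOfCardEq ?_⟩
  rw [Fintype.card_prod, Fintype.card_fin, card_J, mul_comm]

variable {K m}

/-- the additive bijection -/
noncomputable def LL {N : ℕ} (e : Fin (m + 1) × J K ≃ Fin N) :
    (Fin N → ℤ) ≃+ (Fin (m + 1) → 𝓞 K) where
  toFun z i := ∑ j, z (e (i, j)) • ω K j
  invFun y n := (ω K).repr (y (e.symm n).1) (e.symm n).2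
  left_inv z := by
    funext n
    simp only [Basis.repr_sum_self]
    simp
  right_inv y := by
    funext i
    simp only [Equiv.symm_apply_apply]
    exact (ω K).sum_repr (y i)
  map_add' z z' := by
    funext i
    simp only [Pi.add_apply, add_smul, Finset.sum_add_distrib]

theorem LL_apply {N : ℕ} (e : Fin (m + 1) × J K ≃ Fin N) (z : Fin N → ℤ) (i : Fin (m + 1)) :
    LL e z i = ∑ j, z (e (i, j)) • ω K j := rfl

theorem coord_LL {N : ℕ} (e : Fin (m + 1) × J K ≃ Fin N) (z : Fin N → ℤ) (n : Fin N) :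
    z n = (ω K).repr (LL e z (e.symm n).1) (e.symm n).2 :=
  (congrFun ((LL e).left_inv z) n).symm

theorem eval_sub {N : ℕ} (e : Fin (m + 1) × J K ≃ Fin N) (F : MvPolynomial (Fin (m + 1)) (𝓞 K))
    (z : Fin N → ℤ) :
    eval (fun i => (z i : 𝓞 K)) (aeval (fun i => ∑ j, (C (ω K j) * X (e (i, j)) :
      MvPolynomial (Fin N) (𝓞 K))) F) = eval (LL e z) F := by
  have h1 : (eval (fun i => (z i : 𝓞 K))).comp
      ((aeval (fun i => ∑ j, (C (ω K j) * X (e (i, j)) : MvPolynomial (Fin N) (𝓞 K))) :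
        MvPolynomial (Fin (m + 1)) (𝓞 K) →ₐ[𝓞 K] MvPolynomial (Fin N) (𝓞 K)) :
          MvPolynomial (Fin (m + 1)) (𝓞 K) →+* MvPolynomial (Fin N) (𝓞 K)) = eval (LL e z) := by
    apply MvPolynomial.ringHom_ext
    · intro r
      simp
    · intro i
      simp only [RingHom.comp_apply, RingHom.coe_coe, aeval_X, map_sum, map_mul, eval_C, eval_X]
      rw [LL_apply]
      refine Finset.sum_congr rfl fun j _ => ?_
      rw [zsmul_eq_mul, mul_comm]
  exact RingHom.congr_fun h1 F

variable {E : Type} [Field E] [NumberField E] [Algebra K E]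

theorem sum_alpha {N : ℕ} (e : Fin (m + 1) × J K ≃ Fin N) (α : Fin (m + 1) → E) (z : Fin N → ℤ) :
    ∑ n, (z n : E) * (algebraMap K E (ω K (e.symm n).2 : K) * α (e.symm n).1) =
      ∑ i, ((LL e z i : 𝓞 K) : K) • α i := by
  rw [← e.sum_comp, Fintype.sum_prod_type]
  refine Finset.sum_congr rfl fun i _ => ?_
  rw [LL_apply, Algebra.smul_def]
  change _ = algebraMap K E (algebraMap (𝓞 K) K (∑ j, z (e (i, j)) • ω K j)) * α i
  rw [map_sum, map_sum, Finset.sum_mul]
  refine Finset.sum_congr rfl fun j _ => ?_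
  simp only [Equiv.symm_apply_apply]
  rw [zsmul_eq_mul]
  simp only [map_mul, map_intCast]
  rw [mul_assoc]

theorem eval_hom {N n : ℕ} {φ : MvPolynomial (Fin N) ℚ} (hφ : φ.IsHomogeneous n) (t : ℚ)
    (z : Fin N → ℚ) : eval (fun i => t * z i) φ = t ^ n * eval z φ := by
  rw [eval_eq', eval_eq', Finset.mul_sum]
  refine Finset.sum_congr rfl fun s hs => ?_
  have h1 : Finsupp.degree s = n := by
    rw [Finsupp.degree_eq_weight_one]
    exact hφ (mem_support_iff.1 hs)
  rw [Finsupp.degree_eq_sum] at h1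
  simp only [mul_pow]
  rw [Finset.prod_mul_distrib, Finset.prod_pow_eq_pow_sum, h1]
  ring

theorem eval_cast {N : ℕ} (G : MvPolynomial (Fin N) ℤ) (z : Fin N → ℤ) :
    eval (fun i => (z i : ℚ)) (map (Int.castRingHom ℚ) G) = ((eval z G : ℤ) : ℚ) := by
  rw [eval_map, show ((eval z G : ℤ) : ℚ) = Int.castRingHom ℚ (eval₂ (RingHom.id ℤ) z G) from rfl,
    eval₂_comp_left]
  rfl

theorem int_mult {N : ℕ} (z : Fin N → ℚ) : ∃ (t : ℤ) (z' : Fin N → ℤ), t ≠ 0 ∧
    ∀ i, z i = (t : ℚ)⁻¹ * z' i := by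
  obtain ⟨b, hb⟩ := IsLocalization.exist_integer_multiples_of_finite (nonZeroDivisors ℤ) z
  choose z' hz' using hb
  have hb0 : (b : ℤ) ≠ 0 := nonZeroDivisors.ne_zero b.2
  refine ⟨b, z', hb0, fun i => ?_⟩
  have h1 : ((z' i : ℤ) : ℚ) = (b : ℤ) * z i := by
    have := hz' i
    rw [zsmul_eq_mul] at this
    exact_mod_cast this
  rw [h1, inv_mul_cancel_left₀ (by exact_mod_cast hb0)]

theorem t_RES : S_NI → S_RES := by
  intro hNI K _ _ E _ _ _ m κ F α c i₀ hF hκ hc hα hadj hid
  classical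
  obtain ⟨e⟩ := exists_equiv K m
  obtain ⟨N, hN⟩ : ∃ N, N = finrank ℚ K * (m + 1) := ⟨_, rfl⟩
  rw [← hN] at e
  obtain ⟨A, hA, hAb⟩ := coord_bound K
  have hF' : (aeval (fun i => ∑ j, (C (ω K j) * X (e (i, j)) : MvPolynomial (Fin N) (𝓞 K)))
      F).IsHomogeneous κ := by
    have := hF.aeval (fun i => ∑ j, (C (ω K j) * X (e (i, j)) : MvPolynomial (Fin N) (𝓞 K)))
      (n := 1) (fun i => IsHomogeneous.sum _ _ _ fun j _ => by
        have := (isHomogeneous_C (Fin N) (ω K j)).mul (isHomogeneous_X (𝓞 K) (e (i, j)))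
        rwa [zero_add] at this)
    rwa [one_mul] at this
  obtain ⟨G, hG1, hG2⟩ := exists_poly K _ κ hF'
  have hG3 : ∀ z : Fin N → ℤ, eval z G = Algebra.norm ℤ (eval (LL e z) F) := by
    intro z
    rw [hG2, eval_sub]
  obtain ⟨α', hα'⟩ : ∃ α' : Fin N → E,
      ∀ n, α' n = algebraMap K E (ω K (e.symm n).2 : K) * α (e.symm n).1 := ⟨_, fun _ => rfl⟩
  have hnorm : ∀ z : Fin N → ℤ, (eval z G : ℚ) =
      Algebra.norm ℚ c * Algebra.norm ℚ (∑ i, (z i : E) * α' i) := by
    intro z
    have h1 : ((eval (LL e z) F : 𝓞 K) : K) = aeval (fun i => ((LL e z i : 𝓞 K) : K)) F := by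
      have h2 := MvPolynomial.aeval_algebraMap_apply K (LL e z) F
      exact h2.symm
    rw [hG3, Algebra.coe_norm_int, h1, hid, map_mul, Algebra.norm_norm]
    simp only [hα']
    rw [sum_alpha]
  have hJ : Nonempty (J K) := by
    rw [← Fintype.card_pos_iff, card_J]
    exact finrank_pos
  obtain ⟨j₀⟩ := hJ
  have hω : ∀ j, ((ω K j : 𝓞 K) : K) ≠ 0 := by
    intro j h
    exact (ω K).ne_zero j (RingOfIntegers.coe_eq_zero_iff.1 h)
  have hn0 : α' (e (i₀, j₀)) = algebraMap K E (ω K j₀ : K) := by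
    rw [hα', Equiv.symm_apply_apply, hα, mul_one]
  have h0 : α' (e (i₀, j₀)) ≠ 0 := by
    rw [hn0]
    exact (map_ne_zero _).2 (hω j₀)
  have hfr : finrank ℚ E = finrank ℚ K * κ := by
    rw [← hκ, finrank_mul_finrank]
  have hirr : Irreducible (map (Int.castRingHom ℚ) G) := by
    refine hNI E inferInstance inferInstance N (fun n => α' n / α' (e (i₀, j₀))) (e (i₀, j₀)) (div_self h0) ?_
      (Algebra.norm ℚ c * Algebra.norm ℚ (α' (e (i₀, j₀)))) ?_ _ ?_
    · obtain ⟨M, hM⟩ : ∃ M, M = IntermediateField.adjoin ℚ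
        (Set.range fun n => α' n / α' (e (i₀, j₀))) := ⟨_, rfl⟩
      rw [← hM]
      have hβ : ∀ i j, algebraMap K E (ω K j : K) * α i / algebraMap K E (ω K j₀ : K) ∈ M := by
        intro i j
        rw [hM]
        apply IntermediateField.subset_adjoin
        refine ⟨e (i, j), ?_⟩
        simp only [hn0]
        rw [hα', Equiv.symm_apply_apply]
      have hq : ∀ j, algebraMap K E (ω K j : K) / algebraMap K E (ω K j₀ : K) ∈ M := by
        intro j
        have := hβ i₀ j
        rwa [hα, mul_one] at this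
      have hinv : (algebraMap K E (ω K j₀ : K))⁻¹ ∈ M := by
        have h1 : (1 : 𝓞 K) = ∑ j, (ω K).repr 1 j • ω K j := ((ω K).sum_repr 1).symm
        have h2 : (1 : E) = ∑ j, (((ω K).repr 1 j : ℤ) : E) * algebraMap K E (ω K j : K) := by
          have h3 := congrArg (fun x : 𝓞 K => algebraMap K E (algebraMap (𝓞 K) K x)) h1
          simp only [map_one, map_sum, zsmul_eq_mul, map_mul, map_intCast] at h3
          exact h3
        have h4 : (algebraMap K E (ω K j₀ : K))⁻¹ = ∑ j, (((ω K).repr 1 j : ℤ) : E) *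
            (algebraMap K E (ω K j : K) / algebraMap K E (ω K j₀ : K)) := by
          rw [← one_div, h2, Finset.sum_div]
          refine Finset.sum_congr rfl fun j _ => ?_
          rw [mul_div_assoc]
        rw [h4]
        exact sum_mem fun j _ => mul_mem (intCast_mem M _) (hq j)
      have hj0 : algebraMap K E (ω K j₀ : K) ∈ M := by
        have := inv_mem hinv
        rwa [inv_inv] at this
      have hj : ∀ j, algebraMap K E (ω K j : K) ∈ M := by
        intro j
        have := mul_mem (hq j) hj0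
        rwa [div_mul_cancel₀ _ ((map_ne_zero _).2 (hω j₀))] at this
      have hKM : ∀ x : K, algebraMap K E x ∈ M := by
        intro x
        rw [← (integralBasis K).sum_repr x, map_sum]
        refine sum_mem fun j _ => ?_
        rw [Algebra.smul_def, map_mul, integralBasis_apply]
        refine mul_mem ?_ (hj j)
        rw [← IsScalarTower.algebraMap_apply]
        exact M.algebraMap_mem _
      have hαM : ∀ i, α i ∈ M := by
        intro i
        have := hβ i j₀
        rwa [mul_div_assoc, mul_div_cancel₀ _ ((map_ne_zero _).2 (hω j₀))] at this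
      rw [eq_top_iff]
      intro x _
      have hx : x ∈ IntermediateField.adjoin K (Set.range α) := by rw [hadj]; trivial
      induction hx using IntermediateField.adjoin_induction with
      | mem x hx =>
        obtain ⟨i, rfl⟩ := hx
        exact hαM i
      | algebraMap x => exact hKM x
      | add x y _ _ hx hy => exact add_mem (hx trivial) (hy trivial)
      | inv x _ hx => exact inv_mem (hx trivial)
      | mul x y _ _ hx hy => exact mul_mem (hx trivial) (hy trivial)
    · refine mul_ne_zero ?_ ?_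
      · exact Algebra.norm_ne_zero_iff.2 hc
      · exact Algebra.norm_ne_zero_iff.2 h0
    · intro z
      obtain ⟨t, z', ht, hz'⟩ := int_mult z
      have hzz : z = fun i => (t : ℚ)⁻¹ * z' i := funext hz'
      have hG1' : (map (Int.castRingHom ℚ) G).IsHomogeneous (finrank ℚ K * κ) := hG1.map _
      have h1 : eval z (map (Int.castRingHom ℚ) G) = ((t : ℚ)⁻¹) ^ (finrank ℚ K * κ) *
          ((eval z' G : ℤ) : ℚ) := by
        rw [← eval_cast, ← eval_hom hG1', hzz]
      have h2 : ∑ i, z i • (α' i / α' (e (i₀, j₀))) = algebraMap ℚ E (t : ℚ)⁻¹ *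
          ((∑ i, (z' i : E) * α' i) / α' (e (i₀, j₀))) := by
        rw [Finset.sum_div, Finset.mul_sum]
        refine Finset.sum_congr rfl fun i _ => ?_
        rw [Algebra.smul_def, hz' i, map_mul, map_intCast]
        ring
      have h3 : Algebra.norm ℚ ((∑ i, (z' i : E) * α' i) / α' (e (i₀, j₀))) *
          Algebra.norm ℚ (α' (e (i₀, j₀))) = Algebra.norm ℚ (∑ i, (z' i : E) * α' i) := by
        rw [← map_mul, div_mul_cancel₀ _ h0]
      rw [h1, h2, map_mul, Algebra.norm_algebraMap, hfr, hnorm, ← h3]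
      ring
  refine ⟨N, G, LL e, α', Algebra.norm ℚ c, A, hN, hG1, hirr, ?_, hnorm, hG3, hA, ?_⟩
  · have hs : Submodule.span ℚ (Set.range fun j => ((ω K j : 𝓞 K) : K)) = ⊤ := by
      have := (integralBasis K).span_eq
      rw [← this]
      congr 2
      funext j
      exact (integralBasis_apply K j).symm
    have h1 := Submodule.span_smul_of_span_eq_top hs (Set.range α)
    have h2 : Set.range α' = (Set.range fun j => ((ω K j : 𝓞 K) : K)) • Set.range α := by
      ext x
      rw [Set.mem_smul]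
      constructor
      · rintro ⟨n, rfl⟩
        exact ⟨_, ⟨(e.symm n).2, rfl⟩, _, ⟨(e.symm n).1, rfl⟩, by rw [hα', Algebra.smul_def]⟩
      · rintro ⟨_, ⟨j, rfl⟩, _, ⟨i, rfl⟩, rfl⟩
        exact ⟨e (i, j), by rw [hα', Equiv.symm_apply_apply, Algebra.smul_def]⟩
    rw [h2, h1]
    exact (finrank_mul_finrank ℚ K (Submodule.span K (Set.range α))).symm
  · intro z T hT j
    rw [coord_LL e z j]
    exact hAb _ T (fun w => hT w _) _

end Main

end Pool.Agent.N752.HY.Res
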