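import Mathlib
import Pool.Agent.N752.HY.StmP
import Pool.Agent.N752.HY.Fld3
import Pool.Agent.N752.HY.Res
import Pool.Agent.N752.HY.Nrm
import Pool.Agent.N752.HY.Rep2
import Pool.Agent.N752.HY.Low2
import Pool.Agent.TH910.Voj.Prox

/-!
The proximity functions of all forms are small at almost all points over one field.
-/

set_option autoImplicit false

namespace Pool.Agent.N752.HY.Prx

open NumberField IsDedekindDomain MvPolynomial Module Height
open scoped LinearAlgebra.Projectivization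
open Pool.Agent.N752.HY
open Pool.Agent.N752.HY.Nrm (Psi repr aeval_y hom_eval mulHeight_rep)
open Pool.Agent.N752.HY.Res (J ω LL LL_apply coord_LL exists_poly exists_equiv coord_bound)
open Pool.Agent.TH910.Voj (Sparse)

variable {K : Type} [Field K] [NumberField K] {m : ℕ}

/-! ### Restriction of scalars -/

lemma LL_le {N : ℕ} (e : Fin (m + 1) × J K ≃ Fin N) : ∃ A : ℝ, 0 < A ∧
    ∀ (z : Fin N → ℤ) (R : ℝ), (∀ i, |(z i : ℝ)| ≤ R) →
      ∀ (w : InfinitePlace K) (i : Fin (m + 1)), w (LL e z i : K) ≤ A * R := by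
  classical
  have hnn : ∀ (w : InfinitePlace K) (x : K), 0 ≤ w x := fun w x => apply_nonneg w x
  refine ⟨1 + ∑ w : InfinitePlace K, ∑ j, w ((ω K j : 𝓞 K) : K), ?_, fun z R hz w i => ?_⟩
  · have : 0 ≤ ∑ w : InfinitePlace K, ∑ j, w ((ω K j : 𝓞 K) : K) :=
      Finset.sum_nonneg fun w _ => Finset.sum_nonneg fun j _ => hnn _ _
    linarith
  have h1 : ((LL e z i : 𝓞 K) : K) = ∑ j, (z (e (i, j)) : K) * ((ω K j : 𝓞 K) : K) := by
    rw [LL_apply]
    change algebraMap (𝓞 K) K (∑ j, z (e (i, j)) • ω K j) = _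
    rw [map_sum]
    refine Finset.sum_congr rfl fun l _ => ?_
    rw [zsmul_eq_mul, map_mul, map_intCast]
  have hR : 0 ≤ R := by
    have hJ : Nonempty (J K) := by
      rw [← Fintype.card_pos_iff, Res.card_J]
      exact finrank_pos
    obtain ⟨j⟩ := hJ
    exact (abs_nonneg _).trans (hz (e (i, j)))
  have h2 : w (LL e z i : K) ≤ ∑ j, R * w ((ω K j : 𝓞 K) : K) := by
    rw [h1]
    refine (Low2.abv_sum w _ _).trans (Finset.sum_le_sum fun l _ => ?_)
    rw [map_mul, Low2.abv_int]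
    exact mul_le_mul_of_nonneg_right (hz _) (hnn _ _)
  have h3 : ∑ l, w ((ω K l : 𝓞 K) : K) ≤
      ∑ w : InfinitePlace K, ∑ l, w ((ω K l : 𝓞 K) : K) :=
    Finset.single_le_sum (f := fun w : InfinitePlace K => ∑ l, w ((ω K l : 𝓞 K) : K))
      (fun w _ => Finset.sum_nonneg fun l _ => hnn _ _) (Finset.mem_univ w)
  rw [← Finset.mul_sum] at h2
  nlinarith

lemma exists_G (κ : ℕ) (F : MvPolynomial (Fin (m + 1)) (𝓞 K)) (hF : F.IsHomogeneous κ)
    (hF0 : F ≠ 0) : ∃ (N : ℕ) (G : MvPolynomial (Fin (N + 1)) ℤ)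
      (L : (Fin (N + 1) → ℤ) ≃+ (Fin (m + 1) → 𝓞 K)) (A A' : ℝ),
      ((N + 1 : ℕ) : ℝ) = finrank ℚ K * (m + 1) ∧ G.IsHomogeneous (finrank ℚ K * κ) ∧ G ≠ 0 ∧
      (∀ z, eval z G = Algebra.norm ℤ (eval (L z) F)) ∧ 0 < A ∧
      (∀ (z : Fin (N + 1) → ℤ) (T : ℝ),
        (∀ (w : InfinitePlace K) (i : Fin (m + 1)), w (L z i : K) ≤ T) →
          ∀ j, |(z j : ℝ)| ≤ A * T) ∧ 0 < A' ∧
      ∀ (z : Fin (N + 1) → ℤ) (R : ℝ), (∀ i, |(z i : ℝ)| ≤ R) →
        ∀ (w : InfinitePlace K) (i : Fin (m + 1)), w (L z i : K) ≤ A' * R := by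
  classical
  obtain ⟨e⟩ := exists_equiv K m
  have hn : 0 < finrank ℚ K := finrank_pos
  obtain ⟨N, hN⟩ : ∃ N, N + 1 = finrank ℚ K * (m + 1) := by
    refine ⟨finrank ℚ K * (m + 1) - 1, ?_⟩
    have : 0 < finrank ℚ K * (m + 1) := by positivity
    omega
  rw [← hN] at e
  obtain ⟨A, hA, hAb⟩ := coord_bound K
  obtain ⟨A', hA', hAb'⟩ := LL_le e
  have hF' : (aeval (fun i => ∑ j, (C (ω K j) * X (e (i, j)) : MvPolynomial (Fin (N + 1)) (𝓞 K)))
      F).IsHomogeneous κ := by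
    have := hF.aeval (fun i => ∑ j, (C (ω K j) * X (e (i, j)) : MvPolynomial (Fin (N + 1)) (𝓞 K)))
      (n := 1) (fun i => IsHomogeneous.sum _ _ _ fun j _ => by
        have := (isHomogeneous_C (Fin (N + 1)) (ω K j)).mul (isHomogeneous_X (𝓞 K) (e (i, j)))
        rwa [zero_add] at this)
    rwa [one_mul] at this
  obtain ⟨G, hG1, hG2⟩ := exists_poly K _ κ hF'
  have hG3 : ∀ z : Fin (N + 1) → ℤ, eval z G = Algebra.norm ℤ (eval (LL e z) F) := by
    intro z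
    rw [hG2, Res.eval_sub]
  refine ⟨N, G, LL e, A, A', by rw [hN]; push_cast; ring, hG1, ?_, hG3, hA, ?_, hA', hAb'⟩
  · rintro rfl
    apply hF0
    refine MvPolynomial.funext fun y => ?_
    have h1 := hG3 ((LL e).symm y)
    rw [AddEquiv.apply_symm_apply, map_zero] at h1
    rw [map_zero]
    exact Algebra.norm_eq_zero_iff.1 h1.symm
  · intro z T hz j
    rw [coord_LL e z j]
    exact hAb _ T (fun w => hz w _) _

/-! ### almost all points, relative to the size of the box -/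

/-- almost all points of height at most `T` -/
def AAT (P : ℝ → ℙ K (Fin (m + 1) → K) → Prop) : Prop :=
  ∃ c C : ℝ, 0 < c ∧ 0 ≤ C ∧ ∀ T : ℝ, 0 ≤ T → ∃ Z : Finset (ℙ K (Fin (m + 1) → K)),
    (Z.card : ℝ) ≤ C * Real.exp (((finrank ℚ K : ℝ) * (m + 1) - c) * T) ∧
    ∀ Q : ℙ K (Fin (m + 1) → K), Real.log Q.mulHeight ≤ finrank ℚ K * T → Q ∉ Z → P T Q

lemma AAT.and {P P' : ℝ → ℙ K (Fin (m + 1) → K) → Prop} (h : AAT P) (h' : AAT P') :
    AAT fun T Q => P T Q ∧ P' T Q := by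
  classical
  obtain ⟨c, C, hc, hC, h⟩ := h
  obtain ⟨c', C', hc', hC', h'⟩ := h'
  refine ⟨min c c', C + C', lt_min hc hc', by positivity, fun T hT => ?_⟩
  obtain ⟨Z, hZ, h⟩ := h T hT
  obtain ⟨Z', hZ', h'⟩ := h' T hT
  refine ⟨Z ∪ Z', ?_, fun Q hQ hQZ => ?_⟩
  · have h1 : ((Z ∪ Z').card : ℝ) ≤ Z.card + Z'.card := by exact_mod_cast Finset.card_union_le _ _
    have h2 : Real.exp (((finrank ℚ K : ℝ) * (m + 1) - c) * T) ≤
        Real.exp (((finrank ℚ K : ℝ) * (m + 1) - min c c') * T) := by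
      refine Real.exp_le_exp.2 (mul_le_mul_of_nonneg_right ?_ hT)
      have := min_le_left c c'
      linarith
    have h3 : Real.exp (((finrank ℚ K : ℝ) * (m + 1) - c') * T) ≤
        Real.exp (((finrank ℚ K : ℝ) * (m + 1) - min c c') * T) := by
      refine Real.exp_le_exp.2 (mul_le_mul_of_nonneg_right ?_ hT)
      have := min_le_right c c'
      linarith
    have h4 := mul_le_mul_of_nonneg_left h2 hC
    have h5 := mul_le_mul_of_nonneg_left h3 hC'
    rw [add_mul]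
    linarith
  · rw [Finset.mem_union, not_or] at hQZ
    exact ⟨h Q hQ hQZ.1, h' Q hQ hQZ.2⟩

lemma AAT.aa {P : ℝ → ℙ K (Fin (m + 1) → K) → Prop} {P' : ℙ K (Fin (m + 1) → K) → Prop}
    (h : AAT P) (hP : ∀ T Q, 0 ≤ T → P T Q → P' Q) : AA P' := by
  obtain ⟨c, C, hc, hC, h⟩ := h
  refine ⟨c, C, hc, hC, fun T hT => ?_⟩
  obtain ⟨Z, hZ, h⟩ := h T hT
  exact ⟨Z, hZ, fun Q hQ hQZ => hP T Q hT (h Q hQ hQZ)⟩

/-- most points have height at least half of the maximum, and the maximum is large -/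
lemma AAT.half (T₀ : ℝ) : AAT fun (T : ℝ) (Q : ℙ K (Fin (m + 1) → K)) =>
    T / 2 < hgt Q.rep ∧ T₀ ≤ T := by
  classical
  have hn : 0 < finrank ℚ K := finrank_pos
  have hn0 : (0 : ℝ) < finrank ℚ K := by exact_mod_cast hn
  obtain ⟨C, hC, h⟩ := Pool.Agent.N752.RD.pts_upper K m
  obtain ⟨T₁, hT₁⟩ : ∃ T₁ : ℝ, T₁ = max T₀ 0 := ⟨_, rfl⟩
  have hT₁0 : 0 ≤ T₁ := by rw [hT₁]; exact le_max_right _ _
  have hT₀1 : T₀ ≤ T₁ := by rw [hT₁]; exact le_max_left _ _
  obtain ⟨d, hd⟩ : ∃ d : ℝ, d = (finrank ℚ K : ℝ) * (m + 1) := ⟨_, rfl⟩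
  have hd0 : 0 < d := by rw [hd]; positivity
  have key : ∀ R : ℝ, 0 ≤ R → ∃ Z : Finset (ℙ K (Fin (m + 1) → K)),
      (Z.card : ℝ) ≤ C * Real.exp (d * R) ∧
      ∀ Q : ℙ K (Fin (m + 1) → K), Real.log Q.mulHeight ≤ finrank ℚ K * R → Q ∈ Z := by
    intro R hR
    obtain ⟨h1, h2⟩ := h (Real.exp R) (Real.one_le_exp hR)
    refine ⟨h1.toFinset, ?_, fun Q hQ => ?_⟩
    · rw [Set.ncard_eq_toFinset_card _ h1] at h2
      refine h2.trans (le_of_eq ?_)
      rw [← Real.exp_nat_mul, hd]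
      push_cast
      ring_nf
    · rw [Set.Finite.mem_toFinset, Set.mem_ofPred_eq, ← Real.exp_nat_mul,
        ← Real.log_le_iff_le_exp Q.mulHeight_pos]
      exact hQ
  refine ⟨d / 2, C * Real.exp (d * T₁), by positivity, by positivity, fun T hT => ?_⟩
  rw [← hd]
  by_cases hTT : T₁ ≤ T
  · obtain ⟨Z, hZ, hall⟩ := key (T / 2) (by positivity)
    refine ⟨Z, hZ.trans ?_, fun Q hQ hQZ => ⟨?_, hT₀1.trans hTT⟩⟩
    · have e : d * (T / 2) = (d - d / 2) * T := by ring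
      rw [e]
      have h3 : 1 ≤ Real.exp (d * T₁) := Real.one_le_exp (by positivity)
      have h4 : 0 < Real.exp ((d - d / 2) * T) := Real.exp_pos _
      have h5 : C * 1 ≤ C * Real.exp (d * T₁) := mul_le_mul_of_nonneg_left h3 hC
      rw [mul_one] at h5
      exact mul_le_mul_of_nonneg_right h5 h4.le
    · by_contra hcon
      push Not at hcon
      refine hQZ (hall Q ?_)
      rw [hgt_rep, div_le_iff₀ hn0] at hcon
      linarith
  · push Not at hTT
    obtain ⟨Z, hZ, hall⟩ := key T hT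
    refine ⟨Z, hZ.trans ?_, fun Q hQ hQZ => absurd (hall Q hQ) hQZ⟩
    have h3 : Real.exp (d * T) ≤ Real.exp (d * T₁) :=
      Real.exp_le_exp.2 (mul_le_mul_of_nonneg_left hTT.le hd0.le)
    have h4 : 1 ≤ Real.exp ((d - d / 2) * T) := Real.one_le_exp (mul_nonneg (by linarith) hT)
    have h5 : 0 ≤ C * Real.exp (d * T₁) := by positivity
    calc C * Real.exp (d * T) ≤ C * Real.exp (d * T₁) := mul_le_mul_of_nonneg_left h3 hC
      _ ≤ C * Real.exp (d * T₁) * Real.exp ((d - d / 2) * T) := le_mul_of_one_le_right h5 h4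

/-- from integer vectors to points -/
lemma transfer {N : ℕ} (L : (Fin (N + 1) → ℤ) ≃+ (Fin (m + 1) → 𝓞 K)) {A : ℝ} (hA0 : 0 < A)
    (hN : ((N + 1 : ℕ) : ℝ) = finrank ℚ K * (m + 1))
    (hA : ∀ (z : Fin (N + 1) → ℤ) (T : ℝ),
      (∀ (w : InfinitePlace K) (i : Fin (m + 1)), w (L z i : K) ≤ T) → ∀ j, |(z j : ℝ)| ≤ A * T)
    {bad : ℕ → (Fin (N + 1) → ℤ) → Prop} (hbad : Sparse (N + 1) bad) :
    ∃ D : ℝ, 1 ≤ D ∧ AAT fun (T : ℝ) (Q : ℙ K (Fin (m + 1) → K)) =>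
      ∃ (l : K) (z : Fin (N + 1) → ℤ) (B : ℕ), l ≠ 0 ∧ (∀ j, (L z j : K) = l * Q.rep j) ∧
        1 ≤ B ∧ (B : ℝ) ≤ D * Real.exp T ∧ (∀ i, |(z i : ℝ)| ≤ B) ∧ ¬ bad B z := by
  classical
  obtain ⟨c₁, hc₁, C₁, hC₁, hbad⟩ := hbad
  obtain ⟨q, hq⟩ : ∃ q : ℝ, q = √|(discr K : ℝ)| + 1 := ⟨_, rfl⟩
  have hq1 : 1 ≤ q := by
    have := Real.sqrt_nonneg |(discr K : ℝ)|
    rw [hq]
    linarith
  obtain ⟨D, hD⟩ : ∃ D : ℝ, D = A * q + 1 := ⟨_, rfl⟩
  have hAq : 0 ≤ A * q := by positivity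
  have hD1 : 1 ≤ D := by rw [hD]; linarith
  obtain ⟨B, hB⟩ : ∃ B : ℝ → ℕ, B = fun T => ⌈D * Real.exp T⌉₊ := ⟨_, rfl⟩
  have hB1 : ∀ T, D * Real.exp T ≤ B T := fun T => by
    rw [hB]
    exact Nat.le_ceil _
  have hBexp : ∀ T, Real.exp T ≤ B T := fun T => by
    refine le_trans ?_ (hB1 T)
    nlinarith [Real.exp_pos T]
  have hBA : ∀ T, A * (q * Real.exp T) ≤ B T := fun T => by
    refine le_trans ?_ (hB1 T)
    rw [hD]
    nlinarith [Real.exp_pos T]
  have hB2 : ∀ T, 0 ≤ T → (B T : ℝ) ≤ (D + 1) * Real.exp T := fun T hT => by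
    have h3 : (B T : ℝ) < D * Real.exp T + 1 := by
      rw [hB]
      exact Nat.ceil_lt_add_one (by positivity)
    have h4 := Real.one_le_exp hT
    nlinarith
  have hB3 : ∀ T, 0 ≤ T → 1 ≤ B T := fun T hT => by
    have h3 := (Real.one_le_exp hT).trans (hBexp T)
    exact_mod_cast h3
  obtain ⟨c₂, hc₂⟩ : ∃ c₂ : ℝ, c₂ = min c₁ 1 := ⟨_, rfl⟩
  have hc₂1 : c₂ ≤ 1 := by rw [hc₂]; exact min_le_right _ _
  have hc₂2 : c₂ ≤ c₁ := by rw [hc₂]; exact min_le_left _ _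
  have hc₂0 : 0 < c₂ := by
    rw [hc₂]
    exact lt_min hc₁ one_pos
  have hNc : 0 ≤ ((N + 1 : ℕ) : ℝ) - c₂ := by
    have : (1 : ℝ) ≤ ((N + 1 : ℕ) : ℝ) := by exact_mod_cast Nat.succ_le_succ (Nat.zero_le N)
    linarith
  refine ⟨D + 1, by linarith, c₂, C₁ * (D + 1) ^ (((N + 1 : ℕ) : ℝ) - c₂), hc₂0, by positivity,
    fun T hT => ?_⟩
  rw [← hN]
  obtain ⟨S, hS⟩ : ∃ S : Set (Fin (N + 1) → ℤ), S = {z : Fin (N + 1) → ℤ |
    z ∈ Pool.Agent.TH910.Voj.box (N + 1) (B T) ∧ bad (B T) z} := ⟨_, rfl⟩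
  have hSf : S.Finite := by
    rw [hS]
    exact Pool.Agent.TH910.Voj.finite_sub _ _ _
  have hScard := hbad (B T) (hB3 T hT)
  rw [← hS] at hScard
  refine ⟨hSf.toFinset.image (Psi L), ?_, fun Q hQ hQZ => ?_⟩
  · have h3 : ((hSf.toFinset.image (Psi L)).card : ℝ) ≤ S.ncard := by
      rw [Set.ncard_eq_toFinset_card S hSf]
      exact_mod_cast Finset.card_image_le
    refine h3.trans (hScard.trans ?_)
    have hB1' : (1 : ℝ) ≤ B T := by exact_mod_cast hB3 T hT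
    calc C₁ * (B T : ℝ) ^ (((N + 1 : ℕ) : ℝ) - c₁)
        ≤ C₁ * (B T : ℝ) ^ (((N + 1 : ℕ) : ℝ) - c₂) := by
          refine mul_le_mul_of_nonneg_left ?_ hC₁.le
          exact Real.rpow_le_rpow_of_exponent_le hB1' (by linarith)
      _ ≤ C₁ * ((D + 1) * Real.exp T) ^ (((N + 1 : ℕ) : ℝ) - c₂) := by
          refine mul_le_mul_of_nonneg_left ?_ hC₁.le
          exact Real.rpow_le_rpow (by positivity) (hB2 T hT) hNc
      _ = C₁ * (D + 1) ^ (((N + 1 : ℕ) : ℝ) - c₂) *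
          Real.exp ((((N + 1 : ℕ) : ℝ) - c₂) * T) := by
          rw [Real.mul_rpow (by linarith) (Real.exp_pos T).le, ← Real.exp_mul, mul_comm T]
          ring
  · obtain ⟨l, z', g, hl, hg, hgcd, hz', hy, hyq, hQP⟩ :=
      repr Pool.Agent.N752.HY.Rep2.t_REP L (Nat.succ_pos N) hA Q hT hQ
    have hgK : (g : K) ≠ 0 := by exact_mod_cast hg
    have h1 : ∀ j, (L z' j : K) = l / g * Q.rep j := by
      intro j
      apply mul_left_cancel₀ hgK
      have h3 : (g : K) * (l / g * Q.rep j) = l * Q.rep j := by field_simp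
      rw [h3, ← hy j]
      have h2 : (fun i => g * z' i) = g • z' := by
        funext i
        rw [Pi.smul_apply, smul_eq_mul]
      rw [h2, map_zsmul, Pi.smul_apply, zsmul_eq_mul]
      push_cast
      rfl
    have hzB : ∀ i, |(z' i : ℝ)| ≤ B T := fun i => by
      have := hz' i
      rw [← hq] at this
      exact this.trans (hBA T)
    refine ⟨l / g, z', B T, div_ne_zero hl hgK, h1, hB3 T hT, hB2 T hT, hzB, fun hb => hQZ ?_⟩
    rw [Finset.mem_image]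
    refine ⟨z', hSf.mem_toFinset.2 ?_, hQP.symm⟩
    rw [hS]
    refine ⟨?_, hb⟩
    rw [Pool.Agent.TH910.Voj.mem_box]
    intro i
    exact_mod_cast hzB i

/-- **The proximity functions are small at almost all points.** -/
theorem prx (hPL1 : S_PL1) (hPL2 : S_PL2) (κ : ℕ) (F : MvPolynomial (Fin (m + 1)) (𝓞 K))
    (hF : F.IsHomogeneous κ) (hF0 : F ≠ 0) (S : Finset ℕ) (hS : ∀ p ∈ S, p.Prime) {δ : ℝ}
    (hδ : 0 < δ) : AA fun Q : ℙ K (Fin (m + 1) → K) =>
      aeval Q.rep F ≠ 0 ∧ prox K S F κ Q.rep ≤ δ * hgt Q.rep := by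
  classical
  have hn : 0 < finrank ℚ K := finrank_pos
  obtain ⟨n, hnd⟩ : ∃ n : ℝ, n = finrank ℚ K := ⟨_, rfl⟩
  have hn0 : 0 < n := by rw [hnd]; exact_mod_cast hn
  obtain ⟨N, G, L, A, A', hN, hG, hG0, hGL, hA0, hA, hA'0, hA'⟩ := exists_G κ F hF hF0
  obtain ⟨C, hC, hPL⟩ := hPL1 K inferInstance inferInstance S hS
  obtain ⟨ε, hε⟩ : ∃ ε : ℝ, ε = min 1 (n * δ / (4 * (1 + C))) := ⟨_, rfl⟩
  have hε0 : 0 < ε := by rw [hε]; exact lt_min one_pos (by positivity)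
  have hε1 : ε ≤ 1 := by rw [hε]; exact min_le_left _ _
  have hε2 : ε * (1 + C) ≤ n * δ / 4 := by
    have h1 : ε ≤ n * δ / (4 * (1 + C)) := by rw [hε]; exact min_le_right _ _
    have h2 := mul_le_mul_of_nonneg_right h1 (show 0 ≤ 1 + C by linarith)
    have h3 : n * δ / (4 * (1 + C)) * (1 + C) = n * δ / 4 := by
      have : 1 + C ≠ 0 := by positivity
      field_simp
    linarith
  have hsp : Sparse (N + 1) fun B x => (eval x G = 0 ∨ (eval x G ≠ 0 ∧
      ((eval x G).natAbs : ℝ) ≤ (B : ℝ) ^ (((finrank ℚ K * κ : ℕ) : ℝ) - ε))) ∨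
      ∃ p ∈ S, (eval x G ≠ 0 ∧ (B : ℝ) ^ ε < ((p ^ padicValInt p (eval x G) : ℕ) : ℝ)) := by
    refine ((Pool.Agent.TH910.Voj.sparse_zeros G hG0).or
      (Pool.Agent.TH910.Voj.sparse_small_value G hG hG0 hε0 hε1)).or ?_
    have key : ∀ s : Finset ℕ, (∀ p ∈ s, p.Prime) → Sparse (N + 1) fun B x =>
        ∃ p ∈ s, (eval x G ≠ 0 ∧ (B : ℝ) ^ ε < ((p ^ padicValInt p (eval x G) : ℕ) : ℝ)) := by
      intro s
      induction s using Finset.induction_on with
      | empty => intro _; exact (Sparse.false (N + 1)).mono (by simp)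
      | insert a s _ ih =>
        intro hs
        refine ((Pool.Agent.TH910.Voj.sparse_padic G hG hG0 a
          (hs a (Finset.mem_insert_self a s)) hε0 hε1).or
          (ih fun p hp => hs p (Finset.mem_insert_of_mem hp))).mono ?_
        rintro B x - - ⟨j, hj, hjx⟩
        rcases Finset.mem_insert.mp hj with rfl | hj
        · exact Or.inl hjx
        · exact Or.inr ⟨j, hj, hjx⟩
    exact key S hS
  obtain ⟨D, hD, hT⟩ := transfer L hA0 hN hA hsp
  obtain ⟨X, hX⟩ : ∃ X : ℝ, X = |κ * (n * Real.log A')| + ε * (1 + C) * Real.log D := ⟨_, rfl⟩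
  have hlD : 0 ≤ Real.log D := Real.log_nonneg hD
  have hX0 : 0 ≤ X := by rw [hX]; positivity
  refine (hT.and (AAT.half (4 * X / (n * δ)))).aa ?_
  rintro T Q hT0 ⟨⟨l, z, B, hl, hz, hB1, hBD, hzB, hbad⟩, hhalf, hTX⟩
  rw [not_or, not_or] at hbad
  obtain ⟨⟨h1, h2⟩, h3⟩ := hbad
  push Not at h2 h3
  have h2' := h2 h1
  have hev : eval (L z) F ≠ 0 := by
    intro h
    apply h1
    rw [hGL, h, Algebra.norm_zero]
  have hQF : aeval Q.rep F ≠ 0 := by
    intro h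
    have h4 := aeval_y hF hz
    rw [h, mul_zero] at h4
    exact hev (RingOfIntegers.coe_eq_zero_iff.1 h4)
  refine ⟨hQF, ?_⟩
  have hBr : (1 : ℝ) ≤ B := by exact_mod_cast hB1
  have hB0 : (0 : ℝ) < B := by linarith
  have hlB : 0 ≤ Real.log B := Real.log_nonneg hBr
  have h4 := hPL2 K inferInstance inferInstance S hS m κ F hF Q.rep (L z) l (A' * B) hl hz hev
    (by positivity) (hA' z B hzB)
  have h5 := hPL (eval (L z) F) (ε * Real.log B) hev (by positivity) (by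
    intro p hp
    rw [← hGL]
    have h6 := h3 p hp h1
    have hp0 : (0 : ℝ) < p := by exact_mod_cast (hS p hp).pos
    have h7 : Real.log ((p ^ padicValInt p (eval z G) : ℕ) : ℝ) ≤ Real.log ((B : ℝ) ^ ε) := by
      refine Real.log_le_log ?_ h6
      push_cast
      positivity
    rw [Real.log_rpow hB0] at h7
    push_cast at h7
    rw [Real.log_pow] at h7
    exact h7)
  have h6 : (((finrank ℚ K * κ : ℕ) : ℝ) - ε) * Real.log B ≤
      Real.log |(Algebra.norm ℤ (eval (L z) F) : ℝ)| := by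
    rw [← hGL, ← Real.log_rpow hB0]
    refine Real.log_le_log (by positivity) ?_
    have h7 : |((eval z G : ℤ) : ℝ)| = ((eval z G).natAbs : ℝ) := by
      rw [Nat.cast_natAbs, Int.cast_abs]
    rw [h7]
    exact h2'.le
  rw [Real.log_mul hA'0.ne' hB0.ne'] at h4
  have h7 : Real.log B ≤ Real.log D + T := by
    have h71 := Real.log_le_log hB0 hBD
    rwa [Real.log_mul (by linarith) (Real.exp_pos T).ne', Real.log_exp] at h71
  rw [← hnd] at h4
  push_cast at h6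
  rw [← hnd] at h6
  have h8 : κ * (n * Real.log A') ≤ |κ * (n * Real.log A')| := le_abs_self _
  have h9 : n * prox K S F κ Q.rep ≤ X + ε * (1 + C) * T := by
    have e1 : κ * (n * (Real.log A' + Real.log B)) = κ * (n * Real.log A') +
        n * κ * Real.log B := by ring
    rw [e1] at h4
    have e2 : (n * κ - ε) * Real.log B = n * κ * Real.log B - ε * Real.log B := by ring
    rw [e2] at h6
    have e3 : ε * (1 + C) * Real.log B ≤ ε * (1 + C) * (Real.log D + T) :=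
      mul_le_mul_of_nonneg_left h7 (by positivity)
    rw [hX]
    nlinarith
  have h10 : ε * (1 + C) * T ≤ n * δ / 4 * T := mul_le_mul_of_nonneg_right hε2 hT0
  have h11 : X ≤ n * δ / 4 * T := by
    rw [div_le_iff₀ (by positivity)] at hTX
    linarith
  have h12 : n * prox K S F κ Q.rep ≤ n * (δ * hgt Q.rep) := by
    have h13 : n * δ * (T / 2) ≤ n * δ * hgt Q.rep :=
      mul_le_mul_of_nonneg_left hhalf.le (by positivity)
    linarith
  exact le_of_mul_le_mul_left h12 hn0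

end Pool.Agent.N752.HY.Prx
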