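import Pool.Agent.N752.HY.Stm3
import Pool.Agent.N752.HY.Ext

set_option autoImplicit false

/-!
HZ/CUP (helper713): the truncated counting functions of the components and of their union.
-/

namespace Pool.Agent.N752.HY.Cup

open NumberField IsDedekindDomain MvPolynomial Module Height
open Pool.Agent.N752.HY.Ext (lam_support)
open scoped Classical

/-- the inequality for the numbers of positive local heights -/
theorem num {q : ℕ} (J : Finset (Fin q)) (p : Fin q → Prop) :
    ∑ j ∈ J, (if p j then (1 : ℝ) else 0) + (if ∃ i ∈ Jᶜ, p i then (1 : ℝ) else 0) ≤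
      (if ∃ i ∈ (Finset.univ : Finset (Fin q)), p i then (1 : ℝ) else 0) +
        ∑ j ∈ J, ∑ i ∈ Finset.univ.erase j, (if p j ∧ p i then (1 : ℝ) else 0) := by
  have h01 : ∀ (r : Prop) [Decidable r], (0 : ℝ) ≤ if r then 1 else 0 := fun r => by
    split_ifs <;> norm_num
  by_cases h : ∃ j₀ ∈ J, p j₀
  · obtain ⟨j₀, hj₀, hp⟩ := h
    rw [if_pos (⟨j₀, Finset.mem_univ _, hp⟩ : ∃ i ∈ (Finset.univ : Finset (Fin q)), p i)]
    have h1 : ∑ j ∈ J, (if p j then (1 : ℝ) else 0) =
        1 + ∑ j ∈ J.erase j₀, (if p j then (1 : ℝ) else 0) := by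
      rw [← Finset.add_sum_erase J _ hj₀, if_pos hp]
    have h2 : ∑ i ∈ Finset.univ.erase j₀, (if p i then (1 : ℝ) else 0) ≤
        ∑ j ∈ J, ∑ i ∈ Finset.univ.erase j, (if p j ∧ p i then (1 : ℝ) else 0) := by
      have h3 : ∑ i ∈ Finset.univ.erase j₀, (if p i then (1 : ℝ) else 0) =
          ∑ i ∈ Finset.univ.erase j₀, (if p j₀ ∧ p i then (1 : ℝ) else 0) := by
        refine Finset.sum_congr rfl fun i _ => ?_
        by_cases hi : p i
        · rw [if_pos hi, if_pos ⟨hp, hi⟩]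
        · rw [if_neg hi, if_neg fun h => hi h.2]
      rw [h3]
      exact Finset.single_le_sum
        (f := fun j => ∑ i ∈ Finset.univ.erase j, (if p j ∧ p i then (1 : ℝ) else 0))
        (fun j _ => Finset.sum_nonneg fun i _ => h01 _) hj₀
    have h4 : ∑ j ∈ J.erase j₀, (if p j then (1 : ℝ) else 0) +
        ∑ i ∈ Jᶜ, (if p i then (1 : ℝ) else 0) ≤
        ∑ i ∈ Finset.univ.erase j₀, (if p i then (1 : ℝ) else 0) := by
      have hd : Disjoint (J.erase j₀) Jᶜ := by
        rw [Finset.disjoint_left]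
        intro i hi hi'
        exact (Finset.mem_compl.1 hi') (Finset.mem_of_mem_erase hi)
      rw [← Finset.sum_union hd]
      refine Finset.sum_le_sum_of_subset_of_nonneg ?_ fun i _ _ => h01 _
      intro i hi
      rw [Finset.mem_erase]
      refine ⟨?_, Finset.mem_univ i⟩
      rcases Finset.mem_union.1 hi with hi | hi
      · exact Finset.ne_of_mem_erase hi
      · intro h6
        rw [h6] at hi
        exact (Finset.mem_compl.1 hi) hj₀
    have h5 : (if ∃ i ∈ Jᶜ, p i then (1 : ℝ) else 0) ≤ ∑ i ∈ Jᶜ, (if p i then (1 : ℝ) else 0) := by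
      by_cases h6 : ∃ i ∈ Jᶜ, p i
      · rw [if_pos h6]
        obtain ⟨i, hi, hpi⟩ := h6
        refine le_trans (le_of_eq ?_) (Finset.single_le_sum
          (f := fun i => if p i then (1 : ℝ) else 0) (fun i _ => h01 _) hi)
        show (1 : ℝ) = if p i then (1 : ℝ) else 0
        rw [if_pos hpi]
      · rw [if_neg h6]
        exact Finset.sum_nonneg fun i _ => h01 _
    linarith
  · push Not at h
    have h1 : ∑ j ∈ J, (if p j then (1 : ℝ) else 0) = 0 :=
      Finset.sum_eq_zero fun j hj => if_neg (h j hj)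
    have h2 : (if ∃ i ∈ Jᶜ, p i then (1 : ℝ) else 0) ≤
        if ∃ i ∈ (Finset.univ : Finset (Fin q)), p i then (1 : ℝ) else 0 := by
      by_cases h3 : ∃ i ∈ Jᶜ, p i
      · obtain ⟨i, hi, hpi⟩ := h3
        rw [if_pos ⟨i, hi, hpi⟩, if_pos ⟨i, Finset.mem_univ i, hpi⟩]
      · rw [if_neg h3]
        exact h01 _
    have h3 : 0 ≤ ∑ j ∈ J, ∑ i ∈ Finset.univ.erase j, (if p j ∧ p i then (1 : ℝ) else 0) :=
      Finset.sum_nonneg fun j _ => Finset.sum_nonneg fun i _ => h01 _
    linarith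

theorem t_CUP : S_CUP := by
  intro K _ _ m q F κ J x hx hF
  have hn : (0 : ℝ) < finrank ℚ K := by exact_mod_cast finrank_pos
  have hfin : {v : HeightOneSpectrum (𝓞 K) | ∃ i, 0 < lam K (F i) (κ i) x v}.Finite := by
    refine (Set.finite_iUnion fun i => lam_support (L := K) (κ := κ i) hx (hF i)).subset ?_
    rintro v ⟨i, hi⟩
    exact Set.mem_iUnion.2 ⟨i, hi.ne'⟩
  set T := hfin.toFinset with hT
  have hmem : ∀ v, v ∈ T ↔ ∃ i, 0 < lam K (F i) (κ i) x v := fun v =>
    Set.Finite.mem_toFinset hfin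
  set ℓ : HeightOneSpectrum (𝓞 K) → ℝ := fun v => Real.log (Ideal.absNorm v.asIdeal : ℝ) with hℓ
  have hℓ0 : ∀ v, 0 ≤ ℓ v := fun v => Real.log_natCast_nonneg _
  have hout : ∀ v : HeightOneSpectrum (𝓞 K), Outside ∅ v := fun v p hp =>
    absurd hp (Finset.notMem_empty p)
  -- the counting functions
  have hc1 : ∀ j, cnt K ∅ (fun _ : Fin 1 => F j) (fun _ => κ j) Finset.univ x =
      (∑ v ∈ T, (if 0 < lam K (F j) (κ j) x v then (1 : ℝ) else 0) * ℓ v) / finrank ℚ K := by
    intro j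
    unfold cnt
    rw [finsum_eq_sum_of_support_subset (s := T)]
    · congr 1
      refine Finset.sum_congr rfl fun v _ => ?_
      by_cases h : 0 < lam K (F j) (κ j) x v
      · rw [if_pos h, one_mul]
        exact if_pos ⟨hout v, 0, Finset.mem_univ _, h⟩
      · rw [if_neg h, zero_mul]
        refine if_neg ?_
        rintro ⟨-, i, -, hi⟩
        exact h hi
    · intro v hv
      rw [Finset.mem_coe, hmem]
      by_contra hc
      refine hv (if_neg ?_)
      rintro ⟨-, i, -, hi⟩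
      exact hc ⟨j, hi⟩
  have hc2 : ∀ I : Finset (Fin q), cnt K ∅ F κ I x =
      (∑ v ∈ T, (if ∃ i ∈ I, 0 < lam K (F i) (κ i) x v then (1 : ℝ) else 0) * ℓ v) /
        finrank ℚ K := by
    intro I
    unfold cnt
    rw [finsum_eq_sum_of_support_subset (s := T)]
    · congr 1
      refine Finset.sum_congr rfl fun v _ => ?_
      by_cases h : ∃ i ∈ I, 0 < lam K (F i) (κ i) x v
      · rw [if_pos h, one_mul]
        exact if_pos ⟨hout v, h⟩
      · rw [if_neg h, zero_mul]
        exact if_neg fun h' => h h'.2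
    · intro v hv
      rw [Finset.mem_coe, hmem]
      by_contra hc
      refine hv (if_neg ?_)
      rintro ⟨-, i, -, hi⟩
      exact hc ⟨i, hi⟩
  have hc3 : ∀ j i : Fin q, (∑ᶠ v ∈ {v : HeightOneSpectrum (𝓞 K) | 0 < lam K (F j) (κ j) x v ∧
      0 < lam K (F i) (κ i) x v}, Real.log (Ideal.absNorm v.asIdeal : ℝ)) =
      ∑ v ∈ T, (if 0 < lam K (F j) (κ j) x v ∧ 0 < lam K (F i) (κ i) x v then (1 : ℝ) else 0) *
        ℓ v := by
    intro j i
    rw [finsum_mem_def, finsum_eq_sum_of_support_subset (s := T)]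
    · refine Finset.sum_congr rfl fun v _ => ?_
      by_cases h : 0 < lam K (F j) (κ j) x v ∧ 0 < lam K (F i) (κ i) x v
      · have h' : v ∈ {v : HeightOneSpectrum (𝓞 K) | 0 < lam K (F j) (κ j) x v ∧
            0 < lam K (F i) (κ i) x v} := h
        rw [if_pos h, one_mul, Set.indicator_of_mem h']
      · have h' : v ∉ {v : HeightOneSpectrum (𝓞 K) | 0 < lam K (F j) (κ j) x v ∧
            0 < lam K (F i) (κ i) x v} := h
        rw [if_neg h, zero_mul, Set.indicator_of_notMem h']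
    · intro v hv
      rw [Finset.mem_coe, hmem]
      by_contra hc
      exact hv (Set.indicator_of_notMem (fun h => hc ⟨j, h.1⟩) _)
  rw [hc2, hc2, Finset.sum_congr rfl fun j _ => hc1 j, ← Finset.sum_div, ← add_div, ← add_div]
  refine div_le_div_of_nonneg_right ?_ hn.le
  rw [Finset.sum_congr rfl fun j _ => Finset.sum_congr rfl fun i _ => hc3 j i]
  have e1 : ∑ j ∈ J, ∑ v ∈ T, (if 0 < lam K (F j) (κ j) x v then (1 : ℝ) else 0) * ℓ v =
      ∑ v ∈ T, (∑ j ∈ J, (if 0 < lam K (F j) (κ j) x v then (1 : ℝ) else 0)) * ℓ v := by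
    rw [Finset.sum_comm]
    exact Finset.sum_congr rfl fun v _ => (Finset.sum_mul _ _ _).symm
  have e2 : ∑ j ∈ J, ∑ i ∈ Finset.univ.erase j, ∑ v ∈ T,
      (if 0 < lam K (F j) (κ j) x v ∧ 0 < lam K (F i) (κ i) x v then (1 : ℝ) else 0) * ℓ v =
      ∑ v ∈ T, (∑ j ∈ J, ∑ i ∈ Finset.univ.erase j,
        (if 0 < lam K (F j) (κ j) x v ∧ 0 < lam K (F i) (κ i) x v then (1 : ℝ) else 0)) * ℓ v := by
    have h1 : ∀ j ∈ J, ∑ i ∈ Finset.univ.erase j, ∑ v ∈ T,
        (if 0 < lam K (F j) (κ j) x v ∧ 0 < lam K (F i) (κ i) x v then (1 : ℝ) else 0) * ℓ v =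
        ∑ v ∈ T, (∑ i ∈ Finset.univ.erase j,
          (if 0 < lam K (F j) (κ j) x v ∧ 0 < lam K (F i) (κ i) x v then (1 : ℝ) else 0)) *
            ℓ v := by
      intro j _
      rw [Finset.sum_comm]
      exact Finset.sum_congr rfl fun v _ => (Finset.sum_mul _ _ _).symm
    rw [Finset.sum_congr rfl h1, Finset.sum_comm]
    exact Finset.sum_congr rfl fun v _ => (Finset.sum_mul _ _ _).symm
  rw [e1, e2, ← Finset.sum_add_distrib, ← Finset.sum_add_distrib]
  refine Finset.sum_le_sum fun v _ => ?_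
  rw [← add_mul, ← add_mul]
  exact mul_le_mul_of_nonneg_right (num J fun i => 0 < lam K (F i) (κ i) x v) (hℓ0 v)

end Pool.Agent.N752.HY.Cup
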