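import Mathlib
import Pool.Agent.N752.HY.Stm
import Pool.Agent.N752.SU.Count

/-!
The sharp uniform upper bound for the number of the points whose coordinates span the field.
-/

set_option autoImplicit false

namespace Pool.Agent.N752.HY.Pts

open NumberField Module Finset IsDedekindDomain Height
open scoped LinearAlgebra.Projectivization
open Pool.Agent.R405 (mulHeight_int)
open Pool.Agent.N752.SU

/-- the logarithmic sizes at the infinite places are close to the maximal possible size -/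
lemma low_cell {K : Type} [Field K] [NumberField K] (M : InfinitePlace K → ℝ) {B h : ℝ}
    (hM0 : ∀ v, 0 < M v) (hM : ∀ v, M v ^ finrank ℚ K ≤ B) (h0 : 0 < h)
    (hprod : h ≤ ∏ v, M v ^ v.mult) (v : InfinitePlace K) :
    Real.logb 2 (M v) ≤ Real.logb 2 B / finrank ℚ K ∧
    Real.logb 2 B / finrank ℚ K - Real.logb 2 (B / h) ≤ Real.logb 2 (M v) := by
  classical
  have hn : (0 : ℝ) < finrank ℚ K := by exact_mod_cast finrank_pos
  have hB0 : 0 < B := lt_of_lt_of_le (pow_pos (hM0 v) _) (hM v)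
  have h1 : ∀ w, Real.logb 2 (M w) ≤ Real.logb 2 B / finrank ℚ K := by
    intro w
    rw [le_div_iff₀ hn, mul_comm, ← Real.logb_pow]
    exact Real.logb_le_logb_of_le (by norm_num) (pow_pos (hM0 w) _) (hM w)
  refine ⟨h1 v, ?_⟩
  have h2 : Real.logb 2 h ≤ ∑ w : InfinitePlace K, (w.mult : ℝ) * Real.logb 2 (M w) := by
    have h3 := Real.logb_le_logb_of_le (b := 2) (by norm_num) h0 hprod
    have h4 : Real.logb 2 (∏ w, M w ^ w.mult) =
        ∑ w : InfinitePlace K, (w.mult : ℝ) * Real.logb 2 (M w) := by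
      unfold Real.logb
      rw [Real.log_prod (fun w _ => (pow_pos (hM0 w) _).ne'), Finset.sum_div]
      refine Finset.sum_congr rfl fun w _ => ?_
      rw [Real.log_pow]
      ring
    rwa [h4] at h3
  have h5 : ∑ w : InfinitePlace K, (w.mult : ℝ) *
      (Real.logb 2 B / finrank ℚ K - Real.logb 2 (M w)) ≤ Real.logb 2 (B / h) := by
    simp only [mul_sub]
    rw [Finset.sum_sub_distrib, ← Finset.sum_mul]
    have h6 : ∑ w : InfinitePlace K, (w.mult : ℝ) = finrank ℚ K := by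
      rw [← InfinitePlace.sum_mult_eq (K := K)]
      push_cast
      rfl
    rw [h6, mul_div_cancel₀ _ hn.ne', Real.logb_div hB0.ne' h0.ne']
    linarith
  have h7 : (v.mult : ℝ) * (Real.logb 2 B / finrank ℚ K - Real.logb 2 (M v)) ≤
      ∑ w : InfinitePlace K, (w.mult : ℝ) *
      (Real.logb 2 B / finrank ℚ K - Real.logb 2 (M w)) :=
    Finset.single_le_sum (f := fun w : InfinitePlace K => (w.mult : ℝ) *
      (Real.logb 2 B / finrank ℚ K - Real.logb 2 (M w)))
      (fun w _ => mul_nonneg (Nat.cast_nonneg _) (sub_nonneg.2 (h1 w))) (Finset.mem_univ v)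
  have h8 : (1 : ℝ) ≤ v.mult := by exact_mod_cast (InfinitePlace.mult_pos : 0 < v.mult)
  have h9 : (Real.logb 2 B / finrank ℚ K - Real.logb 2 (M v)) ≤
      (v.mult : ℝ) * (Real.logb 2 B / finrank ℚ K - Real.logb 2 (M v)) :=
    le_mul_of_one_le_left (sub_nonneg.2 (h1 v)) h8
  linarith

/-- one level of the height -/
theorem level (hREP : S_REP) (k : Type) [Field k] [NumberField k] (n m : ℕ) (hn : 1 ≤ n) {ε : ℝ}
    (hε : 0 < ε) : ∃ C : ℝ, 1 ≤ C ∧
    ∀ (K : Type) [Field K] [NumberField K] [Algebra k K], finrank ℚ K = n → ∀ H : ℝ, 0 < H →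
      ∀ F : Finset (ℙ K (Fin (m + 1) → K)),
      (∀ Q ∈ F, H / 2 < Q.mulHeight ∧ Q.mulHeight ≤ H ∧
        Submodule.span k (Set.range Q.rep) = ⊤) →
      (F.card : ℝ) ≤ C * H ^ (m + 1) * √|(discr K : ℝ)| ^ (ε - m) := by
  classical
  obtain ⟨F0, hF0, hid⟩ := ideals_le (half_pos hε)
  obtain ⟨C1, hC1, hcell⟩ := cells_le n hn (half_pos hε)
  set A : ℝ := (6 * ck k) ^ n * n.factorial with hA
  have hA1 : 1 ≤ A := by
    have h1 : (1 : ℝ) ≤ (6 * ck k) ^ n := one_le_pow₀ (by linarith [one_le_ck k])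
    have h2 : (1 : ℝ) ≤ n.factorial := by exact_mod_cast Nat.one_le_iff_ne_zero.2 (Nat.factorial_ne_zero n)
    exact one_le_mul_of_one_le_of_one_le h1 h2
  refine ⟨Real.exp (n * F0) * 2 ^ (1 + ε / 2) * C1 * A ^ (m + 1), ?_, ?_⟩
  · have h1 : 1 ≤ Real.exp (n * F0) := Real.one_le_exp (by positivity)
    have h2 : (1 : ℝ) ≤ 2 ^ (1 + ε / 2) := Real.one_le_rpow (by norm_num) (by positivity)
    exact one_le_mul_of_one_le_of_one_le (one_le_mul_of_one_le_of_one_le
      (one_le_mul_of_one_le_of_one_le h1 h2) hC1)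
      (one_le_pow₀ hA1)
  intro K _ _ _ hK H hH0 F hF
  set q : ℝ := √|(discr K : ℝ)| with hq
  have hq1 : 1 ≤ q := one_le_sqrt
  have hq0 : 0 < q := by linarith
  set B : ℝ := (q + 1) * H with hB
  have hB0 : 0 < B := by positivity
  have hrep := fun Q : ℙ K (Fin (m + 1) → K) => hREP K inferInstance inferInstance (m + 1) Q.rep Q.rep_nonzero
  choose lam y hlam hy hyU hyN using hrep
  let M : ℙ K (Fin (m + 1) → K) → InfinitePlace K → ℝ := fun Q v => ⨆ i, v (y Q i : K)
  let I : ℙ K (Fin (m + 1) → K) → Ideal (𝓞 K) := fun Q => Ideal.span (Set.range (y Q))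
  let e : ℙ K (Fin (m + 1) → K) → InfinitePlace K → ℤ := fun Q v => ⌈Real.logb 2 (M Q v)⌉
  set τ : ℝ := Real.logb 2 B / n with hτ
  set L : ℝ := Real.logb 2 (2 * (q + 1)) with hL
  have hLq : L ≤ Real.logb 2 q + 2 := by
    have h1 : L ≤ Real.logb 2 (q * 2 ^ (2 : ℝ)) := by
      refine Real.logb_le_logb_of_le (by norm_num) (by positivity) ?_
      have : (2 : ℝ) ^ (2 : ℝ) = 4 := by norm_num
      rw [this]
      linarith
    rwa [Real.logb_mul hq0.ne' (by positivity), Real.logb_rpow (by norm_num) (by norm_num)] at h1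
  have hLq0 : 0 ≤ Real.logb 2 q := Real.logb_nonneg (by norm_num) hq1
  -- facts
  have hrepne : ∀ Q : ℙ K (Fin (m + 1) → K), ∃ j, Q.rep j ≠ 0 := fun Q =>
    Function.ne_iff.1 Q.rep_nonzero
  have hyne : ∀ Q, ∃ j, y Q j ≠ 0 := by
    intro Q
    obtain ⟨j, hj⟩ := hrepne Q
    refine ⟨j, fun h0 => ?_⟩
    have h1 := hy Q j
    rw [h0] at h1
    have h2 : lam Q * Q.rep j = 0 := by rw [← h1]; simp
    exact mul_ne_zero (hlam Q) hj h2
  have hyne' : ∀ Q, y Q ≠ 0 := fun Q => Function.ne_iff.2 (hyne Q)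
  have hIne : ∀ Q, I Q ≠ ⊥ := by
    intro Q h
    obtain ⟨j, hj⟩ := hyne Q
    apply hj
    have : y Q j ∈ I Q := Ideal.subset_span (Set.mem_range_self j)
    rw [h] at this
    exact this
  have hIN : ∀ Q, (1 : ℝ) ≤ Ideal.absNorm (I Q) := by
    intro Q
    have : Ideal.absNorm (I Q) ≠ 0 := by rw [Ne, Ideal.absNorm_eq_zero_iff]; exact hIne Q
    exact_mod_cast Nat.one_le_iff_ne_zero.2 this
  have hle : ∀ Q v i, v (y Q i : K) ≤ M Q v := fun Q v i =>
    le_ciSup (f := fun i => v (y Q i : K)) (Set.finite_range _).bddAbove i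
  have hM0 : ∀ Q v, 0 < M Q v := by
    intro Q v
    obtain ⟨j, hj⟩ := hyne Q
    refine lt_of_lt_of_le ?_ (hle Q v j)
    rw [InfinitePlace.pos_iff]
    exact RingOfIntegers.coe_ne_zero_iff.2 hj
  have hht : ∀ Q, Q.mulHeight * Ideal.absNorm (I Q) = ∏ v, M Q v ^ v.mult := by
    intro Q
    have h1 := mulHeight_int (y Q) (hyne' Q)
    rw [← h1]
    congr 1
    have h2 : (fun j => (y Q j : K)) = lam Q • Q.rep := funext fun j => hy Q j
    rw [h2, mulHeight_smul_eq_mulHeight _ (hlam Q), rep_height]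
  have hMU : ∀ Q ∈ F, ∀ v, M Q v ^ finrank ℚ K ≤ B := by
    intro Q hQ v
    obtain ⟨i, hi⟩ := exists_eq_ciSup_of_finite (f := fun i => v (y Q i : K))
    have h1 : M Q v = v (y Q i : K) := hi.symm
    rw [h1]
    refine (hyU Q v i).trans ?_
    rw [hB, rep_height]
    exact mul_le_mul_of_nonneg_left (hF Q hQ).2.1 (by linarith)
  have hMprod : ∀ Q ∈ F, H / 2 ≤ ∏ v, M Q v ^ v.mult := by
    intro Q hQ
    rw [← hht]
    have h1 := (hF Q hQ).1
    exact h1.le.trans (le_mul_of_one_le_right (by linarith) (hIN Q))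
  have hpow : ∀ Q v, M Q v ≤ (2 : ℝ) ^ (e Q v) ∧ (2 : ℝ) ^ (e Q v) ≤ 2 * M Q v := by
    intro Q v
    have h1 : (2 : ℝ) ^ (e Q v) = (2 : ℝ) ^ ((e Q v : ℤ) : ℝ) := (Real.rpow_intCast 2 _).symm
    have h2 : (2 : ℝ) ^ Real.logb 2 (M Q v) = M Q v :=
      Real.rpow_logb (by norm_num) (by norm_num) (hM0 Q v)
    rw [h1]
    constructor
    · conv_lhs => rw [← h2]
      exact Real.rpow_le_rpow_of_exponent_le (by norm_num) (Int.le_ceil _)
    · conv_rhs => rw [← h2]
      have h3 : (2 : ℝ) * 2 ^ Real.logb 2 (M Q v) = 2 ^ (Real.logb 2 (M Q v) + 1) := by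
        rw [Real.rpow_add (by norm_num), Real.rpow_one, mul_comm]
      rw [h3]
      exact Real.rpow_le_rpow_of_exponent_le (by norm_num) (Int.ceil_lt_add_one _).le
  have hcellmem : ∀ Q ∈ F, e Q ∈
      Fintype.piFinset fun _ : InfinitePlace K => Finset.Icc ⌈τ - L⌉ ⌈τ⌉ := by
    intro Q hQ
    rw [Fintype.mem_piFinset]
    intro v
    have h1 := low_cell (M Q) (hM0 Q) (hMU Q hQ) (by linarith : 0 < H / 2) (hMprod Q hQ) v
    have h2 : B / (H / 2) = 2 * (q + 1) := by
      rw [hB]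
      field_simp
    rw [h2, hK] at h1
    rw [Finset.mem_Icc]
    exact ⟨Int.ceil_mono h1.2, Int.ceil_mono h1.1⟩
  -- the fibres
  let G : ℙ K (Fin (m + 1) → K) → Ideal (𝓞 K) × (InfinitePlace K → ℤ) := fun Q => (I Q, e Q)
  set R : ℝ := (A * H / q) ^ (m + 1) with hR
  have hR0 : 0 ≤ R := by positivity
  have hfib : ∀ g ∈ F.image G, ((F.filter fun Q => G Q = g).card : ℝ) ≤ R := by
    intro g hg
    obtain ⟨Q0, hQ0, rfl⟩ := Finset.mem_image.1 hg
    refine fibre_le k hK lam y hlam hy (I Q0) (hIne Q0) (fun v => (2 : ℝ) ^ (e Q0 v))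
      (fun v => by positivity) ?_ hH0.le _ ?_
    · calc ∏ v : InfinitePlace K, ((2 : ℝ) ^ (e Q0 v)) ^ v.mult
          ≤ ∏ v : InfinitePlace K, (2 * M Q0 v) ^ v.mult :=
            Finset.prod_le_prod (fun v _ => by positivity)
              fun v _ => pow_le_pow_left₀ (by positivity) (hpow Q0 v).2 _
        _ = 2 ^ n * ∏ v, M Q0 v ^ v.mult := by
            simp only [mul_pow]
            rw [Finset.prod_mul_distrib, Finset.prod_pow_eq_pow_sum, InfinitePlace.sum_mult_eq, hK]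
        _ ≤ 2 ^ n * (H * Ideal.absNorm (I Q0)) := by
            rw [← hht]
            refine mul_le_mul_of_nonneg_left ?_ (by positivity)
            exact mul_le_mul_of_nonneg_right (hF Q0 hQ0).2.1 (by positivity)
    · intro Q hQ
      rw [Finset.mem_filter] at hQ
      obtain ⟨hQF, hG⟩ := hQ
      have h1 : I Q = I Q0 := congrArg Prod.fst hG
      have h2 : e Q = e Q0 := congrArg Prod.snd hG
      refine ⟨h1, fun v j => ?_, ?_⟩
      · refine (hle Q v j).trans ?_
        rw [← h2]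
        exact (hpow Q v).1
      · have h3 : (Set.range fun j => (y Q j : K)) = (fun x => lam Q * x) '' Set.range Q.rep := by
          rw [← Set.range_comp]
          congr 1
          funext j
          exact hy Q j
        have h4 := (hF Q hQF).2.2
        have h5 : (fun x => lam Q * x) = (LinearMap.mulLeft k (lam Q)) := rfl
        rw [h3, h5, Submodule.span_image, h4, Submodule.map_top, LinearMap.range_eq_top]
        intro x
        refine ⟨(lam Q)⁻¹ * x, ?_⟩
        show lam Q * ((lam Q)⁻¹ * x) = x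
        rw [mul_inv_cancel_left₀ (hlam Q)]
  have hcard : (F.card : ℝ) ≤ (F.image G).card * R := by
    have h1 : F.card = ∑ g ∈ F.image G, (F.filter fun Q => G Q = g).card :=
      Finset.card_eq_sum_card_image G F
    rw [h1]
    push_cast
    refine (Finset.sum_le_card_nsmul _ _ R hfib).trans (le_of_eq ?_)
    rw [nsmul_eq_mul]
  -- the number of the values
  have himg : F.image G ⊆ (F.image I) ×ˢ
      (Fintype.piFinset fun _ : InfinitePlace K => Finset.Icc ⌈τ - L⌉ ⌈τ⌉) := by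
    intro g hg
    obtain ⟨Q, hQ, rfl⟩ := Finset.mem_image.1 hg
    rw [Finset.mem_product]
    exact ⟨Finset.mem_image_of_mem _ hQ, hcellmem Q hQ⟩
  have himg2 : ((F.image G).card : ℝ) ≤ (F.image I).card *
      (Fintype.piFinset fun _ : InfinitePlace K => Finset.Icc ⌈τ - L⌉ ⌈τ⌉).card := by
    have := Finset.card_le_card himg
    rw [Finset.card_product] at this
    exact_mod_cast this
  have hideal : ((F.image I).card : ℝ) ≤ Real.exp (n * F0) * (q + 1) ^ (1 + ε / 2) := by
    have h1 := hid K (q + 1) (F.image I) (by linarith) (by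
      intro J hJ
      obtain ⟨Q, hQ, rfl⟩ := Finset.mem_image.1 hJ
      exact ⟨hIne Q, hyN Q⟩)
    rw [hK] at h1
    exact h1
  have hL0 : 0 ≤ L := Real.logb_nonneg (by norm_num) (by linarith)
  have hcells : ((Fintype.piFinset fun _ : InfinitePlace K => Finset.Icc ⌈τ - L⌉ ⌈τ⌉).card : ℝ) ≤
      C1 * q ^ (ε / 2) := by
    refine le_trans ?_ (hcell q hq1)
    rw [Fintype.card_piFinset, Finset.prod_const, Int.card_Icc, Finset.card_univ]
    push_cast
    have h1 : (((⌈τ⌉ + 1 - ⌈τ - L⌉).toNat : ℕ) : ℝ) ≤ L + 2 := by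
      have h2 : ⌈τ - L⌉ ≤ ⌈τ⌉ := Int.ceil_mono (by linarith)
      have h3 : (((⌈τ⌉ + 1 - ⌈τ - L⌉).toNat : ℕ) : ℤ) = ⌈τ⌉ + 1 - ⌈τ - L⌉ :=
        Int.toNat_of_nonneg (by omega)
      have h4 : (((⌈τ⌉ + 1 - ⌈τ - L⌉).toNat : ℕ) : ℝ) = (⌈τ⌉ : ℝ) + 1 - (⌈τ - L⌉ : ℝ) := by
        exact_mod_cast h3
      rw [h4]
      have h5 := Int.ceil_lt_add_one τ
      have h6 := Int.le_ceil (τ - L)
      linarith
    have h3 : Fintype.card (InfinitePlace K) ≤ n := by
      rw [← hK, ← InfinitePlace.sum_mult_eq (K := K)]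
      calc Fintype.card (InfinitePlace K) = ∑ _v : InfinitePlace K, 1 := by simp
        _ ≤ _ := Finset.sum_le_sum fun v _ => InfinitePlace.mult_pos
    calc (((⌈τ⌉ + 1 - ⌈τ - L⌉).toNat : ℕ) : ℝ) ^ Fintype.card (InfinitePlace K)
        ≤ (L + 2) ^ Fintype.card (InfinitePlace K) :=
          pow_le_pow_left₀ (Nat.cast_nonneg _) h1 _
      _ ≤ (L + 2) ^ n := pow_le_pow_right₀ (by linarith) h3
      _ ≤ (2 * ((n + 1) * Real.logb 2 q + 2) + 1) ^ n := by
          refine pow_le_pow_left₀ (by linarith) ?_ n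
          have h4 : 0 ≤ (n : ℝ) * Real.logb 2 q := by positivity
          linarith
  -- conclusion
  have hq2 : q + 1 ≤ 2 * q := by linarith
  calc (F.card : ℝ) ≤ (F.image G).card * R := hcard
    _ ≤ ((F.image I).card *
      (Fintype.piFinset fun _ : InfinitePlace K => Finset.Icc ⌈τ - L⌉ ⌈τ⌉).card) * R :=
        mul_le_mul_of_nonneg_right himg2 hR0
    _ ≤ ((Real.exp (n * F0) * (q + 1) ^ (1 + ε / 2)) * (C1 * q ^ (ε / 2))) * R := by
        refine mul_le_mul_of_nonneg_right ?_ hR0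
        exact mul_le_mul hideal hcells (Nat.cast_nonneg _) (by positivity)
    _ ≤ ((Real.exp (n * F0) * (2 * q) ^ (1 + ε / 2)) * (C1 * q ^ (ε / 2))) * R := by
        refine mul_le_mul_of_nonneg_right ?_ hR0
        have h1 : (q + 1) ^ (1 + ε / 2) ≤ (2 * q) ^ (1 + ε / 2) :=
          Real.rpow_le_rpow (by linarith) hq2 (by positivity)
        exact mul_le_mul_of_nonneg_right (mul_le_mul_of_nonneg_left h1 (Real.exp_pos _).le)
          (by positivity)
    _ = _ := by
        rw [hR, Real.mul_rpow (by norm_num) hq0.le, div_pow, mul_pow]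
        have e2 : q ^ (ε - m) = q ^ (1 + ε / 2) * q ^ (ε / 2) / q ^ (m + 1) := by
          rw [← Real.rpow_natCast q (m + 1), ← Real.rpow_add hq0, ← Real.rpow_sub hq0]
          congr 1
          push_cast
          ring
        rw [e2]
        ring

/-- **The sharp uniform upper bound** for the number of the points of relative height at most `H`
whose coordinates span the field `K` over `k`. -/
theorem t_PTS : S_REP → S_PTS := by
  intro hREP k _ _ n m hn ε hε
  obtain ⟨C, hC, hlev⟩ := level hREP k n m hn hε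
  refine ⟨2 * C, by linarith, fun K _ _ _ hK H hH F hF => ?_⟩
  classical
  have hq0 : 0 < √|(discr K : ℝ)| := lt_of_lt_of_le one_pos one_le_sqrt
  have hmh1 : ∀ Q : ℙ K (Fin (m + 1) → K), 1 ≤ Q.mulHeight := by
    intro Q
    rw [← rep_height]
    exact one_le_mulHeight _
  have key : ∀ N : ℕ, ∀ H : ℝ, 1 ≤ H → H ≤ 2 ^ N → ∀ F : Finset (ℙ K (Fin (m + 1) → K)),
      (∀ Q ∈ F, Q.mulHeight ≤ H ∧ Submodule.span k (Set.range Q.rep) = ⊤) →
      (F.card : ℝ) ≤ 2 * C * H ^ (m + 1) * √|(discr K : ℝ)| ^ (ε - m) := by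
    intro N
    -- the small heights
    have hsmall : ∀ H : ℝ, 1 ≤ H → H < 2 → ∀ F : Finset (ℙ K (Fin (m + 1) → K)),
        (∀ Q ∈ F, Q.mulHeight ≤ H ∧ Submodule.span k (Set.range Q.rep) = ⊤) →
        (F.card : ℝ) ≤ 2 * C * H ^ (m + 1) * √|(discr K : ℝ)| ^ (ε - m) := by
      intro H hH hH2 F hF
      have h1 := hlev K hK H (by linarith) F fun Q hQ =>
        ⟨by linarith [hmh1 Q], (hF Q hQ).1, (hF Q hQ).2⟩
      have h2 : 0 ≤ C * H ^ (m + 1) * √|(discr K : ℝ)| ^ (ε - m) := by positivity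
      linarith
    induction N with
    | zero =>
      intro H hH hH1 F hF
      rw [pow_zero] at hH1
      exact hsmall H hH (by linarith) F hF
    | succ N ih =>
      intro H hH hHN F hF
      rcases lt_or_ge H 2 with h2 | h2
      · exact hsmall H hH h2 F hF
      have h3 := ih (H / 2) (by linarith) (by rw [pow_succ] at hHN; linarith)
        (F.filter fun Q => ¬ (H / 2 < Q.mulHeight)) (by
          intro Q hQ
          rw [Finset.mem_filter, not_lt] at hQ
          exact ⟨hQ.2, (hF Q hQ.1).2⟩)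
      have h4 := hlev K hK H (by linarith) (F.filter fun Q => H / 2 < Q.mulHeight) (by
          intro Q hQ
          rw [Finset.mem_filter] at hQ
          exact ⟨hQ.2, (hF Q hQ.1).1, (hF Q hQ.1).2⟩)
      have h5 : (F.card : ℝ) = ((F.filter fun Q => H / 2 < Q.mulHeight).card : ℝ) +
          ((F.filter fun Q => ¬ (H / 2 < Q.mulHeight)).card : ℝ) := by
        exact_mod_cast (Finset.card_filter_add_card_filter_not _).symm
      rw [h5]
      have h6 : (H / 2) ^ (m + 1) ≤ H ^ (m + 1) / 2 := by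
        rw [div_pow]
        refine div_le_div_of_nonneg_left (by positivity) (by norm_num) ?_
        calc (2 : ℝ) = 2 ^ 1 := (pow_one _).symm
          _ ≤ 2 ^ (m + 1) := pow_le_pow_right₀ (by norm_num) (by omega)
      have h7 : 2 * C * (H / 2) ^ (m + 1) * √|(discr K : ℝ)| ^ (ε - m) ≤
          2 * C * (H ^ (m + 1) / 2) * √|(discr K : ℝ)| ^ (ε - m) :=
        mul_le_mul_of_nonneg_right (mul_le_mul_of_nonneg_left h6 (by linarith)) (by positivity)
      calc _ ≤ C * H ^ (m + 1) * √|(discr K : ℝ)| ^ (ε - m) +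
            2 * C * (H ^ (m + 1) / 2) * √|(discr K : ℝ)| ^ (ε - m) := add_le_add h4 (h3.trans h7)
        _ = _ := by ring
  obtain ⟨N, hN⟩ := pow_unbounded_of_one_lt H (one_lt_two : (1 : ℝ) < 2)
  exact key N H hH hN.le F hF

end Pool.Agent.N752.HY.Pts
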