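import Mathlib
import Pool.Agent.N752.HY.Stm
import Pool.Agent.N752.HY.Stm2
import Pool.Agent.N752.HY.Pts
import Pool.Agent.N752.SU.Count

/-!
The uniform upper bound for the number of the points whose coordinates span a space of dimension `s`
over `k` (subtask HY/DEG, by helper692).
-/

set_option autoImplicit false

namespace Pool.Agent.N752.HY.Deg2

open NumberField Module Finset IsDedekindDomain Height
open scoped LinearAlgebra.Projectivization
open Pool.Agent.R405 (mulHeight_int)
open Pool.Agent.N752.SU (ideals_le cells_le rep_height one_le_sqrt eq_of_lam)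
open Pool.Agent.N752.HY.Pts (low_cell)

/-- a basis in a finite set for which the coefficients of the elements of the set are at most one -/
lemma auer {V : Type} [AddCommGroup V] [Module ℚ V] (E : Finset V) :
    ∃ (r : ℕ) (b : Fin r → V), r = finrank ℚ (Submodule.span ℚ (E : Set V)) ∧ (∀ i, b i ∈ E) ∧
      ∀ z ∈ E, ∃ c : Fin r → ℚ, (∀ i, |c i| ≤ 1) ∧ z = ∑ i, c i • b i := by
  classical
  set W := Submodule.span ℚ (E : Set V) with hW
  have hfin : FiniteDimensional ℚ W := FiniteDimensional.span_finset ℚ E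
  let e : Basis (Fin (finrank ℚ W)) ℚ W := finBasis ℚ W
  let E' : Type := {w : W // (w : V) ∈ E}
  have hE' : Finite E' := by
    refine Finite.of_injective (fun w : E' => (⟨w.1.1, w.2⟩ : E)) ?_
    intro w w' h
    apply Subtype.ext
    apply Subtype.ext
    have h' := congrArg (fun u : E => (u : V)) h
    exact h'
  let v : E' → W := fun w => w.1
  have hv : Submodule.span ℚ (Set.range v) = ⊤ := by
    have h1 : Set.range v = ((↑) : W → V) ⁻¹' (E : Set V) := by
      ext w
      constructor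
      · rintro ⟨u, rfl⟩
        exact u.2
      · intro h
        exact ⟨⟨w, h⟩, rfl⟩
    rw [h1, hW]
    exact Submodule.span_span_coe_preimage
  obtain ⟨κ, a, ha, hsp, hli⟩ := exists_linearIndependent' ℚ v
  rw [hv] at hsp
  have hfin : Finite κ := Finite.of_injective a ha
  have : Fintype κ := Fintype.ofFinite κ
  have hc : Fintype.card κ = finrank ℚ W := by
    rw [← finrank_top ℚ W, ← hsp, finrank_span_eq_card hli]
  let ε : Fin (finrank ℚ W) ≃ κ := Fintype.equivOfCardEq (by rw [Fintype.card_fin, hc])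
  let t₀ : Fin (finrank ℚ W) → E' := fun i => a (ε i)
  let D : (Fin (finrank ℚ W) → E') → ℚ := fun t => |e.det (fun i => v (t i))|
  have ht₀ : 0 < D t₀ := by
    apply abs_pos.2
    have h1 : LinearIndependent ℚ (fun i => v (t₀ i)) := hli.comp ε ε.injective
    have h2 : Submodule.span ℚ (Set.range fun i => v (t₀ i)) = ⊤ := by
      have : (fun i => v (t₀ i)) = (v ∘ a) ∘ ε := rfl
      rw [this, EquivLike.range_comp]
      exact hsp
    exact ((Module.Basis.is_basis_iff_det e).1 ⟨h1, h2⟩).ne_zero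
  have hne : Nonempty (Fin (finrank ℚ W) → E') := ⟨t₀⟩
  obtain ⟨t, ht⟩ := Finite.exists_max D
  have hDt : 0 < D t := lt_of_lt_of_le ht₀ (ht t₀)
  have hdet : e.det (fun i => v (t i)) ≠ 0 := abs_pos.1 hDt
  obtain ⟨h1, h2⟩ := (Module.Basis.is_basis_iff_det e).2 (isUnit_iff_ne_zero.2 hdet)
  refine ⟨finrank ℚ W, fun i => (v (t i) : V), rfl, fun i => (t i).2, fun z hz => ?_⟩
  let z' : E' := ⟨⟨z, Submodule.subset_span hz⟩, hz⟩
  let f := Basis.mk h1 h2.ge
  refine ⟨fun i => f.coord i (v z'), fun i => ?_, ?_⟩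
  · have h3 := congrArg (fun g : W →ₗ[ℚ] ℚ => g (v z'))
      (Module.Basis.det_smul_mk_coord_eq_det_update (e := e) h1 h2.ge i)
    have h4 : e.det (fun i => v (t i)) * f.coord i (v z') =
        e.det (Function.update (fun i => v (t i)) i (v z')) := h3
    have h5 : Function.update (fun i => v (t i)) i (v z') =
        fun j => v (Function.update t i z' j) := by
      funext j
      by_cases hj : j = i
      · subst hj; simp
      · simp [Function.update_of_ne hj]
    have h6 : |e.det (fun i => v (t i))| * |f.coord i (v z')| ≤ |e.det (fun i => v (t i))| := by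
      rw [← abs_mul, h4, h5]
      exact ht (Function.update t i z')
    exact le_of_mul_le_mul_left (by simpa using h6) hDt
  · have h3 : v z' = ∑ i, f.coord i (v z') • v (t i) := by
      conv_lhs => rw [← f.sum_repr (v z')]
      refine Finset.sum_congr rfl fun i _ => ?_
      rw [Basis.mk_apply]
      rfl
    have h4 := congrArg (Subtype.val : W → V) h3
    rw [AddSubmonoidClass.coe_finsetSum] at h4
    exact h4

/-- packing without volumes -/
lemma pack {K : Type} [Field K] [NumberField K] {I : Ideal (𝓞 K)} (hI : I ≠ ⊥)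
    (T : InfinitePlace K → ℝ) {B : ℝ} (hB : 0 ≤ B)
    (hT : ∏ v, T v ^ v.mult ≤ (2 * B) ^ finrank ℚ K * Ideal.absNorm I)
    (W : Submodule ℚ K) (E : Finset (𝓞 K))
    (hE : ∀ z ∈ E, z ∈ I ∧ (z : K) ∈ W ∧ ∀ v : InfinitePlace K, v (z : K) ≤ T v) :
    (E.card : ℝ) ≤ (4 * finrank ℚ K * B + 3) ^ finrank ℚ W := by
  classical
  have hn : 0 < finrank ℚ K := finrank_pos
  set n := finrank ℚ K with hndef
  let E₁ : Finset K := E.image fun z : 𝓞 K => (z : K)
  obtain ⟨r, b, hr, hb, hc⟩ := auer E₁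
  have hrW : r ≤ finrank ℚ W := by
    rw [hr]
    apply Submodule.finrank_mono
    rw [Submodule.span_le]
    intro x hx
    obtain ⟨z, hz, rfl⟩ := Finset.mem_image.1 (Finset.mem_coe.1 hx)
    exact (hE z hz).2.1
  have hrn : r ≤ n := by
    rw [hr]
    exact Submodule.finrank_le _
  have hc' : ∀ z : 𝓞 K, ∃ c : Fin r → ℚ, z ∈ E → (∀ i, |c i| ≤ 1) ∧ (z : K) = ∑ i, c i • b i := by
    intro z
    by_cases hz : z ∈ E
    · obtain ⟨c, h1, h2⟩ := hc (z : K) (Finset.mem_image_of_mem _ hz)
      exact ⟨c, fun _ => ⟨h1, h2⟩⟩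
    · exact ⟨0, fun h => absurd h hz⟩
  choose c hc2 using hc'
  have hbT : ∀ i (v : InfinitePlace K), v (b i) ≤ T v := by
    intro i v
    obtain ⟨z, hz, he⟩ := Finset.mem_image.1 (hb i)
    rw [← he]
    exact (hE z hz).2.2 v
  set N : ℕ := ⌊2 * r * B⌋₊ + 1 with hN
  have hN0 : (0 : ℝ) < N := by rw [hN]; positivity
  have hN1 : 2 * r * B < N := by
    rw [hN]
    push_cast
    exact Nat.lt_floor_add_one _
  have hN2 : (N : ℝ) ≤ 2 * r * B + 1 := by
    rw [hN]
    push_cast
    have := Nat.floor_le (a := 2 * r * B) (by positivity)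
    linarith
  have hNq : (0 : ℚ) < N := by exact_mod_cast hN0
  have hcard : E.card ≤ (Fintype.piFinset fun _ : Fin r => Finset.Icc (-(N : ℤ)) N).card := by
    refine Finset.card_le_card_of_injOn (fun z i => ⌊(N : ℚ) * c z i⌋) (fun z hz => ?_) ?_
    · rw [Finset.mem_coe, Fintype.mem_piFinset]
      intro i
      have h1 := abs_le.1 ((hc2 z hz).1 i)
      rw [Finset.mem_Icc]
      constructor
      · rw [Int.le_floor]
        push_cast
        nlinarith [h1.1]
      · rw [← Int.cast_le (R := ℚ)]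
        refine (Int.floor_le _).trans ?_
        push_cast
        nlinarith [h1.2]
    · intro z hz z' hz' he
      rw [Finset.mem_coe] at hz hz'
      by_contra hne
      have hx0 : z - z' ≠ 0 := sub_ne_zero.2 hne
      have hxI : z - z' ∈ I := I.sub_mem (hE z hz).1 (hE z' hz').1
      have hdiff : ∀ i, |c z i - c z' i| ≤ 1 / N := by
        intro i
        have h1 : ⌊(N : ℚ) * c z i⌋ = ⌊(N : ℚ) * c z' i⌋ := congrFun he i
        have h2 := Int.abs_sub_lt_one_of_floor_eq_floor h1
        rw [← mul_sub, abs_mul, abs_of_pos hNq] at h2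
        rw [le_div_iff₀ hNq, mul_comm]
        exact h2.le
      have hval : ∀ v : InfinitePlace K, v ((z - z' : 𝓞 K) : K) ≤ (r / N : ℝ) * T v := by
        intro v
        have h1 : ((z - z' : 𝓞 K) : K) = ∑ i, (c z i - c z' i) • b i := by
          have h2 : ((z - z' : 𝓞 K) : K) = (z : K) - (z' : K) := map_sub (algebraMap (𝓞 K) K) z z'
          rw [h2, (hc2 z hz).2, (hc2 z' hz').2, ← Finset.sum_sub_distrib]
          refine Finset.sum_congr rfl fun i _ => ?_
          rw [sub_smul]
        rw [h1, ← InfinitePlace.norm_embedding_eq, map_sum]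
        refine (norm_sum_le _ _).trans ?_
        have h3 : ∀ i ∈ (Finset.univ : Finset (Fin r)),
            ‖v.embedding ((c z i - c z' i) • b i)‖ ≤ 1 / N * T v := by
          intro i _
          have h4 : v.embedding ((c z i - c z' i) • b i) =
              ((c z i - c z' i : ℚ) : ℂ) * v.embedding (b i) := by
            rw [Algebra.smul_def, map_mul, eq_ratCast, map_ratCast]
          rw [h4, norm_mul, InfinitePlace.norm_embedding_eq, Complex.norm_ratCast]
          have h5 : |((c z i - c z' i : ℚ) : ℝ)| ≤ 1 / N := by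
            have := hdiff i
            rw [← Rat.cast_abs]
            have h6 : ((|c z i - c z' i| : ℚ) : ℝ) ≤ ((1 / N : ℚ) : ℝ) := by exact_mod_cast this
            simpa using h6
          exact mul_le_mul h5 (hbT i v) (apply_nonneg _ _) (by positivity)
        refine (Finset.sum_le_card_nsmul _ _ _ h3).trans (le_of_eq ?_)
        rw [Finset.card_univ, Fintype.card_fin, nsmul_eq_mul]
        ring
      have hnorm := InfinitePlace.prod_eq_abs_norm (K := K) ((z - z' : 𝓞 K) : K)
      have hup : ∏ v : InfinitePlace K, v ((z - z' : 𝓞 K) : K) ^ v.mult ≤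
          (r / N * (2 * B)) ^ n * Ideal.absNorm I := by
        calc ∏ v : InfinitePlace K, v ((z - z' : 𝓞 K) : K) ^ v.mult
            ≤ ∏ v : InfinitePlace K, ((r / N : ℝ) * T v) ^ v.mult :=
              Finset.prod_le_prod (fun v _ => pow_nonneg (apply_nonneg _ _) _)
                fun v _ => pow_le_pow_left₀ (apply_nonneg _ _) (hval v) _
          _ = (r / N : ℝ) ^ n * ∏ v : InfinitePlace K, T v ^ v.mult := by
              simp only [mul_pow]
              rw [Finset.prod_mul_distrib, Finset.prod_pow_eq_pow_sum, InfinitePlace.sum_mult_eq]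
          _ ≤ (r / N : ℝ) ^ n * ((2 * B) ^ n * Ideal.absNorm I) :=
              mul_le_mul_of_nonneg_left hT (by positivity)
          _ = _ := by rw [mul_pow]; ring
      have hlt : (r / N * (2 * B) : ℝ) < 1 := by
        have : (r / N * (2 * B) : ℝ) = 2 * r * B / N := by ring
        rw [this, div_lt_one hN0]
        exact hN1
      have hIN : (0 : ℝ) < Ideal.absNorm I := by
        have : Ideal.absNorm I ≠ 0 := by rwa [Ne, Ideal.absNorm_eq_zero_iff]
        exact_mod_cast Nat.pos_of_ne_zero this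
      have hlow : (Ideal.absNorm I : ℝ) ≤ |((Algebra.norm ℚ ((z - z' : 𝓞 K) : K) : ℚ) : ℝ)| := by
        have h1 : Ideal.span {z - z'} ≤ I := by
          rw [Ideal.span_le, Set.singleton_subset_iff]
          exact hxI
        have h2 := Ideal.absNorm_dvd_absNorm_of_le h1
        rw [Ideal.absNorm_span_singleton] at h2
        have h3 : Algebra.norm ℤ (z - z') ≠ 0 := Algebra.norm_ne_zero_iff.2 hx0
        have h4 : Ideal.absNorm I ≤ (Algebra.norm ℤ (z - z')).natAbs :=
          Nat.le_of_dvd (Int.natAbs_pos.2 h3) h2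
        have h5 : (Algebra.norm ℚ ((z - z' : 𝓞 K) : K) : ℚ) = (Algebra.norm ℤ (z - z') : ℤ) :=
          (Algebra.coe_norm_int (z - z')).symm
        rw [h5]
        have h6 : ((Ideal.absNorm I : ℕ) : ℝ) ≤ ((Algebra.norm ℤ (z - z')).natAbs : ℕ) := by
          exact_mod_cast h4
        refine h6.trans (le_of_eq ?_)
        rw [Nat.cast_natAbs]
        push_cast
        rfl
      rw [hnorm] at hup
      have hfin : (r / N * (2 * B) : ℝ) ^ n * Ideal.absNorm I < 1 * Ideal.absNorm I :=
        mul_lt_mul_of_pos_right (pow_lt_one₀ (by positivity) hlt hn.ne') hIN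
      rw [Rat.cast_abs] at hup
      linarith
  have hX1 : (1 : ℝ) ≤ 4 * n * B + 3 := by
    have : 0 ≤ 4 * (n : ℝ) * B := by positivity
    linarith
  rw [Fintype.card_piFinset, Finset.prod_const, Finset.card_univ, Fintype.card_fin,
    Int.card_Icc] at hcard
  have h7 : ((N : ℤ) + 1 - -(N : ℤ)).toNat = 2 * N + 1 := by omega
  rw [h7] at hcard
  calc (E.card : ℝ) ≤ ((2 * N + 1 : ℕ) : ℝ) ^ r := by exact_mod_cast hcard
    _ ≤ (4 * n * B + 3) ^ r := by
        refine pow_le_pow_left₀ (Nat.cast_nonneg _) ?_ _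
        push_cast
        have h8 : (r : ℝ) ≤ n := by exact_mod_cast hrn
        have h9 : (r : ℝ) * B ≤ n * B := mul_le_mul_of_nonneg_right h8 hB
        nlinarith
    _ ≤ (4 * n * B + 3) ^ finrank ℚ W := pow_le_pow_right₀ hX1 hrW

lemma card_image_mul {α β : Type*} [DecidableEq β] (s : Finset α) (f : α → β) (R : ℝ)
    (h : ∀ g ∈ s.image f, ((s.filter fun x => f x = g).card : ℝ) ≤ R) :
    (s.card : ℝ) ≤ (s.image f).card * R := by
  have h1 : s.card = ∑ g ∈ s.image f, (s.filter fun x => f x = g).card :=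
    Finset.card_eq_sum_card_image f s
  rw [h1]
  push_cast
  refine (Finset.sum_le_card_nsmul _ _ R h).trans (le_of_eq ?_)
  rw [nsmul_eq_mul]

lemma prod_two {α : Type*} [Fintype α] [DecidableEq α] (J : Finset α) (a b : ℕ) :
    ∏ j : α, (if j ∈ J then a else b) = a ^ J.card * b ^ (Fintype.card α - J.card) := by
  rw [Finset.prod_ite, Finset.prod_const, Finset.prod_const]
  congr 2
  · rw [Finset.filter_mem_eq_inter, Finset.univ_inter]
  · have : (Finset.univ.filter fun x => x ∉ J) = Jᶜ := by ext; simp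
    rw [this, Finset.card_compl]

section fib

variable {K : Type} [Field K] [NumberField K] {m : ℕ}

/-- the tuples with entries in a finite set whose entries in `J` generate the span -/
lemma tuples (k : Type) [Field k] [NumberField k] [Algebra k K] {X : ℝ} (hX : 1 ≤ X)
    (E : Finset (𝓞 K))
    (hE : ∀ (W : Submodule ℚ K) (E' : Finset (𝓞 K)), E' ⊆ E → (∀ z ∈ E', (z : K) ∈ W) →
      (E'.card : ℝ) ≤ X ^ finrank ℚ W)
    (J : Finset (Fin (m + 1))) (A : Finset (Fin (m + 1) → 𝓞 K))
    (hA : ∀ u ∈ A, (∀ j, u j ∈ E) ∧ ∀ j, (u j : K) ∈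
      Submodule.span k ((fun i => (u i : K)) '' (J : Set (Fin (m + 1))))) :
    (A.card : ℝ) ≤ X ^ (finrank ℚ K * J.card + J.card * finrank ℚ k * (m + 1 - J.card)) := by
  classical
  let ρ : (Fin (m + 1) → 𝓞 K) → Fin (m + 1) → 𝓞 K := fun u j => if j ∈ J then u j else 0
  have hX0 : 0 ≤ X := by linarith
  have hEc : (E.card : ℝ) ≤ X ^ finrank ℚ K := by
    have := hE ⊤ E subset_rfl fun z _ => Submodule.mem_top
    rwa [finrank_top] at this
  have himg : ((A.image ρ).card : ℝ) ≤ X ^ (finrank ℚ K * J.card) := by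
    have h1 : (A.image ρ).card ≤
        (Fintype.piFinset fun j : Fin (m + 1) => if j ∈ J then E else {0}).card := by
      apply Finset.card_le_card
      intro g hg
      obtain ⟨u, hu, rfl⟩ := Finset.mem_image.1 hg
      rw [Fintype.mem_piFinset]
      intro j
      by_cases hj : j ∈ J
      · simp only [ρ, hj, if_true]
        exact (hA u hu).1 j
      · simp [ρ, hj]
    rw [Fintype.card_piFinset] at h1
    have h2 : ∀ j : Fin (m + 1), (if j ∈ J then E else ({0} : Finset (𝓞 K))).card =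
        if j ∈ J then E.card else 1 := by
      intro j
      split_ifs
      · rfl
      · rw [Finset.card_singleton]
    simp only [h2] at h1
    rw [prod_two, one_pow, mul_one] at h1
    calc ((A.image ρ).card : ℝ) ≤ (E.card : ℝ) ^ J.card := by exact_mod_cast h1
      _ ≤ (X ^ finrank ℚ K) ^ J.card := pow_le_pow_left₀ (Nat.cast_nonneg _) hEc _
      _ = _ := by rw [pow_mul]
  have hfib : ∀ g ∈ A.image ρ, ((A.filter fun u => ρ u = g).card : ℝ) ≤
      X ^ (J.card * finrank ℚ k * (m + 1 - J.card)) := by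
    intro g _
    set V : Submodule k K := Submodule.span k ((fun i => (g i : K)) '' (J : Set (Fin (m + 1))))
      with hV
    have hVk : finrank k V ≤ J.card := by
      have h1 : V = Submodule.span k ((J.image fun i => (g i : K) : Finset K) : Set K) := by
        rw [hV, Finset.coe_image]
      rw [h1]
      exact (finrank_span_finset_le_card _).trans Finset.card_image_le
    have hVQ : finrank ℚ (Submodule.restrictScalars ℚ V) ≤ J.card * finrank ℚ k := by
      have h1 : finrank ℚ (Submodule.restrictScalars ℚ V) = finrank ℚ k * finrank k V :=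
        (Module.finrank_mul_finrank ℚ k V).symm
      rw [h1, mul_comm]
      exact Nat.mul_le_mul_right _ hVk
    have hEV : ((E.filter fun z : 𝓞 K => (z : K) ∈ V).card : ℝ) ≤ X ^ (J.card * finrank ℚ k) := by
      refine (hE (Submodule.restrictScalars ℚ V) _ (Finset.filter_subset _ _) fun z hz => ?_).trans
        (pow_le_pow_right₀ hX hVQ)
      rw [Submodule.restrictScalars_mem]
      exact (Finset.mem_filter.1 hz).2
    have h1 : (A.filter fun u => ρ u = g).card ≤ (Fintype.piFinset fun j : Fin (m + 1) =>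
        if j ∈ J then {g j} else E.filter fun z : 𝓞 K => (z : K) ∈ V).card := by
      apply Finset.card_le_card
      intro u hu
      rw [Finset.mem_filter] at hu
      obtain ⟨hu, hug⟩ := hu
      have hJ : ∀ j ∈ J, u j = g j := by
        intro j hj
        rw [← hug]
        simp [ρ, hj]
      rw [Fintype.mem_piFinset]
      intro j
      by_cases hj : j ∈ J
      · simp only [hj, if_true, Finset.mem_singleton]
        exact hJ j hj
      · simp only [hj, if_false, Finset.mem_filter]
        refine ⟨(hA u hu).1 j, ?_⟩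
        have h2 := (hA u hu).2 j
        have h3 : (fun i => (u i : K)) '' (J : Set (Fin (m + 1))) =
            (fun i => (g i : K)) '' (J : Set (Fin (m + 1))) := by
          apply Set.image_congr
          intro i hi
          rw [hJ i (Finset.mem_coe.1 hi)]
        rwa [h3] at h2
    rw [Fintype.card_piFinset] at h1
    have h2 : ∀ j : Fin (m + 1), (if j ∈ J then {g j} else E.filter fun z : 𝓞 K => (z : K) ∈ V).card =
        if j ∈ J then 1 else (E.filter fun z : 𝓞 K => (z : K) ∈ V).card := by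
      intro j
      split_ifs
      · rw [Finset.card_singleton]
      · rfl
    simp only [h2] at h1
    rw [prod_two, one_pow, one_mul, Fintype.card_fin] at h1
    calc ((A.filter fun u => ρ u = g).card : ℝ)
        ≤ ((E.filter fun z : 𝓞 K => (z : K) ∈ V).card : ℝ) ^ (m + 1 - J.card) := by exact_mod_cast h1
      _ ≤ (X ^ (J.card * finrank ℚ k)) ^ (m + 1 - J.card) :=
          pow_le_pow_left₀ (Nat.cast_nonneg _) hEV _
      _ = _ := (pow_mul _ _ _).symm
  refine (card_image_mul A ρ _ hfib).trans ?_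
  rw [pow_add]
  exact mul_le_mul_of_nonneg_right himg (pow_nonneg hX0 _)

/-- the points with given ideal, given size at the infinite places and given dimension -/
lemma fibre (k : Type) [Field k] [NumberField k] [Algebra k K] {B : ℝ} (hB : 0 ≤ B) {s : ℕ}
    (lam : ℙ K (Fin (m + 1) → K) → K) (y : ℙ K (Fin (m + 1) → K) → Fin (m + 1) → 𝓞 K)
    (hlam : ∀ Q, lam Q ≠ 0) (hy : ∀ Q j, (y Q j : K) = lam Q * Q.rep j)
    (I : Ideal (𝓞 K)) (hI : I ≠ ⊥) (T : InfinitePlace K → ℝ)
    (hT : ∏ v, T v ^ v.mult ≤ (2 * B) ^ finrank ℚ K * Ideal.absNorm I)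
    (F : Finset (ℙ K (Fin (m + 1) → K)))
    (hF : ∀ Q ∈ F, Ideal.span (Set.range (y Q)) = I ∧
      (∀ (v : InfinitePlace K) j, v (y Q j : K) ≤ T v) ∧
      finrank k (Submodule.span k (Set.range fun j => (y Q j : K))) = s) :
    (F.card : ℝ) ≤ 2 ^ (m + 1) * (4 * finrank ℚ K * B + 3) ^
      (finrank ℚ K * s + s * finrank ℚ k * (m + 1 - s)) := by
  classical
  set X : ℝ := 4 * finrank ℚ K * B + 3 with hXdef
  have hX : 1 ≤ X := by
    have : 0 ≤ 4 * (finrank ℚ K : ℝ) * B := by positivity
    linarith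
  set E : Finset (𝓞 K) := F.biUnion fun Q => Finset.univ.image (y Q) with hEdef
  have hmem : ∀ Q ∈ F, ∀ j, y Q j ∈ E := by
    intro Q hQ j
    rw [hEdef, Finset.mem_biUnion]
    exact ⟨Q, hQ, Finset.mem_image_of_mem _ (Finset.mem_univ j)⟩
  have hEI : ∀ z ∈ E, z ∈ I ∧ ∀ v : InfinitePlace K, v (z : K) ≤ T v := by
    intro z hz
    rw [hEdef, Finset.mem_biUnion] at hz
    obtain ⟨Q, hQ, hz⟩ := hz
    obtain ⟨j, -, rfl⟩ := Finset.mem_image.1 hz
    obtain ⟨h1, h2, -⟩ := hF Q hQ
    refine ⟨?_, fun v => h2 v j⟩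
    rw [← h1]
    exact Ideal.subset_span (Set.mem_range_self j)
  have hE : ∀ (W : Submodule ℚ K) (E' : Finset (𝓞 K)), E' ⊆ E → (∀ z ∈ E', (z : K) ∈ W) →
      (E'.card : ℝ) ≤ X ^ finrank ℚ W := by
    intro W E' hE' hW
    exact pack hI T hB hT W E' fun z hz => ⟨(hEI z (hE' hz)).1, hW z hz, (hEI z (hE' hz)).2⟩
  set Y : Finset (Fin (m + 1) → 𝓞 K) := F.image y with hYdef
  have hYc : Y.card = F.card := by
    apply Finset.card_image_of_injOn
    intro Q _ Q' _ he
    refine eq_of_lam (hlam Q) (l' := lam Q') fun j => ?_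
    have he' : y Q = y Q' := he
    rw [← hy, ← hy, he']
  let A : Finset (Fin (m + 1)) → Finset (Fin (m + 1) → 𝓞 K) := fun J =>
    Y.filter fun u => J.card = s ∧ ∀ j, (u j : K) ∈
      Submodule.span k ((fun i => (u i : K)) '' (J : Set (Fin (m + 1))))
  have hcov : Y ⊆ Finset.univ.biUnion A := by
    intro u hu
    rw [hYdef] at hu
    obtain ⟨Q, hQ, rfl⟩ := Finset.mem_image.1 hu
    obtain ⟨κ, a, ha, hsp, hli⟩ := exists_linearIndependent' k fun j => (y Q j : K)
    have hfin : Finite κ := Finite.of_injective a ha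
    have : Fintype κ := Fintype.ofFinite κ
    have hc : Fintype.card κ = s := by
      rw [← (hF Q hQ).2.2, ← hsp, finrank_span_eq_card hli]
    rw [Finset.mem_biUnion]
    refine ⟨Finset.univ.image a, Finset.mem_univ _, ?_⟩
    rw [Finset.mem_filter]
    refine ⟨Finset.mem_image_of_mem y hQ, ?_, fun j => ?_⟩
    · rw [Finset.card_image_of_injective _ ha, Finset.card_univ, hc]
    · have h1 : (fun i => (y Q i : K)) '' ((Finset.univ.image a : Finset (Fin (m + 1))) :
          Set (Fin (m + 1))) = Set.range ((fun j => (y Q j : K)) ∘ a) := by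
        rw [Finset.coe_image, Finset.coe_univ, Set.image_univ, ← Set.range_comp]
      rw [h1, hsp]
      exact Submodule.subset_span (Set.mem_range_self j)
  have hAc : ∀ J ∈ (Finset.univ : Finset (Finset (Fin (m + 1)))), ((A J).card : ℝ) ≤
      X ^ (finrank ℚ K * s + s * finrank ℚ k * (m + 1 - s)) := by
    intro J _
    by_cases hJ : J.card = s
    · have h1 := tuples k hX E hE J (A J) (by
        intro u hu
        rw [Finset.mem_filter] at hu
        obtain ⟨hu, -, h2⟩ := hu
        refine ⟨fun j => ?_, h2⟩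
        obtain ⟨Q, hQ, rfl⟩ := Finset.mem_image.1 hu
        exact hmem Q hQ j)
      rw [hJ] at h1
      exact h1
    · have : A J = ∅ := by
        rw [Finset.filter_eq_empty_iff]
        intro u _ h
        exact hJ h.1
      rw [this, Finset.card_empty, Nat.cast_zero]
      positivity
  calc (F.card : ℝ) = Y.card := by rw [hYc]
    _ ≤ ((Finset.univ.biUnion A).card : ℝ) := by exact_mod_cast Finset.card_le_card hcov
    _ ≤ ((∑ J : Finset (Fin (m + 1)), (A J).card : ℕ) : ℝ) := by
        exact_mod_cast Finset.card_biUnion_le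
    _ = ∑ J : Finset (Fin (m + 1)), ((A J).card : ℝ) := by push_cast; rfl
    _ ≤ _ := Finset.sum_le_card_nsmul _ _ _ hAc
    _ = _ := by
        rw [Finset.card_univ, Fintype.card_finset, Fintype.card_fin, nsmul_eq_mul]
        push_cast
        rfl

end fib

lemma finrank_rep (k : Type) [Field k] {K : Type} [Field K] [Algebra k K] {m : ℕ} {l : K}
    (hl : l ≠ 0) (x z : Fin (m + 1) → K) (h : ∀ j, z j = l * x j) :
    finrank k (Submodule.span k (Set.range z)) = finrank k (Submodule.span k (Set.range x)) := by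
  have h1 : Set.range z = (LinearMap.mulLeft k l) '' Set.range x := by
    rw [← Set.range_comp]
    congr 1
    funext j
    exact h j
  rw [h1, Submodule.span_image]
  have hinj : Function.Injective (LinearMap.mulLeft k l) := by
    intro a b hab
    exact mul_left_cancel₀ hl hab
  exact (Submodule.equivMapOfInjective (LinearMap.mulLeft k l) hinj _).finrank_eq.symm

/-- one level of the height -/
theorem level (hREP : S_REP) (k : Type) [Field k] [NumberField k] (n m s : ℕ) (hn : 1 ≤ n) {ε : ℝ}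
    (hε : 0 < ε) : ∃ C : ℝ, 1 ≤ C ∧
    ∀ (K : Type) [Field K] [NumberField K] [Algebra k K], finrank ℚ K = n → ∀ B : ℝ, 1 ≤ B →
      ∀ F : Finset (ℙ K (Fin (m + 1) → K)),
      (∀ Q ∈ F, B ^ n / 2 < Q.mulHeight ∧ Q.mulHeight ≤ B ^ n ∧
        finrank k (Submodule.span k (Set.range Q.rep)) = s) →
      (F.card : ℝ) ≤ C * √|(discr K : ℝ)| ^ (1 + ε) *
        B ^ (n * s + s * finrank ℚ k * (m + 1 - s)) := by
  classical
  obtain ⟨F0, hF0, hid⟩ := ideals_le (half_pos hε)
  obtain ⟨C1, hC1, hcell⟩ := cells_le n hn (half_pos hε)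
  have hn1 : (1 : ℝ) ≤ n := by exact_mod_cast hn
  set Ex : ℕ := n * s + s * finrank ℚ k * (m + 1 - s) with hEx
  refine ⟨Real.exp (n * F0) * 2 ^ (1 + ε / 2) * C1 * (2 ^ (m + 1) * (7 * n) ^ Ex), ?_, ?_⟩
  · have h1 : 1 ≤ Real.exp (n * F0) := Real.one_le_exp (by positivity)
    have h2 : (1 : ℝ) ≤ 2 ^ (1 + ε / 2) := Real.one_le_rpow (by norm_num) (by positivity)
    have h3 : (1 : ℝ) ≤ 2 ^ (m + 1) * (7 * n) ^ Ex :=
      one_le_mul_of_one_le_of_one_le (one_le_pow₀ (by norm_num)) (one_le_pow₀ (by linarith))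
    exact one_le_mul_of_one_le_of_one_le (one_le_mul_of_one_le_of_one_le
      (one_le_mul_of_one_le_of_one_le h1 h2) hC1) h3
  intro K _ _ _ hK b hb F hF
  set H : ℝ := b ^ n with hHdef
  have hH0 : 0 < H := by positivity
  set q : ℝ := √|(discr K : ℝ)| with hq
  have hq1 : 1 ≤ q := one_le_sqrt
  have hq0 : 0 < q := by linarith
  set B : ℝ := (q + 1) * H with hB
  have hB0 : 0 < B := by positivity
  have hrep := fun Q : ℙ K (Fin (m + 1) → K) =>
    hREP K inferInstance inferInstance (m + 1) Q.rep Q.rep_nonzero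
  choose lam y hlam hy hyU hyN using hrep
  let M : ℙ K (Fin (m + 1) → K) → InfinitePlace K → ℝ := fun Q v => ⨆ i, v (y Q i : K)
  let I : ℙ K (Fin (m + 1) → K) → Ideal (𝓞 K) := fun Q => Ideal.span (Set.range (y Q))
  let e : ℙ K (Fin (m + 1) → K) → InfinitePlace K → ℤ := fun Q v => ⌈Real.logb 2 (M Q v)⌉
  set τ : ℝ := Real.logb 2 B / n with hτ
  set L : ℝ := Real.logb 2 (2 * (q + 1)) with hL
  have hLq : L ≤ Real.logb 2 q + 2 := by
    have h1 : L ≤ Real.logb 2 (q * 2 ^ (2 : ℝ)) := by
      refine Real.logb_le_logb_of_le (by norm_num) (by positivity) ?_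
      have : (2 : ℝ) ^ (2 : ℝ) = 4 := by norm_num
      rw [this]
      linarith
    rwa [Real.logb_mul hq0.ne' (by positivity), Real.logb_rpow (by norm_num) (by norm_num)] at h1
  have hLq0 : 0 ≤ Real.logb 2 q := Real.logb_nonneg (by norm_num) hq1
  -- facts
  have hrepne : ∀ Q : ℙ K (Fin (m + 1) → K), ∃ j, Q.rep j ≠ 0 := fun Q =>
    Function.ne_iff.1 Q.rep_nonzero
  have hyne : ∀ Q, ∃ j, y Q j ≠ 0 := by
    intro Q
    obtain ⟨j, hj⟩ := hrepne Q
    refine ⟨j, fun h0 => ?_⟩
    have h1 := hy Q j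
    rw [h0] at h1
    have h2 : lam Q * Q.rep j = 0 := by rw [← h1]; simp
    exact mul_ne_zero (hlam Q) hj h2
  have hyne' : ∀ Q, y Q ≠ 0 := fun Q => Function.ne_iff.2 (hyne Q)
  have hIne : ∀ Q, I Q ≠ ⊥ := by
    intro Q h
    obtain ⟨j, hj⟩ := hyne Q
    apply hj
    have : y Q j ∈ I Q := Ideal.subset_span (Set.mem_range_self j)
    rw [h] at this
    exact this
  have hIN : ∀ Q, (1 : ℝ) ≤ Ideal.absNorm (I Q) := by
    intro Q
    have : Ideal.absNorm (I Q) ≠ 0 := by rw [Ne, Ideal.absNorm_eq_zero_iff]; exact hIne Q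
    exact_mod_cast Nat.one_le_iff_ne_zero.2 this
  have hle : ∀ Q v i, v (y Q i : K) ≤ M Q v := fun Q v i =>
    le_ciSup (f := fun i => v (y Q i : K)) (Set.finite_range _).bddAbove i
  have hM0 : ∀ Q v, 0 < M Q v := by
    intro Q v
    obtain ⟨j, hj⟩ := hyne Q
    refine lt_of_lt_of_le ?_ (hle Q v j)
    rw [InfinitePlace.pos_iff]
    exact RingOfIntegers.coe_ne_zero_iff.2 hj
  have hht : ∀ Q, Q.mulHeight * Ideal.absNorm (I Q) = ∏ v, M Q v ^ v.mult := by
    intro Q
    have h1 := mulHeight_int (y Q) (hyne' Q)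
    rw [← h1]
    congr 1
    have h2 : (fun j => (y Q j : K)) = lam Q • Q.rep := funext fun j => hy Q j
    rw [h2, mulHeight_smul_eq_mulHeight _ (hlam Q), rep_height]
  have hMU : ∀ Q ∈ F, ∀ v, M Q v ^ finrank ℚ K ≤ B := by
    intro Q hQ v
    obtain ⟨i, hi⟩ := exists_eq_ciSup_of_finite (f := fun i => v (y Q i : K))
    have h1 : M Q v = v (y Q i : K) := hi.symm
    rw [h1]
    refine (hyU Q v i).trans ?_
    rw [hB, rep_height]
    exact mul_le_mul_of_nonneg_left (hF Q hQ).2.1 (by linarith)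
  have hMprod : ∀ Q ∈ F, H / 2 ≤ ∏ v, M Q v ^ v.mult := by
    intro Q hQ
    rw [← hht]
    have h1 := (hF Q hQ).1
    exact h1.le.trans (le_mul_of_one_le_right (by linarith) (hIN Q))
  have hpow : ∀ Q v, M Q v ≤ (2 : ℝ) ^ (e Q v) ∧ (2 : ℝ) ^ (e Q v) ≤ 2 * M Q v := by
    intro Q v
    have h1 : (2 : ℝ) ^ (e Q v) = (2 : ℝ) ^ ((e Q v : ℤ) : ℝ) := (Real.rpow_intCast 2 _).symm
    have h2 : (2 : ℝ) ^ Real.logb 2 (M Q v) = M Q v :=
      Real.rpow_logb (by norm_num) (by norm_num) (hM0 Q v)
    rw [h1]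
    constructor
    · conv_lhs => rw [← h2]
      exact Real.rpow_le_rpow_of_exponent_le (by norm_num) (Int.le_ceil _)
    · conv_rhs => rw [← h2]
      have h3 : (2 : ℝ) * 2 ^ Real.logb 2 (M Q v) = 2 ^ (Real.logb 2 (M Q v) + 1) := by
        rw [Real.rpow_add (by norm_num), Real.rpow_one, mul_comm]
      rw [h3]
      exact Real.rpow_le_rpow_of_exponent_le (by norm_num) (Int.ceil_lt_add_one _).le
  have hcellmem : ∀ Q ∈ F, e Q ∈
      Fintype.piFinset fun _ : InfinitePlace K => Finset.Icc ⌈τ - L⌉ ⌈τ⌉ := by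
    intro Q hQ
    rw [Fintype.mem_piFinset]
    intro v
    have h1 := low_cell (M Q) (hM0 Q) (hMU Q hQ) (by linarith : 0 < H / 2) (hMprod Q hQ) v
    have h2 : B / (H / 2) = 2 * (q + 1) := by
      rw [hB]
      field_simp
    rw [h2, hK] at h1
    rw [Finset.mem_Icc]
    exact ⟨Int.ceil_mono h1.2, Int.ceil_mono h1.1⟩
  -- the fibres
  let G : ℙ K (Fin (m + 1) → K) → Ideal (𝓞 K) × (InfinitePlace K → ℤ) := fun Q => (I Q, e Q)
  set R : ℝ := 2 ^ (m + 1) * (7 * n) ^ Ex * b ^ Ex with hR
  have hR0 : 0 ≤ R := by positivity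
  have hfib : ∀ g ∈ F.image G, ((F.filter fun Q => G Q = g).card : ℝ) ≤ R := by
    intro g hg
    obtain ⟨Q0, hQ0, rfl⟩ := Finset.mem_image.1 hg
    have hmain := fibre k (by linarith : (0 : ℝ) ≤ b) lam y hlam hy (I Q0) (hIne Q0)
      (fun v => (2 : ℝ) ^ (e Q0 v)) (by
        rw [hK]
        calc ∏ v : InfinitePlace K, ((2 : ℝ) ^ (e Q0 v)) ^ v.mult
            ≤ ∏ v : InfinitePlace K, (2 * M Q0 v) ^ v.mult :=
              Finset.prod_le_prod (fun v _ => by positivity)
                fun v _ => pow_le_pow_left₀ (by positivity) (hpow Q0 v).2 _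
          _ = 2 ^ n * ∏ v, M Q0 v ^ v.mult := by
              simp only [mul_pow]
              rw [Finset.prod_mul_distrib, Finset.prod_pow_eq_pow_sum, InfinitePlace.sum_mult_eq, hK]
          _ ≤ 2 ^ n * (H * Ideal.absNorm (I Q0)) := by
              rw [← hht]
              refine mul_le_mul_of_nonneg_left ?_ (by positivity)
              exact mul_le_mul_of_nonneg_right (hF Q0 hQ0).2.1 (by positivity)
          _ = (2 * b) ^ n * Ideal.absNorm (I Q0) := by rw [mul_pow, hHdef]; ring)
      (F.filter fun Q => G Q = G Q0) (s := s) (by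
        intro Q hQ
        rw [Finset.mem_filter] at hQ
        obtain ⟨hQF, hG⟩ := hQ
        have h1 : I Q = I Q0 := congrArg Prod.fst hG
        have h2 : e Q = e Q0 := congrArg Prod.snd hG
        refine ⟨h1, fun v j => ?_, ?_⟩
        · refine (hle Q v j).trans ?_
          rw [← h2]
          exact (hpow Q v).1
        · rw [finrank_rep k (hlam Q) Q.rep (fun j => (y Q j : K)) (fun j => hy Q j)]
          exact (hF Q hQF).2.2)
    refine hmain.trans ?_
    have e1 : R = 2 ^ (m + 1) * (7 * n * b) ^ Ex := by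
      rw [hR, mul_pow (7 * (n : ℝ)) b]
      ring
    rw [hK, ← hEx, e1]
    refine mul_le_mul_of_nonneg_left (pow_le_pow_left₀ (by positivity) ?_ _) (by positivity)
    nlinarith
  have hcard : (F.card : ℝ) ≤ (F.image G).card * R := card_image_mul F G R hfib
  -- the number of the values
  have himg : F.image G ⊆ (F.image I) ×ˢ
      (Fintype.piFinset fun _ : InfinitePlace K => Finset.Icc ⌈τ - L⌉ ⌈τ⌉) := by
    intro g hg
    obtain ⟨Q, hQ, rfl⟩ := Finset.mem_image.1 hg
    rw [Finset.mem_product]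
    exact ⟨Finset.mem_image_of_mem _ hQ, hcellmem Q hQ⟩
  have himg2 : ((F.image G).card : ℝ) ≤ (F.image I).card *
      (Fintype.piFinset fun _ : InfinitePlace K => Finset.Icc ⌈τ - L⌉ ⌈τ⌉).card := by
    have := Finset.card_le_card himg
    rw [Finset.card_product] at this
    exact_mod_cast this
  have hideal : ((F.image I).card : ℝ) ≤ Real.exp (n * F0) * (q + 1) ^ (1 + ε / 2) := by
    have h1 := hid K (q + 1) (F.image I) (by linarith) (by
      intro J hJ
      obtain ⟨Q, hQ, rfl⟩ := Finset.mem_image.1 hJ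
      exact ⟨hIne Q, hyN Q⟩)
    rw [hK] at h1
    exact h1
  have hL0 : 0 ≤ L := Real.logb_nonneg (by norm_num) (by linarith)
  have hcells : ((Fintype.piFinset fun _ : InfinitePlace K => Finset.Icc ⌈τ - L⌉ ⌈τ⌉).card : ℝ) ≤
      C1 * q ^ (ε / 2) := by
    refine le_trans ?_ (hcell q hq1)
    rw [Fintype.card_piFinset, Finset.prod_const, Int.card_Icc, Finset.card_univ]
    push_cast
    have h1 : (((⌈τ⌉ + 1 - ⌈τ - L⌉).toNat : ℕ) : ℝ) ≤ L + 2 := by
      have h2 : ⌈τ - L⌉ ≤ ⌈τ⌉ := Int.ceil_mono (by linarith)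
      have h3 : (((⌈τ⌉ + 1 - ⌈τ - L⌉).toNat : ℕ) : ℤ) = ⌈τ⌉ + 1 - ⌈τ - L⌉ :=
        Int.toNat_of_nonneg (by omega)
      have h4 : (((⌈τ⌉ + 1 - ⌈τ - L⌉).toNat : ℕ) : ℝ) = (⌈τ⌉ : ℝ) + 1 - (⌈τ - L⌉ : ℝ) := by
        exact_mod_cast h3
      rw [h4]
      have h5 := Int.ceil_lt_add_one τ
      have h6 := Int.le_ceil (τ - L)
      linarith
    have h3 : Fintype.card (InfinitePlace K) ≤ n := by
      rw [← hK, ← InfinitePlace.sum_mult_eq (K := K)]
      calc Fintype.card (InfinitePlace K) = ∑ _v : InfinitePlace K, 1 := by simp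
        _ ≤ _ := Finset.sum_le_sum fun v _ => InfinitePlace.mult_pos
    calc (((⌈τ⌉ + 1 - ⌈τ - L⌉).toNat : ℕ) : ℝ) ^ Fintype.card (InfinitePlace K)
        ≤ (L + 2) ^ Fintype.card (InfinitePlace K) :=
          pow_le_pow_left₀ (Nat.cast_nonneg _) h1 _
      _ ≤ (L + 2) ^ n := pow_le_pow_right₀ (by linarith) h3
      _ ≤ (2 * ((n + 1) * Real.logb 2 q + 2) + 1) ^ n := by
          refine pow_le_pow_left₀ (by linarith) ?_ n
          have h4 : 0 ≤ (n : ℝ) * Real.logb 2 q := by positivity
          linarith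
  -- conclusion
  have hq2 : q + 1 ≤ 2 * q := by linarith
  calc (F.card : ℝ) ≤ (F.image G).card * R := hcard
    _ ≤ ((F.image I).card *
      (Fintype.piFinset fun _ : InfinitePlace K => Finset.Icc ⌈τ - L⌉ ⌈τ⌉).card) * R :=
        mul_le_mul_of_nonneg_right himg2 hR0
    _ ≤ ((Real.exp (n * F0) * (q + 1) ^ (1 + ε / 2)) * (C1 * q ^ (ε / 2))) * R := by
        refine mul_le_mul_of_nonneg_right ?_ hR0
        exact mul_le_mul hideal hcells (Nat.cast_nonneg _) (by positivity)
    _ ≤ ((Real.exp (n * F0) * (2 * q) ^ (1 + ε / 2)) * (C1 * q ^ (ε / 2))) * R := by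
        refine mul_le_mul_of_nonneg_right ?_ hR0
        have h1 : (q + 1) ^ (1 + ε / 2) ≤ (2 * q) ^ (1 + ε / 2) :=
          Real.rpow_le_rpow (by linarith) hq2 (by positivity)
        exact mul_le_mul_of_nonneg_right (mul_le_mul_of_nonneg_left h1 (Real.exp_pos _).le)
          (by positivity)
    _ = _ := by
        rw [hR, Real.mul_rpow (by norm_num) hq0.le]
        have e2 : q ^ (1 + ε) = q ^ (1 + ε / 2) * q ^ (ε / 2) := by
          rw [← Real.rpow_add hq0]
          congr 1
          ring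
        rw [e2]
        ring

/-- **HY/DEG**: the uniform upper bound for the number of the points whose coordinates span a space
of dimension `s` over `k`. -/
theorem t_DEG : S_REP → S_DEG := by
  intro hREP k _ _ n m s hn hs1 hs ε hε
  obtain ⟨C, hC, hlev⟩ := level hREP k n m s hn hε
  refine ⟨2 * C, by linarith, fun K _ _ _ hK B hB F hF => ?_⟩
  classical
  set Ex : ℕ := n * s + s * finrank ℚ k * (m + 1 - s) with hEx
  have hnEx : n ≤ Ex := (Nat.le_mul_of_pos_right n hs1).trans (Nat.le_add_right _ _)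
  have hq0 : 0 < √|(discr K : ℝ)| := lt_of_lt_of_le one_pos one_le_sqrt
  have hmh1 : ∀ Q : ℙ K (Fin (m + 1) → K), 1 ≤ Q.mulHeight := by
    intro Q
    rw [← rep_height]
    exact one_le_mulHeight _
  -- the root of two
  obtain ⟨t, ht1, htn⟩ : ∃ t : ℝ, 1 ≤ t ∧ t ^ n = 2 := by
    refine ⟨2 ^ ((n : ℝ)⁻¹), Real.one_le_rpow (by norm_num) (by positivity), ?_⟩
    exact Real.rpow_inv_natCast_pow (by norm_num) (by omega)
  have ht0 : 0 < t := by linarith
  have key : ∀ N : ℕ, ∀ B : ℝ, 1 ≤ B → B ^ n ≤ 2 ^ N → ∀ F : Finset (ℙ K (Fin (m + 1) → K)),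
      (∀ Q ∈ F, Q.mulHeight ≤ B ^ n ∧ finrank k (Submodule.span k (Set.range Q.rep)) = s) →
      (F.card : ℝ) ≤ 2 * C * √|(discr K : ℝ)| ^ (1 + ε) * B ^ Ex := by
    intro N
    -- the small heights
    have hsmall : ∀ B : ℝ, 1 ≤ B → B ^ n < 2 → ∀ F : Finset (ℙ K (Fin (m + 1) → K)),
        (∀ Q ∈ F, Q.mulHeight ≤ B ^ n ∧ finrank k (Submodule.span k (Set.range Q.rep)) = s) →
        (F.card : ℝ) ≤ 2 * C * √|(discr K : ℝ)| ^ (1 + ε) * B ^ Ex := by
      intro B hB hB2 F hF
      have h1 := hlev K hK B hB F fun Q hQ =>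
        ⟨by linarith [hmh1 Q], (hF Q hQ).1, (hF Q hQ).2⟩
      have h2 : 0 ≤ C * √|(discr K : ℝ)| ^ (1 + ε) * B ^ Ex := by positivity
      linarith
    induction N with
    | zero =>
      intro B hB hB1 F hF
      rw [pow_zero] at hB1
      exact hsmall B hB (by linarith) F hF
    | succ N ih =>
      intro B hB hBN F hF
      rcases lt_or_ge (B ^ n) 2 with h2 | h2
      · exact hsmall B hB h2 F hF
      have hBt : (B / t) ^ n = B ^ n / 2 := by rw [div_pow, htn]
      have hBt1 : 1 ≤ B / t := by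
        rw [le_div_iff₀ ht0, one_mul]
        refine le_of_pow_le_pow_left₀ (n := n) (by omega) (by linarith) ?_
        rw [htn]
        exact h2
      have h3 := ih (B / t) hBt1 (by rw [hBt]; rw [pow_succ] at hBN; linarith)
        (F.filter fun Q => ¬ (B ^ n / 2 < Q.mulHeight)) (by
          intro Q hQ
          rw [Finset.mem_filter, not_lt] at hQ
          rw [hBt]
          exact ⟨hQ.2, (hF Q hQ.1).2⟩)
      have h4 := hlev K hK B hB (F.filter fun Q => B ^ n / 2 < Q.mulHeight) (by
          intro Q hQ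
          rw [Finset.mem_filter] at hQ
          exact ⟨hQ.2, (hF Q hQ.1).1, (hF Q hQ.1).2⟩)
      have h5 : (F.card : ℝ) = ((F.filter fun Q => B ^ n / 2 < Q.mulHeight).card : ℝ) +
          ((F.filter fun Q => ¬ (B ^ n / 2 < Q.mulHeight)).card : ℝ) := by
        exact_mod_cast (Finset.card_filter_add_card_filter_not _).symm
      rw [h5]
      have h6 : (B / t) ^ Ex ≤ B ^ Ex / 2 := by
        rw [div_pow]
        refine div_le_div_of_nonneg_left (by positivity) (by norm_num) ?_
        rw [← htn]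
        exact pow_le_pow_right₀ ht1 hnEx
      have h7 : 2 * C * √|(discr K : ℝ)| ^ (1 + ε) * (B / t) ^ Ex ≤
          2 * C * √|(discr K : ℝ)| ^ (1 + ε) * (B ^ Ex / 2) :=
        mul_le_mul_of_nonneg_left h6 (by positivity)
      calc _ ≤ C * √|(discr K : ℝ)| ^ (1 + ε) * B ^ Ex +
            2 * C * √|(discr K : ℝ)| ^ (1 + ε) * (B ^ Ex / 2) := add_le_add h4 (h3.trans h7)
        _ = _ := by ring
  obtain ⟨N, hN⟩ := pow_unbounded_of_one_lt (B ^ n) (one_lt_two : (1 : ℝ) < 2)
  exact key N B hB hN.le F hF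

end Pool.Agent.N752.HY.Deg2
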