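import Mathlib
import Pool.Agent.N752.SU.Universal
import Pool.Agent.N752.HY.Stm

/-!
The points whose field of definition has a large discriminant are few.
-/

set_option autoImplicit false

namespace Pool.Agent.N752.HY

open NumberField Finset
open scoped LinearAlgebra.Projectivization
open Pool.Agent.Results.MP_44a246_nt.BoundedDegreeHyperplanes
  (height logDisc toC fieldOf n_pos toC_inj)
open Pool.Agent.N752.SU (Full E3 Spans spanDim rep_height spans_iff full_upper full_mono one_le_sqrt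
  disc_le ck)
open Pool.Agent.W223.VD (FieldExp Flds)

variable {m : ℕ}

lemma height_rel {K : IntermediateField ℚ ℂ} (hK : NumberField K) (Q : ℙ K (Fin (m + 1) → K))
    (T : ℝ) (h : height Q ≤ T) : Q.mulHeight ≤ Real.exp (Module.finrank ℚ K * T) := by
  have hmh : 0 < Q.mulHeight := by
    rw [← rep_height]; exact Height.mulHeight_pos _
  unfold height at h
  rw [div_le_iff₀ (n_pos K)] at h
  rw [← Real.log_le_iff_le_exp hmh]
  linarith

/-- the points over one field -/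
lemma E3_card (hP : S_PTS) (k : IntermediateField ℚ ℂ) [NumberField k] (n : ℕ) (hn : 1 ≤ n)
    {ε : ℝ} (hε : 0 < ε) : ∃ C : ℝ, 1 ≤ C ∧ ∀ (K : IntermediateField ℚ ℂ) (_ : NumberField K),
      Module.finrank ℚ K = n → ∀ T : ℝ, 0 ≤ T → (E3 k m K (Real.exp T)).Finite ∧
      ((E3 k m K (Real.exp T)).ncard : ℝ) ≤
        C * Real.exp (n * (m + 1) * T) * √|(discr K : ℝ)| ^ (ε - m) := by
  classical
  obtain ⟨C, hC1, hC⟩ := hP k inferInstance inferInstance n m hn ε hε
  refine ⟨C, hC1, fun K hK hKn T hT => ?_⟩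
  have hf : (E3 k m K (Real.exp T)).Finite := by
    obtain ⟨C', -, h⟩ := Pool.Agent.N752.RD.pts_upper K m
    have h1 := (h (Real.exp T) (Real.one_le_exp hT)).1
    refine (h1.image toC).subset ?_
    rintro P ⟨hK', h', Q, hQ, -, hh⟩
    have : hK' = hK := Subsingleton.elim _ _
    subst this
    refine ⟨Q, ?_, hQ⟩
    rw [Real.log_exp] at hh
    have h2 := height_rel hK' Q T hh
    rw [Set.mem_ofPred_eq, ← Real.exp_nat_mul]
    exact h2
  refine ⟨hf, ?_⟩
  rcases (E3 k m K (Real.exp T)).eq_empty_or_nonempty with hemp | ⟨P0, hP0⟩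
  · rw [hemp, Set.ncard_empty, Nat.cast_zero]
    positivity
  obtain ⟨-, hkK, -⟩ := hP0
  let _ : Algebra k K := (IntermediateField.inclusion hkK).toRingHom.toAlgebra
  have hex : ∀ P : ℙ ℂ (Fin (m + 1) → ℂ), ∃ Q : ℙ K (Fin (m + 1) → K),
      P ∈ E3 k m K (Real.exp T) → ∃ h : k ≤ K, toC Q = P ∧ Spans h Q ∧ height Q ≤ T := by
    intro P
    by_cases hP : P ∈ E3 k m K (Real.exp T)
    · obtain ⟨hK', h, Q, hQ, hs, hh⟩ := hP
      have : hK' = hK := Subsingleton.elim _ _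
      subst this
      rw [Real.log_exp] at hh
      exact ⟨Q, fun _ => ⟨h, hQ, hs, hh⟩⟩
    · exact ⟨Projectivization.mk K (fun _ => 1) (by
        intro h0
        have := congrFun h0 0
        simp at this), fun h => absurd h hP⟩
  choose ψ hψ using hex
  have hn0 : (0 : ℝ) ≤ (n : ℝ) * T := by positivity
  have h3 := hC K _ _ _ hKn (Real.exp (n * T)) (Real.one_le_exp hn0) (hf.toFinset.image ψ) (by
    intro Q hQ
    obtain ⟨P, hP, rfl⟩ := Finset.mem_image.1 hQ
    rw [Set.Finite.mem_toFinset] at hP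
    obtain ⟨h, h4, h5, h6⟩ := hψ P hP
    refine ⟨?_, h5⟩
    have := height_rel hK _ T h6
    rwa [hKn] at this)
  have h4 : (E3 k m K (Real.exp T)).ncard = (hf.toFinset.image ψ).card := by
    rw [Finset.card_image_of_injOn, Set.ncard_eq_toFinset_card _ hf]
    intro P hP P' hP' he
    rw [Finset.mem_coe, Set.Finite.mem_toFinset] at hP hP'
    obtain ⟨-, h5, -⟩ := hψ P hP
    obtain ⟨-, h6, -⟩ := hψ P' hP'
    rw [← h5, ← h6, he]
  rw [h4]
  refine h3.trans (le_of_eq ?_)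
  rw [← Real.exp_nat_mul]
  congr 3
  push_cast
  ring

/-- **The points whose field has a large discriminant.** -/
theorem tail (hP : S_PTS) (k : IntermediateField ℚ ℂ) [NumberField k] (hm : 1 ≤ m)
    (r n : ℕ) (hn : n = r * Module.finrank ℚ k) (hn2 : 2 ≤ n) {α : ℝ} (hα1 : 1 ≤ α)
    (hF : FieldExp n α) (hmα : 2 * α < m) :
    ∃ C c : ℝ, 0 ≤ C ∧ 0 < c ∧ ∀ T : ℝ, 0 ≤ T → ∀ X : ℝ, 1 ≤ X →
      (({P | P ∈ Full k m r T ∧ ∃ (K : IntermediateField ℚ ℂ) (_ : NumberField K),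
        fieldOf k P = K ∧ X < |(discr K : ℝ)|}).ncard : ℝ) ≤
        C * X ^ (-c) * Real.exp (n * (m + 1) * T) := by
  classical
  obtain ⟨CF, hCF, hFl⟩ := hF
  have hn0 : (0 : ℝ) < n := by exact_mod_cast (show 0 < n by omega)
  set ε : ℝ := ((m : ℝ) - 2 * α) / 2 with hε
  have hε0 : 0 < ε := by rw [hε]; linarith
  set c : ℝ := ((m : ℝ) - 2 * α) / 4 with hc
  have hc0 : 0 < c := by rw [hc]; linarith
  obtain ⟨C₂, hC₂, hpts⟩ := E3_card (m := m) hP k n (by omega) hε0
  obtain ⟨C₃, hfull⟩ := full_upper k hm r n hn hn2 hα1 ⟨CF, hCF, hFl⟩ hmα.le 1 one_pos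
  have h2c : (2 : ℝ) ^ (-c) < 1 := Real.rpow_lt_one_of_one_lt_of_neg (by norm_num) (by linarith)
  have h2c0 : (0 : ℝ) < 2 ^ (-c) := by positivity
  refine ⟨CF * 2 ^ α * C₂ * (1 - 2 ^ (-c))⁻¹, c, ?_, hc0, fun T hT X hX => ?_⟩
  · have : 0 < 1 - (2 : ℝ) ^ (-c) := by linarith
    positivity
  have hX0 : 0 < X := by linarith
  set S : Set (ℙ ℂ (Fin (m + 1) → ℂ)) := {P | P ∈ Full k m r T ∧
    ∃ (K : IntermediateField ℚ ℂ) (_ : NumberField K), fieldOf k P = K ∧ X < |(discr K : ℝ)|}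
    with hS
  have hSfin : S.Finite := (hfull T hT).1.subset fun P hP => hP.1
  -- a bound for the discriminants
  obtain ⟨N, hN⟩ : ∃ N : ℕ, ∀ P ∈ S, ∀ (K : IntermediateField ℚ ℂ) (_ : NumberField K),
      fieldOf k P = K → |(discr K : ℝ)| ≤ 2 ^ N * X := by
    have h1 : ∀ P ∈ S, ∃ N : ℕ, ∀ (K : IntermediateField ℚ ℂ) (_ : NumberField K),
      fieldOf k P = K → |(discr K : ℝ)| ≤ 2 ^ N * X := by
      rintro P ⟨-, K, hK, hf, -⟩
      obtain ⟨N, hN⟩ := pow_unbounded_of_one_lt |(discr K : ℝ)| (one_lt_two (α := ℝ))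
      refine ⟨N, fun K' hK' hf' => ?_⟩
      have e : K = K' := hf.symm.trans hf'
      subst e
      have : hK = hK' := Subsingleton.elim _ _
      subst this
      refine hN.le.trans (le_mul_of_one_le_right (by positivity) hX)
    choose! f hf using h1
    refine ⟨hSfin.toFinset.sup f, fun P hP K hK hfK => ?_⟩
    refine (hf P hP K hK hfK).trans (mul_le_mul_of_nonneg_right ?_ hX0.le)
    exact pow_le_pow_right₀ (by norm_num) (Finset.le_sup (f := f) (hSfin.mem_toFinset.2 hP))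
  have hY1 : ∀ i : ℕ, (1 : ℝ) ≤ 2 ^ (i + 1) * X := fun i =>
    one_le_mul_of_one_le_of_one_le (one_le_pow₀ (by norm_num)) hX
  let W : ℕ → Finset (IntermediateField ℚ ℂ) := fun i =>
    (hFl (2 ^ (i + 1) * X) (hY1 i)).1.toFinset.filter fun K => ∀ _ : NumberField K,
      2 ^ i * X ≤ |(discr K : ℝ)|
  have hsub : S ⊆ ⋃ i ∈ Finset.range N, ⋃ K ∈ W i, E3 k m K (Real.exp T) := by
    rintro P hPS
    obtain ⟨hPF, K, hK, hf, hXK⟩ := hPS
    obtain ⟨hs, K', hK', h, Q, hf', hd, hQ, hh⟩ := hPF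
    have e : K = K' := hf.symm.trans hf'
    subst e
    have : hK = hK' := Subsingleton.elim _ _
    subst this
    have hNK := hN P ⟨⟨hs, K, hK, h, Q, hf', hd, hQ, hh⟩, K, hK, hf, hXK⟩ K hK hf
    -- the least index
    have hex : ∃ j : ℕ, |(discr K : ℝ)| ≤ 2 ^ j * X := ⟨N, hNK⟩
    have hj := Nat.find_spec hex
    have hj0 : Nat.find hex ≠ 0 := by
      intro h0
      rw [h0, pow_zero, one_mul] at hj
      linarith
    obtain ⟨i, hi⟩ := Nat.exists_eq_succ_of_ne_zero hj0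
    have hmin : ¬ |(discr K : ℝ)| ≤ 2 ^ i * X := Nat.find_min hex (by omega)
    push Not at hmin
    have hiN : i < N := by
      have := Nat.find_min' hex hNK
      omega
    rw [Set.mem_iUnion₂]
    refine ⟨i, Finset.mem_range.2 hiN, ?_⟩
    rw [Set.mem_iUnion₂]
    refine ⟨K, ?_, hK, h, Q, hQ, ?_, by rw [Real.log_exp]; exact hh⟩
    · rw [Finset.mem_filter, Set.Finite.mem_toFinset]
      refine ⟨⟨hK, by rw [hd, hn], ?_⟩, fun hK'' => ?_⟩
      · rw [hi] at hj
        exact hj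
      · have : hK = hK'' := Subsingleton.elim _ _
        subst this
        exact hmin.le
    · rw [spans_iff h hd, hQ]
      exact hs
  have hK3 : ∀ i, ∀ K ∈ W i, (E3 k m K (Real.exp T)).Finite ∧
      ((E3 k m K (Real.exp T)).ncard : ℝ) ≤
        C₂ * Real.exp (n * (m + 1) * T) * (2 ^ i * X) ^ ((ε - m) / 2) := by
    intro i K hK
    rw [Finset.mem_filter, Set.Finite.mem_toFinset] at hK
    obtain ⟨⟨hK1, hK2, -⟩, hK3⟩ := hK
    obtain ⟨h1, h2⟩ := hpts K hK1 hK2 T hT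
    refine ⟨h1, h2.trans ?_⟩
    refine mul_le_mul_of_nonneg_left ?_ (by positivity)
    rw [Real.sqrt_eq_rpow, ← Real.rpow_mul (abs_nonneg _)]
    have e1 : (1 : ℝ) / 2 * (ε - m) = (ε - m) / 2 := by ring
    rw [e1]
    refine Real.rpow_le_rpow_of_nonpos (by positivity) (hK3 hK1) ?_
    rw [hε]
    linarith
  have hfin : (⋃ i ∈ Finset.range N, ⋃ K ∈ W i, E3 k m K (Real.exp T)).Finite :=
    Set.Finite.biUnion (Finset.finite_toSet _) fun i _ => Set.Finite.biUnion
      (Finset.finite_toSet _) fun K hK => (hK3 i K hK).1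
  have hWc : ∀ i, ((W i).card : ℝ) ≤ CF * (2 ^ (i + 1) * X) ^ α := by
    intro i
    refine le_trans ?_ (hFl (2 ^ (i + 1) * X) (hY1 i)).2
    rw [Set.ncard_eq_toFinset_card _ (hFl (2 ^ (i + 1) * X) (hY1 i)).1]
    have h5 : (W i).card ≤ (hFl (2 ^ (i + 1) * X) (hY1 i)).1.toFinset.card :=
      Finset.card_filter_le _ _
    exact_mod_cast h5
  have h1 : (S.ncard : ℝ) ≤ ∑ i ∈ Finset.range N, ∑ K ∈ W i,
      ((E3 k m K (Real.exp T)).ncard : ℝ) := by
    have h2 := (Set.ncard_le_ncard hsub hfin).trans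
      (Finset.set_ncard_biUnion_le (Finset.range N) fun i => ⋃ K ∈ W i, E3 k m K (Real.exp T))
    refine (Nat.cast_le.2 h2).trans ?_
    push_cast
    refine Finset.sum_le_sum fun i _ => ?_
    have := Finset.set_ncard_biUnion_le (W i) fun K => E3 k m K (Real.exp T)
    exact_mod_cast this
  refine h1.trans ?_
  have h3 : ∀ i ∈ Finset.range N, ∑ K ∈ W i, ((E3 k m K (Real.exp T)).ncard : ℝ) ≤
      (CF * 2 ^ α * C₂ * X ^ (-c) * Real.exp (n * (m + 1) * T)) * (2 ^ (-c)) ^ i := by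
    intro i _
    calc ∑ K ∈ W i, ((E3 k m K (Real.exp T)).ncard : ℝ)
        ≤ ∑ _K ∈ W i, C₂ * Real.exp (n * (m + 1) * T) * (2 ^ i * X) ^ ((ε - m) / 2) :=
          Finset.sum_le_sum fun K hK => (hK3 i K hK).2
      _ = ((W i).card : ℝ) * (C₂ * Real.exp (n * (m + 1) * T) * (2 ^ i * X) ^ ((ε - m) / 2)) := by
          rw [Finset.sum_const, nsmul_eq_mul]
      _ ≤ (CF * (2 ^ (i + 1) * X) ^ α) *
          (C₂ * Real.exp (n * (m + 1) * T) * (2 ^ i * X) ^ ((ε - m) / 2)) :=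
          mul_le_mul_of_nonneg_right (hWc i) (by positivity)
      _ = _ := by
          have e1 : ((2 : ℝ) ^ (i + 1) * X) ^ α = 2 ^ α * (2 ^ i * X) ^ α := by
            rw [pow_succ, mul_comm ((2 : ℝ) ^ i) 2, mul_assoc, Real.mul_rpow (by norm_num)
              (by positivity)]
          have e2 : ((2 : ℝ) ^ i * X) ^ α * (2 ^ i * X) ^ ((ε - m) / 2) = (2 ^ i * X) ^ (-c) := by
            rw [← Real.rpow_add (by positivity)]
            congr 1
            rw [hε, hc]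
            ring
          have e3 : ((2 : ℝ) ^ i * X) ^ (-c) = (2 ^ (-c)) ^ i * X ^ (-c) := by
            rw [Real.mul_rpow (by positivity) hX0.le, ← Real.rpow_natCast, ← Real.rpow_mul
              (by norm_num), ← Real.rpow_natCast ((2 : ℝ) ^ (-c)), ← Real.rpow_mul (by norm_num),
              mul_comm (i : ℝ)]
          rw [e1]
          calc (CF * (2 ^ α * (2 ^ i * X) ^ α)) *
                (C₂ * Real.exp (n * (m + 1) * T) * (2 ^ i * X) ^ ((ε - m) / 2)) =
              CF * 2 ^ α * C₂ * Real.exp (n * (m + 1) * T) *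
                ((2 ^ i * X) ^ α * (2 ^ i * X) ^ ((ε - m) / 2)) := by ring
            _ = _ := by rw [e2, e3]; ring
  refine (Finset.sum_le_sum h3).trans ?_
  rw [← Finset.mul_sum]
  have h4 : ∑ i ∈ Finset.range N, ((2 : ℝ) ^ (-c)) ^ i ≤ (1 - 2 ^ (-c))⁻¹ := by
    rw [← tsum_geometric_of_lt_one h2c0.le h2c]
    exact (summable_geometric_of_lt_one h2c0.le h2c).sum_le_tsum _ fun i _ => by positivity
  calc (CF * 2 ^ α * C₂ * X ^ (-c) * Real.exp (n * (m + 1) * T)) *
        ∑ i ∈ Finset.range N, ((2 : ℝ) ^ (-c)) ^ i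
      ≤ (CF * 2 ^ α * C₂ * X ^ (-c) * Real.exp (n * (m + 1) * T)) * (1 - 2 ^ (-c))⁻¹ :=
        mul_le_mul_of_nonneg_left h4 (by positivity)
    _ = _ := by ring

end Pool.Agent.N752.HY
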