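import Mathlib
import Pool.Agent.N752.HY.Tail
import Pool.Agent.N752.HY.Stm2
import Pool.Agent.N752.FD.Disc

/-!
The points of degree `r` whose coordinates do not span a space of dimension `r` are few, if `m` is
large.
-/

set_option autoImplicit false

namespace Pool.Agent.N752.HY

open NumberField Finset Module
open scoped LinearAlgebra.Projectivization
open Pool.Agent.Results.MP_44a246_nt.BoundedDegreeHyperplanes
  (height logDisc toC fieldOf n_pos toC_inj fieldOf_le rep_toC one_le_disc)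
open Pool.Agent.N752.SU (Full Spans spanDim rep_height spanDim_toC)
open Pool.Agent.W223.VD (FieldExp Flds)

/-- The points of `ℙ^m` whose field of definition has degree `r` over `k`, of absolute logarithmic
height at most `T`. -/
def All (k : IntermediateField ℚ ℂ) (m r : ℕ) (T : ℝ) : Set (ℙ ℂ (Fin (m + 1) → ℂ)) :=
  {P | ∃ (K : IntermediateField ℚ ℂ) (_ : NumberField K) (_ : k ≤ K)
    (Q : ℙ K (Fin (m + 1) → K)), fieldOf k P = K ∧
    Module.finrank ℚ K = r * Module.finrank ℚ k ∧ toC Q = P ∧ height Q ≤ T}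

variable {m : ℕ}

/-- the points over one field whose coordinates span a space of dimension `s` -/
def D3 (k : IntermediateField ℚ ℂ) (m s : ℕ) (K : IntermediateField ℚ ℂ) (T : ℝ) :
    Set (ℙ ℂ (Fin (m + 1) → ℂ)) :=
  {P | ∃ (_ : NumberField K) (_ : k ≤ K) (Q : ℙ K (Fin (m + 1) → K)), toC Q = P ∧
    spanDim k P = s ∧ height Q ≤ T}

lemma D3_card (hD : S_DEG) (k : IntermediateField ℚ ℂ) [NumberField k] (n s : ℕ) (hn : 1 ≤ n)
    (hs : 1 ≤ s) (hsm : s ≤ m + 1) {ε : ℝ} (hε : 0 < ε) : ∃ C : ℝ, 1 ≤ C ∧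
    ∀ (K : IntermediateField ℚ ℂ) (_ : NumberField K),
      Module.finrank ℚ K = n → ∀ T : ℝ, 0 ≤ T → (D3 k m s K T).Finite ∧
      ((D3 k m s K T).ncard : ℝ) ≤ C * √|(discr K : ℝ)| ^ (1 + ε) *
        Real.exp (((n * s + s * finrank ℚ k * (m + 1 - s) : ℕ) : ℝ) * T) := by
  classical
  obtain ⟨C, hC1, hC⟩ := hD k inferInstance inferInstance n m s hn hs hsm ε hε
  refine ⟨C, hC1, fun K hK hKn T hT => ?_⟩
  have hf : (D3 k m s K T).Finite := by
    obtain ⟨C', -, h⟩ := Pool.Agent.N752.RD.pts_upper K m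
    have h1 := (h (Real.exp T) (Real.one_le_exp hT)).1
    refine (h1.image toC).subset ?_
    rintro P ⟨hK', h', Q, hQ, -, hh⟩
    have : hK' = hK := Subsingleton.elim _ _
    subst this
    refine ⟨Q, ?_, hQ⟩
    have h2 := height_rel hK' Q T hh
    rw [Set.mem_ofPred_eq, ← Real.exp_nat_mul]
    exact h2
  refine ⟨hf, ?_⟩
  rcases (D3 k m s K T).eq_empty_or_nonempty with hemp | ⟨P0, hP0⟩
  · rw [hemp, Set.ncard_empty, Nat.cast_zero]
    positivity
  obtain ⟨-, hkK, -⟩ := hP0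
  let _ : Algebra k K := (IntermediateField.inclusion hkK).toRingHom.toAlgebra
  have hex : ∀ P : ℙ ℂ (Fin (m + 1) → ℂ), ∃ Q : ℙ K (Fin (m + 1) → K),
      P ∈ D3 k m s K T → toC Q = P ∧ spanDim k P = s ∧ height Q ≤ T := by
    intro P
    by_cases hP : P ∈ D3 k m s K T
    · obtain ⟨hK', h, Q, hQ, hs, hh⟩ := hP
      have : hK' = hK := Subsingleton.elim _ _
      subst this
      exact ⟨Q, fun _ => ⟨hQ, hs, hh⟩⟩
    · exact ⟨Projectivization.mk K (fun _ => 1) (by
        intro h0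
        have := congrFun h0 0
        simp at this), fun h => absurd h hP⟩
  choose ψ hψ using hex
  have h3 := hC K inferInstance inferInstance inferInstance hKn (Real.exp T) (Real.one_le_exp hT)
    (hf.toFinset.image ψ) (by
    intro Q hQ
    obtain ⟨P, hP, rfl⟩ := Finset.mem_image.1 hQ
    rw [Set.Finite.mem_toFinset] at hP
    obtain ⟨h4, h5, h6⟩ := hψ P hP
    refine ⟨?_, ?_⟩
    · have := height_rel hK _ T h6
      rwa [hKn, Real.exp_nat_mul] at this
    · rw [← spanDim_toC hkK, h4, h5])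
  have h4 : (D3 k m s K T).ncard = (hf.toFinset.image ψ).card := by
    rw [Finset.card_image_of_injOn, Set.ncard_eq_toFinset_card _ hf]
    intro P hP P' hP' he
    rw [Finset.mem_coe, Set.Finite.mem_toFinset] at hP hP'
    obtain ⟨h5, -⟩ := hψ P hP
    obtain ⟨h6, -⟩ := hψ P' hP'
    rw [← h5, ← h6, he]
  rw [h4]
  refine h3.trans (le_of_eq ?_)
  rw [← Real.exp_nat_mul]

/-- the dimension for a point of degree `r` which is different from `r` -/
lemma span_range (k : IntermediateField ℚ ℂ) [NumberField k] (r : ℕ) {T : ℝ}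
    {P : ℙ ℂ (Fin (m + 1) → ℂ)} (hP : P ∈ All k m r T) (hs : spanDim k P ≠ r) :
    2 ≤ spanDim k P ∧ spanDim k P ≤ r - 1 ∧ 3 ≤ r := by
  obtain ⟨K, hK, h, Q, hf, hd, rfl, -⟩ := hP
  let _ : Algebra k K := (IntermediateField.inclusion h).toRingHom.toAlgebra
  have hst : IsScalarTower ℚ k K := IsScalarTower.of_algebraMap_eq fun x => by
    apply Subtype.ext
    show ((algebraMap ℚ K x : K) : ℂ) = ((algebraMap ℚ k x : k) : ℂ)
    simp
  have hfd : FiniteDimensional k K := FiniteDimensional.right ℚ k K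
  have hk0 : 0 < finrank ℚ k := finrank_pos
  have hfr : Module.finrank ℚ k * Module.finrank k K = Module.finrank ℚ K :=
    Module.finrank_mul_finrank ℚ k K
  have hrK : Module.finrank k K = r := by
    rw [hd, mul_comm] at hfr
    exact Nat.eq_of_mul_eq_mul_right hk0 hfr
  rw [spanDim_toC h Q] at hs ⊢
  set V := Submodule.span k (Set.range Q.rep) with hV
  have h1 : finrank k V ≤ r := by rw [← hrK]; exact Submodule.finrank_le V
  obtain ⟨j, hj⟩ := Function.ne_iff.mp Q.rep_nonzero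
  have hj' : Q.rep j ≠ 0 := hj
  have hjV : Q.rep j ∈ V := Submodule.subset_span (Set.mem_range_self j)
  have h2 : finrank k V ≠ 0 := by
    intro h0
    rw [Submodule.finrank_eq_zero] at h0
    rw [h0, Submodule.mem_bot] at hjV
    exact hj' hjV
  have h3 : finrank k V ≠ 1 := by
    intro h3
    -- the point is rational over `k`
    have hrat : ∀ i, ∃ c : k, Q.rep i = c • Q.rep j := by
      intro i
      have hv : (⟨Q.rep j, hjV⟩ : V) ≠ 0 := by
        intro h0
        exact hj' (congrArg Subtype.val h0)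
      obtain ⟨c, hc⟩ := (finrank_eq_one_iff_of_nonzero' (⟨Q.rep j, hjV⟩ : V) hv).1 h3
        ⟨Q.rep i, Submodule.subset_span (Set.mem_range_self i)⟩
      exact ⟨c, (congrArg Subtype.val hc).symm⟩
    have hle : fieldOf k (toC Q) ≤ k := by
      obtain ⟨b, hb, hr⟩ := rep_toC Q
      refine sup_le le_rfl (IntermediateField.adjoin_le_iff.2 ?_)
      rintro z ⟨i, l, hl, rfl⟩
      obtain ⟨ci, hci⟩ := hrat i
      obtain ⟨cl, hcl⟩ := hrat l
      have hci' : ((Q.rep i : K) : ℂ) = (ci : ℂ) * ((Q.rep j : K) : ℂ) := by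
        rw [hci]
        show ((IntermediateField.inclusion h ci * Q.rep j : K) : ℂ) = _
        push_cast
        rfl
      have hcl' : ((Q.rep l : K) : ℂ) = (cl : ℂ) * ((Q.rep j : K) : ℂ) := by
        rw [hcl]
        show ((IntermediateField.inclusion h cl * Q.rep j : K) : ℂ) = _
        push_cast
        rfl
      have hjC : ((Q.rep j : K) : ℂ) ≠ 0 := by
        intro h0
        exact hj' (by exact_mod_cast h0)
      rw [hr, hr, mul_div_mul_left _ _ hb, hci', hcl', mul_div_mul_right _ _ hjC]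
      exact (ci / cl : k).2
    rw [hf] at hle
    have hkK : K = k := le_antisymm hle h
    have h4 : finrank ℚ K = finrank ℚ k := by rw [hkK]
    have h5 : r = 1 := by
      rw [h4] at hd
      have : 1 * finrank ℚ k = r * finrank ℚ k := by rw [one_mul]; exact hd
      exact (Nat.eq_of_mul_eq_mul_right hk0 this).symm
    exact hs (by rw [h3, h5])
  omega

/-- **The degenerate points are few.** -/
theorem deg_count (hD : S_DEG) (k : IntermediateField ℚ ℂ) [NumberField k] (r n : ℕ)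
    (hn : n = r * finrank ℚ k) (hn1 : 1 ≤ n) (hr : 1 ≤ r) (hrm : r ≤ m + 1) {α : ℝ} (hα0 : 0 ≤ α)
    (hF : FieldExp n α) (hcond : r ≤ 2 ∨ (r : ℝ) * (r - 1) * (2 * α + 1) + r ≤ m + 1) :
    ∃ C : ℝ, 0 ≤ C ∧ ∀ T : ℝ, 0 ≤ T →
      {P | P ∈ All k m r T ∧ spanDim k P ≠ r}.Finite ∧
      (({P | P ∈ All k m r T ∧ spanDim k P ≠ r}).ncard : ℝ) ≤
        C * Real.exp (((n : ℝ) * (m + 1) - 1 / 2) * T) := by
  classical
  rcases lt_or_ge r 3 with hr3 | hr3
  · refine ⟨0, le_refl _, fun T _ => ?_⟩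
    have h : {P | P ∈ All k m r T ∧ spanDim k P ≠ r} = ∅ := by
      ext P
      simp only [Set.mem_ofPred_eq, Set.mem_empty_iff_false, iff_false]
      rintro ⟨h1, h2⟩
      have := (span_range k r h1 h2).2.2
      omega
    rw [h, Set.ncard_empty, zero_mul, Nat.cast_zero]
    exact ⟨Set.finite_empty, le_refl _⟩
  have hcond' : (r : ℝ) * (r - 1) * (2 * α + 1) + r ≤ m + 1 := hcond.resolve_left (by omega)
  have hr3' : (3 : ℝ) ≤ r := by exact_mod_cast hr3
  have hn0 : (0 : ℝ) < n := by exact_mod_cast (show 0 < n by omega)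
  set κ : ℝ := (finrank ℚ k : ℝ) with hκ
  have hκ1 : 1 ≤ κ := by
    have : 1 ≤ finrank ℚ k := finrank_pos
    rw [hκ]
    exact_mod_cast this
  have hnκ : (n : ℝ) = r * κ := by rw [hn]; push_cast; rfl
  set ε : ℝ := 1 / (2 * r * (r - 1)) with hε
  have hr1' : (0 : ℝ) < (r : ℝ) - 1 := by linarith
  have hε0 : 0 < ε := by positivity
  obtain ⟨CF, hCF, hFl⟩ := hF
  obtain ⟨CD, hCD, hdisc⟩ := Pool.Agent.N752.FD.disc_bound k m r hr
  have hcard : ∀ s : ℕ, 1 ≤ s → s ≤ m + 1 → ∃ C : ℝ, 1 ≤ C ∧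
    ∀ (K : IntermediateField ℚ ℂ) (_ : NumberField K),
      Module.finrank ℚ K = n → ∀ T : ℝ, 0 ≤ T → (D3 k m s K T).Finite ∧
      ((D3 k m s K T).ncard : ℝ) ≤ C * √|(discr K : ℝ)| ^ (1 + ε) *
        Real.exp (((n * s + s * finrank ℚ k * (m + 1 - s) : ℕ) : ℝ) * T) :=
    fun s hs hsm => D3_card hD k n s hn1 hs hsm hε0
  choose! Cs hCs1 hCs using hcard
  let Ic : Finset ℕ := Finset.Icc 1 (r - 1)
  have hIc : ∀ s ∈ Ic, 1 ≤ s ∧ s + 1 ≤ r ∧ s ≤ m + 1 := by
    intro s hs
    rw [Finset.mem_Icc] at hs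
    omega
  refine ⟨∑ s ∈ Ic, CF * Cs s * Real.exp (n * CD * (α + (1 + ε) / 2)),
    Finset.sum_nonneg fun s hs => ?_, fun T hT => ?_⟩
  · have := hCs1 s (hIc s hs).1 (hIc s hs).2.2
    positivity
  set Y : ℝ := Real.exp (n * ((2 * r - 2) * T + CD)) with hY
  have hY1 : 1 ≤ Y := by
    refine Real.one_le_exp ?_
    have : 0 ≤ (2 * (r : ℝ) - 2) * T := mul_nonneg (by linarith) hT
    positivity
  set W : Finset (IntermediateField ℚ ℂ) := (hFl Y hY1).1.toFinset with hW
  have hWK : ∀ K ∈ W, ∃ _ : NumberField K, finrank ℚ K = n ∧ |(discr K : ℝ)| ≤ Y := by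
    intro K hK
    rw [hW, Set.Finite.mem_toFinset] at hK
    exact hK
  have hsub : {P | P ∈ All k m r T ∧ spanDim k P ≠ r} ⊆ ⋃ s ∈ Ic, ⋃ K ∈ W, D3 k m s K T := by
    rintro P ⟨hPA, hPs⟩
    obtain ⟨h1, h2, -⟩ := span_range k r hPA hPs
    obtain ⟨K, hK, h, Q, hf, hd, hQ, hh⟩ := hPA
    rw [Set.mem_iUnion₂]
    refine ⟨spanDim k P, Finset.mem_Icc.2 ⟨by omega, h2⟩, ?_⟩
    rw [Set.mem_iUnion₂]
    refine ⟨K, ?_, hK, h, Q, hQ, rfl, hh⟩
    rw [hW, Set.Finite.mem_toFinset]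
    refine ⟨hK, by rw [hd, hn], ?_⟩
    have h3 := hdisc K hK h Q (by rw [hQ, hf]) hd
    have h4 : logDisc K ≤ (2 * r - 2) * T + CD := by
      have := mul_le_mul_of_nonneg_left hh (show (0 : ℝ) ≤ 2 * r - 2 by linarith)
      linarith
    have hdp : 0 < |(discr K : ℝ)| := by
      have := one_le_disc K
      linarith
    rw [hY, ← Real.log_le_iff_le_exp hdp]
    unfold logDisc at h4
    rw [div_le_iff₀ (n_pos K)] at h4
    have h5 : (finrank ℚ K : ℝ) = n := by rw [hd, hn]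
    rw [h5] at h4
    linarith
  have hK3 : ∀ s ∈ Ic, ∀ K ∈ W, (D3 k m s K T).Finite ∧ ((D3 k m s K T).ncard : ℝ) ≤
      Cs s * Y ^ ((1 + ε) / 2) *
        Real.exp (((n * s + s * finrank ℚ k * (m + 1 - s) : ℕ) : ℝ) * T) := by
    intro s hs K hK
    obtain ⟨hK1, hK2, hK3⟩ := hWK K hK
    obtain ⟨h1, h2⟩ := hCs s (hIc s hs).1 (hIc s hs).2.2 K hK1 hK2 T hT
    refine ⟨h1, h2.trans ?_⟩
    refine mul_le_mul_of_nonneg_right ?_ (Real.exp_pos _).le
    refine mul_le_mul_of_nonneg_left ?_ (by linarith [hCs1 s (hIc s hs).1 (hIc s hs).2.2])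
    rw [Real.sqrt_eq_rpow, ← Real.rpow_mul (abs_nonneg _)]
    have e1 : (1 : ℝ) / 2 * (1 + ε) = (1 + ε) / 2 := by ring
    rw [e1]
    exact Real.rpow_le_rpow (abs_nonneg _) hK3 (by positivity)
  have hfin : (⋃ s ∈ Ic, ⋃ K ∈ W, D3 k m s K T).Finite :=
    Set.Finite.biUnion (Finset.finite_toSet _) fun s hs => Set.Finite.biUnion
      (Finset.finite_toSet _) fun K hK => (hK3 s hs K hK).1
  refine ⟨hfin.subset hsub, ?_⟩
  have h1 : (({P | P ∈ All k m r T ∧ spanDim k P ≠ r}).ncard : ℝ) ≤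
      ∑ s ∈ Ic, ∑ K ∈ W, ((D3 k m s K T).ncard : ℝ) := by
    have h2 := (Set.ncard_le_ncard hsub hfin).trans
      (Finset.set_ncard_biUnion_le Ic fun s => ⋃ K ∈ W, D3 k m s K T)
    refine (Nat.cast_le.2 h2).trans ?_
    push_cast
    refine Finset.sum_le_sum fun s _ => ?_
    have := Finset.set_ncard_biUnion_le W fun K => D3 k m s K T
    exact_mod_cast this
  refine h1.trans ?_
  rw [Finset.sum_mul]
  refine Finset.sum_le_sum fun s hs => ?_
  obtain ⟨hs1, hsr, hsm⟩ := hIc s hs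
  have hWc : (W.card : ℝ) ≤ CF * Y ^ α := by
    refine le_trans (le_of_eq ?_) (hFl Y hY1).2
    rw [Set.ncard_eq_toFinset_card _ (hFl Y hY1).1]
  have hCs0 : 0 ≤ Cs s := by linarith [hCs1 s hs1 hsm]
  calc ∑ K ∈ W, ((D3 k m s K T).ncard : ℝ)
      ≤ ∑ _K ∈ W, Cs s * Y ^ ((1 + ε) / 2) *
        Real.exp (((n * s + s * finrank ℚ k * (m + 1 - s) : ℕ) : ℝ) * T) :=
        Finset.sum_le_sum fun K hK => (hK3 s hs K hK).2
    _ = (W.card : ℝ) * (Cs s * Y ^ ((1 + ε) / 2) *
        Real.exp (((n * s + s * finrank ℚ k * (m + 1 - s) : ℕ) : ℝ) * T)) := by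
        rw [Finset.sum_const, nsmul_eq_mul]
    _ ≤ (CF * Y ^ α) * (Cs s * Y ^ ((1 + ε) / 2) *
        Real.exp (((n * s + s * finrank ℚ k * (m + 1 - s) : ℕ) : ℝ) * T)) :=
        mul_le_mul_of_nonneg_right hWc (by positivity)
    _ = CF * Cs s * Real.exp (n * CD * (α + (1 + ε) / 2)) *
        Real.exp ((n * (2 * r - 2) * (α + (1 + ε) / 2) +
          ((n * s + s * finrank ℚ k * (m + 1 - s) : ℕ) : ℝ)) * T) := by
        have e1 : Y ^ α * Y ^ ((1 + ε) / 2) =
            Real.exp (n * CD * (α + (1 + ε) / 2)) *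
              Real.exp (n * (2 * r - 2) * (α + (1 + ε) / 2) * T) := by
          rw [← Real.rpow_add (Real.exp_pos _), ← Real.exp_mul, ← Real.exp_add]
          congr 1
          ring
        rw [add_mul, Real.exp_add]
        calc _ = CF * Cs s * (Y ^ α * Y ^ ((1 + ε) / 2)) *
              Real.exp (((n * s + s * finrank ℚ k * (m + 1 - s) : ℕ) : ℝ) * T) := by ring
          _ = _ := by rw [e1]; ring
    _ ≤ _ := by
        refine mul_le_mul_of_nonneg_left ?_ (by positivity)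
        refine Real.exp_le_exp.2 (mul_le_mul_of_nonneg_right ?_ hT)
        have hms : ((m + 1 - s : ℕ) : ℝ) = (m : ℝ) + 1 - s := by
          rw [Nat.cast_sub hsm]
          push_cast
          rfl
        push_cast
        rw [hms, ← hκ, hnκ]
        have hs1' : (1 : ℝ) ≤ s := by exact_mod_cast hs1
        have hsr' : (s : ℝ) + 1 ≤ r := by exact_mod_cast hsr
        -- the inequality
        have e2 : (r : ℝ) * (r - 1) * ε = 1 / 2 := by
          rw [hε]
          field_simp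
        have e3 : (r : ℝ) * (r - 1) * (2 * α + 1) + 1 ≤ ((r : ℝ) - s) * (m + 1 - s) := by
          have h3 : 0 ≤ (r : ℝ) * (r - 1) * (2 * α + 1) := by positivity
          have h4 : (r : ℝ) * (r - 1) * (2 * α + 1) + 1 ≤ m + 1 - s := by linarith
          have h5 : 1 * ((m : ℝ) + 1 - s) ≤ ((r : ℝ) - s) * (m + 1 - s) :=
            mul_le_mul_of_nonneg_right (by linarith) (by linarith)
          linarith
        have e4 : (r : ℝ) * κ * (m + 1) - 1 / 2 -
            (r * κ * (2 * r - 2) * (α + (1 + ε) / 2) + (r * κ * s + s * κ * (m + 1 - s))) =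
            κ * (((r : ℝ) - s) * (m + 1 - s) - r * (r - 1) * (2 * α + 1) - r * (r - 1) * ε) -
              1 / 2 := by ring
        have e5 : 1 / 2 ≤ κ * (((r : ℝ) - s) * (m + 1 - s) - r * (r - 1) * (2 * α + 1) -
            r * (r - 1) * ε) := by
          rw [e2]
          have : 1 / 2 ≤ ((r : ℝ) - s) * (m + 1 - s) - r * (r - 1) * (2 * α + 1) - 1 / 2 := by
            linarith
          nlinarith
        linarith

end Pool.Agent.N752.HY
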