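import Mathlib
import Pool.Agent.N752.SU.Universal
import Pool.Agent.N752.HY.Stm

/-!
The sharp lower bound for the number of the nondegenerate points of degree `r`.
-/

set_option autoImplicit false

namespace Pool.Agent.N752.HY

open NumberField Finset Module
open scoped LinearAlgebra.Projectivization
open Pool.Agent.Results.MP_44a246_nt.BoundedDegreeHyperplanes
  (height toC fieldOf n_pos toC_inj)
open Pool.Agent.N752.SU (Full Spans spanDim rep_height spans_iff fieldOf_of_spans exists_poly
  pts_zero)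
open Pool.Agent.N752.RD (exists_ext)

variable {m : ℕ}

theorem low_full (hL : S_LOW) (k : IntermediateField ℚ ℂ) [NumberField k] (hm : 1 ≤ m)
    (r n : ℕ) (hn : n = r * finrank ℚ k) (hr : 1 ≤ r) (hrm : r ≤ m + 1)
    (hfull : ∀ T, (Full k m r T).Finite) :
    ∃ c T₀ : ℝ, 0 < c ∧ ∀ T : ℝ, T₀ ≤ T →
      c * Real.exp (n * (m + 1) * T) ≤ ((Full k m r T).ncard : ℝ) := by
  classical
  obtain ⟨K, hK, hkK, hdeg⟩ := exists_ext k r hr
  have hfrK : finrank ℚ K = n := by rw [hdeg, hn]
  have hn0 : 0 < n := by rw [← hfrK]; exact finrank_pos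
  have hn0' : (0 : ℝ) < n := by exact_mod_cast hn0
  let _ : Algebra k K := (IntermediateField.inclusion hkK).toRingHom.toAlgebra
  obtain ⟨c, B₀, hc, hlow⟩ := hL K inferInstance inferInstance m hm
  obtain ⟨f, hf0, hf⟩ := exists_poly (k := k) (K := K) hrm hdeg
  obtain ⟨C2, hC20, hC2⟩ := pts_zero K m f hf0
    {Q | Submodule.span k (Set.range Q.rep) ≠ ⊤} (by
      intro Q hQ t y ht hy
      refine hf y fun htop => hQ ?_
      have h3 : (Set.range fun j => (y j : K)) = (fun x => t * x) '' Set.range Q.rep := by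
        rw [← Set.range_comp]
        congr 1
        funext j
        exact hy j
      have h5 : (fun x => t * x) = (LinearMap.mulLeft k t) := rfl
      rw [h3, h5, Submodule.span_image] at htop
      have hinj : Function.Injective (LinearMap.mulLeft k t) := by
        intro a b hab
        have hab' : t * a = t * b := hab
        exact mul_left_cancel₀ ht hab'
      have hsur : Function.Surjective (LinearMap.mulLeft k t) := by
        intro x
        refine ⟨t⁻¹ * x, ?_⟩
        show t * (t⁻¹ * x) = x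
        rw [mul_inv_cancel_left₀ ht]
      refine Submodule.map_injective_of_injective hinj ?_
      rw [htop, Submodule.map_top, LinearMap.range_eq_top.2 hsur])
  refine ⟨c / 2, max (max 0 (Real.log (max B₀ 1))) (Real.log (2 * C2 / c + 1)), by positivity,
    fun T hT => ?_⟩
  have hT0 : 0 ≤ T := (le_max_left _ _).trans ((le_max_left _ _).trans hT)
  have hTB : B₀ ≤ Real.exp T := by
    have h1 : Real.log (max B₀ 1) ≤ T := (le_max_right _ _).trans ((le_max_left _ _).trans hT)
    have h2 : max B₀ 1 ≤ Real.exp T := by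
      rw [← Real.log_le_iff_le_exp (lt_of_lt_of_le one_pos (le_max_right _ _))]
      exact h1
    exact (le_max_left _ _).trans h2
  have hTc : 2 * C2 / c ≤ Real.exp T := by
    have h1 : Real.log (2 * C2 / c + 1) ≤ T := (le_max_right _ _).trans hT
    have h0 : 0 ≤ 2 * C2 / c := by positivity
    rw [Real.log_le_iff_le_exp (by linarith)] at h1
    linarith
  obtain ⟨F, hF1, hF2⟩ := hlow (Real.exp T) hTB
  obtain ⟨hbfin, hbcard⟩ := hC2 (Real.exp T) (Real.one_le_exp hT0)
  rw [hfrK] at hF1 hF2 hbfin hbcard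
  set G : Finset (ℙ K (Fin (m + 1) → K)) := F.filter fun Q => Spans hkK Q with hG
  have hcount : (F.card : ℝ) ≤ G.card + C2 * Real.exp T ^ ((n : ℝ) * (m + 1) - 1) := by
    have h1 : F.card = G.card + (F.filter fun Q => ¬ Spans hkK Q).card :=
      (Finset.card_filter_add_card_filter_not _).symm
    have h2 : ((F.filter fun Q => ¬ Spans hkK Q).card : ℝ) ≤
        C2 * Real.exp T ^ ((n : ℝ) * (m + 1) - 1) := by
      refine le_trans ?_ hbcard
      have h3 : ((F.filter fun Q => ¬ Spans hkK Q : Finset _) : Set (ℙ K (Fin (m + 1) → K))) ⊆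
          {Q | Q ∈ {Q : ℙ K (Fin (m + 1) → K) | Submodule.span k (Set.range Q.rep) ≠ ⊤} ∧
            Q.mulHeight ≤ Real.exp T ^ n} := by
        intro Q hQ
        rw [Finset.mem_coe, Finset.mem_filter] at hQ
        exact ⟨hQ.2, hF1 Q hQ.1⟩
      have h4 := Set.ncard_le_ncard h3 hbfin
      rw [Set.ncard_coe_finset] at h4
      exact_mod_cast h4
    rw [h1]
    push_cast
    linarith
  have hGsub : ((G.image toC : Finset _) : Set (ℙ ℂ (Fin (m + 1) → ℂ))) ⊆ Full k m r T := by
    intro P hP
    rw [Finset.coe_image] at hP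
    obtain ⟨Q, hQ, rfl⟩ := hP
    rw [Finset.mem_coe, Finset.mem_filter] at hQ
    obtain ⟨h1, h2⟩ := hQ
    refine ⟨(spans_iff hkK hdeg Q).1 h2, K, hK, hkK, Q, fieldOf_of_spans hkK Q h2, hdeg, rfl, ?_⟩
    have h3 := hF1 Q h1
    have hmh : 0 < Q.mulHeight := by
      rw [← rep_height]; exact Height.mulHeight_pos _
    unfold height
    rw [div_le_iff₀ (n_pos K), hfrK]
    have h4 := Real.log_le_log hmh h3
    rw [Real.log_pow, Real.log_exp] at h4
    linarith
  have hGcard : (G.card : ℝ) ≤ ((Full k m r T).ncard : ℝ) := by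
    have h1 := Set.ncard_le_ncard hGsub (hfull T)
    rw [Set.ncard_coe_finset, Finset.card_image_of_injective _ fun _ _ h => toC_inj h] at h1
    exact_mod_cast h1
  have e1 : c * Real.exp T ^ (n * (m + 1)) = c * Real.exp (n * (m + 1) * T) := by
    rw [← Real.exp_nat_mul]
    push_cast
    rfl
  have e2 : Real.exp T ^ ((n : ℝ) * (m + 1) - 1) * Real.exp T = Real.exp (n * (m + 1) * T) := by
    rw [← Real.exp_mul, ← Real.exp_add]
    congr 1
    ring
  rw [e1] at hF2
  have e3 : C2 * Real.exp T ^ ((n : ℝ) * (m + 1) - 1) ≤ c / 2 * Real.exp (n * (m + 1) * T) := by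
    rw [← e2]
    have h0 : 0 ≤ Real.exp T ^ ((n : ℝ) * (m + 1) - 1) := by positivity
    rw [div_le_iff₀ hc] at hTc
    nlinarith
  linarith

end Pool.Agent.N752.HY
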