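import Mathlib
import Pool.Agent.N752.HY.Fld2
import Pool.Agent.N752.HY.Tail
import Pool.Agent.N752.HY.LowF

/-!
The exceptional set of one divisor has density zero.
-/

set_option autoImplicit false

namespace Pool.Agent.N752.HY

open NumberField Finset Module MvPolynomial
open scoped LinearAlgebra.Projectivization
open Pool.Agent.Results.MP_44a246_nt.BoundedDegreeHyperplanes
  (height toC fieldOf n_pos toC_inj)
open Pool.Agent.N752.SU (Full Spans spanDim rep_height full_upper full_mono DensityZero)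
open Pool.Agent.W223.VD (FieldExp Flds)

variable {m q t : ℕ}

/-- the form `F` over the larger field `K` -/
noncomputable def upK {k K : IntermediateField ℚ ℂ} (h : k ≤ K)
    (F : MvPolynomial (Fin (m + 1)) (𝓞 k)) : MvPolynomial (Fin (m + 1)) (𝓞 K) :=
  MvPolynomial.map (RingOfIntegers.mapRingHom (IntermediateField.inclusion h).toRingHom) F

/-- the form `F` over `ℂ` -/
noncomputable def cx {k : IntermediateField ℚ ℂ} (F : MvPolynomial (Fin (m + 1)) (𝓞 k)) :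
    MvPolynomial (Fin (m + 1)) ℂ :=
  MvPolynomial.map ((algebraMap k ℂ).comp (algebraMap (𝓞 k) k)) F

lemma cx_upK {k K : IntermediateField ℚ ℂ} (h : k ≤ K) (F : MvPolynomial (Fin (m + 1)) (𝓞 k)) :
    cx (upK h F) = cx F := by
  unfold cx upK
  rw [MvPolynomial.map_map]
  congr 1

lemma cx_eq {K : IntermediateField ℚ ℂ} (F : MvPolynomial (Fin (m + 1)) (𝓞 K)) :
    cx F = MvPolynomial.map (algebraMap K ℂ) (MvPolynomial.map (algebraMap (𝓞 K) K) F) := by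
  unfold cx
  rw [MvPolynomial.map_map]

/-- the conditions on the divisor and on the ideals -/
def Adm (k : IntermediateField ℚ ℂ) {m q t : ℕ} (F : Fin q → MvPolynomial (Fin (m + 1)) (𝓞 k))
    (κ : Fin q → ℕ) (F' G' : Fin t → MvPolynomial (Fin (m + 1)) (𝓞 k)) (κ' ε' : Fin t → ℕ) :
    Prop :=
  (∀ j, (F j).IsHomogeneous (κ j)) ∧ Squarefree (∏ j, cx (F j)) ∧
    (∀ l, (F' l).IsHomogeneous (κ' l)) ∧ (∀ l, (G' l).IsHomogeneous (ε' l)) ∧
    (∀ l, Irreducible (cx (F' l))) ∧ ∀ l, ¬ cx (F' l) ∣ cx (G' l)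

/-- the exceptional points -/
def Bad (k : IntermediateField ℚ ℂ) {m q t : ℕ} (F : Fin q → MvPolynomial (Fin (m + 1)) (𝓞 k))
    (κ : Fin q → ℕ) (F' G' : Fin t → MvPolynomial (Fin (m + 1)) (𝓞 k)) (κ' ε' : Fin t → ℕ)
    (Λ θ : ℝ) : Set (ℙ ℂ (Fin (m + 1) → ℂ)) :=
  {P | ∃ (K : IntermediateField ℚ ℂ) (_ : NumberField K) (h : k ≤ K) (Q : ℙ K (Fin (m + 1) → K)),
    fieldOf k P = K ∧ toC Q = P ∧
    ¬ Good (fun j => upK h (F j)) κ (fun l => upK h (F' l)) (fun l => upK h (G' l)) κ' ε' Λ θ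
      Q.rep}

/-- the exceptional points over one field -/
lemma bad_field (hFAC : S_FAC) (hLFT : S_LFT) (k : IntermediateField ℚ ℂ) [NumberField k] (n : ℕ)
    {F : Fin q → MvPolynomial (Fin (m + 1)) (𝓞 k)} {κ : Fin q → ℕ}
    {F' G' : Fin t → MvPolynomial (Fin (m + 1)) (𝓞 k)} {κ' ε' : Fin t → ℕ}
    (hA : Adm k F κ F' G' κ' ε') (Λ : ℝ) (hΛ : 0 ≤ Λ) (θ : ℝ) (hθ0 : 0 ≤ θ)
    (hθ : θ < ∑ j, (wt (κ j) : ℝ)) (r : ℕ) (K : IntermediateField ℚ ℂ) (hK : NumberField K)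
    (hKn : finrank ℚ K = n) :
    ∃ c C : ℝ, 0 < c ∧ 0 ≤ C ∧ ∀ T : ℝ, 0 ≤ T →
      (({P | P ∈ Bad k F κ F' G' κ' ε' Λ θ ∧ P ∈ Full k m r T ∧ fieldOf k P = K}).ncard : ℝ) ≤
        C * Real.exp (((n : ℝ) * (m + 1) - c) * T) := by
  classical
  by_cases h : k ≤ K
  swap
  · refine ⟨1, 0, one_pos, le_refl _, fun T _ => ?_⟩
    have : {P | P ∈ Bad k F κ F' G' κ' ε' Λ θ ∧ P ∈ Full k m r T ∧ fieldOf k P = K} = ∅ := by
      ext P
      simp only [Set.mem_ofPred_eq, Set.mem_empty_iff_false, iff_false]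
      rintro ⟨⟨K', hK', h', -, hf, -⟩, -, hf'⟩
      exact h (hf'.symm.trans hf ▸ h')
    rw [this, Set.ncard_empty, zero_mul, Nat.cast_zero]
  obtain ⟨h1, h2, h4, h5, h6, h7⟩ := hA
  have hh : ∀ {G : MvPolynomial (Fin (m + 1)) (𝓞 k)} {d : ℕ}, G.IsHomogeneous d →
      (upK h G).IsHomogeneous d := fun hG => hG.map _
  have hi : ∀ {G : MvPolynomial (Fin (m + 1)) (𝓞 k)}, Irreducible (cx G) →
      Irreducible (MvPolynomial.map (algebraMap (𝓞 K) K) (upK h G)) := by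
    intro G hG
    rw [← cx_upK h, cx_eq] at hG
    exact hLFT K ℂ _ _ _ _ _ hG
  have hsq : Squarefree (∏ j, MvPolynomial.map (algebraMap (𝓞 K) K) (upK h (F j))) := by
    refine squarefree_of_map (algebraMap K ℂ) ?_
    rw [map_prod]
    have e : ∏ j, cx (F j) =
        ∏ j, MvPolynomial.map (algebraMap K ℂ) (MvPolynomial.map (algebraMap (𝓞 K) K)
          (upK h (F j))) :=
      Finset.prod_congr rfl fun j _ => by rw [← cx_upK h, cx_eq]
    rw [← e]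
    exact h2
  obtain ⟨c, C, hc, hC, hall⟩ := fld2 hFAC (fun j => upK h (F j)) κ (fun j => hh (h1 j)) hsq
    (fun l => upK h (F' l)) (fun l => upK h (G' l)) κ' ε' (fun l => hh (h4 l))
    (fun l => hh (h5 l)) (fun l => hi (h6 l)) (fun l hdvd => h7 l (by
      rw [← cx_upK h, ← cx_upK h (G' l), cx_eq, cx_eq]
      exact _root_.map_dvd (MvPolynomial.map (algebraMap K ℂ) : MvPolynomial (Fin (m + 1)) K →+* _) hdvd))
    Λ hΛ θ hθ0 hθ
  rw [hKn] at hall
  refine ⟨c, C, hc, hC, fun T hT => ?_⟩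
  obtain ⟨Z, hZ, hgood⟩ := hall T hT
  refine le_trans ?_ hZ
  have hsub : {P | P ∈ Bad k F κ F' G' κ' ε' Λ θ ∧ P ∈ Full k m r T ∧ fieldOf k P = K} ⊆
      ((Z.image toC : Finset _) : Set (ℙ ℂ (Fin (m + 1) → ℂ))) := by
    rintro P ⟨⟨K', hK', h', Q', hf, hQ', hbad⟩, ⟨-, K'', hK'', -, Q'', hf'', -, hQ'', hh''⟩, hf3⟩
    have e : K = K' := hf3.symm.trans hf
    subst e
    have : hK = hK' := Subsingleton.elim _ _
    subst this
    have e : K = K'' := hf3.symm.trans hf''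
    subst e
    have : hK = hK'' := Subsingleton.elim _ _
    subst this
    have e : Q'' = Q' := toC_inj (hQ''.trans hQ'.symm)
    subst e
    rw [Finset.coe_image]
    refine ⟨Q'', ?_, hQ''⟩
    rw [Finset.mem_coe]
    by_contra hc
    refine hbad (hgood Q'' ?_ hc)
    have hmh : 0 < Q''.mulHeight := by
      rw [← rep_height]; exact Height.mulHeight_pos _
    have h8 := height_rel hK Q'' T hh''
    rw [hKn, ← Real.log_le_iff_le_exp hmh] at h8
    exact h8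
  have h8 := Set.ncard_le_ncard hsub (Finset.finite_toSet _)
  rw [Set.ncard_coe_finset] at h8
  exact_mod_cast h8.trans Finset.card_image_le

/-- **The exceptional set of one divisor has density zero.** -/
theorem dens (hP : S_PTS) (hL : S_LOW) (hFAC : S_FAC) (hLFT : S_LFT) (k : IntermediateField ℚ ℂ) [NumberField k]
    (hm : 1 ≤ m) (r n : ℕ) (hn : n = r * finrank ℚ k) (hn2 : 2 ≤ n) (hr : 1 ≤ r)
    (hrm : r ≤ m + 1) {α : ℝ} (hα1 : 1 ≤ α) (hF : FieldExp n α) (hmα : 2 * α < m)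
    {F : Fin q → MvPolynomial (Fin (m + 1)) (𝓞 k)} {κ : Fin q → ℕ}
    {F' G' : Fin t → MvPolynomial (Fin (m + 1)) (𝓞 k)} {κ' ε' : Fin t → ℕ}
    (hA : Adm k F κ F' G' κ' ε') (Λ : ℝ) (hΛ : 0 ≤ Λ) (θ : ℝ) (hθ0 : 0 ≤ θ)
    (hθ : θ < ∑ j, (wt (κ j) : ℝ)) :
    DensityZero (Full k m r) (Bad k F κ F' G' κ' ε' Λ θ) := by
  classical
  have hn0 : (0 : ℝ) < n := by exact_mod_cast (show 0 < n by omega)
  obtain ⟨C₃, hC₃⟩ := full_upper k hm r n hn hn2 hα1 hF hmα.le 1 one_pos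
  have hfin : ∀ T, (Full k m r T).Finite := fun T =>
    (hC₃ (max T 0) (le_max_right _ _)).1.subset (full_mono k m r (le_max_left _ _))
  obtain ⟨c₁, T₁, hc₁, hlow⟩ := low_full hL k hm r n hn hr hrm hfin
  obtain ⟨C₂, c₂, hC₂, hc₂, htail⟩ := tail hP k hm r n hn hn2 hα1 hF hmα
  intro ε hε
  -- the bound for the discriminants
  obtain ⟨X, hX1, hX⟩ : ∃ X : ℝ, 1 ≤ X ∧ C₂ * X ^ (-c₂) ≤ ε / 2 * c₁ := by
    have h1 : Filter.Tendsto (fun X : ℝ => C₂ * X ^ (-c₂)) Filter.atTop (nhds (C₂ * 0)) :=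
      (tendsto_rpow_neg_atTop hc₂).const_mul C₂
    rw [mul_zero] at h1
    have h2 : 0 < ε / 2 * c₁ := by positivity
    obtain ⟨X, h3, h4⟩ := ((h1.eventually_lt_const h2).and
      (Filter.eventually_ge_atTop (1 : ℝ))).exists
    exact ⟨X, h4, h3.le⟩
  obtain ⟨CF, hCF, hFl⟩ := id hF
  set W : Finset (IntermediateField ℚ ℂ) := (hFl X hX1).1.toFinset with hW
  have hWm : ∀ K ∈ W, ∃ T₀ : ℝ, ∀ T : ℝ, T₀ ≤ T →
      (({P | P ∈ Bad k F κ F' G' κ' ε' Λ θ ∧ P ∈ Full k m r T ∧ fieldOf k P = K}).ncard : ℝ) ≤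
        ε / 2 * c₁ / (W.card + 1) * Real.exp (n * (m + 1) * T) := by
    intro K hK
    rw [hW, Set.Finite.mem_toFinset] at hK
    obtain ⟨hK1, hK2, -⟩ := hK
    obtain ⟨c, C, hc, hC, hall⟩ := bad_field hFAC hLFT k n hA Λ hΛ θ hθ0 hθ r K hK1 hK2
    have h1 : Filter.Tendsto (fun T : ℝ => C * Real.exp (-(c * T))) Filter.atTop
        (nhds (C * 0)) := by
      refine Filter.Tendsto.const_mul C ?_
      refine Real.tendsto_exp_neg_atTop_nhds_zero.comp ?_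
      exact Filter.tendsto_id.const_mul_atTop hc
    rw [mul_zero] at h1
    have h2 : 0 < ε / 2 * c₁ / (W.card + 1) := by positivity
    obtain ⟨T₀, hT₀⟩ := Filter.eventually_atTop.1 (h1.eventually_lt_const h2)
    refine ⟨max T₀ 0, fun T hT => ?_⟩
    have hT0 : 0 ≤ T := (le_max_right _ _).trans hT
    have hT1 : T₀ ≤ T := (le_max_left _ _).trans hT
    refine (hall T hT0).trans ?_
    have h3 : C * Real.exp (((n : ℝ) * (m + 1) - c) * T) =
        (C * Real.exp (-(c * T))) * Real.exp (n * (m + 1) * T) := by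
      rw [mul_assoc, ← Real.exp_add]
      congr 2
      ring
    rw [h3]
    exact mul_le_mul_of_nonneg_right (hT₀ T hT1).le (Real.exp_pos _).le
  choose! Tf hTf using hWm
  obtain ⟨T₂, hT₂⟩ : ∃ T₂ : ℝ, ∀ K ∈ W, Tf K ≤ T₂ := by
    refine ⟨∑ K ∈ W, |Tf K|, fun K hK => (le_abs_self _).trans ?_⟩
    exact Finset.single_le_sum (f := fun K => |Tf K|) (fun _ _ => abs_nonneg _) hK
  refine ⟨max (max T₁ T₂) 0, fun T hT => ?_⟩
  have hTT1 : T₁ ≤ T := (le_max_left _ _).trans ((le_max_left _ _).trans hT)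
  have hTT2 : T₂ ≤ T := (le_max_right _ _).trans ((le_max_left _ _).trans hT)
  have hTT0 : 0 ≤ T := (le_max_right _ _).trans hT
  have hlowT := hlow T hTT1
  set E := Real.exp (n * (m + 1) * T) with hE
  have hE0 : 0 < E := Real.exp_pos _
  -- the covering
  have hsub : Bad k F κ F' G' κ' ε' Λ θ ∩ Full k m r T ⊆
      {P | P ∈ Full k m r T ∧ ∃ (K : IntermediateField ℚ ℂ) (_ : NumberField K),
        fieldOf k P = K ∧ X < |(discr K : ℝ)|} ∪
      ⋃ K ∈ W, {P | P ∈ Bad k F κ F' G' κ' ε' Λ θ ∧ P ∈ Full k m r T ∧ fieldOf k P = K} := by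
    rintro P ⟨hPB, hPF⟩
    obtain ⟨hs, K, hK, h, Q, hf, hd, hQ, hh⟩ := id hPF
    by_cases hX' : X < |(discr K : ℝ)|
    · exact Or.inl ⟨hPF, K, hK, hf, hX'⟩
    · right
      push Not at hX'
      rw [Set.mem_iUnion₂]
      refine ⟨K, ?_, hPB, hPF, hf⟩
      rw [hW, Set.Finite.mem_toFinset]
      exact ⟨hK, by rw [hd, hn], hX'⟩
  have hfinU : ({P | P ∈ Full k m r T ∧ ∃ (K : IntermediateField ℚ ℂ) (_ : NumberField K),
        fieldOf k P = K ∧ X < |(discr K : ℝ)|} ∪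
      ⋃ K ∈ W, {P | P ∈ Bad k F κ F' G' κ' ε' Λ θ ∧ P ∈ Full k m r T ∧
        fieldOf k P = K}).Finite := by
    refine ((hfin T).subset fun P hP => hP.1).union ?_
    exact Set.Finite.biUnion (Finset.finite_toSet _) fun K _ => (hfin T).subset fun P hP => hP.2.1
  have h1 := (Set.ncard_le_ncard hsub hfinU).trans (Set.ncard_union_le _ _)
  have h2 := Finset.set_ncard_biUnion_le W
    fun K => {P | P ∈ Bad k F κ F' G' κ' ε' Λ θ ∧ P ∈ Full k m r T ∧ fieldOf k P = K}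
  have h3 : ((Bad k F κ F' G' κ' ε' Λ θ ∩ Full k m r T).ncard : ℝ) ≤
      C₂ * X ^ (-c₂) * E + ∑ K ∈ W, ε / 2 * c₁ / (W.card + 1) * E := by
    refine (Nat.cast_le.2 h1).trans ?_
    push_cast
    refine add_le_add (htail T hTT0 X hX1) ?_
    refine (Nat.cast_le.2 h2).trans ?_
    push_cast
    exact Finset.sum_le_sum fun K hK => hTf K hK T ((hT₂ K hK).trans hTT2)
  refine h3.trans ?_
  rw [Finset.sum_const, nsmul_eq_mul]
  have h4 : (W.card : ℝ) * (ε / 2 * c₁ / (W.card + 1) * E) ≤ ε / 2 * c₁ * E := by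
    have h5 : (W.card : ℝ) * (ε / 2 * c₁ / (W.card + 1) * E) =
        (W.card : ℝ) / (W.card + 1) * (ε / 2 * c₁ * E) := by
      field_simp
    rw [h5]
    refine mul_le_of_le_one_left (by positivity) ?_
    rw [div_le_one (by positivity)]
    linarith
  have h5 : C₂ * X ^ (-c₂) * E ≤ ε / 2 * c₁ * E := mul_le_mul_of_nonneg_right hX hE0.le
  have h6 : ε * (c₁ * E) ≤ ε * ((Full k m r T).ncard : ℝ) := mul_le_mul_of_nonneg_left hlowT hε.le
  linarith

end Pool.Agent.N752.HY
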