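import Pool.Agent.N752.HY.Stm2
import Pool.Agent.N752.HY.Ext

set_option autoImplicit false

/-!
HY/FAC (helper232): factorisation of forms with squarefree product into irreducible forms.
-/

namespace Pool.Agent.N752.HY.Fac

open NumberField IsDedekindDomain MvPolynomial Module
open Pool.Agent.H691R3 (fv)
open Pool.Agent.TH905.VF (fv_lt_iff)
open Pool.Agent.N752.HY.Ext (aeval_le lam_def sup_pos' fv_int_le)
open scoped Classical

section field

variable {k : Type} [Field k]

/-- factors of homogeneous polynomials are homogeneous (H574R3) -/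
theorem homog_of_dvd {σ : Type} [Finite σ] {F G : MvPolynomial σ k} {n : ℕ} (hF : F.IsHomogeneous n)
    (hF0 : F ≠ 0) (h : G ∣ F) : G.IsHomogeneous G.totalDegree := by
  obtain ⟨K, rfl⟩ := h
  have hG0 : G ≠ 0 := left_ne_zero_of_mul hF0
  have hK0 : K ≠ 0 := right_ne_zero_of_mul hF0
  have hle : ∀ P : MvPolynomial σ k, P ≠ 0 → (P : MvPowerSeries σ k).order ≤ P.totalDegree := by
    intro P hP
    obtain ⟨d, hd⟩ := MvPolynomial.ne_zero_iff.1 hP
    have h1 : (P : MvPowerSeries σ k).order ≤ (d.degree : ℕ∞) :=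
      MvPowerSeries.order_le (by simpa using hd)
    refine h1.trans ?_
    have h2 : d.degree ≤ P.totalDegree := by
      have := MvPolynomial.le_totalDegree (p := P) (s := d) (MvPolynomial.mem_support_iff.2 hd)
      simpa [Finsupp.degree_apply, Finsupp.sum] using this
    exact_mod_cast h2
  have hmul : ((G * K : MvPolynomial σ k) : MvPowerSeries σ k).order =
      (G : MvPowerSeries σ k).order + (K : MvPowerSeries σ k).order := by
    rw [MvPolynomial.coe_mul, MvPowerSeries.order_mul]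
  have hFo : (n : ℕ∞) ≤ ((G * K : MvPolynomial σ k) : MvPowerSeries σ k).order := by
    apply MvPowerSeries.nat_le_order
    intro d hd
    rw [MvPolynomial.coeff_coe]
    by_contra hne
    have := hF hne
    have h' : d.degree = n := by rw [← this, Finsupp.degree_eq_weight_one]; rfl
    omega
  have hT : (G * K).totalDegree = n := hF.totalDegree hF0
  rw [MvPolynomial.totalDegree_mul_of_isDomain hG0 hK0] at hT
  have hGo := hle G hG0
  have hKo := hle K hK0
  rw [hmul] at hFo
  intro d hd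
  have h1 : (G : MvPowerSeries σ k).order ≤ (d.degree : ℕ∞) :=
      MvPowerSeries.order_le (by simpa using hd)
  have h2 : d.degree ≤ G.totalDegree := by
      have := MvPolynomial.le_totalDegree (p := G) (s := d) (MvPolynomial.mem_support_iff.2 hd)
      simpa [Finsupp.degree_apply, Finsupp.sum] using this
  have h3 : (n : ℕ∞) ≤ (d.degree : ℕ∞) + (K.totalDegree : ℕ∞) := hFo.trans (add_le_add h1 hKo)
  have h4 : n ≤ d.degree + K.totalDegree := by exact_mod_cast h3
  have h5 : d.degree = G.totalDegree := by omega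
  rw [← h5, Finsupp.degree_eq_weight_one]
  rfl

end field

/-- weights -/
lemma wt_le (l : ℕ) (κ₁ : Fin l → ℕ) (h : ∀ i, 1 ≤ κ₁ i) :
    wt (∑ i, κ₁ i) ≤ ∑ i, wt (κ₁ i) := by
  by_cases h2 : ∑ i, κ₁ i ≤ 2
  · have h3 : ∀ i, wt (κ₁ i) = κ₁ i := fun i => by
      have h4 : κ₁ i ≤ ∑ i, κ₁ i :=
        Finset.single_le_sum (f := κ₁) (fun _ _ => Nat.zero_le _) (Finset.mem_univ i)
      unfold wt
      rw [if_pos (h4.trans h2)]
    simp only [h3]
    unfold wt
    rw [if_pos h2]
  · have h3 : wt (∑ i, κ₁ i) = 1 := by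
      unfold wt
      rw [if_neg h2]
    rw [h3]
    have h4 : ∑ i, κ₁ i ≠ 0 := by omega
    obtain ⟨i, hi, -⟩ := Finset.exists_ne_zero_of_sum_ne_zero h4
    have h5 : 1 ≤ wt (κ₁ i) := by
      have := h i
      unfold wt
      split_ifs <;> omega
    exact h5.trans (Finset.single_le_sum (f := fun i => wt (κ₁ i)) (fun _ _ => Nat.zero_le _) hi)

variable {K : Type} [Field K] [NumberField K] {m : ℕ}

/-- integral polynomials in polynomials -/
noncomputable abbrev ph (m : ℕ) (K : Type) [Field K] [NumberField K] :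
    MvPolynomial (Fin (m + 1)) (𝓞 K) →+* MvPolynomial (Fin (m + 1)) K :=
  map (algebraMap (𝓞 K) K)

lemma ph_inj : Function.Injective (ph m K) :=
  MvPolynomial.map_injective _ (FaithfulSMul.algebraMap_injective (𝓞 K) K)

/-- denominators -/
lemma clear (g : MvPolynomial (Fin (m + 1)) K) : ∃ (d : 𝓞 K)
    (G : MvPolynomial (Fin (m + 1)) (𝓞 K)), d ≠ 0 ∧
      map (algebraMap (𝓞 K) K) G = C (algebraMap (𝓞 K) K d) * g := by
  induction g using MvPolynomial.induction_on with
  | C a =>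
    obtain ⟨n, d, hd, rfl⟩ := IsFractionRing.div_surjective (A := 𝓞 K) a
    have hd0 : algebraMap (𝓞 K) K d ≠ 0 := by
      rw [Ne, FaithfulSMul.algebraMap_eq_zero_iff]
      exact nonZeroDivisors.ne_zero hd
    refine ⟨d, C n, nonZeroDivisors.ne_zero hd, ?_⟩
    rw [map_C, ← C_mul, mul_div_cancel₀ _ hd0]
  | add p q hp hq =>
    obtain ⟨d, G, hd, hG⟩ := hp
    obtain ⟨d', G', hd', hG'⟩ := hq
    refine ⟨d * d', C d' * G + C d * G', mul_ne_zero hd hd', ?_⟩
    rw [map_add, map_mul, map_mul, hG, hG', map_C, map_C, map_mul, C_mul]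
    ring
  | mul_X p i hp =>
    obtain ⟨d, G, hd, hG⟩ := hp
    refine ⟨d, G * X i, hd, ?_⟩
    rw [map_mul, hG, map_X]
    ring

lemma hom_of_map {G : MvPolynomial (Fin (m + 1)) (𝓞 K)} {κ : ℕ}
    (h : (map (algebraMap (𝓞 K) K) G).IsHomogeneous κ) : G.IsHomogeneous κ := by
  intro d hd
  refine h ?_
  rw [coeff_map]
  exact (FaithfulSMul.algebraMap_eq_zero_iff (𝓞 K) K).not.2 hd

/-- factorisation of one form -/
lemma fac1 (F : MvPolynomial (Fin (m + 1)) (𝓞 K)) (κ : ℕ) (hF : F.IsHomogeneous κ)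
    (hF0 : F ≠ 0) : ∃ (l : ℕ) (G : Fin l → MvPolynomial (Fin (m + 1)) (𝓞 K)) (κ₁ : Fin l → ℕ)
      (a b : 𝓞 K), a ≠ 0 ∧ b ≠ 0 ∧ (∀ i, (G i).IsHomogeneous (κ₁ i)) ∧
      (∀ i, Irreducible (map (algebraMap (𝓞 K) K) (G i))) ∧ C a * F = C b * ∏ i, G i := by
  set f := map (algebraMap (𝓞 K) K) F with hf
  have hf0 : f ≠ 0 := by
    intro h
    apply hF0
    apply ph_inj
    rw [map_zero]
    exact h
  have hfh : f.IsHomogeneous κ := hF.map _
  set s := UniqueFactorizationMonoid.factors f with hs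
  have hsp : Associated s.prod f := UniqueFactorizationMonoid.factors_prod hf0
  obtain ⟨u, hu⟩ := hsp
  obtain ⟨c, hc, huc⟩ := (MvPolynomial.isUnit_iff_eq_C_of_isReduced).1 u.isUnit
  obtain ⟨n, d, hd, hcd⟩ := IsFractionRing.div_surjective (A := 𝓞 K) c
  have hd0 : d ≠ 0 := nonZeroDivisors.ne_zero hd
  have hdK : algebraMap (𝓞 K) K d ≠ 0 := by
    rw [Ne, FaithfulSMul.algebraMap_eq_zero_iff]
    exact hd0
  have hn0 : n ≠ 0 := by
    rintro rfl
    rw [map_zero, zero_div] at hcd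
    exact hc.ne_zero hcd.symm
  choose dd GG hdd hGG using fun g : MvPolynomial (Fin (m + 1)) K => clear g
  set lst := s.toList with hlst
  have hmem : ∀ i : Fin lst.length, lst[i.1] ∈ s := fun i => by
    rw [← Multiset.mem_toList]
    exact List.getElem_mem _
  have hirr : ∀ g ∈ s, Irreducible g := fun g hg =>
    UniqueFactorizationMonoid.irreducible_of_factor g hg
  have hdvd : ∀ g ∈ s, g ∣ f := fun g hg => UniqueFactorizationMonoid.dvd_of_mem_factors hg
  have hunit : ∀ g : MvPolynomial (Fin (m + 1)) K,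
      IsUnit (C (algebraMap (𝓞 K) K (dd g)) : MvPolynomial (Fin (m + 1)) K) := by
    intro g
    apply IsUnit.map
    rw [isUnit_iff_ne_zero, Ne, FaithfulSMul.algebraMap_eq_zero_iff]
    exact hdd g
  refine ⟨lst.length, fun i => GG lst[i.1], fun i => (lst[i.1]).totalDegree,
    d * ∏ i : Fin lst.length, dd lst[i.1], n, mul_ne_zero hd0 (Finset.prod_ne_zero_iff.2 fun i _ => hdd _), hn0,
    fun i => ?_, fun i => ?_, ?_⟩
  · apply hom_of_map
    rw [hGG]
    exact (homog_of_dvd hfh hf0 (hdvd _ (hmem i))).C_mul _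
  · rw [hGG]
    exact (irreducible_isUnit_mul (hunit _)).2 (hirr _ (hmem i))
  · apply ph_inj
    show map (algebraMap (𝓞 K) K) _ = map (algebraMap (𝓞 K) K) _
    simp only [map_mul, map_prod, map_C, hGG]
    have e1 : s.prod = ∏ i : Fin lst.length, lst[i.1] := by
      rw [Fin.prod_univ_getElem, hlst, Multiset.prod_toList]
    have e2 : (C (algebraMap (𝓞 K) K d) : MvPolynomial (Fin (m + 1)) K) * C c =
        C (algebraMap (𝓞 K) K n) := by
      rw [← C_mul, ← hcd, mul_div_cancel₀ _ hdK]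
    have e3 : f = (∏ i : Fin lst.length, lst[i.1]) * C c := by rw [← e1, ← huc, hu]
    have e4 : ∀ f' : MvPolynomial (Fin (m + 1)) K, f' = (∏ i : Fin lst.length, lst[i.1]) * C c →
        C (algebraMap (𝓞 K) K d) * (∏ i : Fin lst.length,
          (C (algebraMap (𝓞 K) K (dd lst[i.1])) : MvPolynomial (Fin (m + 1)) K)) * f' =
        C (algebraMap (𝓞 K) K n) * ∏ i : Fin lst.length,
          (C (algebraMap (𝓞 K) K (dd lst[i.1])) * lst[i.1]) := by
      intro f' hf'
      rw [hf', Finset.prod_mul_distrib, ← e2]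
      ring
    exact e4 _ e3

/-- primes outside a set -/
lemma exists_prime_mem (v : HeightOneSpectrum (𝓞 K)) : ∀ N : ℕ, N ≠ 0 → (N : 𝓞 K) ∈ v.asIdeal →
    ∃ p ∈ N.primeFactors, (p : 𝓞 K) ∈ v.asIdeal := by
  intro N
  induction N using Nat.strong_induction_on with
  | _ N ih =>
    intro hN hv
    by_cases h1 : N = 1
    · exfalso
      rw [h1, Nat.cast_one] at hv
      exact v.isPrime.ne_top ((Ideal.eq_top_iff_one _).2 hv)
    have hp := Nat.minFac_prime h1
    obtain ⟨c, hc⟩ := Nat.minFac_dvd N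
    have hc0 : c ≠ 0 := by
      rintro rfl
      rw [mul_zero] at hc
      exact hN hc
    have h2 : ((N.minFac : ℕ) : 𝓞 K) * (c : 𝓞 K) ∈ v.asIdeal := by
      rw [← Nat.cast_mul, ← hc]
      exact hv
    rcases v.isPrime.mem_or_mem h2 with h | h
    · exact ⟨_, Nat.mem_primeFactors.2 ⟨hp, Nat.minFac_dvd N, hN⟩, h⟩
    · have hlt : c < N := by
        have := hp.two_le
        have h3 : 0 < c := Nat.pos_of_ne_zero hc0
        nlinarith
      obtain ⟨p, hp', hpv⟩ := ih c hlt hc0 h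
      refine ⟨p, Nat.primeFactors_mono (Dvd.intro_left _ hc.symm) hN hp', hpv⟩

lemma not_mem (c : 𝓞 K) (hc : c ≠ 0) (v : HeightOneSpectrum (𝓞 K))
    (h : Outside (Ideal.absNorm (Ideal.span {c})).primeFactors v) : c ∉ v.asIdeal := by
  intro hv
  have h1 : ((Ideal.absNorm (Ideal.span {c}) : ℕ) : 𝓞 K) ∈ v.asIdeal :=
    (Ideal.span_singleton_le_iff_mem _).2 hv (Ideal.absNorm_mem _)
  have h2 : Ideal.absNorm (Ideal.span {c}) ≠ 0 := by
    rw [Ne, Ideal.absNorm_eq_zero_iff, Ideal.span_singleton_eq_bot]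
    exact hc
  obtain ⟨p, hp, hpv⟩ := exists_prime_mem v _ h2 h1
  exact h p hp hpv

lemma fv_one {c : 𝓞 K} {v : HeightOneSpectrum (𝓞 K)} (h : c ∉ v.asIdeal) :
    fv v (c : K) = 1 := by
  refine le_antisymm (fv_int_le v c) ?_
  by_contra hc
  push Not at hc
  rw [← map_one (fv v), fv_lt_iff, map_one] at hc
  exact h ((v.valuation_lt_one_iff_mem _).1 hc)

lemma lam_pos_iff {F : MvPolynomial (Fin (m + 1)) (𝓞 K)} {κ : ℕ} {x : Fin (m + 1) → K}
    (hl : aeval x F ≠ 0) (v : HeightOneSpectrum (𝓞 K)) :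
    0 < lam K F κ x v ↔ fv v (aeval x F) < (⨆ j, fv v (x j)) ^ κ := by
  have hid : ∀ z : K, algebraMap K K z = z := fun z => rfl
  have h0 : 0 < fv v (aeval x F) := (fv v).pos hl
  have hs0 : 0 ≤ ⨆ j, fv v (x j) := Real.iSup_nonneg fun j => (fv v).nonneg _
  rw [lam_def]
  simp only [hid]
  rw [Real.log_pos_iff (div_nonneg (pow_nonneg hs0 _) h0.le), one_lt_div h0]

theorem t_FAC : S_FAC := by
  intro K _ _ m q F κ hF hsq
  have hprod0 : (∏ j, map (algebraMap (𝓞 K) K) (F j)) ≠ 0 := hsq.ne_zero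
  have hF0 : ∀ j, F j ≠ 0 := by
    intro j h
    apply hprod0
    refine Finset.prod_eq_zero (Finset.mem_univ j) ?_
    rw [h, map_zero]
  choose l G κ₁ a b ha hb hG hirr hab using fun j => fac1 (F j) (κ j) (hF j) (hF0 j)
  have hG0 : ∀ j i, G j i ≠ 0 := by
    intro j i h
    apply (hirr j i).ne_zero
    rw [h, map_zero]
  -- degrees
  have hdeg : ∀ j, κ j = ∑ i, κ₁ j i := by
    intro j
    have h1 : (C (a j) * F j).IsHomogeneous (κ j) := (hF j).C_mul _
    have h2 : (C (b j) * ∏ i, G j i).IsHomogeneous (∑ i, κ₁ j i) :=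
      (IsHomogeneous.prod _ _ _ fun i _ => hG j i).C_mul _
    rw [hab j] at h1
    refine h1.inj_right h2 ?_
    refine mul_ne_zero ?_ (Finset.prod_ne_zero_iff.2 fun i _ => hG0 j i)
    rw [Ne, C_eq_zero]
    exact hb j
  have hκ1 : ∀ j i, 1 ≤ κ₁ j i := by
    intro j i
    by_contra h
    have h0 : κ₁ j i = 0 := by omega
    have h1 := hG j i
    rw [h0] at h1
    have h2 : (G j i).totalDegree = 0 := h1.totalDegree (hG0 j i)
    have h3 := totalDegree_eq_zero_iff_eq_C.1 h2
    apply (hirr j i).not_isUnit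
    rw [h3, map_C]
    apply IsUnit.map
    rw [isUnit_iff_ne_zero, Ne, FaithfulSMul.algebraMap_eq_zero_iff]
    intro h4
    apply hG0 j i
    rw [h3, h4, C_0]
  -- the index set
  let ι := Σ j : Fin q, Fin (l j)
  let e : ι ≃ Fin (Fintype.card ι) := Fintype.equivFin ι
  set cc : 𝓞 K := ∏ j, a j * b j with hcc
  have hcc0 : cc ≠ 0 := Finset.prod_ne_zero_iff.2 fun j _ => mul_ne_zero (ha j) (hb j)
  -- evaluation
  have hev : ∀ (x : Fin (m + 1) → K) j, (algebraMap (𝓞 K) K (a j)) * aeval x (F j) =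
      (algebraMap (𝓞 K) K (b j)) * ∏ i, aeval x (G j i) := by
    intro x j
    have h := congrArg (aeval x) (hab j)
    rw [map_mul, map_mul, map_prod, aeval_C, aeval_C] at h
    exact h
  have hbK : ∀ j, algebraMap (𝓞 K) K (b j) ≠ 0 := fun j => by
    rw [Ne, FaithfulSMul.algebraMap_eq_zero_iff]
    exact hb j
  refine ⟨Fintype.card ι, fun i => G (e.symm i).1 (e.symm i).2,
    fun i => κ₁ (e.symm i).1 (e.symm i).2, (Ideal.absNorm (Ideal.span {cc})).primeFactors,
    fun p hp => Nat.prime_of_mem_primeFactors hp, fun i => hG _ _, fun i => hirr _ _, ?_, ?_, ?_, ?_⟩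
  · -- not associated
    intro i i' hii hass
    have hne : e.symm i ≠ e.symm i' := fun h => hii (e.symm.injective h)
    set g : ι → MvPolynomial (Fin (m + 1)) K :=
      fun p => map (algebraMap (𝓞 K) K) (G p.1 p.2) with hg
    have h1 : g (e.symm i) * g (e.symm i') ∣ ∏ p : ι, g p := by
      rw [← Finset.prod_pair hne]
      exact Finset.prod_dvd_prod_of_subset _ _ _ (Finset.subset_univ _)
    have h2 : (∏ p : ι, g p) ∣ ∏ j, map (algebraMap (𝓞 K) K) (F j) := by
      rw [Fintype.prod_sigma]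
      refine Finset.prod_dvd_prod_of_dvd _ _ fun j _ => ?_
      have h3 := congrArg (map (algebraMap (𝓞 K) K)) (hab j)
      rw [map_mul, map_mul, map_prod, map_C, map_C] at h3
      have hu : IsUnit (C (algebraMap (𝓞 K) K (a j)) : MvPolynomial (Fin (m + 1)) K) := by
        apply IsUnit.map
        rw [isUnit_iff_ne_zero, Ne, FaithfulSMul.algebraMap_eq_zero_iff]
        exact ha j
      rw [← hu.dvd_mul_left, h3]
      exact dvd_mul_left _ _
    have h4 : g (e.symm i) * g (e.symm i) ∣ ∏ j, map (algebraMap (𝓞 K) K) (F j) :=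
      (mul_dvd_mul_left _ hass.dvd).trans (h1.trans h2)
    exact (hirr _ _).not_isUnit (hsq _ h4)
  · -- weights
    calc ∑ j, wt (κ j) ≤ ∑ j, ∑ i, wt (κ₁ j i) := by
          refine Finset.sum_le_sum fun j _ => ?_
          rw [hdeg j]
          exact wt_le (l j) (κ₁ j) (hκ1 j)
      _ = ∑ p : ι, wt (κ₁ p.1 p.2) := by rw [Fintype.sum_sigma]
      _ = ∑ i, wt (κ₁ (e.symm i).1 (e.symm i).2) :=
          (Equiv.sum_comp e.symm (fun p : ι => wt (κ₁ p.1 p.2))).symm
  · -- values
    intro x hx j h0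
    have h1 := hev x j
    rw [h0, mul_zero] at h1
    have h2 : ∏ i, aeval x (G j i) ≠ 0 := by
      refine Finset.prod_ne_zero_iff.2 fun i _ => ?_
      have h3 : (fun p : ι => aeval x (G p.1 p.2)) (e.symm (e ⟨j, i⟩)) ≠ 0 := hx (e ⟨j, i⟩)
      rw [Equiv.symm_apply_apply] at h3
      exact h3
    exact mul_ne_zero (hbK j) h2 h1.symm
  · -- local heights
    intro x hx hFx v hv ⟨i, hi⟩
    set j := (e.symm i).1 with hj
    refine ⟨j, ?_⟩
    have hcv := not_mem cc hcc0 v hv
    have hav : a j ∉ v.asIdeal := fun h => hcv (Ideal.mem_of_dvd _ ((Dvd.intro _ rfl).trans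
      (Finset.dvd_prod_of_mem (fun j => a j * b j) (Finset.mem_univ j))) h)
    have hbv : b j ∉ v.asIdeal := fun h => hcv (Ideal.mem_of_dvd _ ((Dvd.intro_left _ rfl).trans
      (Finset.dvd_prod_of_mem (fun j => a j * b j) (Finset.mem_univ j))) h)
    have hGx : ∀ i, aeval x (G j i) ≠ 0 := by
      intro i' h0
      have h1 := hev x j
      rw [Finset.prod_eq_zero (Finset.mem_univ i') h0, mul_zero] at h1
      rcases mul_eq_zero.1 h1 with h | h
      · rw [FaithfulSMul.algebraMap_eq_zero_iff] at h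
        exact ha j h
      · exact hFx j h
    rw [lam_pos_iff (hFx j)]
    have h2 := (lam_pos_iff (hGx (e.symm i).2) v).1 hi
    have hXp : 0 < ⨆ j, fv v (x j) := sup_pos' (fv v) hx
    have h3 : fv v (aeval x (F j)) = ∏ i, fv v (aeval x (G j i)) := by
      have h4 := congrArg (fv v) (hev x j)
      rw [map_mul, map_mul, map_prod] at h4
      have h5 : fv v (algebraMap (𝓞 K) K (a j)) = 1 := fv_one hav
      have h6 : fv v (algebraMap (𝓞 K) K (b j)) = 1 := fv_one hbv
      rw [h5, h6, one_mul, one_mul] at h4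
      exact h4
    rw [h3, hdeg j, ← Finset.prod_pow_eq_pow_sum]
    refine Finset.prod_lt_prod (fun i' _ => (fv v).pos (hGx i')) (fun i' _ => ?_)
      ⟨(e.symm i).2, Finset.mem_univ _, h2⟩
    exact aeval_le (L := K) (hG j i') v

end Pool.Agent.N752.HY.Fac
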