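import Pool.Agent.N752.HY.Ext
import Pool.Agent.N752.HY.Fac
import Pool.Agent.N752.HY.Fld3
import Pool.Agent.N752.HY.Dens

set_option autoImplicit false

/-!
The truncated counting function over `K` and the discriminants of abelian covers.
-/

namespace Pool.Agent.N752.HY.Ext4

open NumberField IsDedekindDomain MvPolynomial Module Height
open Pool.Agent.H691R3 (fv fv_na fv_support_finite log_fv Nv log_Nv_pos)
open Pool.Agent.TH905.VF (fv_lt_ext fv_lt_iff rel product_formula exists_supp)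
open Pool.Agent.N752.HY.Ext
open scoped Classical

variable {K L : Type} [Field K] [NumberField K] [Field L] [NumberField L] [Algebra K L]

/-- positive local heights over `L` come from positive local heights over `K` -/
lemma lam_pos' {m : ℕ} {F : MvPolynomial (Fin (m + 1)) (𝓞 K)} {κ : ℕ} {x : Fin (m + 1) → K}
    (hl : aeval x F ≠ 0) (v : HeightOneSpectrum (𝓞 K))
    (w : HeightOneSpectrum (𝓞 L)) (hvw : w.asIdeal.LiesOver v.asIdeal)
    (h : 0 < lam L F κ x w) : 0 < lam K F κ x v := by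
  obtain ⟨j, hj⟩ := exists_eq_ciSup_of_finite (f := fun j => fv w (algebraMap K L (x j)))
  have h0 : 0 < fv w (algebraMap K L (aeval x F)) := (fv w).pos ((map_ne_zero _).2 hl)
  have hj' : fv w (algebraMap K L (x j)) = ⨆ j, fv w (algebraMap K L (x j)) := hj
  rw [lam_def] at h
  have h1 : fv w (algebraMap K L (aeval x F)) < fv w (algebraMap K L (x j ^ κ)) := by
    by_contra hc
    push Not at hc
    rw [map_pow, map_pow, hj'] at hc
    have h2 : (⨆ j, fv w (algebraMap K L (x j))) ^ κ / fv w (algebraMap K L (aeval x F)) ≤ 1 :=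
      (div_le_one h0).2 hc
    have h3 : 0 ≤ (⨆ j, fv w (algebraMap K L (x j))) ^ κ / fv w (algebraMap K L (aeval x F)) := by
      rw [← hj']
      exact div_nonneg (pow_nonneg ((fv w).nonneg _) _) h0.le
    exact absurd (Real.log_nonpos h3 h2) (not_le.2 h)
  have h2 := (fv_lt_ext (L := L) v w hvw _ _).1 h1
  rw [Pool.Agent.N752.HY.Fac.lam_pos_iff hl]
  refine h2.trans_le ?_
  rw [map_pow]
  exact pow_le_pow_left₀ ((fv v).nonneg _)
    (le_ciSup (f := fun j => fv v (x j)) (Set.finite_range _).bddAbove j) _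

theorem ext4 {m q : ℕ} {F : Fin q → MvPolynomial (Fin (m + 1)) (𝓞 K)}
    {κ : Fin q → ℕ} {x : Fin (m + 1) → K} {S : Finset ℕ} {e : Fin q → ℕ}
    (hF : ∀ i, (F i).IsHomogeneous (κ i)) (hx : x ≠ 0) (hl : ∀ i, aeval x (F i) ≠ 0)
    (hS : ∀ p ∈ S, p.Prime) (he : ∀ i, 1 ≤ e i)
    (hint : ∀ w : HeightOneSpectrum (𝓞 L), Outside S w → ∀ i, 0 < lam L (F i) (κ i) x w →
      (∀ j, j ≠ i → lam L (F j) (κ j) x w = 0) →
      ∃ t : ℕ, lam L (F i) (κ i) x w = t * e i * Real.log (Ideal.absNorm w.asIdeal)) :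
    cnt K ∅ F κ Finset.univ x + ∑ i, 1 / (e i : ℝ) * prox L S (F i) (κ i) x ≤
      (ldisc L - ldisc K) + ∑ p ∈ S, Real.log p + (∑ i, (κ i : ℝ) / e i) * hgt x +
        ovl K F κ x := by
  have hd : (0 : ℝ) < finrank ℚ K := by exact_mod_cast finrank_pos
  have hLp := finrank_pos' (K := K) (L := L)
  have htow : (finrank ℚ L : ℝ) = finrank ℚ K * finrank K L := by
    exact_mod_cast (finrank_mul_finrank ℚ K L).symm
  have he0 : ∀ i, (0 : ℝ) < e i := fun i => by exact_mod_cast he i
  have hnn : ∀ i (w : HeightOneSpectrum (𝓞 L)), 0 ≤ lam L (F i) (κ i) x w := fun i w =>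
    lam_nonneg (hF i) (hl i) w
  have hlog : ∀ v : HeightOneSpectrum (𝓞 K), 0 ≤ Real.log (Ideal.absNorm v.asIdeal : ℝ) :=
    fun v => Real.log_natCast_nonneg _
  -- the primes of `K`
  have hfinK : {v : HeightOneSpectrum (𝓞 K) | ∃ i, 0 < lam K (F i) (κ i) x v}.Finite := by
    refine (Set.finite_iUnion fun i => lam_support (L := K) (κ := κ i) hx (hl i)).subset ?_
    rintro v ⟨i, hi⟩
    exact Set.mem_iUnion.2 ⟨i, hi.ne'⟩
  have h1 : cnt K ∅ F κ Finset.univ x =
      (∑ v ∈ hfinK.toFinset, Real.log (Ideal.absNorm v.asIdeal)) / finrank ℚ K := by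
    unfold cnt
    rw [finsum_eq_sum_of_support_subset (s := hfinK.toFinset)]
    · congr 1
      refine Finset.sum_congr rfl fun v hv => ?_
      obtain ⟨i, hi⟩ := (Set.Finite.mem_toFinset _).1 hv
      exact if_pos ⟨fun p hp => absurd hp (Finset.notMem_empty p), i, Finset.mem_univ i, hi⟩
    · intro v hv
      rw [Finset.mem_coe, Set.Finite.mem_toFinset]
      by_contra hc
      refine hv (if_neg ?_)
      rintro ⟨-, i, -, hi⟩
      exact hc ⟨i, hi⟩
  set Ov : HeightOneSpectrum (𝓞 K) → Prop := fun v => ∃ i j, i ≠ j ∧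
    0 < lam K (F i) (κ i) x v ∧ 0 < lam K (F j) (κ j) x v with hOv
  have h1' : ovl K F κ x = (∑ v ∈ hfinK.toFinset,
      if Ov v then Real.log (Ideal.absNorm v.asIdeal : ℝ) else 0) / finrank ℚ K := by
    unfold ovl
    rw [finsum_eq_sum_of_support_subset (s := hfinK.toFinset)]
    intro v hv
    rw [Finset.mem_coe, Set.Finite.mem_toFinset]
    by_contra hc
    refine hv (if_neg ?_)
    rintro ⟨i, j, -, hi, -⟩
    exact hc ⟨i, hi⟩
  set R := hfinK.toFinset.filter (fun v => Outside S v ∧ ¬ Ov v) with hR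
  set Rb := hfinK.toFinset.filter (fun v => ¬ Outside S v) with hRb
  have h2 : ∑ v ∈ hfinK.toFinset, Real.log (Ideal.absNorm v.asIdeal : ℝ) ≤
      ∑ v ∈ R, Real.log (Ideal.absNorm v.asIdeal) +
        ∑ v ∈ Rb, Real.log (Ideal.absNorm v.asIdeal) +
        ∑ v ∈ hfinK.toFinset, if Ov v then Real.log (Ideal.absNorm v.asIdeal : ℝ) else 0 := by
    rw [hR, hRb, Finset.sum_filter, Finset.sum_filter, ← Finset.sum_add_distrib,
      ← Finset.sum_add_distrib]
    refine Finset.sum_le_sum fun v _ => ?_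
    have := hlog v
    by_cases hv1 : Outside S v <;> by_cases hv2 : Ov v <;> simp [hv1, hv2, this]
  have h3 := sum_above (L := K) S hS Rb fun v hv => (Finset.mem_filter.1 hv).2
  have hRp : ∀ v ∈ R, Outside S v ∧ ¬ Ov v ∧ ∃ i, 0 < lam K (F i) (κ i) x v := by
    intro v hv
    obtain ⟨h4, h5, h5'⟩ := Finset.mem_filter.1 hv
    have h6 := (Set.Finite.mem_toFinset hfinK).1 h4
    exact ⟨h5, h5', h6⟩
  have key := keyW (K := K) (L := L) R ∅
    (fun w => ∑ i, 1 / (e i : ℝ) * lam L (F i) (κ i) x w)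
    (∑ i, 1 / (e i : ℝ) * (finrank K L *
      (κ i * logHeight x - finrank ℚ K * prox L S (F i) (κ i) x))) ?_ ?_
  · have h7 : (∑ i, 1 / (e i : ℝ) * (finrank K L *
        (κ i * logHeight x - finrank ℚ K * prox L S (F i) (κ i) x))) / finrank K L =
        (∑ i, (κ i : ℝ) / e i) * logHeight x -
          finrank ℚ K * ∑ i, 1 / (e i : ℝ) * prox L S (F i) (κ i) x := by
      rw [Finset.sum_div, Finset.sum_mul, Finset.mul_sum, ← Finset.sum_sub_distrib]
      refine Finset.sum_congr rfl fun i _ => ?_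
      have := (he0 i).ne'
      field_simp
    have h8 : ld K L = finrank ℚ K * (ldisc L - ldisc K) := by
      unfold ld ldisc
      rw [htow]
      field_simp
    have h10 : logHeight x = finrank ℚ K * hgt x := by
      unfold hgt
      field_simp
    rw [Finset.sum_empty, zero_add, h7, h8, h10] at key
    rw [h1, h1']
    refine le_of_mul_le_mul_left ?_ hd
    have e1 : (finrank ℚ K : ℝ) * ((∑ v ∈ hfinK.toFinset, Real.log (Ideal.absNorm v.asIdeal)) /
        finrank ℚ K + ∑ i, 1 / (e i : ℝ) * prox L S (F i) (κ i) x) =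
        ∑ v ∈ hfinK.toFinset, Real.log (Ideal.absNorm v.asIdeal) +
        finrank ℚ K * ∑ i, 1 / (e i : ℝ) * prox L S (F i) (κ i) x := by
      field_simp
    have e2 : (finrank ℚ K : ℝ) * ((ldisc L - ldisc K) +
        ∑ p ∈ S, Real.log (p : ℝ) + (∑ i, (κ i : ℝ) / e i) * hgt x +
        (∑ v ∈ hfinK.toFinset, if Ov v then Real.log (Ideal.absNorm v.asIdeal : ℝ) else 0) /
          finrank ℚ K) =
        finrank ℚ K * (ldisc L - ldisc K) +
        (∑ i, (κ i : ℝ) / e i) * (finrank ℚ K * hgt x) +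
        finrank ℚ K * ∑ p ∈ S, Real.log (p : ℝ) +
        ∑ v ∈ hfinK.toFinset, if Ov v then Real.log (Ideal.absNorm v.asIdeal : ℝ) else 0 := by
      field_simp
      ring
    rw [e1, e2]
    linarith
  · rintro w ⟨v, hvR, hvw⟩
    have hterm : ∀ i, 0 ≤ 1 / (e i : ℝ) * lam L (F i) (κ i) x w := fun i =>
      mul_nonneg (by positivity) (hnn i w)
    refine ⟨Finset.sum_nonneg fun i _ => hterm i, Or.inr ?_⟩
    obtain ⟨hvS, hvO, i, hi⟩ := hRp v hvR
    have hwS : Outside S w := outside_ext S v w hvw hvS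
    have hpos : 0 < lam L (F i) (κ i) x w := lam_pos (hl i) v w hvw hi
    have hzero : ∀ j, j ≠ i → lam L (F j) (κ j) x w = 0 := by
      intro j hj
      by_contra hc
      have hj1 : 0 < lam L (F j) (κ j) x w := lt_of_le_of_ne (hnn j w) (Ne.symm hc)
      exact hvO ⟨j, i, hj, lam_pos' (hl j) v w hvw hj1, hi⟩
    obtain ⟨t, ht⟩ := hint w hwS i hpos hzero
    have ht1 : 1 ≤ t := by
      by_contra hc
      have : t = 0 := by omega
      rw [ht, this, Nat.cast_zero, zero_mul, zero_mul] at hpos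
      exact lt_irrefl _ hpos
    have h5 : Real.log (Ideal.absNorm w.asIdeal) ≤ 1 / (e i : ℝ) * lam L (F i) (κ i) x w := by
      rw [ht]
      have h0 : 0 ≤ Real.log (Ideal.absNorm w.asIdeal : ℝ) := Real.log_natCast_nonneg _
      have ht1' : (1 : ℝ) ≤ t := by exact_mod_cast ht1
      have he' := (he0 i).ne'
      have : 1 / (e i : ℝ) * (t * e i * Real.log (Ideal.absNorm w.asIdeal)) =
          t * Real.log (Ideal.absNorm w.asIdeal) := by
        field_simp
      rw [this]
      nlinarith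
    refine h5.trans ?_
    exact Finset.single_le_sum (f := fun i => 1 / (e i : ℝ) * lam L (F i) (κ i) x w)
      (fun i _ => hterm i) (Finset.mem_univ i)
  · intro W hW
    rw [Finset.sum_comm]
    refine Finset.sum_le_sum fun i _ => ?_
    rw [← Finset.mul_sum]
    refine mul_le_mul_of_nonneg_left (prox_sum (hF i) hx (hl i) S hS W ?_) (by positivity)
    intro w hw
    obtain ⟨v, hv, hvw⟩ := hW w hw
    exact outside_ext S v w hvw (hRp v hv).1

lemma div_gcd_dvd {E a n : ℕ} (hE : 0 < E) (h : E ∣ a * n) : E / Nat.gcd E a ∣ n := by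
  have hg : 0 < Nat.gcd E a := Nat.gcd_pos_of_pos_left _ hE
  have hco := Nat.coprime_div_gcd_div_gcd (m := E) (n := a) hg
  refine hco.dvd_of_dvd_mul_left ?_
  have h1 : Nat.gcd E a * (E / Nat.gcd E a) ∣ Nat.gcd E a * (a / Nat.gcd E a * n) := by
    rw [Nat.mul_div_cancel' (Nat.gcd_dvd_left E a), ← mul_assoc,
      Nat.mul_div_cancel' (Nat.gcd_dvd_right E a)]
    exact h
  exact (Nat.mul_dvd_mul_iff_left hg).1 h1

/-- the local heights relative to the branch divisors of an abelian cover -/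
lemma abel_int {m q s : ℕ} {F : Fin q → MvPolynomial (Fin (m + 1)) (𝓞 K)} {κ : Fin q → ℕ}
    {x : Fin (m + 1) → K} (hF : ∀ i, (F i).IsHomogeneous (κ i)) (hx : x ≠ 0)
    (hl : ∀ i, aeval x (F i) ≠ 0) (E : Fin s → ℕ) (a : Fin s → Fin q → ℕ) (hE : ∀ i, 1 ≤ E i)
    (hdiv : ∀ i, E i ∣ ∑ j, a i j * κ j) (c y : Fin s → L)
    (hy : ∀ i, y i ^ E i = c i * ∏ j, algebraMap K L (aeval x (F j)) ^ a i j)
    (w : HeightOneSpectrum (𝓞 L)) (hc : ∀ i, fv w (c i) = 1) (j : Fin q)
    (hz : ∀ j', j' ≠ j → lam L (F j') (κ j') x w = 0) :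
    ∃ t : ℕ, lam L (F j) (κ j) x w =
      t * (Finset.univ.lcm fun i => E i / Nat.gcd (E i) (a i j) : ℕ) *
        Real.log (Ideal.absNorm w.asIdeal) := by
  have hN : 0 < Real.log (Nv w) := log_Nv_pos w
  have hNe : Real.log (Ideal.absNorm w.asIdeal : ℝ) = Real.log (Nv w) := rfl
  obtain ⟨j0, hj0⟩ := exists_eq_ciSup_of_finite (f := fun j => fv w (algebraMap K L (x j)))
  have hj0' : fv w (algebraMap K L (x j0)) = ⨆ j, fv w (algebraMap K L (x j)) := hj0
  have hs : 0 < ⨆ j, fv w (algebraMap K L (x j)) := sup_pos' (fv w) (map_ne (L := L) hx)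
  have hxj0 : algebraMap K L (x j0) ≠ 0 := by
    intro h0
    rw [h0, map_zero] at hj0'
    rw [← hj0'] at hs
    exact lt_irrefl _ hs
  obtain ⟨μ, hμ⟩ := log_fv w hxj0
  have hFL : ∀ j, algebraMap K L (aeval x (F j)) ≠ 0 := fun j => (map_ne_zero _).2 (hl j)
  choose f hf using fun j => log_fv w (hFL j)
  have hlam : ∀ j, lam L (F j) (κ j) x w = ((κ j * μ - f j : ℤ) : ℝ) * Real.log (Nv w) := by
    intro j
    rw [lam_sub hx (hl j), ← hj0', hμ, hf]
    push_cast
    ring
  have hn0 : 0 ≤ (κ j * μ - f j : ℤ) := by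
    have h1 := lam_nonneg (L := L) (hF j) (hl j) w
    rw [hlam j] at h1
    have h2 : (0 : ℝ) ≤ ((κ j * μ - f j : ℤ) : ℝ) := nonneg_of_mul_nonneg_left h1 hN
    exact_mod_cast h2
  have hfz : ∀ j', j' ≠ j → f j' = κ j' * μ := by
    intro j' hj'
    have h1 := hz j' hj'
    rw [hlam j'] at h1
    rcases mul_eq_zero.1 h1 with h2 | h2
    · have h3 : (κ j' * μ - f j' : ℤ) = 0 := by exact_mod_cast h2
      omega
    · exact absurd h2 hN.ne'
  obtain ⟨t, ht⟩ := Int.eq_ofNat_of_zero_le hn0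
  have hdvd : (Finset.univ.lcm fun i => E i / Nat.gcd (E i) (a i j) : ℕ) ∣ t := by
    refine Finset.lcm_dvd fun i _ => div_gcd_dvd (hE i) ?_
    have hci : c i ≠ 0 := by
      intro h0
      have := hc i
      rw [h0, map_zero] at this
      exact zero_ne_one this
    have hprod : (∏ j, algebraMap K L (aeval x (F j)) ^ a i j) ≠ 0 :=
      Finset.prod_ne_zero_iff.2 fun j _ => pow_ne_zero _ (hFL j)
    have hyi : y i ≠ 0 := by
      intro h0
      have h1 := hy i
      rw [h0, zero_pow (by have := hE i; omega)] at h1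
      exact mul_ne_zero hci hprod h1.symm
    obtain ⟨η, hη⟩ := log_fv w hyi
    have h1 := congrArg (fun z => Real.log (fv w z)) (hy i)
    simp only [map_pow, map_mul, hc i, one_mul] at h1
    rw [Real.log_pow, map_prod, Real.log_prod (fun j _ => by
      rw [map_pow]; exact pow_ne_zero _ ((fv w).pos (hFL j)).ne')] at h1
    have h2 : ∀ j, Real.log (fv w (algebraMap K L (aeval x (F j)) ^ a i j)) =
        ((a i j * f j : ℤ) : ℝ) * Real.log (Nv w) := by
      intro j
      rw [map_pow, Real.log_pow, hf j]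
      push_cast
      ring
    rw [Finset.sum_congr rfl fun j _ => h2 j, ← Finset.sum_mul, hη, ← mul_assoc] at h1
    have h3 : ((E i * η : ℤ) : ℝ) = ((∑ j, a i j * f j : ℤ) : ℝ) := by
      have h4 := mul_right_cancel₀ hN.ne' h1
      push_cast at h4 ⊢
      exact h4
    have h5 : (E i * η : ℤ) = ∑ j, a i j * f j := by exact_mod_cast h3
    obtain ⟨b, hb⟩ := hdiv i
    have h6 : ∑ j', (a i j' : ℤ) * f j' = (∑ j', (a i j' : ℤ) * κ j') * μ - a i j * t := by
      have h7 : ∀ j', (a i j' : ℤ) * f j' = (a i j' : ℤ) * κ j' * μ -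
          if j' = j then (a i j : ℤ) * t else 0 := by
        intro j'
        by_cases hjj : j' = j
        · subst hjj
          rw [if_pos rfl]
          have : f j' = κ j' * μ - t := by
            have h8 : (κ j' * μ - f j' : ℤ) = (t : ℤ) := ht
            omega
          rw [this]
          ring
        · rw [if_neg hjj, hfz j' hjj]
          ring
      rw [Finset.sum_congr rfl fun j' _ => h7 j', Finset.sum_sub_distrib, Finset.sum_mul]
      simp
    have h9 : (∑ j', (a i j' : ℤ) * κ j') = E i * b := by exact_mod_cast hb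
    have h10 : (E i : ℤ) ∣ ((a i j * t : ℕ) : ℤ) := by
      refine ⟨b * μ - η, ?_⟩
      push_cast
      rw [h6, h9] at h5
      linarith
    exact_mod_cast h10
  obtain ⟨t', ht'⟩ := hdvd
  refine ⟨t', ?_⟩
  rw [hlam j, hNe]
  have h11 : ((κ j * μ - f j : ℤ) : ℝ) = (t : ℝ) := by exact_mod_cast ht
  rw [h11, ht']
  push_cast
  ring

/-- a lower bound for the proximity functions -/
lemma prox_ge (k : IntermediateField ℚ ℂ) [NumberField k] {m : ℕ}
    (F : MvPolynomial (Fin (m + 1)) (𝓞 k)) (κ : ℕ) (hF : F.IsHomogeneous κ) :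
    ∃ A : ℝ, 0 ≤ A ∧ ∀ (K : IntermediateField ℚ ℂ) (_ : NumberField K) (h : k ≤ K) (L : Type)
      (_ : Field L) (_ : NumberField L) (_ : Algebra K L) (S : Finset ℕ) (x : Fin (m + 1) → K),
      x ≠ 0 → aeval x (upK h F) ≠ 0 → -A ≤ prox L S (upK h F) κ x := by
  set A' : ℝ := 1 + ∑ d ∈ F.support, ∑ σ : k →+* ℂ, ‖σ ((coeff d F : 𝓞 k) : k)‖ with hA'
  have hA1 : 1 ≤ A' := by
    rw [hA']
    have : 0 ≤ ∑ d ∈ F.support, ∑ σ : k →+* ℂ, ‖σ ((coeff d F : 𝓞 k) : k)‖ :=
      Finset.sum_nonneg fun d _ => Finset.sum_nonneg fun σ _ => norm_nonneg _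
    linarith
  refine ⟨Real.log A', Real.log_nonneg hA1, ?_⟩
  intro K _ h L _ _ _ S x hx hl
  have hnL : (0 : ℝ) < finrank ℚ L := by exact_mod_cast finrank_pos
  have hFh : (upK h F).IsHomogeneous κ := hF.map _
  have hinf : ∀ w : InfinitePlace L, -Real.log A' ≤ lamInf L (upK h F) κ x w := by
    intro w
    have hs : ∀ j, w (algebraMap K L (x j)) ≤ ⨆ j, w (algebraMap K L (x j)) := fun j =>
      le_ciSup (f := fun j => w (algebraMap K L (x j))) (Set.finite_range _).bddAbove j
    have hsp : 0 < ⨆ j, w (algebraMap K L (x j)) := sup_pos' w.1 (map_ne (L := L) hx)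
    have hFp : 0 < w (algebraMap K L (aeval x (upK h F))) :=
      InfinitePlace.pos_iff.2 ((map_ne_zero _).2 hl)
    have hb : w (algebraMap K L (aeval x (upK h F))) ≤
        A' * (⨆ j, w (algebraMap K L (x j))) ^ κ := by
      rw [aeval_def]
      unfold upK
      rw [eval₂_map, eval₂_eq, map_sum]
      refine (w.1.sum_le _ _).trans ?_
      rw [hA', add_mul, Finset.sum_mul]
      have h2 : ∀ d ∈ F.support, w.1 (algebraMap K L (((algebraMap (𝓞 K) K).comp
          (RingOfIntegers.mapRingHom (IntermediateField.inclusion h).toRingHom)) (coeff d F) *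
          ∏ i ∈ d.support, x i ^ d i)) ≤ (∑ σ : k →+* ℂ, ‖σ ((coeff d F : 𝓞 k) : k)‖) *
            (⨆ j, w (algebraMap K L (x j))) ^ κ := by
        intro d hd
        have hdeg : ∑ i ∈ d.support, d i = κ := by
          by_contra hne
          have h1 := hF.coeff_eq_zero (d := d) (by rw [Finsupp.degree_apply]; exact hne)
          exact (mem_support_iff.1 hd) h1
        rw [map_mul, map_mul, map_prod, map_prod]
        refine mul_le_mul ?_ ?_ (Finset.prod_nonneg fun i _ => apply_nonneg _ _)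
          (Finset.sum_nonneg fun σ _ => norm_nonneg _)
        · set σ₀ : k →+* ℂ := w.embedding.comp ((algebraMap K L).comp
            (IntermediateField.inclusion h).toRingHom) with hσ₀
          have e : w.1 (algebraMap K L (((algebraMap (𝓞 K) K).comp
              (RingOfIntegers.mapRingHom (IntermediateField.inclusion h).toRingHom))
                (coeff d F))) = ‖σ₀ ((coeff d F : 𝓞 k) : k)‖ := by
            have h3 := InfinitePlace.norm_embedding_eq w (algebraMap K L (((algebraMap (𝓞 K) K).comp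
              (RingOfIntegers.mapRingHom (IntermediateField.inclusion h).toRingHom))
                (coeff d F)))
            exact h3.symm
          rw [e]
          exact Finset.single_le_sum (f := fun σ : k →+* ℂ => ‖σ ((coeff d F : 𝓞 k) : k)‖)
            (fun σ _ => norm_nonneg _) (Finset.mem_univ σ₀)
        · rw [← hdeg, ← Finset.prod_pow_eq_pow_sum]
          refine Finset.prod_le_prod (fun i _ => apply_nonneg _ _) fun i _ => ?_
          rw [map_pow, map_pow]
          exact pow_le_pow_left₀ (apply_nonneg w _) (hs i) _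
      have h3 := Finset.sum_le_sum h2
      have h4 : 0 ≤ 1 * (⨆ j, w (algebraMap K L (x j))) ^ κ := by positivity
      linarith
    show -Real.log A' ≤ Real.log ((⨆ j, w (algebraMap K L (x j))) ^ κ /
      w (algebraMap K L (aeval x (upK h F))))
    rw [← Real.log_inv]
    refine Real.log_le_log (by positivity) ?_
    rw [le_div_iff₀ hFp, inv_mul_le_iff₀ (by linarith)]
    exact hb
  unfold prox
  rw [le_div_iff₀ hnL]
  have h1 : ∑ w : InfinitePlace L, (w.mult : ℝ) * (-Real.log A') ≤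
      ∑ w : InfinitePlace L, (w.mult : ℝ) * lamInf L (upK h F) κ x w :=
    Finset.sum_le_sum fun w _ => mul_le_mul_of_nonneg_left (hinf w) (Nat.cast_nonneg _)
  rw [← Finset.sum_mul] at h1
  have h2 : ∑ w : InfinitePlace L, (w.mult : ℝ) = finrank ℚ L := by
    exact_mod_cast InfinitePlace.sum_mult_eq (K := L)
  rw [h2] at h1
  have h3 : 0 ≤ ∑ᶠ w ∈ {w : HeightOneSpectrum (𝓞 L) | ¬ Outside S w},
      lam L (upK h F) κ x w :=
    finsum_nonneg fun w => finsum_nonneg fun _ => lam_nonneg hFh hl w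
  linarith

end Pool.Agent.N752.HY.Ext4
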