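import Mathlib
import Pool.Agent.N752.HY.Stm3

/-!
# The norm form of a generic linear form is irreducible
-/

set_option autoImplicit false

open MvPolynomial

namespace Pool.Agent.N752.HY.Ni

variable {N : ℕ}

section general

variable {F : Type} [Field F]

/-- the substitution of `- ∑ b_j X_j` (`j ≠ i₀`) for `X_{i₀}` -/
noncomputable def subst (b : Fin N → F) (i₀ : Fin N) :
    MvPolynomial (Fin N) F →ₐ[F] MvPolynomial (Fin N) F :=
  aeval fun i => if i = i₀ then - ∑ j ∈ Finset.univ.erase i₀, C (b j) * X j else X i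

/-- the linear form with the coefficients `b` -/
noncomputable def lin (b : Fin N → F) : MvPolynomial (Fin N) F := ∑ i, C (b i) * X i

theorem lin_split (b : Fin N → F) (i₀ : Fin N) (h : b i₀ = 1) :
    lin b = X i₀ + ∑ j ∈ Finset.univ.erase i₀, C (b j) * X j := by
  unfold lin
  rw [← Finset.add_sum_erase Finset.univ _ (Finset.mem_univ i₀), h, map_one, one_mul]

theorem subst_X_self (b : Fin N → F) (i₀ : Fin N) :
    subst b i₀ (X i₀) = - ∑ j ∈ Finset.univ.erase i₀, C (b j) * X j := by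
  simp [subst]

theorem subst_X_ne (b : Fin N → F) (i₀ i : Fin N) (h : i ≠ i₀) : subst b i₀ (X i) = X i := by
  simp [subst, h]

theorem subst_C (b : Fin N → F) (i₀ : Fin N) (a : F) : subst b i₀ (C a) = C a := by
  simp [subst]

theorem subst_lin (b b' : Fin N → F) (i₀ : Fin N) (h' : b' i₀ = 1) :
    subst b i₀ (lin b') = ∑ j ∈ Finset.univ.erase i₀, C (b' j - b j) * X j := by
  rw [lin_split b' i₀ h', map_add, subst_X_self, map_sum, neg_add_eq_sub, ← Finset.sum_sub_distrib]
  refine Finset.sum_congr rfl fun j hj => ?_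
  rw [map_mul, subst_C, subst_X_ne b i₀ j (Finset.ne_of_mem_erase hj), C_sub, sub_mul]

theorem subst_lin_self (b : Fin N → F) (i₀ : Fin N) (h : b i₀ = 1) : subst b i₀ (lin b) = 0 := by
  rw [subst_lin b b i₀ h]
  simp

theorem dvd_iff (b : Fin N → F) (i₀ : Fin N) (h : b i₀ = 1) (f : MvPolynomial (Fin N) F) :
    lin b ∣ f ↔ subst b i₀ f = 0 := by
  constructor
  · rintro ⟨g, rfl⟩
    rw [map_mul, subst_lin_self b i₀ h, zero_mul]
  · intro hf
    have key : (Ideal.Quotient.mkₐ F (Ideal.span {lin b})).comp (subst b i₀) =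
        Ideal.Quotient.mkₐ F (Ideal.span {lin b}) := by
      refine MvPolynomial.algHom_ext fun i => ?_
      rw [AlgHom.comp_apply]
      by_cases hi : i = i₀
      · subst hi
        rw [subst_X_self, Ideal.Quotient.mkₐ_eq_mk, eq_comm, Ideal.Quotient.mk_eq_mk_iff_sub_mem,
          sub_neg_eq_add, ← lin_split b i h]
        exact Ideal.mem_span_singleton_self _
      · rw [subst_X_ne b i₀ i hi]
    have h1 := congrArg (fun φ : MvPolynomial (Fin N) F →ₐ[F] _ => φ f) key
    simp only [AlgHom.comp_apply, hf, map_zero] at h1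
    rw [Ideal.Quotient.mkₐ_eq_mk, eq_comm, Ideal.Quotient.eq_zero_iff_mem,
      Ideal.mem_span_singleton] at h1
    exact h1

theorem lin_prime (b : Fin N → F) (i₀ : Fin N) (h : b i₀ = 1) : Prime (lin b) := by
  refine ⟨fun h0 => ?_, fun hu => ?_, fun x y hxy => ?_⟩
  · have := congrArg (coeff (Finsupp.single i₀ 1)) h0
    rw [lin_split b i₀ h, coeff_add, coeff_X, coeff_zero, coeff_sum,
      Finset.sum_eq_zero (fun j hj => ?_)] at this
    · simp at this
    · rw [coeff_C_mul, coeff_X, if_neg, mul_zero]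
      intro h1
      exact Finset.ne_of_mem_erase hj (Finsupp.single_left_injective one_ne_zero h1)
  · have := hu.map (subst b i₀)
    rw [subst_lin_self b i₀ h] at this
    exact not_isUnit_zero this
  · rw [dvd_iff b i₀ h, map_mul, mul_eq_zero] at hxy
    rwa [dvd_iff b i₀ h, dvd_iff b i₀ h]

theorem eq_of_dvd (b b' : Fin N → F) (i₀ : Fin N) (h : b i₀ = 1) (h' : b' i₀ = 1)
    (hd : lin b ∣ lin b') : b = b' := by
  rw [dvd_iff b i₀ h, subst_lin b b' i₀ h'] at hd
  funext i
  by_cases hi : i = i₀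
  · rw [hi, h, h']
  · have := congrArg (coeff (Finsupp.single i 1)) hd
    rw [coeff_zero, coeff_sum, Finset.sum_eq_single i] at this
    · rw [coeff_C_mul, coeff_X, if_pos rfl, mul_one, sub_eq_zero] at this
      exact this.symm
    · intro j _ hji
      rw [coeff_C_mul, coeff_X, if_neg, mul_zero]
      intro h1
      exact hji (Finsupp.single_left_injective one_ne_zero h1)
    · intro hn
      exact absurd (Finset.mem_erase.2 ⟨hi, Finset.mem_univ i⟩) hn

end general

variable {E : Type} [Field E] [NumberField E]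

theorem map_subst (β : Fin N → E) (i₀ : Fin N) (σ : E →ₐ[ℚ] ℂ) (P : MvPolynomial (Fin N) ℚ) :
    map (σ : E →+* ℂ) (subst β i₀ (map (algebraMap ℚ E) P)) =
      subst (fun i => σ (β i)) i₀ (map (algebraMap ℚ ℂ) P) := by
  have key : ((map (σ : E →+* ℂ)).comp ((subst β i₀).toRingHom.comp
      (map (algebraMap ℚ E)))) =
      ((subst (fun i => σ (β i)) i₀).toRingHom.comp
        (map (algebraMap ℚ ℂ))) := by
    refine MvPolynomial.ringHom_ext (fun q => ?_) (fun i => ?_)
    · simp
    · by_cases hi : i = i₀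
      · subst hi
        simp [subst_X_self]
      · simp [subst_X_ne _ _ _ hi]
  exact congrArg (fun φ : MvPolynomial (Fin N) ℚ →+* MvPolynomial (Fin N) ℂ => φ P) key

theorem dvd_map_iff (β : Fin N → E) (i₀ : Fin N) (h : β i₀ = 1) (σ : E →ₐ[ℚ] ℂ)
    (P : MvPolynomial (Fin N) ℚ) :
    lin (fun i => σ (β i)) ∣ map (algebraMap ℚ ℂ) P ↔
      subst β i₀ (map (algebraMap ℚ E) P) = 0 := by
  rw [dvd_iff _ i₀ (by simp [h]), ← map_subst, map_eq_zero_iff]
  exact map_injective _ (RingHom.injective _)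

theorem t_NI : S_NI := by
  intro E _ _ N β i₀ h₀ hgen c hc G hG
  classical
  set l : (E →ₐ[ℚ] ℂ) → MvPolynomial (Fin N) ℂ := fun σ => lin fun i => σ (β i) with hl
  -- over the complex numbers
  have hGc : map (algebraMap ℚ ℂ) G = C (algebraMap ℚ ℂ c) * ∏ σ, l σ := by
    refine funext_set (fun _ => Set.range (algebraMap ℚ ℂ))
      (fun _ => Set.infinite_range_of_injective (algebraMap ℚ ℂ).injective) fun x hx => ?_
    choose z hz using fun i => hx i (Set.mem_univ i)
    have hxz : x = fun i => algebraMap ℚ ℂ (z i) := funext fun i => (hz i).symm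
    have h1 : eval x (map (algebraMap ℚ ℂ) G) = algebraMap ℚ ℂ (eval z G) := by
      rw [hxz, eval_map]
      exact (eval₂_comp_left (algebraMap ℚ ℂ) (RingHom.id ℚ) z G).symm
    rw [h1, hG, map_mul, Algebra.norm_eq_prod_embeddings ℚ ℂ, map_mul, eval_C, map_prod]
    congr 1
    refine Finset.prod_congr rfl fun σ _ => ?_
    simp only [hl, lin]
    rw [map_sum, map_sum]
    refine Finset.sum_congr rfl fun i _ => ?_
    rw [hxz]
    simp [Algebra.smul_def, mul_comm]
  have hc' : (algebraMap ℚ ℂ c) ≠ 0 := by simpa using hc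
  have hprime : ∀ σ, Prime (l σ) := fun σ => lin_prime _ i₀ (by simp [h₀])
  have hinj : ∀ σ τ : E →ₐ[ℚ] ℂ, l σ ∣ l τ → σ = τ := by
    intro σ τ hd
    have h1 := eq_of_dvd _ _ i₀ (by simp [h₀]) (by simp [h₀]) hd
    have h2 : ∀ x ∈ (⊤ : IntermediateField ℚ E), σ x = τ x := by
      rw [← hgen]
      intro x hx
      induction hx using IntermediateField.adjoin_induction with
      | mem x hx => obtain ⟨i, rfl⟩ := hx; exact congrFun h1 i
      | algebraMap x => simp
      | add x y _ _ hx hy => simp [hx, hy]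
      | inv x _ hx => simp [hx]
      | mul x y _ _ hx hy => simp [hx, hy]
    exact AlgHom.ext fun x => h2 x (IntermediateField.mem_top)
  have hne : map (algebraMap ℚ ℂ) G ≠ 0 := by
    rw [hGc]
    exact mul_ne_zero (by simpa using hc') (Finset.prod_ne_zero_iff.2 fun σ _ => (hprime σ).ne_zero)
  obtain ⟨σ₀⟩ : Nonempty (E →ₐ[ℚ] ℂ) := ⟨IsAlgClosed.lift⟩
  have hsG : subst β i₀ (map (algebraMap ℚ E) G) = 0 := by
    rw [← dvd_map_iff β i₀ h₀ σ₀, hGc]
    exact Dvd.dvd.mul_left (Finset.dvd_prod_of_mem _ (Finset.mem_univ σ₀)) _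
  -- a factor killed by the substitution is everything up to constants
  have key : ∀ P Q : MvPolynomial (Fin N) ℚ, G = P * Q →
      subst β i₀ (map (algebraMap ℚ E) P) = 0 → IsUnit Q := by
    intro P Q hPQ hP
    have hdiv : ∏ σ, l σ ∣ map (algebraMap ℚ ℂ) P := by
      refine Finset.prod_dvd_of_isRelPrime ?_ ?_
      · intro σ _ τ _ hστ
        rw [Function.onFun, (hprime σ).irreducible.isRelPrime_iff_not_dvd]
        exact fun hd => hστ (hinj σ τ hd)
      · intro σ _
        exact (dvd_map_iff β i₀ h₀ σ P).2 hP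
    obtain ⟨R, hR⟩ := hdiv
    have h1 : (∏ σ, l σ) * (R * map (algebraMap ℚ ℂ) Q) =
        (∏ σ, l σ) * C (algebraMap ℚ ℂ c) := by
      rw [← mul_assoc, ← hR, ← map_mul, ← hPQ, hGc, mul_comm]
    have h2 := mul_left_cancel₀ (Finset.prod_ne_zero_iff.2 fun σ _ => (hprime σ).ne_zero) h1
    have h3 : IsUnit (map (algebraMap ℚ ℂ) Q) :=
      isUnit_of_dvd_unit (Dvd.intro_left _ h2) (hc'.isUnit.map C)
    rw [isUnit_iff_eq_C_of_isReduced] at h3 ⊢
    obtain ⟨r, hr, hQ⟩ := h3
    have h4 : coeff 0 (map (algebraMap ℚ ℂ) Q) = r := by rw [hQ, coeff_zero_C]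
    rw [coeff_map] at h4
    refine ⟨coeff 0 Q, isUnit_iff_ne_zero.2 fun h0 => ?_, ?_⟩
    · rw [h0, map_zero] at h4
      exact hr.ne_zero h4.symm
    · apply map_injective _ (algebraMap ℚ ℂ).injective
      rw [hQ, map_C, h4]
  refine ⟨fun hu => ?_, fun P Q hPQ => ?_⟩
  · have := (hu.map (map (algebraMap ℚ E))).map (subst β i₀)
    rw [hsG] at this
    exact not_isUnit_zero this
  · rw [hPQ, map_mul, map_mul, mul_eq_zero] at hsG
    rcases hsG with h | h
    · exact Or.inr (key P Q hPQ h)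
    · exact Or.inl (key Q P (by rw [hPQ, mul_comm]) h)

end Pool.Agent.N752.HY.Ni
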