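import Mathlib
import Pool.Agent.N752.HY.Stm3
import Pool.Agent.N445.DF.A15

/-!
# Project HZ (helper752), QN: norm forms over `ℚ`, from the library of helper445. By helper75.
-/

set_option autoImplicit false

namespace Pool.Agent.N752.HY.Qn

open NumberField MvPolynomial Module

theorem prim_of_gcd {n : ℕ} {x : Fin (n + 1) → ℤ} (hg : Finset.univ.gcd x = 1) :
    ∃ c : Fin (n + 1) → ℤ, ∑ i, c i * x i = 1 := by
  obtain ⟨f, hf⟩ := Finset.gcd_eq_sum_mul Finset.univ x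
  rw [hg] at hf
  exact ⟨f, by rw [hf]; exact Finset.sum_congr rfl fun i _ => mul_comm _ _⟩

/-- QN -/
theorem t_QN : Pool.Agent.N752.HY.S_QN := by
  intro N κ ρ G E _ _ α c hN hG hirr hspan hρ hnorm θ hθ
  obtain ⟨n, rfl⟩ : ∃ n, N = n + 1 := ⟨N - 1, by omega⟩
  have hn : 2 ≤ n := by omega
  have hρ0 : (0 : ℝ) < ρ := by exact_mod_cast hρ
  have hW : ((W2 ρ κ : ℕ) : ℝ) ≤ Pool.Agent.N445.DF.wgt ρ κ := by
    unfold W2
    split_ifs with h
    · exact (Pool.Agent.N445.DF.wgt_nat ρ κ (by exact_mod_cast h)).ge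
    · push Not at h
      have h2 : 2 * ρ ≤ κ := by omega
      have h3 := Pool.Agent.N445.DF.wgt_two ρ κ hρ0 (by exact_mod_cast h2)
      push_cast
      exact h3
  obtain ⟨c₁, hc₁, C, hC, h⟩ := Pool.Agent.N445.DF.main_w hn ∅ (fun _ : Fin 1 => G)
    (fun _ => κ) (fun _ => ((W2 ρ κ : ℕ) : ℝ)) (fun _ => hG) (fun _ => hirr)
    (fun i j hij => absurd (Subsingleton.elim i j) hij)
    (fun _ => Or.inr ⟨ρ, ⟨E, inferInstance, inferInstance, α, c, hspan, hnorm⟩,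
      hW⟩) θ (by simpa using hθ)
  refine ⟨c₁, C, hc₁, hC.le, fun B hB => ?_⟩
  refine le_trans ?_ (h B hB)
  refine Nat.cast_le.2 (Set.ncard_le_ncard ?_ (Pool.Agent.TH910.Voj.finite_sub (n + 1) B _))
  rintro z ⟨hz, hg, hbad⟩
  refine ⟨Pool.Agent.TH910.Voj.mem_box.2 hz, prim_of_gcd hg, ?_⟩
  rcases hbad with h0 | h0
  · exact Or.inl ⟨0, h0⟩
  · right
    unfold Pool.Agent.TH910.Voj.logRad
    simpa using h0

end Pool.Agent.N752.HY.Qn
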