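import Pool.Agent.N752.HY.Univ3
import Pool.Agent.N752.HY.Cup
import Pool.Agent.N752.HY.Upc
import Pool.Agent.N752.HY.Ovl
import Pool.Agent.N752.HY.Nrm
import Pool.Agent.N752.HY.Rep2
import Pool.Agent.N752.HY.Qn
import Pool.Agent.N752.HY.Res
import Pool.Agent.N752.HY.Ni
import Pool.Agent.N752.HY.DegSum
import Pool.Agent.N752.HY.Pts
import Pool.Agent.N752.HY.Low2
import Pool.Agent.N752.HY.Deg2

/-!
The assembly of project HZ.
-/

set_option autoImplicit false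

namespace Pool.Agent.N752.HY

open NumberField IsDedekindDomain Module MvPolynomial
open scoped LinearAlgebra.Projectivization
open Pool.Agent.Results.MP_44a246_nt.BoundedDegreeHyperplanes (height toC fieldOf alpha toC_inj)
open Pool.Agent.N752.SU (spanDim Full DensityZero full_upper full_mono spans_iff Spans)

theorem s_nrm : S_NRM := Nrm.t_NRM Rep2.t_REP Qn.t_QN (Res.t_RES Ni.t_NI)

theorem s_fld : S_FLD := t_FLD Upc.t_UPC Cup.t_CUP Ovl.t_OVL s_nrm

theorem s_pts : S_PTS := Pool.Agent.N752.HY.Pts.t_PTS Pool.Agent.N752.HY.Rep2.t_REP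

theorem s_deg : S_DEG := Pool.Agent.N752.HY.Deg2.t_DEG Pool.Agent.N752.HY.Rep2.t_REP

theorem s_low : S_LOW := Pool.Agent.N752.HY.Low2.t_LOW

/-- the exceptional set among all points of degree `r` -/
lemma dens_all (k : IntermediateField ℚ ℂ) [NumberField k] {m : ℕ} (hm : 1 ≤ m) (r n : ℕ)
    (hn : n = r * finrank ℚ k) (hn2 : 2 ≤ n) (hr : 1 ≤ r) (hrm : r ≤ m + 1) {α : ℝ}
    (hα1 : 1 ≤ α) (hF : Pool.Agent.W223.VD.FieldExp n α) (hmα : 2 * α < m)
    {E₀ : Set (ℙ ℂ (Fin (m + 1) → ℂ))} (hE : DensityZero (Full k m r) E₀)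
    (hcond : r ≤ 2 ∨ (r : ℝ) * (r - 1) * (2 * α + 1) + r ≤ m + 1) :
    DensityZero (All k m r) (E₀ ∪ {P | spanDim k P ≠ r}) := by
  obtain ⟨C₃, hC₃⟩ := full_upper k hm r n hn hn2 hα1 hF hmα.le 1 one_pos
  have hfin : ∀ T, (Full k m r T).Finite := fun T =>
    (hC₃ (max T 0) (le_max_right _ _)).1.subset (full_mono k m r (le_max_left _ _))
  obtain ⟨c₁, T₁, hc₁, hlow⟩ := low_full s_low k hm r n hn hr hrm hfin
  obtain ⟨C, hC, hdeg⟩ := deg_count s_deg k r n hn (by omega) hr hrm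
    (by linarith) hF hcond
  intro ε hε
  obtain ⟨B₀, hB₀⟩ := hE (ε / 2) (by positivity)
  have h1 : Filter.Tendsto (fun T : ℝ => C * Real.exp (-(1 / 2 * T))) Filter.atTop
      (nhds (C * 0)) := by
    refine Filter.Tendsto.const_mul C ?_
    refine Real.tendsto_exp_neg_atTop_nhds_zero.comp ?_
    exact Filter.tendsto_id.const_mul_atTop (by norm_num)
  rw [mul_zero] at h1
  have h2 : 0 < ε / 2 * c₁ := by positivity
  obtain ⟨T₂, hT₂⟩ := Filter.eventually_atTop.1 (h1.eventually_lt_const h2)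
  refine ⟨max (max B₀ T₁) (max T₂ 0), fun T hT => ?_⟩
  have hT1 : B₀ ≤ T := (le_max_left _ _).trans ((le_max_left _ _).trans hT)
  have hT2 : T₁ ≤ T := (le_max_right _ _).trans ((le_max_left _ _).trans hT)
  have hT3 : T₂ ≤ T := (le_max_left _ _).trans ((le_max_right _ _).trans hT)
  have hT4 : 0 ≤ T := (le_max_right _ _).trans ((le_max_right _ _).trans hT)
  obtain ⟨hdf, hdc⟩ := hdeg T hT4
  have hsplit : All k m r T ⊆ Full k m r T ∪ {P | P ∈ All k m r T ∧ spanDim k P ≠ r} := by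
    intro P hP
    by_cases hs : spanDim k P = r
    · obtain ⟨K, hK, h, Q, h3⟩ := hP
      exact Or.inl ⟨hs, K, hK, h, Q, h3⟩
    · exact Or.inr ⟨hP, hs⟩
  have hAfin : (All k m r T).Finite := ((hfin T).union hdf).subset hsplit
  have hFA : Full k m r T ⊆ All k m r T := fun P hP => hP.2
  have hcount : ((Full k m r T).ncard : ℝ) ≤ ((All k m r T).ncard : ℝ) := by
    exact_mod_cast Set.ncard_le_ncard hFA hAfin
  have hsub : (E₀ ∪ {P | spanDim k P ≠ r}) ∩ All k m r T ⊆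
      (E₀ ∩ Full k m r T) ∪ {P | P ∈ All k m r T ∧ spanDim k P ≠ r} := by
    rintro P ⟨hP1, hP2⟩
    by_cases hs : spanDim k P = r
    · left
      obtain ⟨K, hK, h, Q, h3⟩ := hP2
      refine ⟨?_, hs, K, hK, h, Q, h3⟩
      rcases hP1 with h4 | h4
      · exact h4
      · exact absurd hs h4
    · exact Or.inr ⟨hP2, hs⟩
  have h3 := (Set.ncard_le_ncard hsub (((hfin T).subset Set.inter_subset_right).union hdf)).trans
    (Set.ncard_union_le _ _)
  have h4 := hB₀ T hT1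
  have h5 := hlow T hT2
  have h6 := hT₂ T hT3
  set E := Real.exp (n * (m + 1) * T) with hEdef
  have hE0 : 0 < E := Real.exp_pos _
  have h7 : C * Real.exp (((n : ℝ) * (m + 1) - 1 / 2) * T) ≤ ε / 2 * c₁ * E := by
    have e : C * Real.exp (((n : ℝ) * (m + 1) - 1 / 2) * T) =
        (C * Real.exp (-(1 / 2 * T))) * E := by
      rw [hEdef, mul_assoc, ← Real.exp_add]
      congr 2
      ring
    rw [e]
    exact mul_le_mul_of_nonneg_right h6.le hE0.le
  have h8 : (((E₀ ∪ {P | spanDim k P ≠ r}) ∩ All k m r T).ncard : ℝ) ≤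
      ((E₀ ∩ Full k m r T).ncard : ℝ) +
        (({P | P ∈ All k m r T ∧ spanDim k P ≠ r}).ncard : ℝ) := by
    exact_mod_cast h3
  have h9 : ε / 2 * (c₁ * E) ≤ ε / 2 * ((Full k m r T).ncard : ℝ) :=
    mul_le_mul_of_nonneg_left h5 (by positivity)
  have h10 : ε * ((Full k m r T).ncard : ℝ) ≤ ε * ((All k m r T).ncard : ℝ) :=
    mul_le_mul_of_nonneg_left hcount hε.le
  linarith

/-- all points over `k` are nondegenerate -/
lemma dens_one (k : IntermediateField ℚ ℂ) [ik : NumberField k] {m : ℕ}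
    {E₀ : Set (ℙ ℂ (Fin (m + 1) → ℂ))} (hE : DensityZero (Full k m 1) E₀) :
    DensityZero (All k m 1) (E₀ ∪ {P | spanDim k P ≠ 1}) := by
  have hkey : ∀ (T : ℝ) (P : ℙ ℂ (Fin (m + 1) → ℂ)), P ∈ All k m 1 T → spanDim k P = 1 := by
    rintro T P ⟨K, hK, h, Q, hf, hd, hQ, hh⟩
    have e := field_one k hK h hd
    subst e
    have : hK = ik := Subsingleton.elim _ _
    subst this
    rw [← hQ, ← spans_iff h hd]
    unfold Spans
    have hne : Q.rep ≠ 0 := Q.rep_nonzero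
    obtain ⟨j, hj⟩ := Function.ne_iff.1 hne
    rw [eq_top_iff]
    intro z _
    let _ : Algebra k k := (IntermediateField.inclusion h).toRingHom.toAlgebra
    have h2 : z = (IntermediateField.inclusion h) (z * (Q.rep j)⁻¹) * Q.rep j := by
      have h3 : (IntermediateField.inclusion h) (z * (Q.rep j)⁻¹) = z * (Q.rep j)⁻¹ :=
        Subtype.ext rfl
      rw [h3, mul_assoc, inv_mul_cancel₀ hj, mul_one]
    rw [h2]
    exact Submodule.smul_mem _ (z * (Q.rep j)⁻¹) (Submodule.subset_span ⟨j, rfl⟩)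
  have heq : ∀ T, All k m 1 T = Full k m 1 T := by
    intro T
    ext P
    constructor
    · intro hP
      have hs := hkey T P hP
      exact ⟨hs, hP⟩
    · rintro ⟨-, hP⟩
      exact hP
  intro ε hε
  obtain ⟨B₀, hB₀⟩ := hE ε hε
  refine ⟨B₀, fun B hB => ?_⟩
  have hsub : (E₀ ∪ {P | spanDim k P ≠ 1}) ∩ All k m 1 B = E₀ ∩ Full k m 1 B := by
    ext P
    constructor
    · rintro ⟨hP1, hP2⟩
      have hs := hkey B P hP2
      refine ⟨?_, by rw [← heq]; exact hP2⟩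
      rcases hP1 with h4 | h4
      · exact h4
      · exact absurd hs h4
    · rintro ⟨hP1, hP2⟩
      exact ⟨Or.inl hP1, by rw [heq]; exact hP2⟩
  rw [hsub, heq]
  exact hB₀ B hB

/-- the main theorem of the projects HY and HZ -/
theorem main4 : ∀ η : ℝ, 0 < η → ∃ c₀ : ℝ, 1 ≤ c₀ ∧
    ∀ (k : IntermediateField ℚ ℂ) [NumberField k] (m r n : ℕ), 1 ≤ m → 1 ≤ r →
      n = r * finrank ℚ k →
      (2 ≤ n → n + 1 ≤ m → 2 * alpha n c₀ η < m) ∧
      ((r = 1 ∧ 3 ≤ n * (m + 1)) ∨ (2 ≤ n ∧ 2 * alpha n c₀ η < m ∧ r ≤ m + 1) →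
        ∃ E₀ : Set (ℙ ℂ (Fin (m + 1) → ℂ)), DensityZero (Full k m r) E₀ ∧
          ((r ≤ 2 ∨ (r : ℝ) * (r - 1) * (2 * alpha n c₀ η + 1) + r ≤ m + 1) →
            DensityZero (All k m r) (E₀ ∪ {P | spanDim k P ≠ r})) ∧
          ∀ (q t : ℕ) (F : Fin q → MvPolynomial (Fin (m + 1)) (𝓞 k)) (κ : Fin q → ℕ)
            (F' G' : Fin t → MvPolynomial (Fin (m + 1)) (𝓞 k)) (κ' ε' : Fin t → ℕ),
            Adm k F κ F' G' κ' ε' → ∀ (Λ : ℕ) (θ : ℝ), θ < wsum F κ → ∃ T : ℝ,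
            ∀ (K : IntermediateField ℚ ℂ) (_ : NumberField K) (h : k ≤ K)
              (Q : ℙ K (Fin (m + 1) → K)), fieldOf k (toC Q) = K → toC Q ∉ E₀ → T < height Q →
              Good4 (fun j => upK h (F j)) κ (fun l => upK h (F' l)) (fun l => upK h (G' l)) κ' ε'
                Λ θ Q.rep) := by
  intro η hη
  obtain ⟨c₀, hc₀, hα⟩ := Pool.Agent.W223.VD.Points.alpha_admissible hη
  refine ⟨c₀, hc₀, ?_⟩
  intro k _ m r n hm hr hn
  refine ⟨fun hn2 hmn => Pool.Agent.N752.SU.alpha_lt hn2 hmn _ _, ?_⟩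
  rintro (⟨hr1, hnm⟩ | ⟨hn2, hmα, hrm⟩)
  · subst hr1
    obtain ⟨E₀, hE₀, hall⟩ := universal3 s_low s_fld k hm 1 n hn hnm hr (by omega)
      (by rw [hn, one_mul]; exact cov_one k m)
    exact ⟨E₀, hE₀, fun _ => dens_one k hE₀, hall⟩
  · obtain ⟨hα1, hF⟩ := hα n hn2
    have hm2 : 2 ≤ m := by
      have hα1' : 1 ≤ alpha n c₀ η := hα1
      have h1 : (2 : ℝ) < m := by linarith
      have h2 : 2 < m := by exact_mod_cast h1
      omega
    have hnm : 3 ≤ n * (m + 1) := by nlinarith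
    obtain ⟨E₀, hE₀, hall⟩ := universal3 s_low s_fld k hm r n hn hnm hr hrm
      (cov_alpha s_pts k hm r n hn hn2 hα1 hF hmα)
    exact ⟨E₀, hE₀, fun hcond => dens_all k hm r n hn hn2 hr hrm hα1 hF hmα hE₀ hcond, hall⟩

end Pool.Agent.N752.HY
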