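import Pool.Agent.N752.HY.Int

set_option autoImplicit false

/-!
The proximity functions of ideals on finite covers of projective space.
-/

namespace Pool.Agent.N752.HY

open NumberField IsDedekindDomain MvPolynomial Module

variable {K : Type} [Field K] [NumberField K] {m : ℕ}

/-- The proximity function of the ideal generated by sections of degree `d` with the values
`z_0, …, z_U ∈ L` at a point above `x`: the sum of the local heights
`min_u log (|x|_w ^ d / |z_u|_w) = log (|x|_w ^ d / max_u |z_u|_w)` over the places `w` of `L` above `S`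
and infinity, divided by `[L : ℚ]`. -/
noncomputable def proxI (L : Type) [Field L] [NumberField L] [Algebra K L] (S : Finset ℕ) (d : ℕ)
    (x : Fin (m + 1) → K) {U : ℕ} (z : Fin (U + 1) → L) : ℝ :=
  (∑ w : InfinitePlace L, (w.mult : ℝ) *
      Real.log ((⨆ j, w (algebraMap K L (x j))) ^ d / ⨆ u, w (z u)) +
    ∑ᶠ w ∈ {w : HeightOneSpectrum (𝓞 L) | ¬ Outside S w},
      Real.log ((⨆ j, FinitePlace.mk w (algebraMap K L (x j))) ^ d /
        ⨆ u, FinitePlace.mk w (z u))) / finrank ℚ L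

end Pool.Agent.N752.HY

namespace Pool.Agent.N752.HY.Idl

open NumberField IsDedekindDomain MvPolynomial Module
open Pool.Agent.H691R3 (fv fv_na)
open Pool.Agent.N752.HY.Ext
open Pool.Agent.N752.HY

variable {K : Type} [Field K] [NumberField K] {m : ℕ} {L : Type} [Field L] [NumberField L]
  [Algebra K L]

lemma log_div_le (f : AbsoluteValue L ℝ) {x : Fin (m + 1) → K} (hx : x ≠ 0) {U : ℕ}
    (z : Fin (U + 1) → L) (hz : z 0 ≠ 0) (d : ℕ) :
    Real.log ((⨆ j, f (algebraMap K L (x j))) ^ d / ⨆ u, f (z u)) ≤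
      Real.log ((⨆ j, f (algebraMap K L (x j))) ^ d / f (z 0)) := by
  have hsp : 0 < ⨆ j, f (algebraMap K L (x j)) := sup_pos' f (map_ne (L := L) hx)
  have hz0 : 0 < f (z 0) := f.pos hz
  have h1 : f (z 0) ≤ ⨆ u, f (z u) :=
    le_ciSup (f := fun u => f (z u)) (Set.finite_range _).bddAbove 0
  refine Real.log_le_log (div_pos (pow_pos hsp d) (hz0.trans_le h1)) ?_
  exact div_le_div_of_nonneg_left (pow_pos hsp d).le hz0 h1

lemma proxI_le {x : Fin (m + 1) → K} (hx : x ≠ 0) {S : Finset ℕ} (hS : ∀ p ∈ S, p.Prime) {U : ℕ}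
    (z : Fin (U + 1) → L) (hz : z 0 ≠ 0) (d : ℕ) : proxI L S d x z ≤ proxS L S d x (z 0) := by
  have hnL : (0 : ℝ) < finrank ℚ L := by exact_mod_cast finrank_pos
  unfold proxI proxS
  refine div_le_div_of_nonneg_right (add_le_add ?_ ?_) hnL.le
  · exact Finset.sum_le_sum fun w _ =>
      mul_le_mul_of_nonneg_left (log_div_le w.1 hx z hz d) (Nat.cast_nonneg _)
  · have hf := above_finite (L := L) S hS
    rw [finsum_mem_eq_finite_toFinset_sum _ hf, finsum_mem_eq_finite_toFinset_sum _ hf]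
    exact Finset.sum_le_sum fun w _ => log_div_le (fv w) hx z hz d

lemma z_ne {D : ℕ} {ρ : Fin (D + 1) → L} {z : L} (hl : ρ (Fin.last D) ≠ 0)
    (hz : z ^ (D + 1) + ∑ i : Fin (D + 1), ρ i * z ^ (D - (i : ℕ)) = 0) : z ≠ 0 := by
  rintro rfl
  apply hl
  rw [Fin.sum_univ_castSucc] at hz
  have e1 : ∑ i : Fin D, ρ i.castSucc *
      (0 : L) ^ (D - ((i.castSucc : Fin (D + 1)) : ℕ)) = 0 := by
    refine Finset.sum_eq_zero fun i _ => ?_
    have hi := i.2
    rw [zero_pow (by rw [Fin.val_castSucc]; omega), mul_zero]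
  rw [e1, zero_pow (Nat.succ_ne_zero D), Fin.val_last, Nat.sub_self, pow_zero, mul_one, zero_add,
    zero_add] at hz
  exact hz

end Pool.Agent.N752.HY.Idl
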