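import Pool.Agent.N752.HY.Ext
import Pool.Agent.N752.HY.Dens

set_option autoImplicit false

/-!
The proximity functions of the values of sections on finite covers of projective space.
-/

namespace Pool.Agent.N752.HY

open NumberField IsDedekindDomain MvPolynomial Module

variable {K : Type} [Field K] [NumberField K] {m : ℕ}

/-- The proximity function of a section of degree `d` with value `z ∈ L` at a point above `x`: the
sum of the local heights `log (|x|_w ^ d / |z|_w)` over the places `w` of `L` above `S` and infinity,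
divided by `[L : ℚ]`. -/
noncomputable def proxS (L : Type) [Field L] [NumberField L] [Algebra K L] (S : Finset ℕ) (d : ℕ)
    (x : Fin (m + 1) → K) (z : L) : ℝ :=
  (∑ w : InfinitePlace L, (w.mult : ℝ) *
      Real.log ((⨆ j, w (algebraMap K L (x j))) ^ d / w z) +
    ∑ᶠ w ∈ {w : HeightOneSpectrum (𝓞 L) | ¬ Outside S w},
      Real.log ((⨆ j, FinitePlace.mk w (algebraMap K L (x j))) ^ d / FinitePlace.mk w z)) /
    finrank ℚ L

end Pool.Agent.N752.HY

namespace Pool.Agent.N752.HY.Int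

open NumberField IsDedekindDomain MvPolynomial Module
open Pool.Agent.H691R3 (fv fv_na)
open Pool.Agent.N752.HY.Ext
open Pool.Agent.N752.HY

/-- the roots of a monic equation and its last coefficient -/
lemma root_bd {L : Type} [Field L] (f : AbsoluteValue L ℝ) {φ A X : ℝ} {d D : ℕ} (hφ : 1 ≤ φ)
    (hA : 1 ≤ A) (hX : 0 < X)
    (hsum : ∀ (g : Fin (D + 1) → L) (M : ℝ), 0 ≤ M → (∀ i, f (g i) ≤ M) → f (∑ i, g i) ≤ φ * M)
    (ρ : Fin (D + 1) → L) (hρ : ∀ i : Fin (D + 1), f (ρ i) ≤ A * X ^ (((i : ℕ) + 1) * d)) (z : L)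
    (hz : z ^ (D + 1) + ∑ i : Fin (D + 1), ρ i * z ^ (D - (i : ℕ)) = 0) :
    f (ρ (Fin.last D)) ≤ f z * ((φ * A) ^ (D + 1) * X ^ (d * D)) := by
  have hφA : 1 ≤ φ * A := by nlinarith
  have hφA0 : 0 < φ * A := by linarith
  obtain ⟨Y, hY⟩ : ∃ Y, Y = φ * A * X ^ d := ⟨_, rfl⟩
  have hXd : 0 < X ^ d := pow_pos hX d
  have hY0 : 0 < Y := by rw [hY]; positivity
  have hfz : 0 ≤ f z := f.nonneg z
  -- the bound for the root
  have hzY : f z ≤ Y := by
    by_contra hcon
    push Not at hcon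
    have h1 : X ^ d ≤ f z := by
      refine le_trans ?_ hcon.le
      rw [hY]
      nlinarith
    have h2 : f (z ^ (D + 1)) ≤ φ * (A * X ^ d * f z ^ D) := by
      have e : z ^ (D + 1) = - ∑ i : Fin (D + 1), ρ i * z ^ (D - (i : ℕ)) :=
        eq_neg_of_add_eq_zero_left hz
      rw [e, map_neg_eq_map]
      refine hsum _ _ (by positivity) fun i => ?_
      have hi : (i : ℕ) ≤ D := Nat.lt_succ_iff.1 i.2
      rw [map_mul, map_pow]
      calc f (ρ i) * f z ^ (D - (i : ℕ)) ≤ A * X ^ (((i : ℕ) + 1) * d) * f z ^ (D - (i : ℕ)) :=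
            mul_le_mul_of_nonneg_right (hρ i) (by positivity)
        _ = A * X ^ d * ((X ^ d) ^ (i : ℕ) * f z ^ (D - (i : ℕ))) := by
            rw [← pow_mul]
            ring_nf
        _ ≤ A * X ^ d * (f z ^ (i : ℕ) * f z ^ (D - (i : ℕ))) := by
            refine mul_le_mul_of_nonneg_left ?_ (by positivity)
            exact mul_le_mul_of_nonneg_right (pow_le_pow_left₀ hXd.le h1 _) (by positivity)
        _ = A * X ^ d * f z ^ D := by
            rw [← pow_add, Nat.add_sub_cancel' hi]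
    rw [map_pow, pow_succ] at h2
    have h3 : 0 < f z := hXd.trans_le h1
    have h4 : 0 < f z ^ D := pow_pos h3 D
    have h5 : f z ^ D * f z ≤ f z ^ D * Y := by
      rw [hY]
      linarith [h2]
    have h6 := le_of_mul_le_mul_left h5 h4
    linarith
  -- the last coefficient
  obtain ⟨g, hg⟩ : ∃ g : Fin (D + 1) → L, g = Fin.cons (z ^ D)
    (fun i : Fin D => ρ i.castSucc * z ^ (D - 1 - (i : ℕ))) := ⟨_, rfl⟩
  have hgs : ρ (Fin.last D) = -(z * ∑ i, g i) := by
    rw [Fin.sum_univ_castSucc] at hz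
    have e1 : ∑ i, g i = z ^ D + ∑ i : Fin D, ρ i.castSucc * z ^ (D - 1 - (i : ℕ)) := by
      rw [hg, Fin.sum_cons]
    rw [e1, mul_add, Finset.mul_sum]
    have e2 : ∑ i : Fin D, z * (ρ i.castSucc * z ^ (D - 1 - (i : ℕ))) =
        ∑ i : Fin D, ρ i.castSucc * z ^ (D - ((i.castSucc : Fin (D + 1)) : ℕ)) := by
      refine Finset.sum_congr rfl fun i _ => ?_
      have hi := i.2
      have e3 : D - ((i.castSucc : Fin (D + 1)) : ℕ) = (D - 1 - (i : ℕ)) + 1 := by
        rw [Fin.val_castSucc]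
        omega
      rw [e3, pow_succ]
      ring
    rw [e2]
    simp only [Fin.val_last, Nat.sub_self, pow_zero, mul_one] at hz
    rw [pow_succ] at hz
    linear_combination hz
  rw [hgs, map_neg_eq_map, map_mul]
  refine mul_le_mul_of_nonneg_left ?_ hfz
  have hg1 : ∀ i, f (g i) ≤ (φ * A) ^ D * X ^ (d * D) := by
    intro i
    refine Fin.cases ?_ (fun i => ?_) i
    · rw [hg, Fin.cons_zero, map_pow]
      calc f z ^ D ≤ Y ^ D := pow_le_pow_left₀ hfz hzY D
        _ = (φ * A) ^ D * X ^ (d * D) := by rw [hY, mul_pow, ← pow_mul]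
    · have hi := i.2
      rw [hg, Fin.cons_succ, map_mul, map_pow]
      have h1 := hρ i.castSucc
      rw [Fin.val_castSucc] at h1
      have h2 : f z ^ (D - 1 - (i : ℕ)) ≤ (φ * A) ^ (D - 1 - (i : ℕ)) * X ^ (d * (D - 1 - (i : ℕ))) := by
        refine (pow_le_pow_left₀ hfz hzY _).trans (le_of_eq ?_)
        rw [hY, mul_pow, ← pow_mul]
      have h3 : A ≤ φ * A := by nlinarith
      calc f (ρ i.castSucc) * f z ^ (D - 1 - (i : ℕ))
          ≤ (A * X ^ (((i : ℕ) + 1) * d)) *
            ((φ * A) ^ (D - 1 - (i : ℕ)) * X ^ (d * (D - 1 - (i : ℕ)))) :=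
            mul_le_mul h1 h2 (by positivity) (by positivity)
        _ ≤ ((φ * A) * X ^ (((i : ℕ) + 1) * d)) *
            ((φ * A) ^ (D - 1 - (i : ℕ)) * X ^ (d * (D - 1 - (i : ℕ)))) := by
            refine mul_le_mul_of_nonneg_right ?_ (by positivity)
            exact mul_le_mul_of_nonneg_right h3 (by positivity)
        _ = (φ * A) ^ ((D - 1 - (i : ℕ)) + 1) *
            X ^ (((i : ℕ) + 1) * d + d * (D - 1 - (i : ℕ))) := by
            rw [pow_add, pow_add, pow_one]
            ring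
        _ ≤ (φ * A) ^ D * X ^ (d * D) := by
            have e4 : ((i : ℕ) + 1) * d + d * (D - 1 - (i : ℕ)) = d * D := by
              have e5 : (i : ℕ) + 1 + (D - 1 - (i : ℕ)) = D := by omega
              rw [mul_comm _ d, ← mul_add, e5]
            rw [e4]
            refine mul_le_mul_of_nonneg_right ?_ (by positivity)
            exact pow_le_pow_right₀ hφA (by omega)
  refine (hsum g _ (by positivity) hg1).trans ?_
  have h1 : φ ≤ φ * A := by nlinarith
  calc φ * ((φ * A) ^ D * X ^ (d * D)) ≤ (φ * A) * ((φ * A) ^ D * X ^ (d * D)) :=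
        mul_le_mul_of_nonneg_right h1 (by positivity)
    _ = (φ * A) ^ (D + 1) * X ^ (d * D) := by ring

/-- the values of a form at the infinite places -/
lemma val_le (k : IntermediateField ℚ ℂ) [NumberField k] {m : ℕ}
    (F : MvPolynomial (Fin (m + 1)) (𝓞 k)) (κ : ℕ) (hF : F.IsHomogeneous κ) :
    ∃ A : ℝ, 1 ≤ A ∧ ∀ (K : IntermediateField ℚ ℂ) (_ : NumberField K) (h : k ≤ K) (L : Type)
      (_ : Field L) (_ : NumberField L) (_ : Algebra K L) (x : Fin (m + 1) → K)
      (w : InfinitePlace L), w (algebraMap K L (aeval x (upK h F))) ≤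
        A * (⨆ j, w (algebraMap K L (x j))) ^ κ := by
  set A' : ℝ := 1 + ∑ d ∈ F.support, ∑ σ : k →+* ℂ, ‖σ ((coeff d F : 𝓞 k) : k)‖ with hA'
  have hA1 : 1 ≤ A' := by
    rw [hA']
    have : 0 ≤ ∑ d ∈ F.support, ∑ σ : k →+* ℂ, ‖σ ((coeff d F : 𝓞 k) : k)‖ :=
      Finset.sum_nonneg fun d _ => Finset.sum_nonneg fun σ _ => norm_nonneg _
    linarith
  refine ⟨A', hA1, ?_⟩
  intro K _ h L _ _ _ x w
  have hs : ∀ j, w (algebraMap K L (x j)) ≤ ⨆ j, w (algebraMap K L (x j)) := fun j =>
    le_ciSup (f := fun j => w (algebraMap K L (x j))) (Set.finite_range _).bddAbove j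
  have hsp : 0 ≤ ⨆ j, w (algebraMap K L (x j)) := (apply_nonneg w _).trans (hs 0)
  rw [aeval_def]
  unfold upK
  rw [eval₂_map, eval₂_eq, map_sum]
  refine (w.1.sum_le _ _).trans ?_
  rw [hA', add_mul, Finset.sum_mul]
  have h2 : ∀ d ∈ F.support, w.1 (algebraMap K L (((algebraMap (𝓞 K) K).comp
      (RingOfIntegers.mapRingHom (IntermediateField.inclusion h).toRingHom)) (coeff d F) *
      ∏ i ∈ d.support, x i ^ d i)) ≤ (∑ σ : k →+* ℂ, ‖σ ((coeff d F : 𝓞 k) : k)‖) *
        (⨆ j, w (algebraMap K L (x j))) ^ κ := by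
    intro d hd
    have hdeg : ∑ i ∈ d.support, d i = κ := by
      by_contra hne
      have h1 := hF.coeff_eq_zero (d := d) (by rw [Finsupp.degree_apply]; exact hne)
      exact (mem_support_iff.1 hd) h1
    rw [map_mul, map_mul, map_prod, map_prod]
    refine mul_le_mul ?_ ?_ (Finset.prod_nonneg fun i _ => apply_nonneg _ _)
      (Finset.sum_nonneg fun σ _ => norm_nonneg _)
    · set σ₀ : k →+* ℂ := w.embedding.comp ((algebraMap K L).comp
        (IntermediateField.inclusion h).toRingHom) with hσ₀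
      have e : w.1 (algebraMap K L (((algebraMap (𝓞 K) K).comp
          (RingOfIntegers.mapRingHom (IntermediateField.inclusion h).toRingHom))
            (coeff d F))) = ‖σ₀ ((coeff d F : 𝓞 k) : k)‖ := by
        have h3 := InfinitePlace.norm_embedding_eq w (algebraMap K L (((algebraMap (𝓞 K) K).comp
          (RingOfIntegers.mapRingHom (IntermediateField.inclusion h).toRingHom))
            (coeff d F)))
        exact h3.symm
      rw [e]
      exact Finset.single_le_sum (f := fun σ : k →+* ℂ => ‖σ ((coeff d F : 𝓞 k) : k)‖)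
        (fun σ _ => norm_nonneg _) (Finset.mem_univ σ₀)
    · rw [← hdeg, ← Finset.prod_pow_eq_pow_sum]
      refine Finset.prod_le_prod (fun i _ => apply_nonneg _ _) fun i _ => ?_
      rw [map_pow, map_pow]
      exact pow_le_pow_left₀ (apply_nonneg w _) (hs i) _
  have h3 := Finset.sum_le_sum h2
  have h4 : 0 ≤ 1 * (⨆ j, w (algebraMap K L (x j))) ^ κ := by positivity
  linarith

/-- **The proximity function of a section on a finite cover of projective space.** -/
lemma prox_root (k : IntermediateField ℚ ℂ) [NumberField k] {m d D : ℕ}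
    (ρ : Fin (D + 1) → MvPolynomial (Fin (m + 1)) (𝓞 k))
    (hρ : ∀ i, (ρ i).IsHomogeneous (((i : ℕ) + 1) * d)) :
    ∃ C : ℝ, 0 ≤ C ∧ ∀ (K : IntermediateField ℚ ℂ) (_ : NumberField K) (h : k ≤ K) (L : Type)
      (_ : Field L) (_ : NumberField L) (_ : Algebra K L) (S : Finset ℕ) (x : Fin (m + 1) → K)
      (z : L), x ≠ 0 → (∀ p ∈ S, p.Prime) → aeval x (upK h (ρ (Fin.last D))) ≠ 0 →
      z ^ (D + 1) + ∑ i : Fin (D + 1), algebraMap K L (aeval x (upK h (ρ i))) *
        z ^ (D - (i : ℕ)) = 0 →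
      proxS L S d x z ≤ prox L S (upK h (ρ (Fin.last D))) ((D + 1) * d) x + C := by
  classical
  choose A hA1 hA using fun i => val_le k (ρ i) (((i : ℕ) + 1) * d) (hρ i)
  obtain ⟨A', hA'⟩ : ∃ A' : ℝ, A' = 1 + ∑ i, A i := ⟨_, rfl⟩
  have hA0 : ∀ i, 0 ≤ A i := fun i => zero_le_one.trans (hA1 i)
  have hA'1 : 1 ≤ A' := by
    rw [hA']
    have := Finset.sum_nonneg fun i (_ : i ∈ Finset.univ) => hA0 i
    linarith
  have hAA' : ∀ i, A i ≤ A' := fun i => by
    rw [hA']
    have := Finset.single_le_sum (fun i _ => hA0 i) (Finset.mem_univ i)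
    linarith
  obtain ⟨φ, hφ⟩ : ∃ φ : ℝ, φ = ((D + 1 : ℕ) : ℝ) := ⟨_, rfl⟩
  have hφ1 : 1 ≤ φ := by
    rw [hφ]
    push_cast
    have : (0 : ℝ) ≤ D := Nat.cast_nonneg D
    linarith
  have hφA : 1 ≤ φ * A' := by nlinarith
  have hC1 : 1 ≤ (φ * A') ^ (D + 1) := one_le_pow₀ hφA
  refine ⟨Real.log ((φ * A') ^ (D + 1)), Real.log_nonneg hC1, ?_⟩
  intro K _ h L _ _ _ S x z hx hS hl hz
  have hnL : (0 : ℝ) < finrank ℚ L := by exact_mod_cast finrank_pos
  have hz0 : z ≠ 0 := by
    rintro rfl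
    apply hl
    rw [Fin.sum_univ_castSucc] at hz
    have e1 : ∑ i : Fin D, algebraMap K L (aeval x (upK h (ρ i.castSucc))) *
        (0 : L) ^ (D - ((i.castSucc : Fin (D + 1)) : ℕ)) = 0 := by
      refine Finset.sum_eq_zero fun i _ => ?_
      have hi := i.2
      rw [zero_pow (by rw [Fin.val_castSucc]; omega), mul_zero]
    rw [e1, zero_pow (Nat.succ_ne_zero D), Fin.val_last, Nat.sub_self, pow_zero, mul_one, zero_add,
      zero_add] at hz
    exact (map_eq_zero _).1 hz
  have hinf : ∀ w : InfinitePlace L, Real.log ((⨆ j, w (algebraMap K L (x j))) ^ d / w z) ≤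
      lamInf L (upK h (ρ (Fin.last D))) ((D + 1) * d) x w +
        Real.log ((φ * A') ^ (D + 1)) := by
    intro w
    have hsp : 0 < ⨆ j, w (algebraMap K L (x j)) := sup_pos' w.1 (map_ne (L := L) hx)
    have hFp : 0 < w (algebraMap K L (aeval x (upK h (ρ (Fin.last D))))) :=
      InfinitePlace.pos_iff.2 ((map_ne_zero _).2 hl)
    have hzp : 0 < w z := InfinitePlace.pos_iff.2 hz0
    have h1 := root_bd w.1 (d := d) hφ1 hA'1 hsp (by
      intro g M hM hg
      refine (w.1.sum_le _ _).trans ((Finset.sum_le_sum fun i _ => hg i).trans ?_)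
      rw [Finset.sum_const, Finset.card_univ, Fintype.card_fin, nsmul_eq_mul, hφ])
      (fun i => algebraMap K L (aeval x (upK h (ρ i)))) (fun i =>
        (hA i K inferInstance h L inferInstance inferInstance inferInstance x w).trans
          (mul_le_mul_of_nonneg_right (hAA' i) (pow_nonneg hsp.le _))) z hz
    have h1' : w (algebraMap K L (aeval x (upK h (ρ (Fin.last D))))) ≤
        w z * ((φ * A') ^ (D + 1) * (⨆ j, w (algebraMap K L (x j))) ^ (d * D)) := h1
    unfold lamInf
    rw [← Real.log_mul (by positivity) (by positivity)]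
    refine Real.log_le_log (by positivity) ?_
    rw [div_mul_eq_mul_div, div_le_div_iff₀ hzp hFp]
    have e : (⨆ j, w (algebraMap K L (x j))) ^ ((D + 1) * d) =
        (⨆ j, w (algebraMap K L (x j))) ^ d * (⨆ j, w (algebraMap K L (x j))) ^ (d * D) := by
      rw [← pow_add]
      congr 1
      ring
    rw [e]
    have h2 := mul_le_mul_of_nonneg_left h1' (pow_nonneg hsp.le d)
    nlinarith
  have hfin : ∀ w : HeightOneSpectrum (𝓞 L),
      Real.log ((⨆ j, FinitePlace.mk w (algebraMap K L (x j))) ^ d / FinitePlace.mk w z) ≤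
        lam L (upK h (ρ (Fin.last D))) ((D + 1) * d) x w := by
    intro w
    have hsp : 0 < ⨆ j, fv w (algebraMap K L (x j)) := sup_pos' (fv w) (map_ne (L := L) hx)
    have hFp : 0 < fv w (algebraMap K L (aeval x (upK h (ρ (Fin.last D))))) :=
      (fv w).pos ((map_ne_zero _).2 hl)
    have hzp : 0 < fv w z := (fv w).pos hz0
    have h1 := root_bd (fv w) (d := d) le_rfl le_rfl hsp (by
      intro g M hM hg
      rw [one_mul]
      exact fv_sum_le w _ _ M hM fun i _ => hg i)
      (fun i => algebraMap K L (aeval x (upK h (ρ i)))) (fun i => by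
        rw [one_mul]
        exact aeval_le ((hρ i).map _) w) z hz
    rw [one_mul, one_pow, one_mul] at h1
    change Real.log ((⨆ j, fv w (algebraMap K L (x j))) ^ d / fv w z) ≤ _
    rw [lam_def]
    refine Real.log_le_log (by positivity) ?_
    rw [div_le_div_iff₀ hzp hFp]
    have e : (⨆ j, fv w (algebraMap K L (x j))) ^ ((D + 1) * d) =
        (⨆ j, fv w (algebraMap K L (x j))) ^ d * (⨆ j, fv w (algebraMap K L (x j))) ^ (d * D) := by
      rw [← pow_add]
      congr 1
      ring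
    rw [e]
    have h2 := mul_le_mul_of_nonneg_left h1 (pow_nonneg hsp.le d)
    nlinarith
  unfold proxS prox
  rw [div_add' _ _ _ hnL.ne']
  refine div_le_div_of_nonneg_right ?_ hnL.le
  have h1 := Finset.sum_le_sum fun (w : InfinitePlace L) (_ : w ∈ Finset.univ) =>
    mul_le_mul_of_nonneg_left (hinf w) (Nat.cast_nonneg (α := ℝ) w.mult)
  simp only [mul_add] at h1
  rw [Finset.sum_add_distrib, ← Finset.sum_mul] at h1
  have h2 : ∑ w : InfinitePlace L, (w.mult : ℝ) = finrank ℚ L := by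
    exact_mod_cast InfinitePlace.sum_mult_eq (K := L)
  rw [h2] at h1
  have h3 : ∑ᶠ w ∈ {w : HeightOneSpectrum (𝓞 L) | ¬ Outside S w},
      Real.log ((⨆ j, FinitePlace.mk w (algebraMap K L (x j))) ^ d / FinitePlace.mk w z) ≤
      ∑ᶠ w ∈ {w : HeightOneSpectrum (𝓞 L) | ¬ Outside S w},
        lam L (upK h (ρ (Fin.last D))) ((D + 1) * d) x w := by
    have hf := above_finite (L := L) S hS
    rw [finsum_mem_eq_finite_toFinset_sum _ hf, finsum_mem_eq_finite_toFinset_sum _ hf]
    exact Finset.sum_le_sum fun w _ => hfin w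
  rw [mul_comm (Real.log ((φ * A') ^ (D + 1)))]
  linarith

end Pool.Agent.N752.HY.Int
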