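import Mathlib
import Pool.Agent.N752.HY.Stm

/-!
A polynomial over a field which is irreducible over a larger field is irreducible.
-/

set_option autoImplicit false

namespace Pool.Agent.N752.HY

open MvPolynomial

theorem t_LFT : S_LFT := by
  intro K E _ _ φ n F hF
  have hunit : ∀ A : MvPolynomial (Fin n) K, IsUnit (map φ A) → IsUnit A := by
    intro A hA
    rw [MvPolynomial.isUnit_iff_eq_C_of_isReduced] at hA ⊢
    obtain ⟨r, hr, hA⟩ := hA
    have h1 : A.totalDegree = 0 := by
      have h2 : (map φ A).totalDegree = A.totalDegree := by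
        unfold MvPolynomial.totalDegree
        rw [MvPolynomial.support_map_of_injective A φ.injective]
      rw [← h2, hA, totalDegree_C]
    rw [MvPolynomial.totalDegree_eq_zero_iff_eq_C] at h1
    refine ⟨A.coeff 0, ?_, h1⟩
    rw [isUnit_iff_ne_zero]
    intro h0
    rw [h0, C_0] at h1
    rw [h1, map_zero] at hA
    have h2 : r = 0 := by
      have := congrArg (MvPolynomial.coeff 0) hA
      rw [coeff_zero, coeff_C, if_pos rfl] at this
      exact this.symm
    rw [h2] at hr
    exact not_isUnit_zero hr
  refine ⟨fun h => hF.not_isUnit (h.map (map φ)), fun {A B} h => ?_⟩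
  have h1 : map φ F = map φ A * map φ B := by rw [h, map_mul]
  rcases hF.isUnit_or_isUnit h1 with h2 | h2
  · exact Or.inl (hunit A h2)
  · exact Or.inr (hunit B h2)

end Pool.Agent.N752.HY
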