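import Pool.Agent.N752.HY.StmQ
import Pool.Agent.Helper259.HtExt

set_option autoImplicit false

/-!
PX/PBC (helper143): the proximity function does not depend on the field.
-/

namespace Pool.Agent.N752.HY.Pbc

open NumberField IsDedekindDomain MvPolynomial Module
open scoped NNReal

section

variable {K L : Type} [Field K] [NumberField K] [Field L] [NumberField L] [Algebra K L]

/-- sums over the infinite places -/
theorem sum_inf_ext (g : InfinitePlace K → ℝ) :
    ∑ w : InfinitePlace L, (w.mult : ℝ) * g (w.comap (algebraMap K L)) =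
      finrank K L * ∑ v : InfinitePlace K, (v.mult : ℝ) * g v := by
  have h := Pool.Agent.Helper259.HtExt.prod_inf_ext (L := L) (fun v : InfinitePlace K => Real.exp (g v))
  have h1 := congrArg Real.log h
  rw [Real.log_pow, Real.log_prod (fun w _ => pow_ne_zero _ (Real.exp_pos _).ne'),
    Real.log_prod (fun v _ => pow_ne_zero _ (Real.exp_pos _).ne')] at h1
  simp only [Real.log_pow, Real.log_exp] at h1
  exact h1

theorem lamInf_ext {m : ℕ} (F : MvPolynomial (Fin (m + 1)) (𝓞 K)) (κ : ℕ) (x : Fin (m + 1) → K)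
    (w : InfinitePlace L) : lamInf L F κ x w = lamInf K F κ x (w.comap (algebraMap K L)) := rfl

theorem toNN_pow {N M : ℝ≥0} (hN : N ≠ 0) (hM : M ≠ 0) (f : ℕ) (hf : f ≠ 0) (h : M = N ^ f)
    (x : WithZero (Multiplicative ℤ)) :
    WithZeroMulInt.toNNReal hM x = WithZeroMulInt.toNNReal hN x ^ f := by
  subst h
  by_cases hx : x = 0
  · subst hx
    rw [map_zero, map_zero, zero_pow hf]
  · rw [WithZeroMulInt.toNNReal_neg_apply hM hx, WithZeroMulInt.toNNReal_neg_apply hN hx,
      ← zpow_natCast, ← zpow_natCast, ← zpow_mul, ← zpow_mul, mul_comm]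

/-- the local degree -/
noncomputable def nn (v : HeightOneSpectrum (𝓞 K)) (w : HeightOneSpectrum (𝓞 L)) : ℕ :=
  v.asIdeal.ramificationIdx' w.asIdeal * v.asIdeal.inertiaDeg' w.asIdeal

theorem inertia_ne (v : HeightOneSpectrum (𝓞 K)) (w : HeightOneSpectrum (𝓞 L))
    (hw : w.asIdeal.LiesOver v.asIdeal) : v.asIdeal.inertiaDeg' w.asIdeal ≠ 0 := by
  have : v.asIdeal.IsMaximal := v.isMaximal
  exact (Ideal.inertiaDeg'_pos v.asIdeal w.asIdeal).ne'

theorem nn_ne (v : HeightOneSpectrum (𝓞 K)) (w : HeightOneSpectrum (𝓞 L))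
    (hw : w.asIdeal.LiesOver v.asIdeal) : nn v w ≠ 0 :=
  mul_ne_zero (Ideal.IsDedekindDomain.ramificationIdx'_ne_zero_of_liesOver w.asIdeal v.ne_bot)
    (inertia_ne v w hw)

/-- local absolute values in an extension -/
theorem fin_ext (v : HeightOneSpectrum (𝓞 K)) (w : HeightOneSpectrum (𝓞 L))
    (hw : w.asIdeal.LiesOver v.asIdeal) (z : K) :
    FinitePlace.mk w (algebraMap K L z) = FinitePlace.mk v z ^ nn v w := by
  have h1 : Ideal.absNorm w.asIdeal = Ideal.absNorm v.asIdeal ^ v.asIdeal.inertiaDeg' w.asIdeal :=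
    Ideal.absNorm_eq_pow_inertiaDeg'_of_liesOver w.asIdeal v.asIdeal v.isPrime v.ne_bot
  have h2 : ((Ideal.absNorm w.asIdeal : ℕ) : ℝ≥0) =
      ((Ideal.absNorm v.asIdeal : ℕ) : ℝ≥0) ^ v.asIdeal.inertiaDeg' w.asIdeal := by
    rw [h1, Nat.cast_pow]
  rw [FinitePlace.mk_apply, FinitePlace.mk_apply, FinitePlace.norm_embedding',
    FinitePlace.norm_embedding', ← HeightOneSpectrum.valuation_liesOver L v w, map_pow,
    toNN_pow (NumberField.HeightOneSpectrum.absNorm_ne_zero v)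
      (NumberField.HeightOneSpectrum.absNorm_ne_zero w) _ (inertia_ne v w hw) h2]
  unfold nn
  push_cast
  rw [← pow_mul, mul_comm]

theorem lam_ext {m : ℕ} (F : MvPolynomial (Fin (m + 1)) (𝓞 K)) (κ : ℕ) (x : Fin (m + 1) → K)
    (v : HeightOneSpectrum (𝓞 K)) (w : HeightOneSpectrum (𝓞 L))
    (hw : w.asIdeal.LiesOver v.asIdeal) : lam L F κ x w = nn v w * lam K F κ x v := by
  have h1 : (⨆ j, FinitePlace.mk w (algebraMap K L (x j))) =
      (⨆ j, FinitePlace.mk v (algebraMap K K (x j))) ^ nn v w := by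
    rw [Real.iSup_pow fun j => apply_nonneg _ _]
    exact iSup_congr fun j => fin_ext v w hw (x j)
  have h2 : FinitePlace.mk w (algebraMap K L (aeval x F)) =
      FinitePlace.mk v (algebraMap K K (aeval x F)) ^ nn v w := fin_ext v w hw (aeval x F)
  unfold lam
  rw [h1, h2, ← Real.log_pow]
  congr 1
  rw [div_pow, ← pow_mul, ← pow_mul, mul_comm]

/-- sum of the local degrees -/
theorem sum_nn (v : HeightOneSpectrum (𝓞 K)) (W : Finset (HeightOneSpectrum (𝓞 L)))
    (hW : ∀ w, w ∈ W ↔ w.asIdeal.LiesOver v.asIdeal) : ∑ w ∈ W, nn v w = finrank K L := by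
  classical
  have hmax : v.asIdeal.IsMaximal := v.isMaximal
  rw [← Ideal.sum_ramification_inertia (𝓞 L) K L (p := v.asIdeal) v.ne_bot]
  refine Finset.sum_bij (fun w _ => w.asIdeal) ?_ ?_ ?_ ?_
  · intro w hw
    exact (IsDedekindDomain.mem_primesOverFinset_iff v.ne_bot (𝓞 L)).2 ⟨w.isPrime, (hW w).1 hw⟩
  · intro w _ w' _ h
    exact HeightOneSpectrum.ext h
  · intro P hP
    have hP' := (IsDedekindDomain.mem_primesOverFinset_iff v.ne_bot (𝓞 L)).1 hP
    have : P.LiesOver v.asIdeal := hP'.2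
    refine ⟨⟨P, hP'.1, Ideal.ne_bot_of_liesOver_of_ne_bot v.ne_bot P⟩, (hW _).2 hP'.2, rfl⟩
  · intro w _
    rfl

theorem outside_ext (S : Finset ℕ) (v : HeightOneSpectrum (𝓞 K)) (w : HeightOneSpectrum (𝓞 L))
    (hw : w.asIdeal.LiesOver v.asIdeal) : Outside S w ↔ Outside S v := by
  unfold Outside
  refine forall₂_congr fun p _ => not_congr ?_
  rw [hw.over, Ideal.under, Ideal.mem_comap, map_natCast]

theorem above_finite {L : Type} [Field L] [NumberField L] (S : Finset ℕ) (hS : ∀ p ∈ S, p.Prime) :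
    {v : HeightOneSpectrum (𝓞 L) | ¬ Outside S v}.Finite := by
  have h : {v : HeightOneSpectrum (𝓞 L) | ¬ Outside S v} ⊆
      ⋃ p ∈ S, {v : HeightOneSpectrum (𝓞 L) | v.asIdeal ∣ Ideal.span {(p : 𝓞 L)}} := by
    intro w hw
    have hw' : ¬ ∀ p ∈ S, (p : 𝓞 L) ∉ w.asIdeal := hw
    push Not at hw'
    obtain ⟨p, hp, hpw⟩ := hw'
    refine Set.mem_biUnion hp ?_
    rw [Set.mem_ofPred_eq, Ideal.dvd_span_singleton]
    exact hpw
  refine (Set.Finite.biUnion S.finite_toSet fun p hp => Ideal.finite_factors ?_).subset h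
  rw [Ne, Ideal.zero_eq_bot, Ideal.span_singleton_eq_bot]
  exact_mod_cast (hS p hp).ne_zero

theorem sum_fin_ext {m : ℕ} (F : MvPolynomial (Fin (m + 1)) (𝓞 K)) (κ : ℕ) (x : Fin (m + 1) → K)
    (S : Finset ℕ) (hS : ∀ p ∈ S, p.Prime) :
    ∑ᶠ w ∈ {w : HeightOneSpectrum (𝓞 L) | ¬ Outside S w}, lam L F κ x w =
      finrank K L * ∑ᶠ v ∈ {v : HeightOneSpectrum (𝓞 K) | ¬ Outside S v}, lam K F κ x v := by
  classical
  have hL := above_finite (L := L) S hS
  have hK := above_finite (L := K) S hS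
  rw [finsum_mem_eq_finite_toFinset_sum _ hL, finsum_mem_eq_finite_toFinset_sum _ hK]
  have hover : ∀ w : HeightOneSpectrum (𝓞 L),
      w.asIdeal.LiesOver (HeightOneSpectrum.under (𝓞 K) w).asIdeal := fun w => ⟨rfl⟩
  have hmaps : ∀ w ∈ hL.toFinset, HeightOneSpectrum.under (𝓞 K) w ∈ hK.toFinset := by
    intro w hw
    rw [Set.Finite.mem_toFinset] at hw ⊢
    exact fun h => hw ((outside_ext S _ w (hover w)).2 h)
  rw [← Finset.sum_fiberwise_of_maps_to hmaps, Finset.mul_sum]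
  refine Finset.sum_congr rfl fun v hv => ?_
  rw [Set.Finite.mem_toFinset] at hv
  have hmem : ∀ w, w ∈ hL.toFinset.filter (fun w => HeightOneSpectrum.under (𝓞 K) w = v) ↔
      w.asIdeal.LiesOver v.asIdeal := by
    intro w
    rw [Finset.mem_filter, Set.Finite.mem_toFinset]
    constructor
    · rintro ⟨_, h⟩
      rw [← h]
      exact hover w
    · intro h
      refine ⟨fun h2 => hv ((outside_ext S v w h).1 h2), ?_⟩
      apply HeightOneSpectrum.ext
      exact h.over.symm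
  have h1 := sum_nn v _ hmem
  rw [← h1, Nat.cast_sum, Finset.sum_mul]
  exact Finset.sum_congr rfl fun w hw => lam_ext F κ x v w ((hmem w).1 hw)

end

theorem t_PBC : S_PBC := by
  intro K _ _ L _ _ _ S hS m κ F x _ _
  unfold prox
  rw [sum_fin_ext F κ x S hS]
  have h1 : ∑ w : InfinitePlace L, (w.mult : ℝ) * lamInf L F κ x w =
      finrank K L * ∑ v : InfinitePlace K, (v.mult : ℝ) * lamInf K F κ x v :=
    sum_inf_ext (lamInf K F κ x)
  rw [h1, ← mul_add, ← Module.finrank_mul_finrank ℚ K L, Nat.cast_mul]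
  have hL : (0 : ℝ) < finrank K L := by exact_mod_cast Module.finrank_pos
  have hK : (0 : ℝ) < finrank ℚ K := by exact_mod_cast Module.finrank_pos
  rw [mul_comm ((finrank ℚ K : ℕ) : ℝ)]
  exact mul_div_mul_left _ _ hL.ne'

end Pool.Agent.N752.HY.Pbc
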