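import Mathlib
import Pool.Agent.N752.HY.Dens
import Pool.Agent.N752.HY.Lft
import Pool.Agent.N752.HY.Ext

/-!
One set of density zero for all divisors.
-/

set_option autoImplicit false

namespace Pool.Agent.N752.HY

open NumberField Finset Module
open scoped LinearAlgebra.Projectivization
open Pool.Agent.Results.MP_44a246_nt.BoundedDegreeHyperplanes
  (height toC fieldOf n_pos toC_inj)
open Pool.Agent.N752.SU (Full Spans spanDim rep_height full_upper full_mono DensityZero diag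
  height_nonneg unique_rep)
open Pool.Agent.W223.VD (FieldExp Flds)

lemma countable_poly (k : IntermediateField ℚ ℂ) [NumberField k] (m : ℕ) :
    Countable (MvPolynomial (Fin (m + 1)) (𝓞 k)) := by
  have hcount : Countable k := (Module.finBasis ℚ k).equivFun.toEquiv.countable_iff.2 inferInstance
  have h1 : Countable (𝓞 k) := Function.Injective.countable (RingOfIntegers.coe_injective (K := k))
  let f : MvPolynomial (Fin (m + 1)) (𝓞 k) → ((Fin (m + 1) →₀ ℕ) →₀ 𝓞 k) := fun p =>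
    ⟨p.support, fun s => p.coeff s, fun s => MvPolynomial.mem_support_iff⟩
  refine Function.Injective.countable (f := f) fun p p' h => ?_
  refine MvPolynomial.ext _ _ fun s => ?_
  exact DFunLike.congr_fun h s

lemma hgt_eq {m : ℕ} {K : IntermediateField ℚ ℂ} [NumberField K] (Q : ℙ K (Fin (m + 1) → K)) :
    hgt Q.rep = height Q := by
  unfold hgt height
  rw [Height.logHeight_eq_log_mulHeight, rep_height]

lemma hgt_nonneg {m : ℕ} {K : Type} [Field K] [NumberField K] (x : Fin (m + 1) → K) :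
    0 ≤ hgt x := by
  unfold hgt
  rw [Height.logHeight_eq_log_mulHeight]
  exact div_nonneg (Real.log_nonneg (Height.one_le_mulHeight _)) (Nat.cast_nonneg _)

/-- the data -/
abbrev Dat (k : IntermediateField ℚ ℂ) (m : ℕ) : Type :=
  (Σ q : ℕ, (Fin q → MvPolynomial (Fin (m + 1)) (𝓞 k)) × (Fin q → ℕ)) ×
    (Σ t : ℕ, (Fin t → MvPolynomial (Fin (m + 1)) (𝓞 k)) ×
      (Fin t → MvPolynomial (Fin (m + 1)) (𝓞 k)) × (Fin t → ℕ) × (Fin t → ℕ)) × ℕ × ℕ

/-- the bound belonging to the data -/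
noncomputable def thd {q : ℕ} (κ : Fin q → ℕ) (j : ℕ) : ℝ :=
  max 0 ((∑ i, (wt (κ i) : ℝ)) - 1 / ((j : ℝ) + 1))

/-- **One exceptional set for all divisors.** -/
theorem universal (hP : S_PTS) (hL : S_LOW) (hFAC : S_FAC) (k : IntermediateField ℚ ℂ) [NumberField k] {m : ℕ}
    (hm : 1 ≤ m) (r n : ℕ) (hn : n = r * finrank ℚ k) (hn2 : 2 ≤ n) (hr : 1 ≤ r)
    (hrm : r ≤ m + 1) {α : ℝ} (hα1 : 1 ≤ α) (hF : FieldExp n α) (hmα : 2 * α < m) :
    ∃ E₀ : Set (ℙ ℂ (Fin (m + 1) → ℂ)), DensityZero (Full k m r) E₀ ∧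
      ∀ (q t : ℕ) (F : Fin q → MvPolynomial (Fin (m + 1)) (𝓞 k)) (κ : Fin q → ℕ)
        (F' G' : Fin t → MvPolynomial (Fin (m + 1)) (𝓞 k)) (κ' ε' : Fin t → ℕ),
        Adm k F κ F' G' κ' ε' → ∀ (Λ : ℕ) (θ : ℝ), 0 ≤ θ → θ < ∑ j, (wt (κ j) : ℝ) →
        ∃ T : ℝ, ∀ (K : IntermediateField ℚ ℂ) (_ : NumberField K) (h : k ≤ K)
          (Q : ℙ K (Fin (m + 1) → K)), fieldOf k (toC Q) = K → toC Q ∉ E₀ → T < height Q →
          Good (fun j => upK h (F j)) κ (fun l => upK h (F' l)) (fun l => upK h (G' l)) κ' ε' Λ θ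
            Q.rep := by
  classical
  have hcount := countable_poly k m
  have hne : Nonempty (Dat k m) :=
    ⟨(⟨0, fun i => i.elim0, fun i => i.elim0⟩, ⟨0, fun i => i.elim0, fun i => i.elim0,
      fun i => i.elim0, fun i => i.elim0⟩, 0, 0)⟩
  obtain ⟨f, hf⟩ := exists_surjective_nat (Dat k m)
  let good : Dat k m → Prop := fun s =>
    Adm k s.1.2.1 s.1.2.2 s.2.1.2.1 s.2.1.2.2.1 s.2.1.2.2.2.1 s.2.1.2.2.2.2 ∧
      thd s.1.2.2 s.2.2.1 < ∑ i, (wt (s.1.2.2 i) : ℝ)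
  let Es : Dat k m → Set (ℙ ℂ (Fin (m + 1) → ℂ)) := fun s =>
    if good s then Bad k s.1.2.1 s.1.2.2 s.2.1.2.1 s.2.1.2.2.1 s.2.1.2.2.2.1 s.2.1.2.2.2.2
      s.2.2.2 (thd s.1.2.2 s.2.2.1) else ∅
  have hEs : ∀ s : Dat k m, DensityZero (Full k m r) (Es s) := by
    intro s
    by_cases hg : good s
    · have e1 : Es s = Bad k s.1.2.1 s.1.2.2 s.2.1.2.1 s.2.1.2.2.1 s.2.1.2.2.2.1 s.2.1.2.2.2.2
        s.2.2.2 (thd s.1.2.2 s.2.2.1) := if_pos hg
      rw [e1]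
      exact dens hP hL hFAC t_LFT k hm r n hn hn2 hr hrm hα1 hF hmα hg.1 _ (Nat.cast_nonneg _) _
        (le_max_left _ _) hg.2
    · have e1 : Es s = ∅ := if_neg hg
      rw [e1]
      intro ε hε
      refine ⟨0, fun T _ => ?_⟩
      rw [Set.empty_inter, Set.ncard_empty, Nat.cast_zero]
      positivity
  obtain ⟨C', hC'⟩ := full_upper k hm r n hn hn2 hα1 hF hmα.le 1 one_pos
  have hfin : ∀ T, (Full k m r T).Finite := fun T =>
    (hC' (max T 0) (le_max_right _ _)).1.subset (full_mono k m r (le_max_left _ _))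
  obtain ⟨E₀, hE₀, hall⟩ := diag (Full k m r) (full_mono k m r) hfin (fun i => Es (f i))
    fun i => hEs (f i)
  refine ⟨E₀, hE₀, fun q t F κ F' G' κ' ε' hA Λ θ hθ0 hθ => ?_⟩
  obtain ⟨j, hj⟩ : ∃ j : ℕ, 1 / ((j : ℝ) + 1) < (∑ i, (wt (κ i) : ℝ)) - θ :=
    exists_nat_one_div_lt (by linarith)
  obtain ⟨i, hi⟩ := hf (⟨q, F, κ⟩, ⟨t, F', G', κ', ε'⟩, j, Λ)
  obtain ⟨T, hT⟩ := hall i
  rw [hi] at hT
  have hth : θ ≤ thd κ j := le_trans (by linarith) (le_max_right _ _)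
  have hth2 : thd κ j < ∑ i, (wt (κ i) : ℝ) := by
    refine max_lt (by linarith) ?_
    have : 0 < 1 / ((j : ℝ) + 1) := by positivity
    linarith
  have hg : good (⟨q, F, κ⟩, ⟨t, F', G', κ', ε'⟩, j, Λ) := ⟨hA, hth2⟩
  have e1 : Es (⟨q, F, κ⟩, ⟨t, F', G', κ', ε'⟩, j, Λ) = Bad k F κ F' G' κ' ε' Λ (thd κ j) :=
    if_pos hg
  rw [e1] at hT
  refine ⟨T, fun K hK h Q hfo hQE hTQ => ?_⟩
  have hg2 : Good (fun j => upK h (F j)) κ (fun l => upK h (F' l)) (fun l => upK h (G' l)) κ' ε' Λ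
      (thd κ j) Q.rep := by
    by_contra hbad
    refine hQE (hT (toC Q) ⟨K, hK, h, Q, hfo, rfl, hbad⟩ ?_)
    rintro ⟨-, K', hK', h', Q', hfo', -, hQ', hh'⟩
    have e2 : height Q = height Q' := unique_rep (P := toC Q) hfo hfo' rfl hQ'
    rw [e2] at hTQ
    exact absurd hh' (not_le.2 hTQ)
  refine ⟨hg2.1, le_trans ?_ hg2.2⟩
  have := mul_le_mul_of_nonneg_right hth (hgt_nonneg Q.rep)
  linarith

end Pool.Agent.N752.HY
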