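import Mathlib
import Pool.Agent.N752.HY.Dens3
import Pool.Agent.N752.HY.Univ

/-!
Statements for arbitrary properties of points which hold almost always over each field.
-/

set_option autoImplicit false

namespace Pool.Agent.N752.HY

open NumberField Finset Module MvPolynomial
open scoped LinearAlgebra.Projectivization
open Pool.Agent.Results.MP_44a246_nt.BoundedDegreeHyperplanes (height toC fieldOf)
open Pool.Agent.N752.SU (Full DensityZero)

/-- a property of the points of `ℙ^m` over the fields which contain `k` -/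
abbrev PropK (k : IntermediateField ℚ ℂ) (m : ℕ) : Type :=
  ∀ (K : IntermediateField ℚ ℂ), NumberField K → k ≤ K → ℙ K (Fin (m + 1) → K) → Prop

/-- the points which do not have the property -/
def BadP (k : IntermediateField ℚ ℂ) {m : ℕ} (P : PropK k m) : Set (ℙ ℂ (Fin (m + 1) → ℂ)) :=
  {x | ∃ (K : IntermediateField ℚ ℂ) (hK : NumberField K) (h : k ≤ K)
    (Q : ℙ K (Fin (m + 1) → K)), fieldOf k x = K ∧ toC Q = x ∧ ¬ P K hK h Q}

/-- the property holds for almost all points over each field of degree `n` -/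
def AAP (k : IntermediateField ℚ ℂ) {m : ℕ} (n : ℕ) (P : PropK k m) : Prop :=
  ∀ (K : IntermediateField ℚ ℂ) (hK : NumberField K) (h : k ≤ K), finrank ℚ K = n →
    AA fun Q => P K hK h Q

/-- the exceptional set of one property has density zero -/
def S_DNP : Prop := ∀ (k : IntermediateField ℚ ℂ) [NumberField k] (m r n : ℕ), 1 ≤ m →
  n = r * finrank ℚ k → 1 ≤ r → r ≤ m + 1 → Cov k m r n → ∀ P : PropK k m, AAP k n P →
  DensityZero (Full k m r) (BadP k P)

/-- one exceptional set for countably many properties -/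
def S_UNP : Prop := ∀ (k : IntermediateField ℚ ℂ) [NumberField k] (m r n : ℕ), 1 ≤ m →
  n = r * finrank ℚ k → 1 ≤ r → r ≤ m + 1 → Cov k m r n → ∀ (ι : Type) [Countable ι] [Nonempty ι]
  (P : ι → PropK k m), (∀ i, AAP k n (P i)) →
  ∃ E₀ : Set (ℙ ℂ (Fin (m + 1) → ℂ)), DensityZero (Full k m r) E₀ ∧ ∀ i, ∃ T : ℝ,
    ∀ (K : IntermediateField ℚ ℂ) (hK : NumberField K) (h : k ≤ K) (Q : ℙ K (Fin (m + 1) → K)),
      fieldOf k (toC Q) = K → toC Q ∉ E₀ → T < height Q → P i K hK h Q

end Pool.Agent.N752.HY
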