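import Mathlib
import Pool.Agent.N752.HY.StmG
import Pool.Agent.N752.HY.Prx
import Pool.Agent.N752.HY.Hz

/-!
One exceptional set for the proximity functions of all forms.
-/

set_option autoImplicit false

namespace Pool.Agent.N752.HY

open NumberField IsDedekindDomain Module MvPolynomial
open scoped LinearAlgebra.Projectivization
open Pool.Agent.Results.MP_44a246_nt.BoundedDegreeHyperplanes (height toC fieldOf alpha toC_inj)
open Pool.Agent.N752.SU (spanDim Full DensityZero)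

/-- the proximity to `G = 0` is small -/
def PrxP (k : IntermediateField ℚ ℂ) (m : ℕ)
    (i : MvPolynomial (Fin (m + 1)) (𝓞 k) × ℕ × Finset ℕ × ℕ) : PropK k m :=
  fun K _ h Q => i.1.IsHomogeneous i.2.1 → i.1 ≠ 0 → (∀ p ∈ i.2.2.1, p.Prime) →
    aeval Q.rep (upK h i.1) ≠ 0 ∧
      prox K i.2.2.1 (upK h i.1) i.2.1 Q.rep ≤ 1 / ((i.2.2.2 : ℝ) + 1) * hgt Q.rep

lemma upK_ne {k K : IntermediateField ℚ ℂ} [NumberField k] [NumberField K] (h : k ≤ K) {m : ℕ}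
    {G : MvPolynomial (Fin (m + 1)) (𝓞 k)} (hG : G ≠ 0) : upK h G ≠ 0 := by
  intro h0
  apply hG
  have h1 := cx_upK h G
  rw [h0] at h1
  have h2 : cx G = 0 := by
    rw [← h1]
    unfold cx
    exact map_zero _
  unfold cx at h2
  refine (MvPolynomial.map_injective _ ?_) (h2.trans (map_zero _).symm)
  intro a b hab
  exact RingOfIntegers.ext (Subtype.ext hab)

theorem univ_prx (hUNP : S_UNP) (hPL1 : S_PL1) (hPL2 : S_PL2) (k : IntermediateField ℚ ℂ)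
    [NumberField k] {m : ℕ} (hm : 1 ≤ m) (r n : ℕ) (hn : n = r * finrank ℚ k) (hr : 1 ≤ r)
    (hrm : r ≤ m + 1) (hcov : Cov k m r n) :
    ∃ E₀ : Set (ℙ ℂ (Fin (m + 1) → ℂ)), DensityZero (Full k m r) E₀ ∧
      ∀ (G : MvPolynomial (Fin (m + 1)) (𝓞 k)) (κ : ℕ), G.IsHomogeneous κ → G ≠ 0 →
        ∀ (S : Finset ℕ), (∀ p ∈ S, p.Prime) → ∀ δ : ℝ, 0 < δ →
        ∃ T : ℝ, ∀ (K : IntermediateField ℚ ℂ) (_ : NumberField K) (h : k ≤ K)
          (Q : ℙ K (Fin (m + 1) → K)), fieldOf k (toC Q) = K → toC Q ∉ E₀ → T < height Q →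
          aeval Q.rep (upK h G) ≠ 0 ∧ prox K S (upK h G) κ Q.rep ≤ δ * hgt Q.rep := by
  classical
  have hcount := countable_poly k m
  have hne : Nonempty (MvPolynomial (Fin (m + 1)) (𝓞 k) × ℕ × Finset ℕ × ℕ) := ⟨(0, 0, ∅, 0)⟩
  obtain ⟨E₀, hE₀, hall⟩ := hUNP k m r n hm hn hr hrm hcov
    (MvPolynomial (Fin (m + 1)) (𝓞 k) × ℕ × Finset ℕ × ℕ) (PrxP k m) (by
      rintro ⟨G, κ, S, N⟩ K hK h hKn
      by_cases hg : G.IsHomogeneous κ ∧ G ≠ 0 ∧ ∀ p ∈ S, p.Prime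
      · obtain ⟨h1, h2, h3⟩ := hg
        have h4 := Prx.prx hPL1 hPL2 κ (upK h G) (h1.map _) (upK_ne h h2) S h3
          (δ := 1 / ((N : ℝ) + 1)) (by positivity)
        exact h4.mono fun Q hQ _ _ _ => hQ
      · exact AA.triv.mono fun Q _ h1 h2 h3 => absurd ⟨h1, h2, h3⟩ hg)
  refine ⟨E₀, hE₀, fun G κ hG hG0 S hS δ hδ => ?_⟩
  obtain ⟨N, hN⟩ : ∃ N : ℕ, 1 / ((N : ℝ) + 1) < δ := exists_nat_one_div_lt hδ
  obtain ⟨T, hT⟩ := hall (G, κ, S, N)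
  refine ⟨T, fun K hK h Q hf hQE hTQ => ?_⟩
  obtain ⟨h1, h2⟩ := hT K hK h Q hf hQE hTQ hG hG0 hS
  refine ⟨h1, h2.trans ?_⟩
  exact mul_le_mul_of_nonneg_right hN.le (hgt_nonneg Q.rep)

lemma dz_union {X : Type} {F : ℝ → Set X} (hfin : ∀ T, (F T).Finite) {E E' : Set X}
    (h : DensityZero F E) (h' : DensityZero F E') : DensityZero F (E ∪ E') := by
  intro ε hε
  obtain ⟨B, hB⟩ := h (ε / 2) (by positivity)
  obtain ⟨B', hB'⟩ := h' (ε / 2) (by positivity)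
  refine ⟨max B B', fun T hT => ?_⟩
  have h1 := hB T ((le_max_left _ _).trans hT)
  have h2 := hB' T ((le_max_right _ _).trans hT)
  have h3 : (E ∪ E') ∩ F T = (E ∩ F T) ∪ (E' ∩ F T) := Set.union_inter_distrib_right _ _ _
  have h4 : (((E ∪ E') ∩ F T).ncard : ℝ) ≤ ((E ∩ F T).ncard : ℝ) + ((E' ∩ F T).ncard : ℝ) := by
    rw [h3]
    exact_mod_cast Set.ncard_union_le _ _
  linarith

/-- the main theorem with the proximity functions of all forms -/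
theorem main5 (hUNP : S_UNP) (hPL1 : S_PL1) (hPL2 : S_PL2) : ∀ η : ℝ, 0 < η → ∃ c₀ : ℝ, 1 ≤ c₀ ∧
    ∀ (k : IntermediateField ℚ ℂ) [NumberField k] (m r n : ℕ), 1 ≤ m → 1 ≤ r →
      n = r * finrank ℚ k →
      (2 ≤ n → n + 1 ≤ m → 2 * alpha n c₀ η < m) ∧
      ((r = 1 ∧ 3 ≤ n * (m + 1)) ∨ (2 ≤ n ∧ 2 * alpha n c₀ η < m ∧ r ≤ m + 1) →
        ∃ E₀ : Set (ℙ ℂ (Fin (m + 1) → ℂ)), DensityZero (Full k m r) E₀ ∧
          ((r ≤ 2 ∨ (r : ℝ) * (r - 1) * (2 * alpha n c₀ η + 1) + r ≤ m + 1) →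
            DensityZero (All k m r) (E₀ ∪ {P | spanDim k P ≠ r})) ∧
          (∀ (q t : ℕ) (F : Fin q → MvPolynomial (Fin (m + 1)) (𝓞 k)) (κ : Fin q → ℕ)
            (F' G' : Fin t → MvPolynomial (Fin (m + 1)) (𝓞 k)) (κ' ε' : Fin t → ℕ),
            Adm k F κ F' G' κ' ε' → ∀ (Λ : ℕ) (θ : ℝ), θ < wsum F κ → ∃ T : ℝ,
            ∀ (K : IntermediateField ℚ ℂ) (_ : NumberField K) (h : k ≤ K)
              (Q : ℙ K (Fin (m + 1) → K)), fieldOf k (toC Q) = K → toC Q ∉ E₀ → T < height Q →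
              Good4 (fun j => upK h (F j)) κ (fun l => upK h (F' l)) (fun l => upK h (G' l)) κ' ε'
                Λ θ Q.rep) ∧
          ∀ (G : MvPolynomial (Fin (m + 1)) (𝓞 k)) (κ : ℕ), G.IsHomogeneous κ → G ≠ 0 →
            ∀ (S : Finset ℕ), (∀ p ∈ S, p.Prime) → ∀ δ : ℝ, 0 < δ →
            ∃ T : ℝ, ∀ (K : IntermediateField ℚ ℂ) (_ : NumberField K) (h : k ≤ K)
              (Q : ℙ K (Fin (m + 1) → K)), fieldOf k (toC Q) = K → toC Q ∉ E₀ → T < height Q →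
              aeval Q.rep (upK h G) ≠ 0 ∧ prox K S (upK h G) κ Q.rep ≤ δ * height Q) := by
  intro η hη
  obtain ⟨c₀, hc₀, hα⟩ := Pool.Agent.W223.VD.Points.alpha_admissible hη
  refine ⟨c₀, hc₀, ?_⟩
  intro k _ m r n hm hr hn
  refine ⟨fun hn2 hmn => Pool.Agent.N752.SU.alpha_lt hn2 hmn _ _, ?_⟩
  intro hcase
  have hrm : r ≤ m + 1 := by
    rcases hcase with ⟨h1, -⟩ | ⟨-, -, h1⟩
    · omega
    · exact h1
  have hnm : 3 ≤ n * (m + 1) := by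
    rcases hcase with ⟨-, h1⟩ | ⟨hn2, hmα, -⟩
    · exact h1
    · obtain ⟨hα1, hF⟩ := hα n hn2
      have hm2 : 2 ≤ m := by
        have hα1' : 1 ≤ alpha n c₀ η := hα1
        have h1 : (2 : ℝ) < m := by linarith
        have h2 : 2 < m := by exact_mod_cast h1
        omega
      nlinarith
  have hcov : Cov k m r n := by
    rcases hcase with ⟨h1, -⟩ | ⟨hn2, hmα, -⟩
    · subst h1
      rw [hn, one_mul]
      exact cov_one k m
    · obtain ⟨hα1, hF⟩ := hα n hn2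
      exact cov_alpha s_pts k hm r n hn hn2 hα1 hF hmα
  obtain ⟨E₀, hE₀, hall⟩ := universal3 s_low s_fld k hm r n hn hnm hr hrm hcov
  obtain ⟨E₁, hE₁, hprx⟩ := univ_prx hUNP hPL1 hPL2 k hm r n hn hr hrm hcov
  have hE : DensityZero (Full k m r) (E₀ ∪ E₁) := dz_union hcov.1 hE₀ hE₁
  refine ⟨E₀ ∪ E₁, hE, fun hcond => ?_, ?_, ?_⟩
  · rcases hcase with ⟨h1, -⟩ | ⟨hn2, hmα, -⟩
    · subst h1
      exact dens_one k hE
    · obtain ⟨hα1, hF⟩ := hα n hn2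
      exact dens_all k hm r n hn hn2 hr hrm hα1 hF hmα hE hcond
  · intro q t F κ F' G' κ' ε' hA Λ θ hθ
    obtain ⟨T, hT⟩ := hall q t F κ F' G' κ' ε' hA Λ θ hθ
    exact ⟨T, fun K hK h Q hf hQ hTQ => hT K hK h Q hf (fun hc => hQ (Or.inl hc)) hTQ⟩
  · intro G κ hG hG0 S hS δ hδ
    obtain ⟨T, hT⟩ := hprx G κ hG hG0 S hS δ hδ
    refine ⟨T, fun K hK h Q hf hQ hTQ => ?_⟩
    rw [← hgt_eq]
    exact hT K hK h Q hf (fun hc => hQ (Or.inr hc)) hTQ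

end Pool.Agent.N752.HY
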