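import Mathlib
import Pool.Agent.N752.HY.Def

/-!
The proximity function does not depend on the field.
-/

set_option autoImplicit false

namespace Pool.Agent.N752.HY

open NumberField IsDedekindDomain MvPolynomial Module

/-- the proximity function does not depend on the field -/
def S_PBC : Prop := ∀ (K : Type) (_ : Field K) (_ : NumberField K) (L : Type) (_ : Field L)
  (_ : NumberField L) (_ : Algebra K L) (S : Finset ℕ), (∀ p ∈ S, p.Prime) → ∀ (m κ : ℕ)
  (F : MvPolynomial (Fin (m + 1)) (𝓞 K)) (x : Fin (m + 1) → K), x ≠ 0 → aeval x F ≠ 0 →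
  prox L S F κ x = prox K S F κ x

end Pool.Agent.N752.HY
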