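import Mathlib
import Pool.Agent.N752.HY.Dens3
import Pool.Agent.N752.HY.Univ

/-!
One set of density zero for all divisors (full weight for orbits of conjugate hyperplanes).
-/

set_option autoImplicit false

namespace Pool.Agent.N752.HY

open NumberField Finset Module
open scoped LinearAlgebra.Projectivization
open Pool.Agent.Results.MP_44a246_nt.BoundedDegreeHyperplanes
  (height toC fieldOf n_pos toC_inj)
open Pool.Agent.N752.SU (Full Spans spanDim rep_height full_upper full_mono DensityZero diag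
  height_nonneg unique_rep)
open Pool.Agent.W223.VD (FieldExp Flds)

/-- the bound belonging to the data -/
noncomputable def thd3 {k : IntermediateField ℚ ℂ} {m q : ℕ}
    (F : Fin q → MvPolynomial (Fin (m + 1)) (𝓞 k)) (κ : Fin q → ℕ) (j : ℕ) : ℝ :=
  wsum F κ - 1 / ((j : ℝ) + 1)

/-- **One exceptional set for all divisors.** -/
theorem universal3 (hL : S_LOW) (hFLD : S_FLD) (k : IntermediateField ℚ ℂ) [NumberField k]
    {m : ℕ} (hm : 1 ≤ m) (r n : ℕ) (hn : n = r * finrank ℚ k) (hnm : 3 ≤ n * (m + 1))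
    (hr : 1 ≤ r) (hrm : r ≤ m + 1) (hcov : Cov k m r n) :
    ∃ E₀ : Set (ℙ ℂ (Fin (m + 1) → ℂ)), DensityZero (Full k m r) E₀ ∧
      ∀ (q t : ℕ) (F : Fin q → MvPolynomial (Fin (m + 1)) (𝓞 k)) (κ : Fin q → ℕ)
        (F' G' : Fin t → MvPolynomial (Fin (m + 1)) (𝓞 k)) (κ' ε' : Fin t → ℕ),
        Adm k F κ F' G' κ' ε' → ∀ (Λ : ℕ) (θ : ℝ), θ < wsum F κ →
        ∃ T : ℝ, ∀ (K : IntermediateField ℚ ℂ) (_ : NumberField K) (h : k ≤ K)
          (Q : ℙ K (Fin (m + 1) → K)), fieldOf k (toC Q) = K → toC Q ∉ E₀ → T < height Q →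
          Good4 (fun j => upK h (F j)) κ (fun l => upK h (F' l)) (fun l => upK h (G' l)) κ' ε' Λ θ
            Q.rep := by
  classical
  have hcount := countable_poly k m
  have hne : Nonempty (Dat k m) :=
    ⟨(⟨0, fun i => i.elim0, fun i => i.elim0⟩, ⟨0, fun i => i.elim0, fun i => i.elim0,
      fun i => i.elim0, fun i => i.elim0⟩, 0, 0)⟩
  obtain ⟨f, hf⟩ := exists_surjective_nat (Dat k m)
  let good : Dat k m → Prop := fun s =>
    Adm k s.1.2.1 s.1.2.2 s.2.1.2.1 s.2.1.2.2.1 s.2.1.2.2.2.1 s.2.1.2.2.2.2 ∧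
      thd3 s.1.2.1 s.1.2.2 s.2.2.1 < wsum s.1.2.1 s.1.2.2
  let Es : Dat k m → Set (ℙ ℂ (Fin (m + 1) → ℂ)) := fun s =>
    if good s then Bad4 k s.1.2.1 s.1.2.2 s.2.1.2.1 s.2.1.2.2.1 s.2.1.2.2.2.1 s.2.1.2.2.2.2
      s.2.2.2 (thd3 s.1.2.1 s.1.2.2 s.2.2.1) else ∅
  have hEs : ∀ s : Dat k m, DensityZero (Full k m r) (Es s) := by
    intro s
    by_cases hg : good s
    · have e1 : Es s = Bad4 k s.1.2.1 s.1.2.2 s.2.1.2.1 s.2.1.2.2.1 s.2.1.2.2.2.1 s.2.1.2.2.2.2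
        s.2.2.2 (thd3 s.1.2.1 s.1.2.2 s.2.2.1) := if_pos hg
      rw [e1]
      exact dens3 hL hFLD t_LFT k hm r n hn hnm hr hrm hcov hg.1 _ (Nat.cast_nonneg _) _
        hg.2
    · have e1 : Es s = ∅ := if_neg hg
      rw [e1]
      intro ε hε
      refine ⟨0, fun T _ => ?_⟩
      rw [Set.empty_inter, Set.ncard_empty, Nat.cast_zero]
      positivity
  have hfin : ∀ T, (Full k m r T).Finite := hcov.1
  obtain ⟨E₀, hE₀, hall⟩ := diag (Full k m r) (full_mono k m r) hfin (fun i => Es (f i))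
    fun i => hEs (f i)
  refine ⟨E₀, hE₀, fun q t F κ F' G' κ' ε' hA Λ θ hθ => ?_⟩
  obtain ⟨j, hj⟩ : ∃ j : ℕ, 1 / ((j : ℝ) + 1) < wsum F κ - θ :=
    exists_nat_one_div_lt (by linarith)
  obtain ⟨i, hi⟩ := hf (⟨q, F, κ⟩, ⟨t, F', G', κ', ε'⟩, j, Λ)
  obtain ⟨T, hT⟩ := hall i
  rw [hi] at hT
  have hth : θ ≤ thd3 F κ j := by
    unfold thd3
    linarith
  have hth2 : thd3 F κ j < wsum F κ := by
    unfold thd3
    have : 0 < 1 / ((j : ℝ) + 1) := by positivity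
    linarith
  have hg : good (⟨q, F, κ⟩, ⟨t, F', G', κ', ε'⟩, j, Λ) := ⟨hA, hth2⟩
  have e1 : Es (⟨q, F, κ⟩, ⟨t, F', G', κ', ε'⟩, j, Λ) = Bad4 k F κ F' G' κ' ε' Λ (thd3 F κ j) :=
    if_pos hg
  rw [e1] at hT
  refine ⟨T, fun K hK h Q hfo hQE hTQ => ?_⟩
  have hg2 : Good4 (fun j => upK h (F j)) κ (fun l => upK h (F' l)) (fun l => upK h (G' l)) κ' ε' Λ
      (thd3 F κ j) Q.rep := by
    by_contra hbad
    refine hQE (hT (toC Q) ⟨K, hK, h, Q, hfo, rfl, hbad⟩ ?_)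
    rintro ⟨-, K', hK', h', Q', hfo', -, hQ', hh'⟩
    have e2 : height Q = height Q' := unique_rep (P := toC Q) hfo hfo' rfl hQ'
    rw [e2] at hTQ
    exact absurd hh' (not_le.2 hTQ)
  refine ⟨hg2.1, le_trans ?_ hg2.2⟩
  have := mul_le_mul_of_nonneg_right hth (hgt_nonneg Q.rep)
  linarith

end Pool.Agent.N752.HY
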