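import Pool.Agent.N752.HY.StmG
import Pool.Agent.N752.HY.Low2

/-!
One exceptional set for countably many properties (part PX/UNP of project PX of helper752).

By helper73, an adaptation of `Dens3.lean` and `Univ3.lean`.
-/

set_option autoImplicit false

namespace Pool.Agent.N752.HY.Unp

open NumberField Finset Module MvPolynomial
open scoped LinearAlgebra.Projectivization
open Pool.Agent.Results.MP_44a246_nt.BoundedDegreeHyperplanes
  (height toC fieldOf n_pos toC_inj)
open Pool.Agent.N752.SU (Full Spans spanDim rep_height full_upper full_mono DensityZero diag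
  height_nonneg unique_rep)

variable {m : ℕ}

/-- the exceptional points over one field -/
lemma bad_fieldP (k : IntermediateField ℚ ℂ) (n : ℕ)
    (P : PropK k m) (hP : AAP k n P) (r : ℕ) (K : IntermediateField ℚ ℂ) (hK : NumberField K)
    (hKn : finrank ℚ K = n) :
    ∃ c C : ℝ, 0 < c ∧ 0 ≤ C ∧ ∀ T : ℝ, 0 ≤ T →
      (({x | x ∈ BadP k P ∧ x ∈ Full k m r T ∧ fieldOf k x = K}).ncard : ℝ) ≤
        C * Real.exp (((n : ℝ) * (m + 1) - c) * T) := by
  classical
  by_cases h : k ≤ K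
  swap
  · refine ⟨1, 0, one_pos, le_refl _, fun T _ => ?_⟩
    have : {x | x ∈ BadP k P ∧ x ∈ Full k m r T ∧ fieldOf k x = K} = ∅ := by
      ext x
      simp only [Set.mem_ofPred_eq, Set.mem_empty_iff_false, iff_false]
      rintro ⟨⟨K', hK', h', -, hf, -⟩, -, hf'⟩
      exact h (hf'.symm.trans hf ▸ h')
    rw [this, Set.ncard_empty, zero_mul, Nat.cast_zero]
  obtain ⟨c, C, hc, hC, hall⟩ := hP K hK h hKn
  rw [hKn] at hall
  refine ⟨c, C, hc, hC, fun T hT => ?_⟩
  obtain ⟨Z, hZ, hgood⟩ := hall T hT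
  refine le_trans ?_ hZ
  have hsub : {x | x ∈ BadP k P ∧ x ∈ Full k m r T ∧ fieldOf k x = K} ⊆
      ((Z.image toC : Finset _) : Set (ℙ ℂ (Fin (m + 1) → ℂ))) := by
    rintro x ⟨⟨K', hK', h', Q', hf, hQ', hbad⟩, ⟨-, K'', hK'', -, Q'', hf'', -, hQ'', hh''⟩, hf3⟩
    have e : K = K' := hf3.symm.trans hf
    subst e
    have : hK = hK' := Subsingleton.elim _ _
    subst this
    have e : K = K'' := hf3.symm.trans hf''
    subst e
    have : hK = hK'' := Subsingleton.elim _ _
    subst this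
    have e : Q'' = Q' := toC_inj (hQ''.trans hQ'.symm)
    subst e
    rw [Finset.coe_image]
    refine ⟨Q'', ?_, hQ''⟩
    rw [Finset.mem_coe]
    by_contra hc
    refine hbad (hgood Q'' ?_ hc)
    have hmh : 0 < Q''.mulHeight := by
      rw [← rep_height]; exact Height.mulHeight_pos _
    have h8 := height_rel hK Q'' T hh''
    rw [hKn, ← Real.log_le_iff_le_exp hmh] at h8
    exact h8
  have h8 := Set.ncard_le_ncard hsub (Finset.finite_toSet _)
  rw [Set.ncard_coe_finset] at h8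
  exact_mod_cast h8.trans Finset.card_image_le

/-- **The exceptional set of one property has density zero.** -/
theorem t_DNP : S_DNP := by
  classical
  intro k _ m r n hm hn hr hrm hcov P hP
  obtain ⟨hfin, hW⟩ := hcov
  obtain ⟨c₁, T₁, hc₁, hlow⟩ := low_full Low2.t_LOW k hm r n hn hr hrm hfin
  intro ε hε
  have hεc : 0 < ε / 2 * c₁ := by positivity
  obtain ⟨W, T₃, hW1, htail⟩ := hW (ε / 2 * c₁) hεc
  have hWm : ∀ K ∈ W, ∃ T₀ : ℝ, ∀ T : ℝ, T₀ ≤ T →
      (({x | x ∈ BadP k P ∧ x ∈ Full k m r T ∧ fieldOf k x = K}).ncard : ℝ) ≤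
        ε / 2 * c₁ / (W.card + 1) * Real.exp (n * (m + 1) * T) := by
    intro K hK
    obtain ⟨hK1, hK2⟩ := hW1 K hK
    obtain ⟨c, C, hc, hC, hall⟩ := bad_fieldP k n P hP r K hK1 hK2
    have h1 : Filter.Tendsto (fun T : ℝ => C * Real.exp (-(c * T))) Filter.atTop
        (nhds (C * 0)) := by
      refine Filter.Tendsto.const_mul C ?_
      refine Real.tendsto_exp_neg_atTop_nhds_zero.comp ?_
      exact Filter.tendsto_id.const_mul_atTop hc
    rw [mul_zero] at h1
    have h2 : 0 < ε / 2 * c₁ / (W.card + 1) := by positivity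
    obtain ⟨T₀, hT₀⟩ := Filter.eventually_atTop.1 (h1.eventually_lt_const h2)
    refine ⟨max T₀ 0, fun T hT => ?_⟩
    have hT0 : 0 ≤ T := (le_max_right _ _).trans hT
    have hT1 : T₀ ≤ T := (le_max_left _ _).trans hT
    refine (hall T hT0).trans ?_
    have h3 : C * Real.exp (((n : ℝ) * (m + 1) - c) * T) =
        (C * Real.exp (-(c * T))) * Real.exp (n * (m + 1) * T) := by
      rw [mul_assoc, ← Real.exp_add]
      congr 2
      ring
    rw [h3]
    exact mul_le_mul_of_nonneg_right (hT₀ T hT1).le (Real.exp_pos _).le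
  choose! Tf hTf using hWm
  obtain ⟨T₂, hT₂⟩ : ∃ T₂ : ℝ, ∀ K ∈ W, Tf K ≤ T₂ := by
    refine ⟨∑ K ∈ W, |Tf K|, fun K hK => (le_abs_self _).trans ?_⟩
    exact Finset.single_le_sum (f := fun K => |Tf K|) (fun _ _ => abs_nonneg _) hK
  refine ⟨max (max T₁ T₂) T₃, fun T hT => ?_⟩
  have hTT1 : T₁ ≤ T := (le_max_left _ _).trans ((le_max_left _ _).trans hT)
  have hTT2 : T₂ ≤ T := (le_max_right _ _).trans ((le_max_left _ _).trans hT)
  have hTT3 : T₃ ≤ T := (le_max_right _ _).trans hT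
  have hlowT := hlow T hTT1
  set E := Real.exp (n * (m + 1) * T) with hE
  have hE0 : 0 < E := Real.exp_pos _
  -- the covering
  have hsub : BadP k P ∩ Full k m r T ⊆
      {x | x ∈ Full k m r T ∧ fieldOf k x ∉ W} ∪
      ⋃ K ∈ W, {x | x ∈ BadP k P ∧ x ∈ Full k m r T ∧ fieldOf k x = K} := by
    rintro x ⟨hPB, hPF⟩
    by_cases hX' : fieldOf k x ∈ W
    · right
      rw [Set.mem_iUnion₂]
      exact ⟨fieldOf k x, hX', hPB, hPF, rfl⟩
    · exact Or.inl ⟨hPF, hX'⟩
  have hfinU : ({x | x ∈ Full k m r T ∧ fieldOf k x ∉ W} ∪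
      ⋃ K ∈ W, {x | x ∈ BadP k P ∧ x ∈ Full k m r T ∧
        fieldOf k x = K}).Finite := by
    refine ((hfin T).subset fun x hx => hx.1).union ?_
    exact Set.Finite.biUnion (Finset.finite_toSet _) fun K _ => (hfin T).subset fun x hx => hx.2.1
  have h1 := (Set.ncard_le_ncard hsub hfinU).trans (Set.ncard_union_le _ _)
  have h2 := Finset.set_ncard_biUnion_le W
    fun K => {x | x ∈ BadP k P ∧ x ∈ Full k m r T ∧ fieldOf k x = K}
  have h3 : ((BadP k P ∩ Full k m r T).ncard : ℝ) ≤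
      ε / 2 * c₁ * E + ∑ K ∈ W, ε / 2 * c₁ / (W.card + 1) * E := by
    refine (Nat.cast_le.2 h1).trans ?_
    push_cast
    refine add_le_add (htail T hTT3) ?_
    refine (Nat.cast_le.2 h2).trans ?_
    push_cast
    exact Finset.sum_le_sum fun K hK => hTf K hK T ((hT₂ K hK).trans hTT2)
  refine h3.trans ?_
  rw [Finset.sum_const, nsmul_eq_mul]
  have h4 : (W.card : ℝ) * (ε / 2 * c₁ / (W.card + 1) * E) ≤ ε / 2 * c₁ * E := by
    have h5 : (W.card : ℝ) * (ε / 2 * c₁ / (W.card + 1) * E) =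
        (W.card : ℝ) / (W.card + 1) * (ε / 2 * c₁ * E) := by
      field_simp
    rw [h5]
    refine mul_le_of_le_one_left (by positivity) ?_
    rw [div_le_one (by positivity)]
    linarith
  have h6 : ε * (c₁ * E) ≤ ε * ((Full k m r T).ncard : ℝ) := mul_le_mul_of_nonneg_left hlowT hε.le
  linarith

/-- **One exceptional set for countably many properties.** -/
theorem t_UNP : S_UNP := by
  classical
  intro k _ m r n hm hn hr hrm hcov ι _ _ P hP
  obtain ⟨f, hf⟩ := exists_surjective_nat ι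
  obtain ⟨E₀, hE₀, hall⟩ := diag (Full k m r) (full_mono k m r) hcov.1
    (fun i => BadP k (P (f i)))
    fun i => t_DNP k m r n hm hn hr hrm hcov (P (f i)) (hP (f i))
  refine ⟨E₀, hE₀, fun i => ?_⟩
  obtain ⟨j, rfl⟩ := hf i
  obtain ⟨T, hT⟩ := hall j
  refine ⟨T, fun K hK h Q hfo hQE hTQ => ?_⟩
  by_contra hbad
  refine hQE (hT (toC Q) ⟨K, hK, h, Q, hfo, rfl, hbad⟩ ?_)
  rintro ⟨-, K', hK', h', Q', hfo', -, hQ', hh'⟩
  have e2 : height Q = height Q' := unique_rep (P := toC Q) hfo hfo' rfl hQ'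
  rw [e2] at hTQ
  exact absurd hh' (not_le.2 hTQ)

end Pool.Agent.N752.HY.Unp
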